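import Pool.Agent.GLB.Defs

/-!
# GLB: internal definitions of the proof
-/

set_option autoImplicit false

open Metric Set Filter Topology MeasureTheory

noncomputable section

namespace Pool.Agent.GLB

/-! ### real valued versions -/

/-- a real valued, continuous, translation invariant valuation, homogeneous of degree one -/
structure RVal (n : ℕ) (μ : ConvexBody (E n) → ℝ) : Prop where
  cont : Continuous μ
  trans : ∀ (K : ConvexBody (E n)) (x : E n), μ (K + pt x) = μ K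
  homog : ∀ (K : ConvexBody (E n)) (t : ℝ), 0 ≤ t → μ (t • K) = t * μ K
  val : ∀ K L M N : ConvexBody (E n), (M : Set (E n)) = (K : Set (E n)) ∪ L →
    (N : Set (E n)) = (K : Set (E n)) ∩ L → μ M + μ N = μ K + μ L

/-- a real valued, continuous, translation invariant, Minkowski additive and positively
homogeneous functional -/
structure AddF (n : ℕ) (μ : ConvexBody (E n) → ℝ) : Prop where
  cont : Continuous μ
  trans : ∀ (K : ConvexBody (E n)) (x : E n), μ (K + pt x) = μ K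
  homog : ∀ (K : ConvexBody (E n)) (t : ℝ), 0 ≤ t → μ (t • K) = t * μ K
  add : ∀ K L : ConvexBody (E n), μ (K + L) = μ K + μ L

/-- real valued strongly `GL`-continuous elements of `Area_1` -/
structure Good (n : ℕ) (Ψ : ConvexBody (E n) → (C(S n, ℝ) →L[ℝ] ℝ)) : Prop where
  cont : ∀ φ : C(S n, ℝ), Continuous fun K => Ψ K φ
  loc : ∀ (K L : ConvexBody (E n)) (U : Set (S n)), IsOpen U →
    (∀ u ∈ U, supp K (u : E n) = supp L (u : E n)) →
    ∀ φ : C(S n, ℝ), (∀ u, u ∉ U → φ u = 0) → Ψ K φ = Ψ L φ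
  trans : ∀ (K : ConvexBody (E n)) (x : E n), Ψ (K + pt x) = Ψ K
  homog : ∀ (K : ConvexBody (E n)) (t : ℝ), 0 ≤ t → Ψ (t • K) = t • Ψ K
  gl : ∀ A₀ : (E n →L[ℝ] E n)ˣ, ∀ ε : ℝ, 0 < ε →
    ∀ᶠ A : (E n →L[ℝ] E n)ˣ in 𝓝 A₀, ∀ K : ConvexBody (E n),
    (K : Set (E n)) ⊆ closedBall 0 1 → ∀ φ : C(S n, ℝ), ‖φ‖ ≤ 1 →
    |Ψ (mapB (A : E n →L[ℝ] E n) K) (act A φ) -
      Ψ (mapB (A₀ : E n →L[ℝ] E n) K) (act A₀ φ)| ≤ ε

/-! ### simplices (McMullen's theorem) -/

/-- the combination `∑ i ≤ m < j, x m • w m` -/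
def cmb {n : ℕ} (w : ℕ → E n) (i j : ℕ) (x : ℕ → ℝ) : E n := ∑ m ∈ Finset.Ico i j, x m • w m

/-- decreasing sequences between two bounds -/
def seqs (lo hi : ℕ → ℝ) : Set (ℕ → ℝ) := {x | Antitone x ∧ ∀ m, lo m ≤ x m ∧ x m ≤ hi m}

lemma cmb_cont {n : ℕ} (w : ℕ → E n) (i j : ℕ) : Continuous (cmb w i j) := by
  unfold cmb
  fun_prop

lemma cmb_lin {n : ℕ} (w : ℕ → E n) (i j : ℕ) (x y : ℕ → ℝ) (a b : ℝ) :
    cmb w i j (a • x + b • y) = a • cmb w i j x + b • cmb w i j y := by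
  unfold cmb
  rw [Finset.smul_sum, Finset.smul_sum, ← Finset.sum_add_distrib]
  refine Finset.sum_congr rfl fun m _ => ?_
  simp [add_smul, smul_smul]

lemma seqs_convex (lo hi : ℕ → ℝ) : Convex ℝ (seqs lo hi) := by
  intro x hx y hy a b ha hb hab
  refine ⟨?_, fun m => ?_⟩
  · intro p q hpq
    have h1 := hx.1 hpq
    have h2 := hy.1 hpq
    simp only [Pi.add_apply, Pi.smul_apply, smul_eq_mul]
    nlinarith
  · have h1 := hx.2 m
    have h2 := hy.2 m
    have h3 : lo m = a * lo m + b * lo m := by rw [← add_mul, hab, one_mul]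
    have h4 : hi m = a * hi m + b * hi m := by rw [← add_mul, hab, one_mul]
    simp only [Pi.add_apply, Pi.smul_apply, smul_eq_mul]
    constructor
    · rw [h3]
      nlinarith [mul_le_mul_of_nonneg_left h1.1 ha, mul_le_mul_of_nonneg_left h2.1 hb]
    · rw [h4]
      nlinarith [mul_le_mul_of_nonneg_left h1.2 ha, mul_le_mul_of_nonneg_left h2.2 hb]

lemma seqs_compact (lo hi : ℕ → ℝ) : IsCompact (seqs lo hi) := by
  have h1 : IsCompact (Set.pi univ fun m => Icc (lo m) (hi m)) :=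
    isCompact_univ_pi fun m => isCompact_Icc
  refine h1.of_isClosed_subset ?_ ?_
  · have h2 : seqs lo hi = (⋂ (p : ℕ) (q : ℕ) (_ : p ≤ q), {x : ℕ → ℝ | x q ≤ x p}) ∩
        ⋂ m : ℕ, {x : ℕ → ℝ | lo m ≤ x m ∧ x m ≤ hi m} := by
      ext x
      simp only [seqs, mem_inter_iff, mem_iInter, Set.mem_ofPred_eq, Antitone]
    rw [h2]
    refine IsClosed.inter ?_ ?_
    · refine isClosed_iInter fun p => isClosed_iInter fun q => isClosed_iInter fun _ => ?_
      exact isClosed_le (continuous_apply q) (continuous_apply p)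
    · refine isClosed_iInter fun m => ?_
      exact (isClosed_le continuous_const (continuous_apply m)).inter
        (isClosed_le (continuous_apply m) continuous_const)
  · intro x hx m _
    exact hx.2 m

open Classical in
/-- the body `{∑ i ≤ m < j, x m • w m : x decreasing, lo ≤ x ≤ hi}` -/
def bd {n : ℕ} (w : ℕ → E n) (i j : ℕ) (lo hi : ℕ → ℝ) : ConvexBody (E n) :=
  if h : (seqs lo hi).Nonempty then
    ⟨cmb w i j '' seqs lo hi, by
      rintro _ ⟨x, hx, rfl⟩ _ ⟨y, hy, rfl⟩ a b ha hb hab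
      exact ⟨a • x + b • y, seqs_convex lo hi hx hy ha hb hab, cmb_lin w i j x y a b⟩,
      (seqs_compact lo hi).image (cmb_cont w i j), h.image _⟩
  else 0

lemma mem_bd {n : ℕ} (w : ℕ → E n) (i j : ℕ) (lo hi : ℕ → ℝ) (h : (seqs lo hi).Nonempty)
    (y : E n) : y ∈ bd w i j lo hi ↔ ∃ x ∈ seqs lo hi, cmb w i j x = y := by
  unfold bd
  rw [dif_pos h]
  exact Iff.rfl

/-- step function -/
def stp (k : ℕ) (a b : ℝ) (m : ℕ) : ℝ := if m < k then a else b

/-- the simplex `conv {0, w i, w i + w (i+1), …}` -/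
def TT {n : ℕ} (w : ℕ → E n) (i j : ℕ) : ConvexBody (E n) :=
  bd w i j (fun _ => 0) (fun _ => 1)

/-! ### mollification -/

/-- the second derivative of `b` at `x` in the directions `v`, `w` -/
def D2 {n : ℕ} (b : E n → ℝ) (x v w : E n) : ℝ := fderiv ℝ (fderiv ℝ b) x v w

/-- the pairing of `h` with a second derivative of `b` -/
def Dh {n : ℕ} (h b : E n → ℝ) (v w : E n) : ℝ := ∫ x, h x * D2 b x v w

/-- the standard basis -/
def eb {n : ℕ} (i : Fin n) : E n := EuclideanSpace.single i 1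

/-- a radial mollifier `η` together with a function `θ` with `∇ θ (y) = - η (y) y` -/
structure Moll (n : ℕ) (δ : ℝ) where
  η : E n → ℝ
  θ : E n → ℝ
  hδ : 0 < δ
  hδ2 : δ < 1 / 2
  η_C2 : ContDiff ℝ 2 η
  θ_C2 : ContDiff ℝ 2 θ
  η_nn : ∀ y, 0 ≤ η y
  θ_nn : ∀ y, 0 ≤ θ y
  η_zero : ∀ y, δ ≤ ‖y‖ → η y = 0
  θ_zero : ∀ y, δ ≤ ‖y‖ → θ y = 0
  η_int : ∫ y, η y = 1
  η_rad : ∀ y z, ‖y‖ = ‖z‖ → η y = η z
  lap : ∀ y, ∑ i, D2 θ y (eb i) (eb i) = -(n * η y + fderiv ℝ η y y)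

/-- the mollified second derivative of `h`, weighted by `f`, at the unit vector `u` in the
direction `v` orthogonal to `u` -/
def F {n : ℕ} {δ : ℝ} (m : Moll n δ) (h f : E n → ℝ) (u v : E n) : ℝ :=
  Dh h (fun x => f x * m.η (x - u)) v v +
    ∑ i, Dh h (fun x => f x * m.θ (x - u)) (eb i) (eb i)

/-- the mollification of a function which is homogeneous of degree one -/
def rho {n : ℕ} {δ : ℝ} (m : Moll n δ) (h : E n → ℝ) (u : E n) : ℝ :=
  ∫ y, h (u + ‖u‖ • y) * m.η y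

/-- positively homogeneous of degree one -/
def Hom1 {n : ℕ} (d : E n → ℝ) : Prop := ∀ t : ℝ, 0 ≤ t → ∀ x, d (t • x) = t * d x

/-- orthonormal pairs -/
def St (n : ℕ) : Set (E n × E n) := {p | ‖p.1‖ = 1 ∧ ‖p.2‖ = 1 ∧ inner ℝ p.1 p.2 = 0}

open Classical in
/-- `F` as a continuous function on the set of orthonormal pairs -/
def FC {n : ℕ} {δ : ℝ} (m : Moll n δ) (h f : E n → ℝ) : C(St n, ℝ) :=
  if hc : Continuous fun p : St n => F m h f p.1.1 p.1.2 then
    ⟨fun p : St n => F m h f p.1.1 p.1.2, hc⟩ else 0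

/-- `f` extends `φ`, homogeneous of degree zero, in the shell `1/2 < |x| < 2` -/
def Rep {n : ℕ} (f : E n → ℝ) (φ : C(S n, ℝ)) : Prop :=
  ∀ (u : S n) (r : ℝ), 1 / 2 < r → r < 2 → f (r • (u : E n)) = φ u

open Classical in
/-- the mollified body -/
def mol {n : ℕ} {δ : ℝ} (m : Moll n δ) (K : ConvexBody (E n)) : ConvexBody (E n) :=
  if h : ∃ K' : ConvexBody (E n), ∀ u, supp K' u = rho m (supp K) u then h.choose else K

/-- the formula which defines `Ψ`: `Ψ (K; φ) = g (F_{h_K, f})` for every `C^2` function `f` which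
represents `φ` -/
def PsiF {n : ℕ} {δ : ℝ} (m : Moll n δ) (g : C(St n, ℝ) →ₗ[ℝ] ℝ)
    (Ψ : ConvexBody (E n) → (C(S n, ℝ) →L[ℝ] ℝ)) : Prop :=
  ∀ (K : ConvexBody (E n)) (f : E n → ℝ) (φ : C(S n, ℝ)), ContDiff ℝ 2 f → Rep f φ →
    Ψ K φ = g (FC m (supp K) f)

/-- the bound for `Ψ` -/
def PsiB {n : ℕ} {δ : ℝ} (m : Moll n δ) (g : C(St n, ℝ) →ₗ[ℝ] ℝ)
    (Ψ : ConvexBody (E n) → (C(S n, ℝ) →L[ℝ] ℝ)) : Prop :=
  ∀ (K : ConvexBody (E n)) (φ : C(S n, ℝ)), |Ψ K φ| ≤ g (FC m (supp K) fun _ => 1) * ‖φ‖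

end Pool.Agent.GLB
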