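import Mathlib

/-!
# The globalization map for area measures: the objects of the question

`E n` is `ℝ^n`, `ConvexBody (E n)` (Mathlib) is the space of convex bodies with the Hausdorff
metric, the finite complex Borel measures on the sphere are the continuous linear functionals on
`C(S, ℂ)` (Riesz), and `GL(n, ℝ)` is the group of invertible continuous linear maps.
-/

set_option autoImplicit false

open Metric Set Filter Topology

noncomputable section

namespace Pool.Agent.GLB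

/-- `ℝ^n` -/
abbrev E (n : ℕ) : Type := EuclideanSpace ℝ (Fin n)

/-- the unit sphere of `ℝ^n` -/
abbrev S (n : ℕ) : Type := sphere (0 : E n) 1

/-- the convex body `{x}` -/
def pt {n : ℕ} (x : E n) : ConvexBody (E n) :=
  ⟨{x}, convex_singleton x, isCompact_singleton, singleton_nonempty x⟩

/-- the support function `h_K (u) = sup {⟨x, u⟩ : x ∈ K}` -/
def supp {n : ℕ} (K : ConvexBody (E n)) (u : E n) : ℝ :=
  sSup ((fun x => inner ℝ x u) '' (K : Set (E n)))

/-- the image of a convex body under a linear map -/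
def mapB {n : ℕ} (A : E n →L[ℝ] E n) (K : ConvexBody (E n)) : ConvexBody (E n) :=
  ⟨A '' (K : Set (E n)), K.convex.linear_image A.toLinearMap, K.isCompact.image A.continuous,
    K.nonempty.image A⟩

/-- the transpose of an invertible map does not vanish on the sphere -/
lemma adj_ne {n : ℕ} (g : (E n →L[ℝ] E n)ˣ) (v : S n) :
    ContinuousLinearMap.adjoint (g : E n →L[ℝ] E n) (v : E n) ≠ 0 := by
  intro h
  have hv : (v : E n) ≠ 0 := by
    intro h0
    have h1 := v.2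
    rw [h0, mem_sphere_iff_norm, sub_zero, norm_zero] at h1
    exact zero_ne_one h1
  apply hv
  have h2 : ContinuousLinearMap.adjoint ((g⁻¹ : (E n →L[ℝ] E n)ˣ) : E n →L[ℝ] E n)
      (ContinuousLinearMap.adjoint (g : E n →L[ℝ] E n) (v : E n)) = v := by
    rw [← ContinuousLinearMap.comp_apply, ← ContinuousLinearMap.adjoint_comp]
    have h3 : (g : E n →L[ℝ] E n) ∘L ((g⁻¹ : (E n →L[ℝ] E n)ˣ) : E n →L[ℝ] E n) =
        ContinuousLinearMap.id ℝ (E n) := g.mul_inv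
    rw [h3]
    simp
  rw [← h2, h, map_zero]

/-- `v ↦ g^T v / |g^T v|`, a continuous map of the sphere to itself -/
def dirn {n : ℕ} (g : (E n →L[ℝ] E n)ˣ) : C(S n, S n) where
  toFun v := ⟨‖ContinuousLinearMap.adjoint (g : E n →L[ℝ] E n) (v : E n)‖⁻¹ •
    ContinuousLinearMap.adjoint (g : E n →L[ℝ] E n) (v : E n), by
      rw [mem_sphere_iff_norm, sub_zero, norm_smul, norm_inv, norm_norm]
      exact inv_mul_cancel₀ (norm_ne_zero_iff.2 (adj_ne g v))⟩
  continuous_toFun := by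
    have h1 : Continuous fun v : S n =>
        ContinuousLinearMap.adjoint (g : E n →L[ℝ] E n) (v : E n) := by fun_prop
    have h2 : Continuous fun v : S n =>
        ‖ContinuousLinearMap.adjoint (g : E n →L[ℝ] E n) (v : E n)‖⁻¹ :=
      h1.norm.inv₀ fun v => norm_ne_zero_iff.2 (adj_ne g v)
    exact Continuous.subtype_mk (h2.smul h1) _

/-- the action `[g·φ](v) = |g^T v| φ(g^T v / |g^T v|)` of `GL(n, ℝ)` on the continuous
functions on the sphere -/
def act {n : ℕ} {X : Type} [NormedAddCommGroup X] [NormedSpace ℝ X] (g : (E n →L[ℝ] E n)ˣ)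
    (φ : C(S n, X)) : C(S n, X) where
  toFun v := ‖ContinuousLinearMap.adjoint (g : E n →L[ℝ] E n) (v : E n)‖ • φ (dirn g v)
  continuous_toFun := by
    have h1 : Continuous fun v : S n =>
        ContinuousLinearMap.adjoint (g : E n →L[ℝ] E n) (v : E n) := by fun_prop
    exact h1.norm.smul (φ.continuous.comp (dirn g).continuous)

/-- `Ψ` belongs to `Area_k(ℝ^n)`. -/
structure IsArea (n k : ℕ) (Ψ : ConvexBody (E n) → (C(S n, ℂ) →L[ℂ] ℂ)) : Prop where
  /-- `Ψ` is continuous for the weak* topology -/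
  cont : ∀ φ : C(S n, ℂ), Continuous fun K => Ψ K φ
  /-- `Ψ` is locally determined: if `h_K = h_L` on the open set `U` then `Ψ(K)|_U = Ψ(L)|_U` -/
  loc : ∀ (K L : ConvexBody (E n)) (U : Set (S n)), IsOpen U →
    (∀ u ∈ U, supp K (u : E n) = supp L (u : E n)) →
    ∀ φ : C(S n, ℂ), (∀ u, u ∉ U → φ u = 0) → Ψ K φ = Ψ L φ
  /-- `Ψ` is translation invariant -/
  trans : ∀ (K : ConvexBody (E n)) (x : E n), Ψ (K + pt x) = Ψ K
  /-- `Ψ` is homogeneous of degree `k` -/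
  homog : ∀ (K : ConvexBody (E n)) (t : ℝ), 0 ≤ t → Ψ (t • K) = ((t : ℂ) ^ k) • Ψ K

/-- `μ` is a continuous, translation invariant valuation, homogeneous of degree `k`:
`μ ∈ Val_k(ℝ^n, ℂ)`. -/
structure IsVal (n k : ℕ) (μ : ConvexBody (E n) → ℂ) : Prop where
  cont : Continuous μ
  trans : ∀ (K : ConvexBody (E n)) (x : E n), μ (K + pt x) = μ K
  homog : ∀ (K : ConvexBody (E n)) (t : ℝ), 0 ≤ t → μ (t • K) = (t : ℂ) ^ k * μ K
  /-- if `K ∪ L` is convex then `μ (K ∪ L) + μ (K ∩ L) = μ K + μ L` -/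
  val : ∀ K L M N : ConvexBody (E n), (M : Set (E n)) = (K : Set (E n)) ∪ L →
    (N : Set (E n)) = (K : Set (E n)) ∩ L → μ M + μ N = μ K + μ L

/-- `g ↦ π(g)Ψ` is continuous for the norm `‖Ψ‖ = sup {|Ψ(K; ψ)| : K ⊆ B_1(0), ‖ψ‖ ≤ 1}`, where
`[π(g)Ψ](K; φ) = Ψ(g⁻¹K; g⁻¹·φ)`. -/
def StrongGL {n : ℕ} (Ψ : ConvexBody (E n) → (C(S n, ℂ) →L[ℂ] ℂ)) : Prop :=
  ∀ g₀ : (E n →L[ℝ] E n)ˣ, ∀ ε : ℝ, 0 < ε → ∀ᶠ g in 𝓝 g₀, ∀ K : ConvexBody (E n),
    (K : Set (E n)) ⊆ closedBall 0 1 → ∀ φ : C(S n, ℂ), ‖φ‖ ≤ 1 →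
    ‖Ψ (mapB ((g⁻¹ : (E n →L[ℝ] E n)ˣ) : E n →L[ℝ] E n) K) (act g⁻¹ φ) -
      Ψ (mapB ((g₀⁻¹ : (E n →L[ℝ] E n)ˣ) : E n →L[ℝ] E n) K) (act g₀⁻¹ φ)‖ ≤ ε

end Pool.Agent.GLB
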