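import Pool.Agent.GLB.TF

/-!
# GLB: the action of the general linear group
-/

set_option autoImplicit false

open Metric Set Filter Topology MeasureTheory

open scoped Pointwise

noncomputable section

namespace Pool.Agent.GLB

namespace ACT_

lemma act_apply {n : ℕ} {X : Type} [NormedAddCommGroup X] [NormedSpace ℝ X]
    (g : (E n →L[ℝ] E n)ˣ) (φ : C(S n, X)) (v : S n) :
    act g φ v = ‖ContinuousLinearMap.adjoint (g : E n →L[ℝ] E n) (v : E n)‖ • φ (dirn g v) := rfl

lemma dirn_coe {n : ℕ} (g : (E n →L[ℝ] E n)ˣ) (v : S n) :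
    (dirn g v : E n) = ‖ContinuousLinearMap.adjoint (g : E n →L[ℝ] E n) (v : E n)‖⁻¹ •
      ContinuousLinearMap.adjoint (g : E n →L[ℝ] E n) (v : E n) := rfl

lemma adj_mul {n : ℕ} (A B : (E n →L[ℝ] E n)ˣ) (x : E n) :
    ContinuousLinearMap.adjoint ((A * B : (E n →L[ℝ] E n)ˣ) : E n →L[ℝ] E n) x =
      ContinuousLinearMap.adjoint (B : E n →L[ℝ] E n)
        (ContinuousLinearMap.adjoint (A : E n →L[ℝ] E n) x) := by
  have h1 : ((A * B : (E n →L[ℝ] E n)ˣ) : E n →L[ℝ] E n) =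
      (A : E n →L[ℝ] E n) ∘L (B : E n →L[ℝ] E n) := Units.val_mul A B
  rw [h1, ContinuousLinearMap.adjoint_comp]
  rfl

lemma norm_dirn {n : ℕ} (A B : (E n →L[ℝ] E n)ˣ) (v : S n) :
    ‖ContinuousLinearMap.adjoint (B : E n →L[ℝ] E n) (dirn A v : E n)‖ =
      ‖ContinuousLinearMap.adjoint (A : E n →L[ℝ] E n) (v : E n)‖⁻¹ *
      ‖ContinuousLinearMap.adjoint ((A * B : (E n →L[ℝ] E n)ˣ) : E n →L[ℝ] E n) (v : E n)‖ := by
  rw [dirn_coe, map_smul, norm_smul, adj_mul, norm_inv, norm_norm]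

lemma dirn_mul {n : ℕ} (A B : (E n →L[ℝ] E n)ˣ) (v : S n) :
    dirn (A * B) v = dirn B (dirn A v) := by
  have hA : ‖ContinuousLinearMap.adjoint (A : E n →L[ℝ] E n) (v : E n)‖ ≠ 0 :=
    norm_ne_zero_iff.2 (adj_ne A v)
  apply Subtype.ext
  rw [dirn_coe, dirn_coe, norm_dirn]
  conv_rhs => rw [dirn_coe, map_smul, smul_smul]
  rw [adj_mul, mul_inv, inv_inv]
  congr 1
  field_simp

end ACT_

open ACT_

theorem p_ACT : T_ACT := by
  intro n
  refine ⟨?_, ?_, ?_, ?_, ?_⟩
  · intro A B φ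
    have hA : ∀ v : S n, ‖ContinuousLinearMap.adjoint (A : E n →L[ℝ] E n) (v : E n)‖ ≠ 0 :=
      fun v => norm_ne_zero_iff.2 (adj_ne A v)
    ext v
    rw [act_apply, act_apply, act_apply, norm_dirn, dirn_mul, smul_eq_mul, smul_eq_mul,
      smul_eq_mul]
    have := hA v
    field_simp
  · intro A B K
    apply ConvexBody.ext
    change (((A * B : (E n →L[ℝ] E n)ˣ) : E n →L[ℝ] E n) '' (K : Set (E n))) =
      (A : E n →L[ℝ] E n) '' ((B : E n →L[ℝ] E n) '' (K : Set (E n)))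
    rw [Set.image_image]
    rfl
  · intro A φ ψ t
    constructor
    · ext v
      rw [ContinuousMap.add_apply, act_apply, act_apply, act_apply, ContinuousMap.add_apply,
        smul_add]
    · ext v
      rw [ContinuousMap.smul_apply, act_apply, act_apply, ContinuousMap.smul_apply, smul_comm]
  · intro A φ
    rw [ContinuousMap.norm_le _ (by positivity)]
    intro v
    rw [act_apply, norm_smul, norm_norm]
    have h1 : ‖ContinuousLinearMap.adjoint (A : E n →L[ℝ] E n) (v : E n)‖ ≤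
        ‖(A : E n →L[ℝ] E n)‖ := by
      have h2 := (ContinuousLinearMap.adjoint (A : E n →L[ℝ] E n)).le_opNorm (v : E n)
      have h3 : ‖(v : E n)‖ = 1 := by
        have := v.2
        rwa [mem_sphere_iff_norm, sub_zero] at this
      rwa [h3, mul_one, LinearIsometryEquiv.norm_map] at h2
    exact mul_le_mul h1 (ContinuousMap.norm_coe_le_norm φ _) (norm_nonneg _) (norm_nonneg _)
  · intro A K R hR
    change (A : E n →L[ℝ] E n) '' (K : Set (E n)) ⊆ _
    rintro _ ⟨x, hx, rfl⟩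
    have h1 := hR hx
    rw [mem_closedBall, dist_zero_right] at h1 ⊢
    exact ((A : E n →L[ℝ] E n).le_opNorm x).trans
      (mul_le_mul_of_nonneg_left h1 (norm_nonneg _))

end Pool.Agent.GLB
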