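import Pool.Agent.GLB.TF

set_option autoImplicit false

open Metric Set Filter Topology MeasureTheory

noncomputable section

namespace Pool.Agent.GLB

namespace APX_

lemma good_sub {n : ℕ} {Ψ₁ Ψ₂ : ConvexBody (E n) → (C(S n, ℝ) →L[ℝ] ℝ)} (h₁ : Good n Ψ₁)
    (h₂ : Good n Ψ₂) : Good n fun K => Ψ₁ K - Ψ₂ K where
  cont φ := (h₁.cont φ).sub (h₂.cont φ)
  loc K L U hU hKL φ hφ := by
    show Ψ₁ K φ - Ψ₂ K φ = Ψ₁ L φ - Ψ₂ L φ
    rw [h₁.loc K L U hU hKL φ hφ, h₂.loc K L U hU hKL φ hφ]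
  trans K x := by
    show Ψ₁ (K + pt x) - Ψ₂ (K + pt x) = Ψ₁ K - Ψ₂ K
    rw [h₁.trans, h₂.trans]
  homog K t ht := by
    show Ψ₁ (t • K) - Ψ₂ (t • K) = t • (Ψ₁ K - Ψ₂ K)
    rw [h₁.homog K t ht, h₂.homog K t ht, smul_sub]
  gl A₀ ε hε := by
    filter_upwards [h₁.gl A₀ (ε / 2) (by positivity), h₂.gl A₀ (ε / 2) (by positivity)]
      with A k₁ k₂ K hK φ hφ
    have l₁ := k₁ K hK φ hφ
    have l₂ := k₂ K hK φ hφ
    have e : (Ψ₁ (mapB (A : E n →L[ℝ] E n) K) - Ψ₂ (mapB (A : E n →L[ℝ] E n) K)) (act A φ) -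
        (Ψ₁ (mapB (A₀ : E n →L[ℝ] E n) K) - Ψ₂ (mapB (A₀ : E n →L[ℝ] E n) K)) (act A₀ φ) =
        (Ψ₁ (mapB (A : E n →L[ℝ] E n) K) (act A φ) -
          Ψ₁ (mapB (A₀ : E n →L[ℝ] E n) K) (act A₀ φ)) -
        (Ψ₂ (mapB (A : E n →L[ℝ] E n) K) (act A φ) -
          Ψ₂ (mapB (A₀ : E n →L[ℝ] E n) K) (act A₀ φ)) := by
      simp only [ContinuousLinearMap.sub_apply]
      ring
    rw [e]
    have l₃ := abs_sub (Ψ₁ (mapB (A : E n →L[ℝ] E n) K) (act A φ) -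
          Ψ₁ (mapB (A₀ : E n →L[ℝ] E n) K) (act A₀ φ))
        (Ψ₂ (mapB (A : E n →L[ℝ] E n) K) (act A φ) -
          Ψ₂ (mapB (A₀ : E n →L[ℝ] E n) K) (act A₀ φ))
    linarith

lemma addF_lin {n : ℕ} {μ W : ConvexBody (E n) → ℝ} (hμ : AddF n μ) (hW : AddF n W)
    (a M : ℝ) : AddF n fun K => a * μ K + M * W K where
  cont := (continuous_const.mul hμ.cont).add (continuous_const.mul hW.cont)
  trans K x := by
    show a * μ (K + pt x) + M * W (K + pt x) = a * μ K + M * W K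
    rw [hμ.trans, hW.trans]
  homog K t ht := by
    show a * μ (t • K) + M * W (t • K) = t * (a * μ K + M * W K)
    rw [hμ.homog K t ht, hW.homog K t ht]
    ring
  add K L := by
    show a * μ (K + L) + M * W (K + L) = (a * μ K + M * W K) + (a * μ L + M * W L)
    rw [hμ.add, hW.add]
    ring

lemma half_sub {n : ℕ} {L : ConvexBody (E n)} (hL : (L : Set (E n)) ⊆ closedBall 0 2) :
    (((1 / 2 : ℝ) • L : ConvexBody (E n)) : Set (E n)) ⊆ closedBall 0 1 := by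
  rintro _ ⟨x, hx, rfl⟩
  have h := hL hx
  rw [mem_closedBall, dist_zero_right] at h ⊢
  simp only [norm_smul]
  rw [Real.norm_of_nonneg (by norm_num)]
  linarith

lemma two_half {n : ℕ} (L : ConvexBody (E n)) : (2 : ℝ) • ((1 / 2 : ℝ) • L) = L := by
  rw [smul_smul]
  norm_num

end APX_

open APX_ in
theorem p_APX (hPSX : T_PSX) (hMOL : T_MOL) (hMLP : T_MLP) (hWID : T_WID) (hUCO : T_UCO) :
    T_APX := by
  intro n hn
  obtain ⟨W, hW, hWnn, hWB, hWd⟩ := hWID n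
  refine ⟨2 + 8 * n, by positivity, ?_⟩
  intro μ M hμ hM ε hε
  have hM0 : 0 ≤ M := by
    have h := hM 0 (by
      intro x hx
      have hx0 : x = 0 := hx
      rw [hx0]
      exact mem_closedBall_self zero_le_one)
    exact (abs_nonneg _).trans h
  obtain ⟨η, hη, hηu⟩ := hUCO n μ hμ.cont 2 ε hε
  set δ := min η (1 / 4) with hδ
  have hδ0 : 0 < δ := lt_min hη (by norm_num)
  have hδ4 : δ ≤ 1 / 4 := min_le_right _ _
  obtain ⟨m⟩ := hMOL n δ hδ0 (by linarith)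
  obtain ⟨hadd, hsm, htr, hbd⟩ := hMLP n δ m hn
  have hμ₁ : AddF n fun K => 1 * μ K + M * W K := addF_lin hμ hW 1 M
  have hμ₂ : AddF n fun K => 0 * μ K + M * W K := addF_lin hμ hW 0 M
  obtain ⟨Ψ₁, g₁, b₁, e₁⟩ := hPSX n δ m hn _ hμ₁ (fun K => by
    have h := hWd μ M hμ hM K
    have h2 := neg_abs_le (μ K)
    linarith)
  obtain ⟨Ψ₂, g₂, b₂, e₂⟩ := hPSX n δ m hn _ hμ₂ (fun K => by
    have h := mul_nonneg hM0 (hWnn K)
    linarith)
  have hg := good_sub g₁ g₂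
  have hval : ∀ K, (Ψ₁ K - Ψ₂ K) 1 = μ (mol m K) := by
    intro K
    rw [ContinuousLinearMap.sub_apply, e₁, e₂]
    ring
  have hmolB : ∀ K : ConvexBody (E n), (K : Set (E n)) ⊆ closedBall 0 1 →
      (mol m K : Set (E n)) ⊆ closedBall 0 2 := by
    intro K hK
    refine (hbd K 1 hK).2.trans (closedBall_subset_closedBall ?_)
    linarith
  refine ⟨fun K => Ψ₁ K - Ψ₂ K, hg, ?_, ?_, ?_⟩
  · intro K hK φ
    have h1 := b₁ K φ
    have h2 := b₂ K φ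
    have h3 := abs_sub (Ψ₁ K φ) (Ψ₂ K φ)
    have hB := half_sub (hmolB K hK)
    have h4 : |μ (mol m K)| ≤ 2 * M := by
      rw [← two_half (mol m K), hμ.homog _ 2 (by norm_num), abs_mul, abs_of_pos (by norm_num)]
      have := hM _ hB
      linarith
    have h5 : W (mol m K) ≤ 4 * n := by
      rw [← two_half (mol m K), hW.homog _ 2 (by norm_num)]
      have := hWB _ hB
      linarith
    have h6 := le_abs_self (μ (mol m K))
    have h7 : M * W (mol m K) ≤ M * (4 * n) := mul_le_mul_of_nonneg_left h5 hM0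
    have h8 : ((1 * μ (mol m K) + M * W (mol m K)) + (0 * μ (mol m K) + M * W (mol m K))) *
        ‖φ‖ ≤ (2 + 8 * n) * M * ‖φ‖ := by
      apply mul_le_mul_of_nonneg_right _ (norm_nonneg _)
      nlinarith
    calc |(Ψ₁ K - Ψ₂ K) φ| = |Ψ₁ K φ - Ψ₂ K φ| := by rw [ContinuousLinearMap.sub_apply]
      _ ≤ |Ψ₁ K φ| + |Ψ₂ K φ| := h3
      _ ≤ _ := by
        refine le_trans ?_ h8
        rw [add_mul]
        exact add_le_add h1 h2
  · refine ⟨hg.cont 1, ?_, ?_, ?_⟩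
    · intro K x
      show (Ψ₁ (K + pt x) - Ψ₂ (K + pt x)) 1 = (Ψ₁ K - Ψ₂ K) 1
      rw [g₁.trans, g₂.trans]
    · intro K t ht
      show (Ψ₁ (t • K) - Ψ₂ (t • K)) 1 = t * (Ψ₁ K - Ψ₂ K) 1
      rw [hval, hval, hsm K t ht, hμ.homog _ t ht]
    · intro K L
      show (Ψ₁ (K + L) - Ψ₂ (K + L)) 1 = (Ψ₁ K - Ψ₂ K) 1 + (Ψ₁ L - Ψ₂ L) 1
      rw [hval, hval, hval, hadd, hμ.add]
  · intro K hK
    show |μ K - (Ψ₁ K - Ψ₂ K) 1| ≤ ε
    rw [hval]
    refine hηu K (mol m K) (hK.trans (closedBall_subset_closedBall (by norm_num)))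
      (hmolB K hK) ?_
    rw [dist_comm]
    refine (hbd K 1 hK).1.trans ?_
    rw [one_mul]
    exact min_le_left _ _

end Pool.Agent.GLB
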