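import Pool.Agent.GLB.TA

/-!
# Blaschke's selection theorem
-/

set_option autoImplicit false

open Metric Set Filter Topology TopologicalSpace

noncomputable section

namespace Pool.Agent.GLB

namespace BLA_

variable {n : ℕ}

/-- a convex body as a nonempty compact set -/
def toNC (K : ConvexBody (E n)) : NonemptyCompacts (E n) :=
  ⟨⟨(K : Set (E n)), K.isCompact⟩, K.nonempty⟩

lemma coe_toNC (K : ConvexBody (E n)) : (toNC K : Set (E n)) = K := rfl

lemma isometry_toNC : Isometry (toNC (n := n)) :=
  fun K L => ConvexBody.hausdorffEDist_coe K L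

/-- the nonempty compact sets closed under one convex combination form a closed set -/
lemma isClosed_comb (a b : ℝ) : IsClosed {L : NonemptyCompacts (E n) |
    ∀ x ∈ (L : Set (E n)), ∀ y ∈ (L : Set (E n)), a • x + b • y ∈ (L : Set (E n))} := by
  have hf : Continuous fun p : E n × E n => a • p.1 + b • p.2 := by fun_prop
  let F : NonemptyCompacts (E n) → NonemptyCompacts (E n) := fun L =>
    (L ×ˢ L).map (fun p : E n × E n => a • p.1 + b • p.2) hf
  have hF : Continuous F :=
    hf.nonemptyCompacts_map.comp (NonemptyCompacts.continuous_prod.comp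
      (continuous_id.prodMk continuous_id))
  have h1 : IsClosed {L : NonemptyCompacts (E n) | F L ⊔ L = L} :=
    isClosed_eq (hF.sup continuous_id) continuous_id
  convert h1 using 1
  ext L
  simp only [mem_ofPred_eq]
  constructor
  · intro h
    apply NonemptyCompacts.ext
    rw [NonemptyCompacts.coe_sup]
    apply union_eq_self_of_subset_left
    rintro _ ⟨⟨x, y⟩, ⟨hx, hy⟩, rfl⟩
    exact h x hx y hy
  · intro h x hx y hy
    have h2 : a • x + b • y ∈ ((F L ⊔ L : NonemptyCompacts (E n)) : Set (E n)) := by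
      rw [NonemptyCompacts.coe_sup]
      exact Or.inl ⟨(x, y), ⟨hx, hy⟩, rfl⟩
    rw [h] at h2
    exact h2

lemma range_toNC : range (toNC (n := n)) = {L : NonemptyCompacts (E n) | ∀ a b : ℝ, 0 ≤ a →
    0 ≤ b → a + b = 1 → ∀ x ∈ (L : Set (E n)), ∀ y ∈ (L : Set (E n)),
      a • x + b • y ∈ (L : Set (E n))} := by
  ext L
  simp only [mem_range, mem_ofPred_eq]
  constructor
  · rintro ⟨K, rfl⟩ a b ha hb hab x hx y hy
    exact K.convex hx hy ha hb hab
  · intro h
    refine ⟨⟨(L : Set (E n)), ?_, L.isCompact, L.nonempty⟩, NonemptyCompacts.ext rfl⟩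
    intro x hx y hy a b ha hb hab
    exact h a b ha hb hab x hx y hy

lemma isClosed_range_toNC : IsClosed (range (toNC (n := n))) := by
  have h : range (toNC (n := n)) = ⋂ (a : ℝ) (b : ℝ) (_ : 0 ≤ a) (_ : 0 ≤ b) (_ : a + b = 1),
      {L : NonemptyCompacts (E n) |
        ∀ x ∈ (L : Set (E n)), ∀ y ∈ (L : Set (E n)), a • x + b • y ∈ (L : Set (E n))} := by
    rw [range_toNC]
    ext L
    simp only [mem_iInter]
    rfl
  rw [h]
  exact isClosed_iInter fun a => isClosed_iInter fun b => isClosed_iInter fun _ =>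
    isClosed_iInter fun _ => isClosed_iInter fun _ => isClosed_comb a b

lemma isCompact_sub (C : Set (E n)) (hC : IsCompact C) :
    IsCompact {L : NonemptyCompacts (E n) | (L : Set (E n)) ⊆ C} :=
  NonemptyCompacts.isClosedEmbedding_toCompacts.isCompact_preimage
    (Compacts.isCompact_subsets_of_isCompact hC)

end BLA_

open BLA_ in
/-- Blaschke's selection theorem. -/
theorem p_BLA : T_BLA := by
  intro n R
  have h1 : IsClosedEmbedding (toNC (n := n)) :=
    ⟨isometry_toNC.isEmbedding, isClosed_range_toNC⟩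
  exact h1.isCompact_preimage (isCompact_sub _ (isCompact_closedBall (0 : E n) R))

end Pool.Agent.GLB
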