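import Pool.Agent.GLB.TF

/-!
# GLB: change of variables
-/

set_option autoImplicit false

open Metric Set Filter Topology MeasureTheory

noncomputable section

namespace Pool.Agent.GLB

lemma CHV_inv {n : ℕ} (M : (E n →L[ℝ] E n)ˣ) (x : E n) :
    ((M⁻¹ : (E n →L[ℝ] E n)ˣ) : E n →L[ℝ] E n) ((M : E n →L[ℝ] E n) x) = x := by
  have h : ((M⁻¹ : (E n →L[ℝ] E n)ˣ) : E n →L[ℝ] E n) * (M : E n →L[ℝ] E n) = 1 := M.inv_mul
  have h2 := congrArg (fun T : E n →L[ℝ] E n => T x) h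
  exact h2

lemma CHV_d1 {n : ℕ} (L : E n →L[ℝ] E n) (b' : E n → ℝ) (hb : Differentiable ℝ b') :
    fderiv ℝ (fun x => b' (L x)) = fun x => (fderiv ℝ b' (L x)).comp L := by
  funext x
  have h := ((hb (L x)).hasFDerivAt).comp x (L.hasFDerivAt (x := x))
  exact h.fderiv

lemma CHV_d2 {n : ℕ} (L : E n →L[ℝ] E n) (b' : E n → ℝ) (hb : ContDiff ℝ 2 b') (x v w : E n) :
    D2 (fun x => b' (L x)) x v w = D2 b' (L x) (L v) (L w) := by
  unfold D2
  rw [CHV_d1 L b' (hb.differentiable (by norm_num))]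
  have h1 : Differentiable ℝ (fderiv ℝ b') :=
    (hb.fderiv_right (m := 1) (by norm_num)).differentiable (by norm_num)
  have h2 := ((h1 (L x)).hasFDerivAt).comp x (L.hasFDerivAt (x := x))
  set R : (E n →L[ℝ] ℝ) →L[ℝ] (E n →L[ℝ] ℝ) := (ContinuousLinearMap.compL ℝ (E n) (E n) ℝ).flip L
    with hR
  have h3 := (R.hasFDerivAt (x := fderiv ℝ b' (L x))).comp x h2
  have h4 : fderiv ℝ (fun y => (fderiv ℝ b' (L y)).comp L) x =
      R.comp ((fderiv ℝ (fderiv ℝ b') (L x)).comp L) := h3.fderiv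
  rw [h4]
  rfl

lemma CHV_int {n : ℕ} (M : (E n →L[ℝ] E n)ˣ) (k : E n → ℝ) :
    ∫ x, k ((M : E n →L[ℝ] E n) x) = |(M : E n →L[ℝ] E n).det|⁻¹ * ∫ y, k y := by
  set e := ContinuousLinearEquiv.unitsEquiv ℝ (E n) M with he
  have hdet : LinearMap.det ((M : E n →L[ℝ] E n) : E n →ₗ[ℝ] E n) ≠ 0 :=
    (e.toLinearEquiv.isUnit_det').ne_zero
  have h1 : ∫ y, k y ∂(Measure.map (fun x => (M : E n →L[ℝ] E n) x) volume) =
      ∫ x, k ((M : E n →L[ℝ] E n) x) :=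
    e.toHomeomorph.toMeasurableEquiv.measurableEmbedding.integral_map k
  have h2 : Measure.map (fun x => (M : E n →L[ℝ] E n) x) (volume : Measure (E n)) =
      ENNReal.ofReal |(LinearMap.det ((M : E n →L[ℝ] E n) : E n →ₗ[ℝ] E n))⁻¹| • volume :=
    Measure.map_linearMap_addHaar_eq_smul_addHaar volume hdet
  rw [← h1, h2, integral_smul_measure, ENNReal.toReal_ofReal (abs_nonneg _), abs_inv, smul_eq_mul]

theorem p_CHV : T_CHV := by
  intro n M h b _ hb _ v w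
  set b' : E n → ℝ := fun y => b (((M⁻¹ : (E n →L[ℝ] E n)ˣ) : E n →L[ℝ] E n) y) with hb'
  have hbb : (fun x => b' ((M : E n →L[ℝ] E n) x)) = b := by
    funext x
    rw [hb']
    simp only [CHV_inv]
  have hC : ContDiff ℝ 2 b' :=
    hb.comp ((M⁻¹ : (E n →L[ℝ] E n)ˣ) : E n →L[ℝ] E n).contDiff
  unfold Dh
  rw [← CHV_int M (fun y => h y * D2 b' y ((M : E n →L[ℝ] E n) v) ((M : E n →L[ℝ] E n) w))]
  refine integral_congr_ae (Filter.Eventually.of_forall fun x => ?_)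
  simp only
  rw [← CHV_d2 (M : E n →L[ℝ] E n) b' hC x v w, hbb]

end Pool.Agent.GLB
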