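import Pool.Agent.GLB.TC

/-!
# GLB: target CLB (lower bound for the euclidean norm)
-/

set_option autoImplicit false

open Metric Set Filter Topology MeasureTheory

noncomputable section

namespace Pool.Agent.GLB

/-- the mollified norm is invariant under linear isometries, on the sphere -/
theorem CLB_rot {n : ℕ} {δ : ℝ} (m : Moll n δ) (T : E n ≃ₗᵢ[ℝ] E n) (u : E n) (hu : ‖u‖ = 1) :
    rho m (fun x => ‖x‖) (T u) = rho m (fun x => ‖x‖) u := by
  unfold rho
  have h1 : ‖T u‖ = 1 := by rw [T.norm_map, hu]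
  rw [h1, hu]
  have h2 := T.measurePreserving.integral_comp T.toHomeomorph.measurableEmbedding
    (fun y => ‖T u + (1 : ℝ) • y‖ * m.η y)
  rw [← h2]
  refine integral_congr_ae (Eventually.of_forall fun y => ?_)
  have h3 : T u + (1 : ℝ) • T y = T (u + (1 : ℝ) • y) := by
    rw [map_add, map_smul]
  have h4 : m.η (T y) = m.η y := m.η_rad _ _ (T.norm_map y)
  show ‖T u + (1 : ℝ) • T y‖ * m.η (T y) = ‖u + (1 : ℝ) • y‖ * m.η y
  rw [h3, h4, T.norm_map]

/-- the mollified norm is constant on the sphere -/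
theorem CLB_const {n : ℕ} {δ : ℝ} (m : Moll n δ) (u w : E n) (hu : ‖u‖ = 1) (hw : ‖w‖ = 1) :
    rho m (fun x => ‖x‖) w = rho m (fun x => ‖x‖) u := by
  have h1 : (Submodule.reflection (ℝ ∙ (u - w))ᗮ) u = w :=
    Submodule.reflection_sub (by rw [hu, hw])
  have h2 := CLB_rot m (Submodule.reflection (ℝ ∙ (u - w))ᗮ) u hu
  rw [h1] at h2
  exact h2

/-- lower bound for the mollified norm -/
theorem CLB_low {n : ℕ} {δ : ℝ} (m : Moll n δ) (u : E n) (hu : ‖u‖ = 1) :
    1 / 2 ≤ rho m (fun x => ‖x‖) u := by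
  have hsupp : ∀ f : E n → ℝ, HasCompactSupport fun y => f y * m.η y := by
    intro f
    refine HasCompactSupport.intro (isCompact_closedBall (0 : E n) δ) fun y hy => ?_
    have h1 : δ ≤ ‖y‖ := by
      rw [mem_closedBall_zero_iff, not_le] at hy
      exact hy.le
    rw [m.η_zero y h1, mul_zero]
  have hc := m.η_C2.continuous
  have i1 : Integrable (fun y : E n => (1 - δ) * m.η y) :=
    Continuous.integrable_of_hasCompactSupport (by fun_prop) (hsupp fun _ => 1 - δ)
  have i2 : Integrable (fun y : E n => ‖u + ‖u‖ • y‖ * m.η y) :=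
    Continuous.integrable_of_hasCompactSupport (by fun_prop) (hsupp fun y => ‖u + ‖u‖ • y‖)
  have h1 : ∫ y, (1 - δ) * m.η y ≤ ∫ y, ‖u + ‖u‖ • y‖ * m.η y := by
    refine integral_mono i1 i2 fun y => ?_
    show (1 - δ) * m.η y ≤ ‖u + ‖u‖ • y‖ * m.η y
    by_cases hy : δ ≤ ‖y‖
    · rw [m.η_zero y hy, mul_zero, mul_zero]
    · refine mul_le_mul_of_nonneg_right ?_ (m.η_nn y)
      rw [hu, one_smul]
      have h2 : ‖u‖ - ‖y‖ ≤ ‖u + y‖ := by
        have := norm_sub_norm_le u (-y)
        rw [norm_neg, sub_neg_eq_add] at this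
        exact this
      have h3 : ‖y‖ < δ := not_le.mp hy
      linarith
  rw [integral_const_mul, m.η_int] at h1
  have h2 := m.hδ2
  unfold rho
  linarith

theorem p_CLB (hGGF : T_GGF) : T_CLB := by
  intro n δ m u v hu hv huv
  have hc : Continuous fun x : E n => ‖x‖ := continuous_norm
  have hh : Hom1 fun x : E n => ‖x‖ := by
    intro t ht x
    show ‖t • x‖ = t * ‖x‖
    rw [norm_smul, Real.norm_eq_abs, abs_of_nonneg ht]
  obtain ⟨g₁, h1, h2⟩ := hGGF n δ m (fun x => ‖x‖) hc hh u v hu hv huv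
  have hunit : ∀ t : ℝ, ‖Real.cos t • u + Real.sin t • v‖ = 1 := by
    intro t
    have e1 : ‖Real.cos t • u + Real.sin t • v‖ ^ 2 = 1 := by
      rw [norm_add_sq_real, norm_smul, norm_smul, hu, hv, inner_smul_left, inner_smul_right, huv]
      simp only [mul_one, mul_zero, add_zero, Real.norm_eq_abs, sq_abs]
      exact Real.cos_sq_add_sin_sq t
    have e2 : 0 ≤ ‖Real.cos t • u + Real.sin t • v‖ := norm_nonneg _
    nlinarith [sq_nonneg (‖Real.cos t • u + Real.sin t • v‖ - 1)]
  have hg : (fun t : ℝ => rho m (fun x => ‖x‖) (Real.cos t • u + Real.sin t • v)) =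
      fun _ => rho m (fun x => ‖x‖) u := by
    funext t
    exact CLB_const m u _ hu (hunit t)
  have hg1 : g₁ = fun _ => 0 := by
    funext t
    have e1 := h1 t
    rw [hg] at e1
    exact e1.unique (hasDerivAt_const t _)
  have e2 := h2 0
  rw [hg1] at e2
  have e3 := e2.unique (hasDerivAt_const (0 : ℝ) (0 : ℝ))
  simp only [Real.cos_zero, Real.sin_zero, one_smul, zero_smul, add_zero, neg_zero,
    zero_add] at e3
  have e4 := CLB_low m u hu
  linarith

end Pool.Agent.GLB
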