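import Pool.Agent.GLB.TC

/-!
# GLB: CON, continuity of `F`
-/

set_option autoImplicit false

open Metric Set Filter Topology MeasureTheory

noncomputable section

namespace Pool.Agent.GLB

namespace CON_

lemma D2_zero {n : ℕ} (x v w : E n) : D2 (fun _ : E n => (0 : ℝ)) x v w = 0 := by
  unfold D2
  have h1 : (fderiv ℝ fun _ : E n => (0 : ℝ)) = fun _ => 0 := by
    funext y
    simp
  rw [h1]
  simp

/-- the integrand, expanded -/
def G {n : ℕ} (h f ζ : E n → ℝ) (p : E n × E n × E n) (x : E n) : ℝ :=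
  h x * (f x * D2 ζ (x - p.1) p.2.1 p.2.2 + fderiv ℝ f x p.2.1 * fderiv ℝ ζ (x - p.1) p.2.2 +
    fderiv ℝ f x p.2.2 * fderiv ℝ ζ (x - p.1) p.2.1 + ζ (x - p.1) * D2 f x p.2.1 p.2.2)

lemma Dh_eq (hP : T_PRD) {n : ℕ} (h f ζ : E n → ℝ) (hf : ContDiff ℝ 2 f) (hζ : ContDiff ℝ 2 ζ)
    (p : E n × E n × E n) :
    Dh h (fun x => f x * ζ (x - p.1)) p.2.1 p.2.2 = ∫ x, G h f ζ p x := by
  obtain ⟨h1, h2, -⟩ := hP n
  unfold Dh G
  congr 1
  funext x
  have hg : ContDiff ℝ 2 fun y => ζ (y - p.1) := hζ.comp (contDiff_id.sub contDiff_const)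
  have e1 : fderiv ℝ (fun y => ζ (y - p.1)) x = fderiv ℝ ζ (x - p.1) := fderiv_comp_sub _
  rw [h1 f (fun y => ζ (y - p.1)) hf hg, h2, e1]

lemma G_cont (hP : T_PRD) {n : ℕ} (h f ζ : E n → ℝ) (hh : Continuous h) (hf : ContDiff ℝ 2 f)
    (hζ : ContDiff ℝ 2 ζ) : Continuous (Function.uncurry (G h f ζ)) := by
  obtain ⟨-, -, -, -, -, -, h7⟩ := hP n
  have c1 : Continuous fun q : (E n × E n × E n) × E n => q.2 - q.1.1 := by fun_prop
  have c2 : Continuous fun q : (E n × E n × E n) × E n => q.2 := by fun_prop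
  have cv : Continuous fun q : (E n × E n × E n) × E n => q.1.2.1 := by fun_prop
  have cw : Continuous fun q : (E n × E n × E n) × E n => q.1.2.2 := by fun_prop
  have d1 : Continuous fun q : (E n × E n × E n) × E n => D2 ζ (q.2 - q.1.1) q.1.2.1 q.1.2.2 :=
    (h7 ζ hζ).comp (c1.prodMk (cv.prodMk cw))
  have d2 : Continuous fun q : (E n × E n × E n) × E n => D2 f q.2 q.1.2.1 q.1.2.2 :=
    (h7 f hf).comp (c2.prodMk (cv.prodMk cw))
  have f1 : Continuous fun q : (E n × E n × E n) × E n => fderiv ℝ f q.2 :=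
    (hf.continuous_fderiv (by norm_num)).comp c2
  have f2 : Continuous fun q : (E n × E n × E n) × E n => fderiv ℝ ζ (q.2 - q.1.1) :=
    (hζ.continuous_fderiv (by norm_num)).comp c1
  have z1 : Continuous fun q : (E n × E n × E n) × E n => ζ (q.2 - q.1.1) :=
    hζ.continuous.comp c1
  have g1 : Continuous fun q : (E n × E n × E n) × E n => f q.2 := hf.continuous.comp c2
  have g2 : Continuous fun q : (E n × E n × E n) × E n => h q.2 := hh.comp c2
  unfold G
  exact g2.mul ((((g1.mul d1).add ((f1.clm_apply cv).mul (f2.clm_apply cw))).add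
    ((f1.clm_apply cw).mul (f2.clm_apply cv))).add (z1.mul d2))

lemma G_zero (hP : T_PRD) {n : ℕ} (h f ζ : E n → ℝ) (δ : ℝ)
    (hz : ∀ y, δ ≤ ‖y‖ → ζ y = 0) (p : E n × E n × E n) (x : E n) (hx : δ < ‖x - p.1‖) :
    G h f ζ p x = 0 := by
  obtain ⟨-, -, -, -, -, h6, -⟩ := hP n
  have hev : ζ =ᶠ[𝓝 (x - p.1)] fun _ => (0 : ℝ) := by
    have : ∀ᶠ y : E n in 𝓝 (x - p.1), δ < ‖y‖ :=
      continuous_norm.continuousAt.eventually (lt_mem_nhds hx)
    filter_upwards [this] with y hy using hz y hy.le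
  have e1 : ∀ v w, D2 ζ (x - p.1) v w = 0 := fun v w => by
    rw [h6 ζ (fun _ => 0) (x - p.1) hev, D2_zero]
  have e2 : fderiv ℝ ζ (x - p.1) = 0 := by
    rw [hev.fderiv_eq]
    simp
  have e3 : ζ (x - p.1) = 0 := hz _ hx.le
  unfold G
  rw [e1, e2, e3]
  simp

lemma Dh_cont (hP : T_PRD) {n : ℕ} (h f ζ : E n → ℝ) (δ : ℝ) (hh : Continuous h)
    (hf : ContDiff ℝ 2 f) (hζ : ContDiff ℝ 2 ζ) (hz : ∀ y, δ ≤ ‖y‖ → ζ y = 0) :
    Continuous fun p : E n × E n × E n =>
      Dh h (fun x => f x * ζ (x - p.1)) p.2.1 p.2.2 := by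
  have e : (fun p : E n × E n × E n => Dh h (fun x => f x * ζ (x - p.1)) p.2.1 p.2.2) =
      fun p => ∫ x, G h f ζ p x := funext fun p => Dh_eq hP h f ζ hf hζ p
  rw [e, continuous_iff_continuousAt]
  intro p₀
  have ho : IsOpen {p : E n × E n × E n | ‖p.1‖ < ‖p₀.1‖ + 1} :=
    isOpen_lt (by fun_prop) continuous_const
  have hc : ContinuousOn (fun p : E n × E n × E n => ∫ x, G h f ζ p x)
      {p | ‖p.1‖ < ‖p₀.1‖ + 1} := by
    refine continuousOn_integral_of_compact_support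
      (isCompact_closedBall (0 : E n) (‖p₀.1‖ + 1 + δ))
      (G_cont hP h f ζ hh hf hζ).continuousOn ?_
    intro p x hp hx
    refine G_zero hP h f ζ δ hz p x ?_
    rw [mem_closedBall, dist_zero_right, not_le] at hx
    have hp' : ‖p.1‖ < ‖p₀.1‖ + 1 := hp
    have h3 := norm_sub_norm_le x p.1
    linarith
  exact hc.continuousAt (ho.mem_nhds (by
    change ‖p₀.1‖ < ‖p₀.1‖ + 1
    linarith))

end CON_

open CON_ in
/-- **CON** -/
theorem p_CON (hP : T_PRD) : T_CON := by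
  intro n δ m h f hh hf
  unfold F
  refine Continuous.add ?_ (continuous_finsetSum _ fun i _ => ?_)
  · exact (Dh_cont hP h f m.η δ hh hf m.η_C2 m.η_zero).comp
      (continuous_fst.prodMk (continuous_snd.prodMk continuous_snd))
  · exact (Dh_cont hP h f m.θ δ hh hf m.θ_C2 m.θ_zero).comp
      (continuous_fst.prodMk (continuous_const.prodMk continuous_const))

end Pool.Agent.GLB
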