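import Pool.Agent.GLB.TF

set_option autoImplicit false

open Metric Set Filter Topology MeasureTheory

noncomputable section

namespace Pool.Agent.GLB

namespace CPX_

/-- composition with a continuous real linear map -/
def cmp {n : ℕ} (l : ℂ →L[ℝ] ℝ) (φ : C(S n, ℂ)) : C(S n, ℝ) := ⟨fun u => l (φ u), by fun_prop⟩

lemma cmp_act {n : ℕ} (l : ℂ →L[ℝ] ℝ) (g : (E n →L[ℝ] E n)ˣ) (φ : C(S n, ℂ)) :
    cmp l (act g φ) = act g (cmp l φ) := by
  ext u
  show l (‖ContinuousLinearMap.adjoint (g : E n →L[ℝ] E n) (u : E n)‖ • φ (dirn g u)) =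
    ‖ContinuousLinearMap.adjoint (g : E n →L[ℝ] E n) (u : E n)‖ • l (φ (dirn g u))
  rw [map_smul]

lemma cmp_norm_re {n : ℕ} (φ : C(S n, ℂ)) : ‖cmp Complex.reCLM φ‖ ≤ ‖φ‖ := by
  rw [ContinuousMap.norm_le _ (norm_nonneg _)]
  intro u
  exact (Complex.abs_re_le_norm (φ u)).trans (φ.norm_coe_le_norm u)

lemma cmp_norm_im {n : ℕ} (φ : C(S n, ℂ)) : ‖cmp Complex.imCLM φ‖ ≤ ‖φ‖ := by
  rw [ContinuousMap.norm_le _ (norm_nonneg _)]
  intro u
  exact (Complex.abs_im_le_norm (φ u)).trans (φ.norm_coe_le_norm u)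

/-- the complex functional with real and imaginary parts `R`, `I` on real functions -/
def cx {n : ℕ} (R I : C(S n, ℝ) →L[ℝ] ℝ) : C(S n, ℂ) →L[ℂ] ℂ :=
  LinearMap.mkContinuous
    { toFun := fun φ => ⟨R (cmp Complex.reCLM φ) - I (cmp Complex.imCLM φ),
        R (cmp Complex.imCLM φ) + I (cmp Complex.reCLM φ)⟩
      map_add' := by
        intro φ ψ
        have h1 : cmp Complex.reCLM (φ + ψ) = cmp Complex.reCLM φ + cmp Complex.reCLM ψ := by
          ext u; simp [cmp]
        have h2 : cmp Complex.imCLM (φ + ψ) = cmp Complex.imCLM φ + cmp Complex.imCLM ψ := by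
          ext u; simp [cmp]
        apply Complex.ext
        · simp only [h1, h2, map_add, Complex.add_re]
          ring
        · simp only [h1, h2, map_add, Complex.add_im]
          ring
      map_smul' := by
        intro c φ
        have h1 : cmp Complex.reCLM (c • φ) =
            c.re • cmp Complex.reCLM φ - c.im • cmp Complex.imCLM φ := by
          ext u; simp [cmp]
        have h2 : cmp Complex.imCLM (c • φ) =
            c.re • cmp Complex.imCLM φ + c.im • cmp Complex.reCLM φ := by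
          ext u; simp [cmp]
        apply Complex.ext
        · simp only [h1, h2, map_add, map_sub, map_smul, smul_eq_mul, RingHom.id_apply,
            Complex.mul_re]
          ring
        · simp only [h1, h2, map_add, map_sub, map_smul, smul_eq_mul, RingHom.id_apply,
            Complex.mul_im]
          ring }
    (2 * (‖R‖ + ‖I‖)) (by
      intro φ
      have hr := cmp_norm_re φ
      have hi := cmp_norm_im φ
      have a1 := (R.le_opNorm (cmp Complex.reCLM φ)).trans
        (mul_le_mul_of_nonneg_left hr (norm_nonneg R))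
      have a2 := (R.le_opNorm (cmp Complex.imCLM φ)).trans
        (mul_le_mul_of_nonneg_left hi (norm_nonneg R))
      have a3 := (I.le_opNorm (cmp Complex.reCLM φ)).trans
        (mul_le_mul_of_nonneg_left hr (norm_nonneg I))
      have a4 := (I.le_opNorm (cmp Complex.imCLM φ)).trans
        (mul_le_mul_of_nonneg_left hi (norm_nonneg I))
      refine (Complex.norm_le_abs_re_add_abs_im _).trans ?_
      have b1 := norm_sub_le (R (cmp Complex.reCLM φ)) (I (cmp Complex.imCLM φ))
      have b2 := norm_add_le (R (cmp Complex.imCLM φ)) (I (cmp Complex.reCLM φ))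
      show |R (cmp Complex.reCLM φ) - I (cmp Complex.imCLM φ)| +
        |R (cmp Complex.imCLM φ) + I (cmp Complex.reCLM φ)| ≤ _
      rw [← Real.norm_eq_abs, ← Real.norm_eq_abs]
      linarith)

lemma cx_re {n : ℕ} (R I : C(S n, ℝ) →L[ℝ] ℝ) (φ : C(S n, ℂ)) :
    (cx R I φ).re = R (cmp Complex.reCLM φ) - I (cmp Complex.imCLM φ) := rfl

lemma cx_im {n : ℕ} (R I : C(S n, ℝ) →L[ℝ] ℝ) (φ : C(S n, ℂ)) :
    (cx R I φ).im = R (cmp Complex.imCLM φ) + I (cmp Complex.reCLM φ) := rfl

lemma re_val {n : ℕ} {μ : ConvexBody (E n) → ℂ} (h : IsVal n 1 μ) :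
    RVal n fun K => (μ K).re where
  cont := Complex.continuous_re.comp h.cont
  trans K x := by rw [h.trans]
  homog K t ht := by
    rw [h.homog K t ht, pow_one, Complex.re_ofReal_mul]
  val K L M N h1 h2 := by
    have := congrArg Complex.re (h.val K L M N h1 h2)
    simpa using this

lemma im_val {n : ℕ} {μ : ConvexBody (E n) → ℂ} (h : IsVal n 1 μ) :
    RVal n fun K => (μ K).im where
  cont := Complex.continuous_im.comp h.cont
  trans K x := by rw [h.trans]
  homog K t ht := by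
    rw [h.homog K t ht, pow_one, Complex.im_ofReal_mul]
  val K L M N h1 h2 := by
    have := congrArg Complex.im (h.val K L M N h1 h2)
    simpa using this

end CPX_

open CPX_ in
theorem p_CPX : T_CPX := by
  intro hMCC hITR n hn μ hμ
  obtain ⟨P, hP, eP⟩ := hITR n hn _ (hMCC n _ (re_val hμ))
  obtain ⟨Q, hQ, eQ⟩ := hITR n hn _ (hMCC n _ (im_val hμ))
  refine ⟨fun K => cx (P K) (Q K), ⟨?_, ?_, ?_, ?_⟩, ?_, ?_⟩
  · intro φ
    have h1 : Continuous fun K => (cx (P K) (Q K) φ).re := by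
      simp only [cx_re]
      exact (hP.cont _).sub (hQ.cont _)
    have h2 : Continuous fun K => (cx (P K) (Q K) φ).im := by
      simp only [cx_im]
      exact (hP.cont _).add (hQ.cont _)
    have h3 : (fun K => cx (P K) (Q K) φ) = fun K =>
        (((cx (P K) (Q K) φ).re : ℝ) : ℂ) + (((cx (P K) (Q K) φ).im : ℝ) : ℂ) * Complex.I := by
      funext K
      exact (Complex.re_add_im _).symm
    rw [h3]
    exact (Complex.continuous_ofReal.comp h1).add
      ((Complex.continuous_ofReal.comp h2).mul continuous_const)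
  · intro K L U hU hKL φ hφ
    have hr : ∀ u, u ∉ U → cmp Complex.reCLM φ u = 0 := by
      intro u hu
      show Complex.re (φ u) = 0
      rw [hφ u hu, Complex.zero_re]
    have hi : ∀ u, u ∉ U → cmp Complex.imCLM φ u = 0 := by
      intro u hu
      show Complex.im (φ u) = 0
      rw [hφ u hu, Complex.zero_im]
    apply Complex.ext
    · rw [cx_re, cx_re, hP.loc K L U hU hKL _ hr, hQ.loc K L U hU hKL _ hi]
    · rw [cx_im, cx_im, hP.loc K L U hU hKL _ hi, hQ.loc K L U hU hKL _ hr]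
  · intro K x
    show cx (P (K + pt x)) (Q (K + pt x)) = cx (P K) (Q K)
    rw [hP.trans, hQ.trans]
  · intro K t ht
    apply ContinuousLinearMap.ext
    intro φ
    show cx (P (t • K)) (Q (t • K)) φ = (t : ℂ) ^ 1 * cx (P K) (Q K) φ
    rw [hP.homog K t ht, hQ.homog K t ht, pow_one]
    apply Complex.ext
    · rw [Complex.re_ofReal_mul, cx_re, cx_re]
      show t * P K _ - t * Q K _ = _
      ring
    · rw [Complex.im_ofReal_mul, cx_im, cx_im]
      show t * P K _ + t * Q K _ = _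
      ring
  · intro g₀ ε hε
    have hinv : Tendsto (fun g : (E n →L[ℝ] E n)ˣ => g⁻¹) (𝓝 g₀) (𝓝 g₀⁻¹) :=
      (continuous_inv.tendsto g₀)
    filter_upwards [hinv.eventually (hP.gl g₀⁻¹ (ε / 4) (by positivity)),
      hinv.eventually (hQ.gl g₀⁻¹ (ε / 4) (by positivity))] with g k₁ k₂ K hK φ hφ
    have hr : ‖cmp Complex.reCLM φ‖ ≤ 1 := (cmp_norm_re φ).trans hφ
    have hi : ‖cmp Complex.imCLM φ‖ ≤ 1 := (cmp_norm_im φ).trans hφ
    have a1 := abs_le.1 (k₁ K hK _ hr)
    have a2 := abs_le.1 (k₁ K hK _ hi)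
    have a3 := abs_le.1 (k₂ K hK _ hr)
    have a4 := abs_le.1 (k₂ K hK _ hi)
    refine (Complex.norm_le_abs_re_add_abs_im _).trans ?_
    rw [Complex.sub_re, Complex.sub_im, cx_re, cx_re, cx_im, cx_im, cmp_act, cmp_act, cmp_act,
      cmp_act]
    have b1 : |P (mapB ((g⁻¹ : (E n →L[ℝ] E n)ˣ) : E n →L[ℝ] E n) K)
          (act g⁻¹ (cmp Complex.reCLM φ)) -
        Q (mapB ((g⁻¹ : (E n →L[ℝ] E n)ˣ) : E n →L[ℝ] E n) K)
          (act g⁻¹ (cmp Complex.imCLM φ)) -
        (P (mapB ((g₀⁻¹ : (E n →L[ℝ] E n)ˣ) : E n →L[ℝ] E n) K)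
          (act g₀⁻¹ (cmp Complex.reCLM φ)) -
        Q (mapB ((g₀⁻¹ : (E n →L[ℝ] E n)ˣ) : E n →L[ℝ] E n) K)
          (act g₀⁻¹ (cmp Complex.imCLM φ)))| ≤ ε / 2 := by
      rw [abs_le]
      constructor <;> linarith
    have b2 : |P (mapB ((g⁻¹ : (E n →L[ℝ] E n)ˣ) : E n →L[ℝ] E n) K)
          (act g⁻¹ (cmp Complex.imCLM φ)) +
        Q (mapB ((g⁻¹ : (E n →L[ℝ] E n)ˣ) : E n →L[ℝ] E n) K)
          (act g⁻¹ (cmp Complex.reCLM φ)) -
        (P (mapB ((g₀⁻¹ : (E n →L[ℝ] E n)ˣ) : E n →L[ℝ] E n) K)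
          (act g₀⁻¹ (cmp Complex.imCLM φ)) +
        Q (mapB ((g₀⁻¹ : (E n →L[ℝ] E n)ˣ) : E n →L[ℝ] E n) K)
          (act g₀⁻¹ (cmp Complex.reCLM φ)))| ≤ ε / 2 := by
      rw [abs_le]
      constructor <;> linarith
    linarith
  · intro K
    have h1 : cmp Complex.reCLM (1 : C(S n, ℂ)) = 1 := by
      ext u
      show Complex.re 1 = 1
      exact Complex.one_re
    have h2 : cmp Complex.imCLM (1 : C(S n, ℂ)) = 0 := by
      ext u
      show Complex.im 1 = 0
      exact Complex.one_im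
    apply Complex.ext
    · rw [cx_re, h1, h2, map_zero, eP]
      ring
    · rw [cx_im, h1, h2, map_zero, eQ]
      ring

end Pool.Agent.GLB
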