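import Pool.Agent.GLB.TA

/-!
# GLB: continuity of the operations on convex bodies (`T_CTA`)
-/

set_option autoImplicit false

open Metric Set Filter Topology MeasureTheory

noncomputable section

namespace Pool.Agent.GLB

namespace CTA_

lemma cont_of {n m : ℕ} {f : ConvexBody (E n) → ConvexBody (E m)} (C : ℝ)
    (h : ∀ K K', dist (f K) (f K') ≤ C * dist K K') : Continuous f :=
  (LipschitzWith.of_dist_le' h).continuous

end CTA_

open CTA_

theorem p_CTA (hSUA : T_SUA) (hSUD : T_SUD) (hSUH : T_SUH) : T_CTA := by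
  intro n
  obtain ⟨-, -, hadd, hsmul, -, hmap⟩ := hSUA n
  refine ⟨fun L => ?_, fun A => ?_, fun K => ?_, fun t ht => ?_, fun K L => add_comm K L,
    fun K R hR => ?_⟩
  · refine cont_of 1 fun K K' => ?_
    rw [one_mul]
    refine (hSUD n (K + L) (K' + L)).2 _ dist_nonneg fun u hu => ?_
    rw [hadd, hadd, add_sub_add_right_eq_sub]
    have := (hSUD n K K').1 u
    rwa [hu, mul_one] at this
  · refine cont_of ‖A‖ fun K K' => ?_
    refine (hSUD n (mapB A K) (mapB A K')).2 _ (by positivity) fun u hu => ?_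
    rw [hmap, hmap]
    have h1 := (hSUD n K K').1 (ContinuousLinearMap.adjoint A u)
    have h2 : ‖ContinuousLinearMap.adjoint A u‖ ≤ ‖A‖ := by
      calc ‖ContinuousLinearMap.adjoint A u‖ ≤ ‖ContinuousLinearMap.adjoint A‖ * ‖u‖ :=
            ContinuousLinearMap.le_opNorm _ _
        _ = ‖A‖ := by rw [hu, mul_one, LinearIsometryEquiv.norm_map]
    calc |supp K (ContinuousLinearMap.adjoint A u) - supp K' (ContinuousLinearMap.adjoint A u)|
        ≤ dist K K' * ‖ContinuousLinearMap.adjoint A u‖ := h1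
      _ ≤ dist K K' * ‖A‖ := mul_le_mul_of_nonneg_left h2 dist_nonneg
      _ = ‖A‖ * dist K K' := mul_comm _ _
  · have h0 : ∀ u : E n, supp (0 : ConvexBody (E n)) u = 0 := by
      intro u
      have h1 := hadd 0 0 u
      rw [add_zero] at h1
      linarith
    obtain ⟨R, hR0, hR⟩ : ∃ R : ℝ, 0 ≤ R ∧ (K : Set (E n)) ⊆ closedBall 0 R := by
      obtain ⟨R, hR⟩ := K.isBounded.subset_closedBall (0 : E n)
      exact ⟨max R 0, le_max_right _ _, hR.trans (closedBall_subset_closedBall (le_max_left _ _))⟩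
    rw [tendsto_iff_dist_tendsto_zero]
    refine squeeze_zero (g := fun m : ℕ => 1 / ((m : ℝ) + 1) * R) (fun m => dist_nonneg)
      (fun m => ?_) ?_
    · have ht : (0 : ℝ) ≤ 1 / ((m : ℝ) + 1) := by positivity
      refine (hSUD n _ _).2 _ (mul_nonneg ht hR0) fun u hu => ?_
      rw [hsmul _ _ _ ht, h0, sub_zero, abs_mul, abs_of_nonneg ht]
      refine mul_le_mul_of_nonneg_left ?_ ht
      have h2 := ((hSUH n K).2.2.2.2 R hR).1 u
      rwa [hu, mul_one] at h2
    · have h3 := (tendsto_one_div_add_atTop_nhds_zero_nat (𝕜 := ℝ)).mul_const R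
      rwa [zero_mul] at h3
  · refine cont_of t fun K K' => ?_
    refine (hSUD n _ _).2 _ (mul_nonneg ht dist_nonneg) fun u hu => ?_
    rw [hsmul _ _ _ ht, hsmul _ _ _ ht, ← mul_sub, abs_mul, abs_of_nonneg ht]
    refine mul_le_mul_of_nonneg_left ?_ ht
    have := (hSUD n K K').1 u
    rwa [hu, mul_one] at this
  · rw [smul_smul, mul_inv_cancel₀ hR.ne', one_smul]

end Pool.Agent.GLB
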