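import Pool.Agent.GLB.TA

/-!
# GLB: cutting the simplex
-/

set_option autoImplicit false

open Metric Set Filter Topology MeasureTheory

noncomputable section

namespace Pool.Agent.GLB

namespace CUT_

lemma mem_sum {n : ℕ} (w : ℕ → E n) (i j : ℕ) (lo hi : ℕ → ℝ) (h : (seqs lo hi).Nonempty)
    (L : ConvexBody (E n)) (z : E n) : z ∈ ((bd w i j lo hi + L : ConvexBody (E n)) : Set (E n)) ↔
      ∃ x ∈ seqs lo hi, ∃ l ∈ L, cmb w i j x + l = z := by
  rw [ConvexBody.coe_add, Set.mem_add]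
  constructor
  · rintro ⟨y, hy, l, hl, rfl⟩
    obtain ⟨x, hx, rfl⟩ := (mem_bd w i j lo hi h y).1 hy
    exact ⟨x, hx, l, hl, rfl⟩
  · rintro ⟨x, hx, l, hl, rfl⟩
    exact ⟨_, (mem_bd w i j lo hi h _).2 ⟨x, hx, rfl⟩, l, hl, rfl⟩

lemma stp_lt {k m : ℕ} (a b : ℝ) (h : m < k) : stp k a b m = a := if_pos h

lemma stp_ge {k m : ℕ} (a b : ℝ) (h : k ≤ m) : stp k a b m = b := if_neg (not_lt.2 h)

lemma cross {x x' a : ℝ} (h : x ≤ a) (h' : a ≤ x') :
    ∃ s : ℝ, 0 ≤ s ∧ s ≤ 1 ∧ (1 - s) * x + s * x' = a := by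
  rcases eq_or_lt_of_le (h.trans h') with h1 | h1
  · refine ⟨0, le_rfl, zero_le_one, ?_⟩
    rw [sub_zero, one_mul, zero_mul, add_zero]
    exact le_antisymm h (h1 ▸ h')
  · have h2 : 0 < x' - x := sub_pos.2 h1
    refine ⟨(a - x) / (x' - x), div_nonneg (sub_nonneg.2 h) h2.le, ?_, ?_⟩
    · rw [div_le_one h2]
      linarith
    · field_simp
      ring

end CUT_

open CUT_

theorem p_CUT : T_CUT := by
  intro n μ hμ w i j k a b ha hb L
  have hab : 0 ≤ a + b := add_nonneg ha hb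
  have n1 : (seqs (fun _ => 0) (stp (k + 1) (a + b) a)).Nonempty := by
    refine ⟨fun _ => 0, fun _ _ _ => le_rfl, fun m => ⟨le_rfl, ?_⟩⟩
    rcases lt_or_ge m (k + 1) with h | h
    · rw [stp_lt _ _ h]; exact hab
    · rw [stp_ge _ _ h]; exact ha
  have n2 : (seqs (fun _ => 0) (stp k (a + b) a)).Nonempty := by
    refine ⟨fun _ => 0, fun _ _ _ => le_rfl, fun m => ⟨le_rfl, ?_⟩⟩
    rcases lt_or_ge m k with h | h
    · rw [stp_lt _ _ h]; exact hab
    · rw [stp_ge _ _ h]; exact ha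
  have hanti : Antitone (stp (k + 1) a 0) := by
    intro p q hpq
    rcases lt_or_ge q (k + 1) with h | h
    · rw [stp_lt _ _ h, stp_lt _ _ (hpq.trans_lt h)]
    · rw [stp_ge _ _ h]
      rcases lt_or_ge p (k + 1) with h' | h'
      · rw [stp_lt _ _ h']; exact ha
      · rw [stp_ge _ _ h']
  have n3 : (seqs (stp (k + 1) a 0) (stp k (a + b) a)).Nonempty := by
    refine ⟨stp (k + 1) a 0, hanti, fun m => ⟨le_rfl, ?_⟩⟩
    rcases lt_or_ge m k with h | h
    · rw [stp_lt _ _ h, stp_lt _ _ (h.trans (Nat.lt_succ_self k))]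
      linarith
    · rw [stp_ge _ _ h]
      rcases lt_or_ge m (k + 1) with h' | h'
      · rw [stp_lt _ _ h']
      · rw [stp_ge _ _ h']; exact ha
  have n4 : (seqs (stp (k + 1) a 0) (stp (k + 1) (a + b) a)).Nonempty := by
    refine ⟨stp (k + 1) a 0, hanti, fun m => ⟨le_rfl, ?_⟩⟩
    rcases lt_or_ge m (k + 1) with h | h
    · rw [stp_lt _ _ h, stp_lt _ _ h]
      linarith
    · rw [stp_ge _ _ h, stp_ge _ _ h]; exact ha
  have lo_nn : ∀ m, 0 ≤ stp (k + 1) a 0 m := by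
    intro m
    rcases lt_or_ge m (k + 1) with h | h
    · rw [stp_lt _ _ h]; exact ha
    · rw [stp_ge _ _ h]
  have hi_le : ∀ m, stp k (a + b) a m ≤ stp (k + 1) (a + b) a m := by
    intro m
    rcases lt_or_ge m k with h | h
    · rw [stp_lt _ _ h, stp_lt _ _ (h.trans (Nat.lt_succ_self k))]
    · rw [stp_ge _ _ h]
      rcases lt_or_ge m (k + 1) with h' | h'
      · rw [stp_lt _ _ h']; linarith
      · rw [stp_ge _ _ h']
  refine hμ.val _ _ _ _ ?_ ?_
  · ext z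
    rw [Set.mem_union, mem_sum _ _ _ _ _ n1, mem_sum _ _ _ _ _ n2, mem_sum _ _ _ _ _ n4]
    constructor
    · rintro ⟨x, hx, l, hl, rfl⟩
      rcases le_total (x k) a with h | h
      · left
        refine ⟨x, ⟨hx.1, fun m => ⟨(hx.2 m).1, ?_⟩⟩, l, hl, rfl⟩
        rcases lt_or_ge m k with h' | h'
        · rw [stp_lt _ _ h']
          have := (hx.2 m).2
          rwa [stp_lt _ _ (h'.trans (Nat.lt_succ_self k))] at this
        · rw [stp_ge _ _ h']
          exact (hx.1 h').trans h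
      · right
        refine ⟨x, ⟨hx.1, fun m => ⟨?_, (hx.2 m).2⟩⟩, l, hl, rfl⟩
        rcases lt_or_ge m (k + 1) with h' | h'
        · rw [stp_lt _ _ h']
          exact h.trans (hx.1 (Nat.lt_succ_iff.1 h'))
        · rw [stp_ge _ _ h']
          exact (hx.2 m).1
    · rintro (⟨x, hx, l, hl, rfl⟩ | ⟨x, hx, l, hl, rfl⟩)
      · exact ⟨x, ⟨hx.1, fun m => ⟨(hx.2 m).1, (hx.2 m).2.trans (hi_le m)⟩⟩, l, hl, rfl⟩
      · exact ⟨x, ⟨hx.1, fun m => ⟨(lo_nn m).trans (hx.2 m).1, (hx.2 m).2⟩⟩, l, hl, rfl⟩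
  · ext z
    rw [Set.mem_inter_iff, mem_sum _ _ _ _ _ n3, mem_sum _ _ _ _ _ n2, mem_sum _ _ _ _ _ n4]
    constructor
    · rintro ⟨x, hx, l, hl, rfl⟩
      exact ⟨⟨x, ⟨hx.1, fun m => ⟨(lo_nn m).trans (hx.2 m).1, (hx.2 m).2⟩⟩, l, hl, rfl⟩,
        ⟨x, ⟨hx.1, fun m => ⟨(hx.2 m).1, (hx.2 m).2.trans (hi_le m)⟩⟩, l, hl, rfl⟩⟩
    · rintro ⟨⟨x, hx, l, hl, hz⟩, ⟨x', hx', l', hl', hz'⟩⟩
      have e1 : x k ≤ a := by
        have := (hx.2 k).2
        rwa [stp_ge _ _ le_rfl] at this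
      have e2 : a ≤ x' k := by
        have := (hx'.2 k).1
        rwa [stp_lt _ _ (Nat.lt_succ_self k)] at this
      obtain ⟨s, hs0, hs1, hs⟩ := cross e1 e2
      have h1s : 0 ≤ 1 - s := by linarith
      have hxU : x ∈ seqs (fun _ => 0) (stp (k + 1) (a + b) a) :=
        ⟨hx.1, fun m => ⟨(hx.2 m).1, (hx.2 m).2.trans (hi_le m)⟩⟩
      have hxU' : x' ∈ seqs (fun _ => 0) (stp (k + 1) (a + b) a) :=
        ⟨hx'.1, fun m => ⟨(lo_nn m).trans (hx'.2 m).1, (hx'.2 m).2⟩⟩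
      have hy := seqs_convex (fun _ => (0 : ℝ)) (stp (k + 1) (a + b) a) hxU hxU' h1s hs0
        (by ring)
      have hyk : ((1 - s) • x + s • x') k = a := by
        simpa using hs
      refine ⟨(1 - s) • x + s • x', ⟨hy.1, fun m => ⟨?_, ?_⟩⟩, (1 - s) • l + s • l', ?_, ?_⟩
      · rcases lt_or_ge m (k + 1) with h' | h'
        · rw [stp_lt _ _ h', ← hyk]
          exact hy.1 (Nat.lt_succ_iff.1 h')
        · rw [stp_ge _ _ h']
          exact (hy.2 m).1
      · rcases lt_or_ge m k with h' | h'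
        · rw [stp_lt _ _ h']
          have := (hy.2 m).2
          rwa [stp_lt _ _ (h'.trans (Nat.lt_succ_self k))] at this
        · rw [stp_ge _ _ h', ← hyk]
          exact hy.1 h'
      · exact L.convex hl hl' h1s hs0 (by ring)
      · rw [cmb_lin]
        have e3 : (1 - s) • cmb w i j x + s • cmb w i j x' + ((1 - s) • l + s • l') =
            (1 - s) • (cmb w i j x + l) + s • (cmb w i j x' + l') := by
          rw [smul_add, smul_add]
          abel
        rw [e3, hz, hz', ← add_smul]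
        simp

end Pool.Agent.GLB
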