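import Pool.Agent.GLB.TF

/-!
# GLB, target T_CUTO: smooth cut-off away from the origin (helper12)
-/

set_option autoImplicit false

open Metric Set Filter Topology

noncomputable section

namespace Pool.Agent.GLB

namespace CUTO_

/-- the bump function: `1` on the ball of radius `1/4`, `0` outside the ball of radius `1/2` -/
def bmp (n : ℕ) : ContDiffBump (0 : E n) :=
  { rIn := 1 / 4
    rOut := 1 / 2
    rIn_pos := by norm_num
    rIn_lt_rOut := by norm_num }

theorem near (n : ℕ) (p : E n → ℝ) :
    (fun x => (1 - bmp n x) * p x) =ᶠ[𝓝 (0 : E n)] fun _ => (0 : ℝ) := by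
  have h : ball (0 : E n) (1 / 4) ∈ 𝓝 (0 : E n) := ball_mem_nhds _ (by norm_num)
  filter_upwards [h] with x hx
  have h1 : bmp n x = 1 := (bmp n).one_of_mem_closedBall (ball_subset_closedBall hx)
  rw [h1, sub_self, zero_mul]

end CUTO_

theorem p_CUTO : T_CUTO := by
  intro n p hp
  refine ⟨fun x => (1 - CUTO_.bmp n x) * p x, ?_, ?_⟩
  · rw [contDiff_iff_contDiffAt]
    intro x
    by_cases hx : x = 0
    · subst hx
      exact contDiffAt_const.congr_of_eventuallyEq (CUTO_.near n p)
    · have hopen : IsOpen {x : E n | x ≠ 0} := isOpen_ne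
      have h1 : ContDiffAt ℝ 2 p x := hp.contDiffAt (hopen.mem_nhds hx)
      have h2 : ContDiffAt ℝ 2 (CUTO_.bmp n) x := (CUTO_.bmp n).contDiffAt
      exact (contDiffAt_const.sub h2).mul h1
  · intro x hx
    have h1 : CUTO_.bmp n x = 0 := by
      apply (CUTO_.bmp n).zero_of_le_dist
      rw [dist_zero_right]
      exact hx
    show (1 - CUTO_.bmp n x) * p x = p x
    rw [h1, sub_zero, one_mul]

end Pool.Agent.GLB
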