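import Pool.Agent.GLB.TC

/-!
# GLB: target DBD
-/

set_option autoImplicit false

open Metric Set Filter Topology MeasureTheory

noncomputable section

namespace Pool.Agent.GLB

lemma DBD_A1 (n : ℕ) : ∃ χ : E n → ℝ, ContDiff ℝ 2 χ ∧ (∀ x, 0 ≤ χ x) ∧
    (∀ x, ‖x‖ ≤ 2 → χ x = 1) ∧ (∀ x, 3 ≤ ‖x‖ → χ x = 0) := by
  obtain ⟨f, hf1, hf3⟩ : ∃ f : ContDiffBump (0 : E n), f.rIn = 2 ∧ f.rOut = 3 :=
    ⟨⟨2, 3, by norm_num, by norm_num⟩, rfl, rfl⟩
  exact ⟨f, f.contDiff, fun x => f.nonneg, fun x hx =>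
    f.one_of_mem_closedBall (by rw [mem_closedBall, dist_zero_right, hf1]; exact hx),
    fun x hx => f.zero_of_le_dist (by rw [dist_zero_right, hf3]; exact hx)⟩
lemma DBD_A4 (n : ℕ) (χ : E n → ℝ) (hz : ∀ x, 3 ≤ ‖x‖ → χ x = 0) (x : E n) (hx : 3 < ‖x‖)
    (v w : E n) :
    D2 χ x v w = 0 := by
  have h1 : χ =ᶠ[𝓝 x] fun _ => 0 := by
    have h2 : ∀ᶠ y in 𝓝 x, 3 < ‖y‖ := continuous_norm.continuousAt.eventually_const_lt hx
    filter_upwards [h2] with y hy using hz y hy.le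
  have h3 : fderiv ℝ χ =ᶠ[𝓝 x] fderiv ℝ (fun _ : E n => (0 : ℝ)) := h1.fderiv
  unfold D2
  rw [h3.fderiv_eq]
  simp
lemma DBD_A5 (n : ℕ) (χ : E n → ℝ) (hf2 : ContDiff ℝ 2 χ) :
    Continuous fun p : E n × E n × E n => D2 χ p.1 p.2.1 p.2.2 := by
  have hc1 : ContDiff ℝ 1 (fderiv ℝ χ) := hf2.fderiv_right (by norm_num)
  have hc2 : Continuous (fderiv ℝ (fderiv ℝ χ)) := hc1.continuous_fderiv (by norm_num)
  unfold D2
  exact ((hc2.comp continuous_fst).clm_apply (continuous_fst.comp continuous_snd)).clm_apply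
    (continuous_snd.comp continuous_snd)
lemma DBD_A6 (n : ℕ) (χ : E n → ℝ) (hf2 : ContDiff ℝ 2 χ) (hz : ∀ x, 3 ≤ ‖x‖ → χ x = 0) :
    ∃ M : ℝ, 0 ≤ M ∧ ∀ x v w, |D2 χ x v w| ≤ M * ‖v‖ * ‖w‖ := by
  have hc := DBD_A5 n χ hf2
  have hK : IsCompact (closedBall (0 : E n) 3 ×ˢ
      (closedBall (0 : E n) 1 ×ˢ closedBall (0 : E n) 1)) :=
    (isCompact_closedBall _ _).prod ((isCompact_closedBall _ _).prod (isCompact_closedBall _ _))
  obtain ⟨M, hM⟩ := hK.exists_bound_of_continuousOn hc.continuousOn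
  have hM0 : 0 ≤ M := (norm_nonneg _).trans (hM (0, 0, 0) (by
    simp only [mem_prod, mem_closedBall, dist_self]; norm_num))
  refine ⟨M, hM0, fun x v w => ?_⟩
  by_cases hx : 3 < ‖x‖
  · rw [DBD_A4 n χ hz x hx v w, abs_zero]
    positivity
  have hx' : ‖x‖ ≤ 3 := not_lt.1 hx
  by_cases hv : v = 0
  · unfold D2
    rw [hv, map_zero]
    simp
  by_cases hw : w = 0
  · unfold D2
    rw [hw, map_zero]
    simp
  have hv' : ‖v‖ ≠ 0 := norm_ne_zero_iff.2 hv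
  have hw' : ‖w‖ ≠ 0 := norm_ne_zero_iff.2 hw
  have h1 := hM (x, ‖v‖⁻¹ • v, ‖w‖⁻¹ • w) (by
    simp only [mem_prod, mem_closedBall, dist_zero_right, norm_smul, norm_inv, norm_norm,
      inv_mul_cancel₀ hv', inv_mul_cancel₀ hw', le_refl, and_true]
    exact hx')
  have h2 : D2 χ x v w = ‖v‖ * ‖w‖ * D2 χ x (‖v‖⁻¹ • v) (‖w‖⁻¹ • w) := by
    have h3 : D2 χ x (‖v‖⁻¹ • v) (‖w‖⁻¹ • w) = ‖v‖⁻¹ * (‖w‖⁻¹ * D2 χ x v w) := by
      unfold D2
      simp only [map_smul, _root_.smul_apply, smul_eq_mul]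
      ring
    rw [h3]
    field_simp
  rw [h2, abs_mul, abs_of_nonneg (mul_nonneg (norm_nonneg v) (norm_nonneg w))]
  rw [Real.norm_eq_abs] at h1
  calc ‖v‖ * ‖w‖ * |D2 χ x (‖v‖⁻¹ • v) (‖w‖⁻¹ • w)| ≤ ‖v‖ * ‖w‖ * M :=
        mul_le_mul_of_nonneg_left h1 (mul_nonneg (norm_nonneg v) (norm_nonneg w))
    _ = M * ‖v‖ * ‖w‖ := by ring

/-- a cut-off function with a bounded second derivative -/
lemma DBD_bump (n : ℕ) : ∃ (χ : E n → ℝ) (M : ℝ), ContDiff ℝ 2 χ ∧ (∀ x, 0 ≤ χ x) ∧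
    (∀ x, ‖x‖ ≤ 2 → χ x = 1) ∧ (∀ x, 3 ≤ ‖x‖ → χ x = 0) ∧ 0 ≤ M ∧
    (∀ x v w, |D2 χ x v w| ≤ M * ‖v‖ * ‖w‖) ∧ ∀ x, 3 < ‖x‖ → ∀ v w, D2 χ x v w = 0 := by
  obtain ⟨χ, h1, h2, h3, h4⟩ := DBD_A1 n
  obtain ⟨M, hM0, hM⟩ := DBD_A6 n χ h1 h4
  exact ⟨χ, M, h1, h2, h3, h4, hM0, hM, fun x hx v w => DBD_A4 n χ h4 x hx v w⟩

/-- the integral against the second derivative of the cut-off function -/
lemma DBD_int (n : ℕ) : ∃ (χ : E n → ℝ) (C : ℝ), ContDiff ℝ 2 χ ∧ (∀ x, 0 ≤ χ x) ∧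
    (∀ x, ‖x‖ ≤ 2 → χ x = 1) ∧ (∀ x, 3 ≤ ‖x‖ → χ x = 0) ∧ 0 ≤ C ∧
    ∀ (h : E n → ℝ) (H : ℝ), (∀ x, ‖x‖ ≤ 3 → |h x| ≤ H) → ∀ v,
      |Dh h χ v v| ≤ C * H * ‖v‖ ^ 2 := by
  obtain ⟨χ, M, h1, h2, h3, h4, hM0, h5, h6⟩ := DBD_bump n
  refine ⟨χ, M * (volume (closedBall (0 : E n) 3)).toReal, h1, h2, h3, h4,
    mul_nonneg hM0 ENNReal.toReal_nonneg, fun h H hH v => ?_⟩
  have hH0 : 0 ≤ H := (abs_nonneg _).trans (hH 0 (by rw [norm_zero]; norm_num))
  have hfin : volume (closedBall (0 : E n) 3) ≠ ⊤ := measure_closedBall_lt_top.ne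
  have hint : Integrable ((closedBall (0 : E n) 3).indicator
      fun _ => H * (M * ‖v‖ * ‖v‖)) volume :=
    (integrable_indicator_iff isClosed_closedBall.measurableSet).2
      (integrableOn_const hfin)
  rw [← Real.norm_eq_abs]
  unfold Dh
  refine (norm_integral_le_of_norm_le hint (Filter.Eventually.of_forall fun x => ?_)).trans ?_
  · rw [norm_mul, Real.norm_eq_abs, Real.norm_eq_abs]
    by_cases hx : x ∈ closedBall (0 : E n) 3
    · rw [Set.indicator_of_mem hx]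
      have hx' : ‖x‖ ≤ 3 := by rwa [mem_closedBall, dist_zero_right] at hx
      exact mul_le_mul (hH x hx') (h5 x v v) (abs_nonneg _) hH0
    · rw [Set.indicator_of_notMem hx]
      have hx' : 3 < ‖x‖ := by
        rw [mem_closedBall, dist_zero_right] at hx
        exact not_le.1 hx
      rw [h6 x hx' v v, abs_zero, mul_zero]
  · rw [integral_indicator isClosed_closedBall.measurableSet, setIntegral_const, smul_eq_mul,
      Measure.real]
    apply le_of_eq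
    ring

theorem p_DBD (hPOS : T_POS) (hDHL : T_DHL) : T_DBD := by
  intro n
  obtain ⟨χ, C, hχ2, hχ0, hχ1, hχ3, hC0, hC⟩ := DBD_int n
  refine ⟨C, hC0, fun h hconv hcont H hH b hb hb2 β hβ v w => ?_⟩
  have hβ0 : 0 ≤ β := (abs_nonneg _).trans (hβ 0)
  have hH0 : 0 ≤ H := (abs_nonneg _).trans (hH 0 (by rw [norm_zero]; norm_num))
  have hb3 : ∀ x, (3 : ℝ) ≤ ‖x‖ → b x = 0 := fun x hx => hb2 x (by linarith)
  obtain ⟨-, lb, lv⟩ := hDHL n 3
  have hβχ : ContDiff ℝ 2 (fun x => β * χ x) := contDiff_const.mul hχ2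
  have hβχ3 : ∀ x, (3 : ℝ) ≤ ‖x‖ → β * χ x = 0 := fun x hx => by rw [hχ3 x hx, mul_zero]
  -- the multiple of the cut-off function
  have e1 : ∀ u : E n, Dh h (fun x => β * χ x) u u = β * Dh h χ u u := by
    intro u
    have h1 := lb h χ χ hcont hχ2 hχ2 hχ3 hχ3 (β - 1) u u
    have h2 : (fun x => χ x + (β - 1) * χ x) = fun x => β * χ x := by
      funext x
      ring
    rw [h2] at h1
    rw [h1]
    ring
  -- the diagonal
  have diag : ∀ u : E n, |Dh h b u u| ≤ β * (C * H * ‖u‖ ^ 2) := by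
    intro u
    have key : ∀ x, |b x| ≤ β * χ x := by
      intro x
      by_cases hx : ‖x‖ ≤ 2
      · rw [hχ1 x hx, mul_one]
        exact hβ x
      · rw [hb2 x (not_le.1 hx).le, abs_zero]
        exact mul_nonneg hβ0 (hχ0 x)
    have p1 : 0 ≤ Dh h (fun x => β * χ x + 1 * b x) u u := by
      refine hPOS n h _ hconv hcont (hβχ.add (contDiff_const.mul hb)) ⟨3, fun x hx => ?_⟩
        (fun x => ?_) u
      · rw [hχ3 x hx, hb3 x hx]
        ring
      · have := (abs_le.1 (key x)).1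
        linarith
    have p2 : 0 ≤ Dh h (fun x => β * χ x + (-1) * b x) u u := by
      refine hPOS n h _ hconv hcont (hβχ.add (contDiff_const.mul hb)) ⟨3, fun x hx => ?_⟩
        (fun x => ?_) u
      · rw [hχ3 x hx, hb3 x hx]
        ring
      · have := (abs_le.1 (key x)).2
        linarith
    rw [lb h (fun x => β * χ x) b hcont hβχ hb hβχ3 hb3, e1] at p1 p2
    have h3 : |Dh h b u u| ≤ β * Dh h χ u u := by
      rw [abs_le]
      constructor <;> linarith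
    refine h3.trans (mul_le_mul_of_nonneg_left ?_ hβ0)
    exact (le_abs_self _).trans (hC h H hH u)
  -- linearity
  have lin : ∀ (c : ℝ) (u u' z : E n), Dh h b (u + c • u') z = Dh h b u z + c * Dh h b u' z :=
    fun c u u' z => (lv h b hcont hb hb3 c u u' z).2
  have sym : ∀ u z : E n, Dh h b u z = Dh h b z u :=
    fun u z => (lv h b hcont hb hb3 0 u u z).1
  have zero1 : ∀ z : E n, Dh h b 0 z = 0 := by
    intro z
    have := lin 1 0 0 z
    simp only [smul_zero, add_zero, one_mul] at this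
    linarith
  have smul1 : ∀ (c : ℝ) (u z : E n), Dh h b (c • u) z = c * Dh h b u z := by
    intro c u z
    have := lin c 0 u z
    rw [zero_add, zero1, zero_add] at this
    exact this
  have smul2 : ∀ (c : ℝ) (u z : E n), Dh h b u (c • z) = c * Dh h b u z := by
    intro c u z
    rw [sym, smul1, sym]
  have add1 : ∀ u u' z : E n, Dh h b (u + u') z = Dh h b u z + Dh h b u' z := by
    intro u u' z
    have := lin 1 u u' z
    rwa [one_smul, one_mul] at this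
  have add2 : ∀ u z z' : E n, Dh h b u (z + z') = Dh h b u z + Dh h b u z' := by
    intro u z z'
    rw [sym, add1, sym z u, sym z' u]
  have sub1 : ∀ u u' z : E n, Dh h b (u - u') z = Dh h b u z - Dh h b u' z := by
    intro u u' z
    have := lin (-1) u u' z
    rw [neg_one_smul, ← sub_eq_add_neg] at this
    rw [this]
    ring
  have sub2 : ∀ u z z' : E n, Dh h b u (z - z') = Dh h b u z - Dh h b u z' := by
    intro u z z'
    rw [sym, sub1, sym z u, sym z' u]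
  -- unit vectors
  have unit : ∀ u z : E n, ‖u‖ = 1 → ‖z‖ = 1 → |Dh h b u z| ≤ C * H * β := by
    intro u z hu hz
    have pol : Dh h b u z = (Dh h b (u + z) (u + z) - Dh h b (u - z) (u - z)) / 4 := by
      rw [add1, add2, add2, sub1, sub2, sub2, sym z u]
      ring
    have d1 := diag (u + z)
    have d2 := diag (u - z)
    have par : ‖u + z‖ ^ 2 + ‖u - z‖ ^ 2 = 4 := by
      have := parallelogram_law_with_norm ℝ u z
      rw [hu, hz] at this
      nlinarith [this]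
    have h5 : |Dh h b (u + z) (u + z) - Dh h b (u - z) (u - z)| ≤
        β * (C * H * ‖u + z‖ ^ 2) + β * (C * H * ‖u - z‖ ^ 2) :=
      (abs_sub _ _).trans (add_le_add d1 d2)
    have h6 : β * (C * H * ‖u + z‖ ^ 2) + β * (C * H * ‖u - z‖ ^ 2) = 4 * (C * H * β) := by
      linear_combination (β * C * H) * par
    rw [h6] at h5
    rw [pol, abs_div, abs_of_pos (show (0 : ℝ) < 4 by norm_num), div_le_iff₀ (by norm_num)]
    linarith
  by_cases hv : v = 0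
  · rw [hv, zero1, abs_zero, norm_zero]
    simp
  by_cases hw : w = 0
  · rw [hw, sym, zero1, abs_zero, norm_zero]
    simp
  have hv' : ‖v‖ ≠ 0 := norm_ne_zero_iff.2 hv
  have hw' : ‖w‖ ≠ 0 := norm_ne_zero_iff.2 hw
  have h7 := unit (‖v‖⁻¹ • v) (‖w‖⁻¹ • w) (by rw [norm_smul, norm_inv, norm_norm,
    inv_mul_cancel₀ hv']) (by rw [norm_smul, norm_inv, norm_norm, inv_mul_cancel₀ hw'])
  have h8 : Dh h b v w = ‖v‖ * ‖w‖ * Dh h b (‖v‖⁻¹ • v) (‖w‖⁻¹ • w) := by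
    rw [smul1, smul2]
    field_simp
  rw [h8, abs_mul, abs_of_nonneg (mul_nonneg (norm_nonneg v) (norm_nonneg w))]
  calc ‖v‖ * ‖w‖ * |Dh h b (‖v‖⁻¹ • v) (‖w‖⁻¹ • w)| ≤ ‖v‖ * ‖w‖ * (C * H * β) :=
        mul_le_mul_of_nonneg_left h7 (mul_nonneg (norm_nonneg v) (norm_nonneg w))
    _ = C * H * β * ‖v‖ * ‖w‖ := by ring

end Pool.Agent.GLB
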