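import Pool.Agent.GLB.TF

/-!
# GLB: target DEN (density of smooth functions, with control of the support)
-/

set_option autoImplicit false

open Metric Set Filter Topology MeasureTheory Manifold

noncomputable section

namespace Pool.Agent.GLB

/-- smooth approximation with control of the zeros -/
lemma DEN_.approx (n : ℕ) (f₀ : C(E n, ℝ)) (ε : ℝ) (hε : 0 < ε) :
    ∃ p : E n → ℝ, ContDiff ℝ 2 p ∧ ∀ x, |p x - f₀ x| < ε ∧ (f₀ x = 0 → p x = 0) := by
  have ht : ∀ x : E n, Convex ℝ {z : ℝ | |z - f₀ x| < ε ∧ (f₀ x = 0 → z = 0)} := by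
    intro x a ha b hb s t hs ht hst
    refine ⟨?_, fun h0 => ?_⟩
    · have h1 : a ∈ ball (f₀ x) ε := by
        rw [mem_ball, Real.dist_eq]
        exact ha.1
      have h2 : b ∈ ball (f₀ x) ε := by
        rw [mem_ball, Real.dist_eq]
        exact hb.1
      have h3 := convex_ball (f₀ x) ε h1 h2 hs ht hst
      rw [mem_ball, Real.dist_eq] at h3
      exact h3
    · have h1 : a = 0 := ha.2 h0
      have h2 : b = 0 := hb.2 h0
      rw [h1, h2, smul_zero, smul_zero, add_zero]
  have hloc : ∀ x : E n, ∃ c : ℝ, ∀ᶠ y in 𝓝 x,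
      c ∈ {z : ℝ | |z - f₀ y| < ε ∧ (f₀ y = 0 → z = 0)} := by
    intro x
    by_cases hx : |f₀ x| < ε
    · refine ⟨0, ?_⟩
      have h1 : Continuous fun y => |f₀ y| := f₀.continuous.abs
      filter_upwards [h1.continuousAt.eventually_lt continuousAt_const hx] with y hy
      refine ⟨?_, fun _ => rfl⟩
      rw [zero_sub, abs_neg]
      exact hy
    · refine ⟨f₀ x, ?_⟩
      have hne : f₀ x ≠ 0 := by
        intro h0
        rw [h0, abs_zero] at hx
        exact hx hε
      have h1 : Continuous fun y => |f₀ x - f₀ y| := (continuous_const.sub f₀.continuous).abs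
      have h2 : |f₀ x - f₀ x| < ε := by
        rw [sub_self, abs_zero]
        exact hε
      filter_upwards [h1.continuousAt.eventually_lt continuousAt_const h2,
        f₀.continuous.continuousAt.eventually_ne hne] with y hy hy2
      exact ⟨hy, fun h0 => absurd h0 hy2⟩
  obtain ⟨g, hg⟩ := exists_contMDiffMap_forall_mem_convex_of_local_const (n := 2)
    (𝓘(ℝ, E n)) ht hloc
  exact ⟨g, g.contMDiff.contDiff, hg⟩

theorem p_DEN (hCUTO : T_CUTO) : T_DEN := by
  intro n φ U _ hφ ε hε
  obtain ⟨f₀, hf₀⟩ := ContinuousMap.exists_restrict_eq (s := sphere (0 : E n) 1) isClosed_sphere φ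
  have hf₁ : ∀ u : S n, f₀ (u : E n) = φ u := by
    intro u
    rw [← hf₀]
    rfl
  obtain ⟨p, hp, hp2⟩ := DEN_.approx n f₀ ε hε
  have hq : ContDiffOn ℝ 2 (fun x : E n => p (‖x‖⁻¹ • x)) {x | x ≠ 0} := by
    refine hp.comp_contDiffOn ?_
    have h1 : ContDiffOn ℝ 2 (fun x : E n => ‖x‖) {x | x ≠ 0} := fun x hx =>
      (contDiffAt_norm ℝ hx).contDiffWithinAt
    exact (h1.inv fun x hx => norm_ne_zero_iff.2 hx).smul contDiffOn_id
  obtain ⟨f, hf, hf2⟩ := hCUTO n _ hq
  refine ⟨f, ⟨fun u => p (u : E n), hp.continuous.comp continuous_subtype_val⟩, hf, ?_, ?_, ?_⟩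
  · intro u r hr _
    have hu : ‖(u : E n)‖ = 1 := by
      have := u.2
      rwa [mem_sphere_iff_norm, sub_zero] at this
    have hr0 : 0 < r := by linarith
    have h1 : ‖r • (u : E n)‖ = r := by
      rw [norm_smul, hu, mul_one, Real.norm_of_nonneg hr0.le]
    rw [hf2 _ (by rw [h1]; exact hr.le), h1, smul_smul, inv_mul_cancel₀ hr0.ne', one_smul]
    rfl
  · intro u hu
    exact (hp2 u).2 (by rw [hf₁, hφ u hu])
  · rw [ContinuousMap.norm_le _ hε.le]
    intro u
    have h1 := (hp2 u).1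
    rw [hf₁, abs_sub_comm] at h1
    exact h1.le

end Pool.Agent.GLB
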