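import Pool.Agent.GLB.TC

/-!
# GLB: DHL, linearity of the pairing
-/

set_option autoImplicit false

open Metric Set Filter Topology MeasureTheory

noncomputable section

namespace Pool.Agent.GLB

lemma DHL_int (hPRD : T_PRD) {n : ℕ} {R : ℝ} {h b : E n → ℝ} (hh : Continuous h)
    (hb : ContDiff ℝ 2 b) (hR : ∀ x, R ≤ ‖x‖ → b x = 0) (v w : E n) :
    Integrable fun x => h x * D2 b x v w := by
  obtain ⟨-, -, -, -, -, h6, h7⟩ := hPRD n
  have hc : Continuous fun x => h x * D2 b x v w := by
    refine hh.mul ?_
    exact (h7 b hb).comp (continuous_id.prodMk (continuous_const (y := ((v, w) : E n × E n))))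
  refine hc.integrable_of_hasCompactSupport ?_
  refine HasCompactSupport.intro (isCompact_closedBall (0 : E n) R) fun x hx => ?_
  have hx1 : R < ‖x‖ := by
    simpa [mem_closedBall, dist_zero_right] using hx
  have h1 : b =ᶠ[𝓝 x] fun _ => 0 := by
    have h2 : ∀ᶠ y in 𝓝 x, R < ‖y‖ := continuous_norm.continuousAt.eventually_const_lt hx1
    filter_upwards [h2] with y hy
    exact hR y hy.le
  rw [h6 b (fun _ => 0) x h1 v w]
  have h3 : D2 (fun _ : E n => (0 : ℝ)) x v w = 0 := by
    unfold D2
    simp
  rw [h3, mul_zero]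

theorem p_DHL (hPRD : T_PRD) : T_DHL := by
  intro n R
  have hP := hPRD n
  obtain ⟨-, -, h3, h4, h5, -, -⟩ := hP
  refine ⟨?_, ?_, ?_⟩
  · intro h h' b hh hh' hb hR c v w
    unfold Dh
    rw [← integral_const_mul, ← integral_add (DHL_int hPRD hh hb hR v w)
      ((DHL_int hPRD hh' hb hR v w).const_mul c)]
    refine integral_congr_ae (Eventually.of_forall fun x => ?_)
    dsimp only
    ring
  · intro h b b' hh hb hb' hR hR' c v w
    unfold Dh
    rw [← integral_const_mul, ← integral_add (DHL_int hPRD hh hb hR v w)
      ((DHL_int hPRD hh hb' hR' v w).const_mul c)]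
    refine integral_congr_ae (Eventually.of_forall fun x => ?_)
    dsimp only
    rw [h3 b (fun x => c * b' x) hb (contDiff_const.mul hb') x v w, h4 c b' hb' x v w]
    ring
  · intro h b hh hb hR c v v' w
    refine ⟨?_, ?_⟩
    · unfold Dh
      refine integral_congr_ae (Eventually.of_forall fun x => ?_)
      dsimp only
      rw [h5 b hb x v w]
    · unfold Dh
      rw [← integral_const_mul, ← integral_add (DHL_int hPRD hh hb hR v w)
        ((DHL_int hPRD hh hb hR v' w).const_mul c)]
      refine integral_congr_ae (Eventually.of_forall fun x => ?_)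
      have h1 : D2 b x (v + c • v') w = D2 b x v w + c * D2 b x v' w := by
        unfold D2
        simp
      dsimp only
      rw [h1]
      ring

end Pool.Agent.GLB
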