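import Pool.Agent.GLB.TC

/-!
# GLB: proof of the target DUI (differentiation under the integral sign)
-/

set_option autoImplicit false
set_option maxHeartbeats 4000000

open Metric Set Filter Topology MeasureTheory

noncomputable section

namespace Pool.Agent.GLB

namespace DUI_

/-- differentiation under the integral sign for continuous integrands with bounded supports -/
theorem gen {n : ℕ} (G G' : ℝ → E n → ℝ) (hG : Continuous fun p : ℝ × E n => G p.1 p.2)
    (hG' : Continuous fun p : ℝ × E n => G' p.1 p.2)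
    (hd : ∀ t x, HasDerivAt (fun t => G t x) (G' t x) t) (t₀ M : ℝ)
    (h0 : ∀ t ∈ Icc (t₀ - 1) (t₀ + 1), ∀ x : E n, M < ‖x‖ → G t x = 0)
    (h0' : ∀ t ∈ Icc (t₀ - 1) (t₀ + 1), ∀ x : E n, M < ‖x‖ → G' t x = 0) :
    HasDerivAt (fun t => ∫ x, G t x) (∫ x, G' t₀ x) t₀ := by
  have hK : IsCompact (Icc (t₀ - 1) (t₀ + 1) ×ˢ closedBall (0 : E n) M) :=
    isCompact_Icc.prod (isCompact_closedBall _ _)
  obtain ⟨C, hC⟩ := hK.exists_bound_of_continuousOn hG'.continuousOn
  have ht₀ : t₀ ∈ Icc (t₀ - 1) (t₀ + 1) := ⟨by linarith, by linarith⟩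
  have hs : Icc (t₀ - 1) (t₀ + 1) ∈ 𝓝 t₀ := Icc_mem_nhds (by linarith) (by linarith)
  have hcs : ∀ t, Continuous fun x : E n => G t x := fun t =>
    hG.comp (continuous_const.prodMk continuous_id)
  have hcs' : ∀ t, Continuous fun x : E n => G' t x := fun t =>
    hG'.comp (continuous_const.prodMk continuous_id)
  have hint : Integrable (fun x : E n => G t₀ x) := by
    refine (hcs t₀).integrable_of_hasCompactSupport ?_
    refine HasCompactSupport.intro (isCompact_closedBall (0 : E n) M) fun x hx => ?_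
    rw [mem_closedBall, dist_zero_right, not_le] at hx
    exact h0 t₀ ht₀ x hx
  refine (hasDerivAt_integral_of_dominated_loc_of_deriv_le (μ := volume)
    (F := fun t x => G t x) (F' := fun t x => G' t x)
    (bound := (closedBall (0 : E n) M).indicator fun _ => C) hs
    (Filter.Eventually.of_forall fun t => (hcs t).aestronglyMeasurable) hint
    (hcs' t₀).aestronglyMeasurable ?_ ?_ ?_).2
  · refine Filter.Eventually.of_forall fun x t ht => ?_
    by_cases hx : x ∈ closedBall (0 : E n) M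
    · rw [indicator_of_mem hx]
      exact hC (t, x) ⟨ht, hx⟩
    · rw [indicator_of_notMem hx]
      rw [mem_closedBall, dist_zero_right, not_le] at hx
      rw [h0' t ht x hx, norm_zero]
  · rw [integrable_indicator_iff measurableSet_closedBall]
    exact integrableOn_const (isCompact_closedBall (0 : E n) M).measure_lt_top.ne
  · exact Filter.Eventually.of_forall fun x t _ => hd t x

theorem evz {n : ℕ} (b : E n → ℝ) (R : ℝ) (hb : ∀ x, R ≤ ‖x‖ → b x = 0) (x : E n)
    (hx : R < ‖x‖) : b =ᶠ[𝓝 x] fun _ => (0 : ℝ) := by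
  have h1 : ∀ᶠ y in 𝓝 x, R < ‖y‖ := continuous_norm.continuousAt.eventually (lt_mem_nhds hx)
  filter_upwards [h1] with y hy
  exact hb y hy.le

theorem fz {n : ℕ} (b : E n → ℝ) (R : ℝ) (hb : ∀ x, R ≤ ‖x‖ → b x = 0) (x : E n)
    (hx : R < ‖x‖) : fderiv ℝ b x = 0 := by
  rw [(evz b R hb x hx).fderiv_eq]
  simp

theorem ffz {n : ℕ} (b : E n → ℝ) (R : ℝ) (hb : ∀ x, R ≤ ‖x‖ → b x = 0) (x : E n)
    (hx : R < ‖x‖) : fderiv ℝ (fderiv ℝ b) x = 0 := by
  have h1 : ∀ᶠ y in 𝓝 x, R < ‖y‖ := continuous_norm.continuousAt.eventually (lt_mem_nhds hx)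
  have h2 : fderiv ℝ b =ᶠ[𝓝 x] fun _ => (0 : E n →L[ℝ] ℝ) := by
    filter_upwards [h1] with y hy
    exact fz b R hb y hy
  rw [h2.fderiv_eq]
  simp

/-- the translates have supports in a fixed ball -/
theorem shift {n : ℕ} (R : ℝ) (γ : ℝ → E n) (hγ : Continuous γ) (t₀ : ℝ) :
    ∃ M : ℝ, ∀ t ∈ Icc (t₀ - 1) (t₀ + 1), ∀ x : E n, M < ‖x‖ → R < ‖x - γ t‖ := by
  obtain ⟨Γ, hΓ⟩ := (isCompact_Icc (a := t₀ - 1) (b := t₀ + 1)).exists_bound_of_continuousOn
    hγ.continuousOn
  refine ⟨R + Γ, fun t ht x hx => ?_⟩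
  have h1 := hΓ t ht
  have h2 := norm_sub_norm_le x (γ t)
  linarith

end DUI_

theorem p_DUI : T_DUI := by
  intro n h b R γ γ₁ γ₂ hh hb hb0 hγ hγ₁ hγ₂
  have hγc : Continuous γ := continuous_iff_continuousAt.2 fun t => (hγ t).continuousAt
  have hγ₁c : Continuous γ₁ := continuous_iff_continuousAt.2 fun t => (hγ₁ t).continuousAt
  have hb1 : ContDiff ℝ 1 (fderiv ℝ b) := hb.fderiv_right (by norm_num)
  have hbd : Differentiable ℝ b := hb.differentiable (by norm_num)
  have hb1d : Differentiable ℝ (fderiv ℝ b) := hb1.differentiable (by norm_num)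
  have hbc : Continuous b := hb.continuous
  have hfc : Continuous (fderiv ℝ b) := hb1.continuous
  have hffc : Continuous (fderiv ℝ (fderiv ℝ b)) := hb1.continuous_fderiv (by norm_num)
  -- the translation
  have htr : Continuous fun p : ℝ × E n => p.2 - γ p.1 :=
    continuous_snd.sub (hγc.comp continuous_fst)
  have htd : ∀ (x : E n) (t : ℝ), HasDerivAt (fun t => x - γ t) (-γ₁ t) t := fun x t => by
    have := (hasDerivAt_const t x).sub (hγ t)
    rwa [zero_sub] at this
  have hF1 : ∀ (x : E n) (t : ℝ), HasDerivAt (fun t => b (x - γ t))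
      (fderiv ℝ b (x - γ t) (-γ₁ t)) t := fun x t =>
    (hbd (x - γ t)).hasFDerivAt.comp_hasDerivAt t (htd x t)
  have hF2 : ∀ (x : E n) (t : ℝ), HasDerivAt (fun t => fderiv ℝ b (x - γ t))
      (fderiv ℝ (fderiv ℝ b) (x - γ t) (-γ₁ t)) t := fun x t =>
    (hb1d (x - γ t)).hasFDerivAt.comp_hasDerivAt t (htd x t)
  have hF3 : ∀ (x : E n) (t : ℝ), HasDerivAt (fun t => fderiv ℝ b (x - γ t) (γ₁ t))
      (fderiv ℝ (fderiv ℝ b) (x - γ t) (-γ₁ t) (γ₁ t) + fderiv ℝ b (x - γ t) (γ₂ t)) t :=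
    fun x t => (hF2 x t).clm_apply (hγ₁ t)
  refine ⟨fun t₀ => ?_, fun t₀ => ?_⟩
  · obtain ⟨M, hM⟩ := DUI_.shift R γ hγc t₀
    have key := DUI_.gen (fun t x => h x * b (x - γ t))
      (fun t x => h x * fderiv ℝ b (x - γ t) (-γ₁ t)) ?_ ?_ (fun t x => (hF1 x t).const_mul _)
      t₀ M ?_ ?_
    · refine key.congr_deriv ?_
      rw [← integral_neg]
      refine integral_congr_ae (Filter.Eventually.of_forall fun x => ?_)
      simp
    · exact (hh.comp continuous_snd).mul (hbc.comp htr)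
    · exact (hh.comp continuous_snd).mul
        ((hfc.comp htr).clm_apply (hγ₁c.comp continuous_fst).neg)
    · intro t ht x hx
      rw [hb0 _ (hM t ht x hx).le, mul_zero]
    · intro t ht x hx
      rw [DUI_.fz b R hb0 _ (hM t ht x hx)]
      simp
  · obtain ⟨M, hM⟩ := DUI_.shift R γ hγc t₀
    have key := DUI_.gen (fun t x => h x * fderiv ℝ b (x - γ t) (γ₁ t))
      (fun t x => h x * (fderiv ℝ (fderiv ℝ b) (x - γ t) (-γ₁ t) (γ₁ t) +
        fderiv ℝ b (x - γ t) (γ₂ t))) ?_ ?_ (fun t x => (hF3 x t).const_mul _)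
      t₀ M ?_ ?_
    · refine key.neg.congr_deriv ?_
      rw [← integral_neg]
      refine integral_congr_ae (Filter.Eventually.of_forall fun x => ?_)
      simp only [D2, map_neg, neg_apply]
      ring
    · exact (hh.comp continuous_snd).mul
        ((hfc.comp htr).clm_apply (hγ₁c.comp continuous_fst))
    · exact (hh.comp continuous_snd).mul
        ((((hffc.comp htr).clm_apply (hγ₁c.comp continuous_fst).neg).clm_apply
          (hγ₁c.comp continuous_fst)).add
            ((hfc.comp htr).clm_apply (hγ₂.comp continuous_fst)))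
    · intro t ht x hx
      rw [DUI_.fz b R hb0 _ (hM t ht x hx)]
      simp
    · intro t ht x hx
      rw [DUI_.fz b R hb0 _ (hM t ht x hx), DUI_.ffz b R hb0 _ (hM t ht x hx)]
      simp

end Pool.Agent.GLB
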