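import Pool.Agent.GLB.TF

/-!
# GLB: target EXT (Hahn-Banach)
-/

set_option autoImplicit false

noncomputable section

namespace Pool.Agent.GLB

theorem p_EXT : T_EXT := by
  intro X _ _ P M hM hadd hsmul hbd
  by_cases hP : ∃ φ c, P φ c
  · obtain ⟨φ₀, c₀, h₀⟩ := hP
    have h00 : P 0 0 := by
      have := hsmul 0 φ₀ c₀ h₀
      rwa [zero_smul, zero_mul] at this
    let G : Submodule ℝ (X × ℝ) :=
      { carrier := {q | P q.1 q.2}
        zero_mem' := h00
        add_mem' := fun {a b} ha hb => hadd a.1 b.1 a.2 b.2 ha hb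
        smul_mem' := fun t a ha => hsmul t a.1 a.2 ha }
    have hG : ∀ x ∈ G, x.1 = 0 → x.2 = 0 := by
      intro x hx h
      have h1 : |x.2| ≤ M * ‖x.1‖ := hbd x.1 x.2 hx
      rw [h, norm_zero, mul_zero] at h1
      exact abs_nonpos_iff.1 h1
    have hgr := Submodule.toLinearPMap_graph_eq G hG
    have hdom : ∀ x : G.toLinearPMap.domain, P (x : X) (G.toLinearPMap x) := by
      intro x
      have h1 : ((x : X), G.toLinearPMap x) ∈ G.toLinearPMap.graph := LinearPMap.mem_graph _ x
      rw [hgr] at h1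
      exact h1
    obtain ⟨g, hg1, hg2⟩ := exists_extension_of_le_sublinear G.toLinearPMap
      (fun x => M * ‖x‖) (fun c hc x => by
        simp only [norm_smul, Real.norm_eq_abs, abs_of_pos hc]; ring)
      (fun x y => by
        have := mul_le_mul_of_nonneg_left (norm_add_le x y) hM
        linarith)
      (fun x => (le_abs_self _).trans (hbd _ _ (hdom x)))
    have hg3 : ∀ x, |g x| ≤ M * ‖x‖ := by
      intro x
      rw [abs_le]
      refine ⟨?_, hg2 x⟩
      have h1 := hg2 (-x)
      simp only [map_neg, norm_neg] at h1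
      linarith
    refine ⟨g.mkContinuous M hg3, fun φ c h => ?_, hg3⟩
    have h1 : (φ, c) ∈ G.toLinearPMap.graph := by
      rw [hgr]
      exact h
    rw [LinearPMap.mem_graph_iff] at h1
    obtain ⟨y, hy1, hy2⟩ := h1
    simp only at hy1 hy2
    change g φ = c
    rw [← hy2, ← hg1 y, hy1]
  · push Not at hP
    exact ⟨0, fun φ c h => absurd h (hP φ c), fun φ => by
      change |(0 : ℝ)| ≤ _
      rw [abs_zero]
      exact mul_nonneg hM (norm_nonneg _)⟩

end Pool.Agent.GLB
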