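import Pool.Agent.GLB.TC

/-!
# GLB, target FBD: bound for `F`
-/

set_option autoImplicit false

open Metric Set Filter Topology MeasureTheory

noncomputable section

namespace Pool.Agent.GLB

namespace FBD_

/-- bound for one term -/
theorem one (hPRD : T_PRD) {n : ℕ} {δ : ℝ} (hδ : δ < 1 / 2) {f b : E n → ℝ}
    (hf : ContDiff ℝ 2 f) (hb : ContDiff ℝ 2 b) (hb0 : ∀ y, δ ≤ ‖y‖ → b y = 0) :
    ∃ C : ℝ, 0 ≤ C ∧ ∀ h : E n → ℝ, ∀ H : ℝ, (∀ x, ‖x‖ ≤ 2 → |h x| ≤ H) →
      ∀ u v w : E n, ‖u‖ = 1 → ‖v‖ = 1 → ‖w‖ = 1 →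
      |Dh h (fun x => f x * b (x - u)) v w| ≤ C * H := by
  obtain ⟨h1, h2, -, -, -, h6, h7⟩ := hPRD n
  -- the second derivative
  let Φ : E n × E n × E n × E n → ℝ := fun q =>
    f q.1 * D2 b (q.1 - q.2.1) q.2.2.1 q.2.2.2 +
      fderiv ℝ f q.1 q.2.2.1 * fderiv ℝ b (q.1 - q.2.1) q.2.2.2 +
      fderiv ℝ f q.1 q.2.2.2 * fderiv ℝ b (q.1 - q.2.1) q.2.2.1 +
      b (q.1 - q.2.1) * D2 f q.1 q.2.2.1 q.2.2.2
  have hΦ : Continuous Φ := by
    have c1 : Continuous (fderiv ℝ f) := hf.continuous_fderiv (by norm_num)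
    have c2 : Continuous (fderiv ℝ b) := hb.continuous_fderiv (by norm_num)
    have c3 := hf.continuous
    have c4 := hb.continuous
    have d1 : Continuous fun q : E n × E n × E n × E n => D2 b (q.1 - q.2.1) q.2.2.1 q.2.2.2 :=
      (h7 b hb).comp (g := fun p : E n × E n × E n => D2 b p.1 p.2.1 p.2.2)
        (f := fun q : E n × E n × E n × E n => (q.1 - q.2.1, q.2.2.1, q.2.2.2)) (by fun_prop)
    have d2 : Continuous fun q : E n × E n × E n × E n => D2 f q.1 q.2.2.1 q.2.2.2 :=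
      (h7 f hf).comp (g := fun p : E n × E n × E n => D2 f p.1 p.2.1 p.2.2)
        (f := fun q : E n × E n × E n × E n => (q.1, q.2.2.1, q.2.2.2)) (by fun_prop)
    have e1 : Continuous fun q : E n × E n × E n × E n => fderiv ℝ f q.1 q.2.2.1 :=
      (c1.comp continuous_fst).clm_apply (by fun_prop)
    have e2 : Continuous fun q : E n × E n × E n × E n => fderiv ℝ f q.1 q.2.2.2 :=
      (c1.comp continuous_fst).clm_apply (by fun_prop)
    have e3 : Continuous fun q : E n × E n × E n × E n => fderiv ℝ b (q.1 - q.2.1) q.2.2.1 :=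
      (c2.comp (by fun_prop : Continuous fun q : E n × E n × E n × E n =>
        q.1 - q.2.1)).clm_apply (by fun_prop)
    have e4 : Continuous fun q : E n × E n × E n × E n => fderiv ℝ b (q.1 - q.2.1) q.2.2.2 :=
      (c2.comp (by fun_prop : Continuous fun q : E n × E n × E n × E n =>
        q.1 - q.2.1)).clm_apply (by fun_prop)
    have f1 : Continuous fun q : E n × E n × E n × E n => f q.1 := c3.comp continuous_fst
    have f2 : Continuous fun q : E n × E n × E n × E n => b (q.1 - q.2.1) :=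
      c4.comp (by fun_prop)
    exact (((f1.mul d1).add (e1.mul e4)).add (e2.mul e3)).add (f2.mul d2)
  have hD : ∀ x u v w : E n, D2 (fun y => f y * b (y - u)) x v w = Φ (x, u, v, w) := by
    intro x u v w
    rw [h1 f (fun y => b (y - u)) hf (hb.comp (by fun_prop)) x v w, h2 b u x v w]
    have e : fderiv ℝ (fun y => b (y - u)) x = fderiv ℝ b (x - u) := fderiv_comp_sub u
    rw [e]
  obtain ⟨C₁, hC₁⟩ := ((isCompact_closedBall (0 : E n) 2).prod
    ((isCompact_closedBall (0 : E n) 1).prod ((isCompact_closedBall (0 : E n) 1).prod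
      (isCompact_closedBall (0 : E n) 1)))).exists_bound_of_continuousOn hΦ.continuousOn
  refine ⟨max C₁ 0 * (volume : Measure (E n)).real (closedBall (0 : E n) 2), by positivity, ?_⟩
  intro h H hH u v w hu hv hw
  have hH0 : 0 ≤ H := (abs_nonneg _).trans (hH 0 (by simp))
  have hz : ∀ x, x ∉ closedBall (0 : E n) 2 →
      h x * D2 (fun y => f y * b (y - u)) x v w = 0 := by
    intro x hx
    rw [mem_closedBall, dist_zero_right, not_le] at hx
    have e1 : (fun y => f y * b (y - u)) =ᶠ[𝓝 x] fun _ => (0 : ℝ) := by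
      have e2 : ∀ᶠ y in 𝓝 x, 2 < ‖y‖ := continuous_norm.continuousAt.eventually_const_lt hx
      filter_upwards [e2] with y hy
      have e3 : ‖y‖ - ‖u‖ ≤ ‖y - u‖ := norm_sub_norm_le y u
      rw [hb0 (y - u) (by linarith), mul_zero]
    rw [h6 _ _ x e1 v w]
    have e4 : D2 (fun _ : E n => (0 : ℝ)) x v w = 0 := by
      unfold D2
      have e5 : fderiv ℝ (fun _ : E n => (0 : ℝ)) = fun _ => 0 := by
        funext y
        exact fderiv_const_apply 0
      rw [e5, fderiv_const_apply]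
      rfl
    rw [e4, mul_zero]
  have hb2 : ∀ x ∈ closedBall (0 : E n) 2,
      ‖h x * D2 (fun y => f y * b (y - u)) x v w‖ ≤ H * max C₁ 0 := by
    intro x hx
    rw [norm_mul]
    refine mul_le_mul (hH x (by simpa using hx)) ?_ (norm_nonneg _) hH0
    rw [hD]
    refine (hC₁ (x, u, v, w) ⟨hx, ?_, ?_, ?_⟩).trans (le_max_left _ _)
    · simp [hu]
    · simp [hv]
    · simp [hw]
  unfold Dh
  rw [← setIntegral_eq_integral_of_forall_compl_eq_zero hz, ← Real.norm_eq_abs]
  refine (norm_setIntegral_le_of_norm_le_const ?_ hb2).trans (le_of_eq (by ring))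
  exact (isCompact_closedBall (0 : E n) 2).measure_lt_top

end FBD_

open FBD_ in
theorem p_FBD (hPRD : T_PRD) : T_FBD := by
  intro n δ m f hf
  obtain ⟨C₁, h1, h2⟩ := one hPRD m.hδ2 hf m.η_C2 m.η_zero
  obtain ⟨C₂, h3, h4⟩ := one hPRD m.hδ2 hf m.θ_C2 m.θ_zero
  refine ⟨C₁ + n * C₂, by positivity, ?_⟩
  intro h _ H hH u v hu hv
  unfold F
  refine (abs_add_le _ _).trans ?_
  rw [add_mul]
  refine add_le_add (h2 h H hH u v v hu hv hv) ((Finset.abs_sum_le_sum_abs _ _).trans ?_)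
  refine (Finset.sum_le_sum fun i _ => h4 h H hH u (eb i) (eb i) hu ?_ ?_).trans ?_
  · simp [eb]
  · simp [eb]
  · rw [Finset.sum_const, Finset.card_univ, Fintype.card_fin, nsmul_eq_mul]
    exact le_of_eq (by ring)

end Pool.Agent.GLB
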