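import Pool.Agent.GLB.TC

/-!
# GLB, target FCG: `F` only depends on the functions in the shell
-/

set_option autoImplicit false

open Metric Set Filter Topology MeasureTheory

noncomputable section

namespace Pool.Agent.GLB

namespace FCG_

/-- the second derivative of the zero function -/
theorem zero {n : ℕ} (x v w : E n) : D2 (fun _ : E n => (0 : ℝ)) x v w = 0 := by
  unfold D2
  have e5 : fderiv ℝ (fun _ : E n => (0 : ℝ)) = fun _ => 0 := by
    funext y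
    exact fderiv_const_apply 0
  rw [e5]
  have e6 : fderiv ℝ (fun _ : E n => (0 : E n →L[ℝ] ℝ)) x = 0 := fderiv_const_apply 0
  rw [e6]
  simp

/-- outside the shell the second derivative vanishes -/
theorem van (hPRD : T_PRD) {n : ℕ} {δ : ℝ} (hδ : δ < 1 / 2) {b : E n → ℝ}
    (hb0 : ∀ y, δ ≤ ‖y‖ → b y = 0) (f : E n → ℝ) {u : E n} {x : E n}
    (hx : 1 / 2 ≤ ‖x - u‖) (v w : E n) : D2 (fun y => f y * b (y - u)) x v w = 0 := by
  obtain ⟨-, -, -, -, -, h6, -⟩ := hPRD n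
  have e1 : (fun y => f y * b (y - u)) =ᶠ[𝓝 x] fun _ => (0 : ℝ) := by
    have c1 : Continuous fun y : E n => ‖y - u‖ := by fun_prop
    have e2 : ∀ᶠ y in 𝓝 x, δ < ‖y - u‖ :=
      c1.continuousAt.eventually_const_lt (by linarith)
    filter_upwards [e2] with y hy
    rw [hb0 (y - u) hy.le, mul_zero]
  rw [h6 _ _ x e1 v w, zero]

/-- one term -/
theorem one (hPRD : T_PRD) {n : ℕ} {δ : ℝ} (hδ : δ < 1 / 2) {b : E n → ℝ}
    (hb0 : ∀ y, δ ≤ ‖y‖ → b y = 0) {h h' f f' : E n → ℝ} {u : E n} (hu : ‖u‖ = 1)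
    (hf : ∀ x, 1 / 2 < ‖x‖ → ‖x‖ < 2 → f x = f' x)
    (hh : ∀ x, 1 / 2 < ‖x‖ → ‖x‖ < 2 → h x = h' x) (v w : E n) :
    Dh h (fun x => f x * b (x - u)) v w = Dh h' (fun x => f' x * b (x - u)) v w := by
  unfold Dh
  refine integral_congr_ae (Eventually.of_forall fun x => ?_)
  by_cases hx : 1 / 2 < ‖x‖ ∧ ‖x‖ < 2
  · obtain ⟨-, -, -, -, -, h6, -⟩ := hPRD n
    have e1 : (fun y => f y * b (y - u)) =ᶠ[𝓝 x] fun y => f' y * b (y - u) := by
      have e2 : ∀ᶠ y in 𝓝 x, 1 / 2 < ‖y‖ :=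
        continuous_norm.continuousAt.eventually_const_lt hx.1
      have e3 : ∀ᶠ y in 𝓝 x, ‖y‖ < 2 :=
        continuous_norm.continuousAt.eventually_lt_const hx.2
      filter_upwards [e2, e3] with y hy1 hy2
      rw [hf y hy1 hy2]
    show h x * D2 (fun y => f y * b (y - u)) x v w = h' x * D2 (fun y => f' y * b (y - u)) x v w
    rw [h6 _ _ x e1 v w, hh x hx.1 hx.2]
  · have hx' : 1 / 2 ≤ ‖x - u‖ := by
      by_cases h1 : 1 / 2 < ‖x‖
      · have h2 : 2 ≤ ‖x‖ := by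
          by_contra h3
          exact hx ⟨h1, not_le.1 h3⟩
        have h4 : ‖x‖ - ‖u‖ ≤ ‖x - u‖ := norm_sub_norm_le x u
        linarith
      · have h4 : ‖u‖ - ‖x‖ ≤ ‖u - x‖ := norm_sub_norm_le u x
        rw [norm_sub_rev] at h4
        linarith
    show h x * D2 (fun y => f y * b (y - u)) x v w = h' x * D2 (fun y => f' y * b (y - u)) x v w
    rw [van hPRD hδ hb0 f hx', van hPRD hδ hb0 f' hx', mul_zero, mul_zero]

end FCG_

theorem p_FCG (hPRD : T_PRD) : T_FCG := by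
  intro n δ m h h' f f' u v hu hf hh
  unfold F
  rw [FCG_.one hPRD m.hδ2 m.η_zero hu hf hh v v]
  refine congrArg₂ _ rfl (Finset.sum_congr rfl fun i _ => ?_)
  exact FCG_.one hPRD m.hδ2 m.θ_zero hu hf hh (eb i) (eb i)

end Pool.Agent.GLB
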