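import Pool.Agent.GLB.TC

/-!
# GLB: FLN (linearity of `F`), by helper58
-/

set_option autoImplicit false

open Metric Set Filter Topology MeasureTheory

noncomputable section

namespace Pool.Agent.GLB

namespace FLN_

lemma cd {n : ℕ} {f g : E n → ℝ} (hf : ContDiff ℝ 2 f) (hg : ContDiff ℝ 2 g) (u : E n) :
    ContDiff ℝ 2 fun x => f x * g (x - u) :=
  hf.mul (hg.comp (contDiff_id.sub contDiff_const))

lemma zr {n : ℕ} {f g : E n → ℝ} {δ : ℝ} (hg : ∀ y, δ ≤ ‖y‖ → g y = 0) (u : E n) :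
    ∀ x, ‖u‖ + δ ≤ ‖x‖ → f x * g (x - u) = 0 := by
  intro x hx
  rw [hg, mul_zero]
  have := norm_sub_norm_le x u
  linarith

end FLN_

open FLN_ in
theorem p_FLN (hDHL : T_DHL) : T_FLN := by
  intro n δ m u v
  obtain ⟨h1, h2, _⟩ := hDHL n (‖u‖ + δ)
  constructor
  · intro h h' f c hh hh' hf
    unfold F
    rw [h1 h h' _ hh hh' (cd hf m.η_C2 u) (zr m.η_zero u) c v v]
    have h3 : ∀ i : Fin n, Dh (fun x => h x + c * h' x) (fun x => f x * m.θ (x - u))
        (eb i) (eb i) = Dh h (fun x => f x * m.θ (x - u)) (eb i) (eb i) +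
          c * Dh h' (fun x => f x * m.θ (x - u)) (eb i) (eb i) := fun i =>
      h1 h h' _ hh hh' (cd hf m.θ_C2 u) (zr m.θ_zero u) c (eb i) (eb i)
    simp only [h3, Finset.sum_add_distrib, ← Finset.mul_sum]
    ring
  · intro h f f' c hh hf hf'
    unfold F
    have h4 : (fun x => (f x + c * f' x) * m.η (x - u)) =
        fun x => f x * m.η (x - u) + c * (f' x * m.η (x - u)) := by
      funext x; ring
    have h5 : (fun x => (f x + c * f' x) * m.θ (x - u)) =
        fun x => f x * m.θ (x - u) + c * (f' x * m.θ (x - u)) := by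
      funext x; ring
    rw [h4, h5, h2 h _ _ hh (cd hf m.η_C2 u) (cd hf' m.η_C2 u) (zr m.η_zero u)
      (zr m.η_zero u) c v v]
    have h3 : ∀ i : Fin n, Dh h (fun x => f x * m.θ (x - u) + c * (f' x * m.θ (x - u)))
        (eb i) (eb i) = Dh h (fun x => f x * m.θ (x - u)) (eb i) (eb i) +
          c * Dh h (fun x => f' x * m.θ (x - u)) (eb i) (eb i) := fun i =>
      h2 h _ _ hh (cd hf m.θ_C2 u) (cd hf' m.θ_C2 u) (zr m.θ_zero u) (zr m.θ_zero u)
        c (eb i) (eb i)
    simp only [h3, Finset.sum_add_distrib, ← Finset.mul_sum]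
    ring

end Pool.Agent.GLB
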