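import Pool.Agent.GLB.TC

/-!
# GLB: locality of the mollified second derivative (target FLO)
-/

set_option autoImplicit false

open Metric Set Filter Topology MeasureTheory

noncomputable section

namespace Pool.Agent.GLB

namespace FLO_

variable {n : ℕ}

/-- second derivatives of functions which vanish near a point -/
lemma D2_zero {b : E n → ℝ} {x : E n} (h : ∀ᶠ y in 𝓝 x, b y = 0) (v w : E n) :
    D2 b x v w = 0 := by
  have h1 : b =ᶠ[𝓝 x] fun _ => (0 : ℝ) := h
  have h2 : fderiv ℝ b =ᶠ[𝓝 x] fderiv ℝ fun _ : E n => (0 : ℝ) := h1.fderiv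
  have h3 : fderiv ℝ (fderiv ℝ b) x = fderiv ℝ (fderiv ℝ fun _ : E n => (0 : ℝ)) x := h2.fderiv_eq
  unfold D2
  rw [h3]
  simp

/-- the integrands agree -/
lemma integrand {δ : ℝ} (hδ : δ < 1 / 2) (h h' f η : E n → ℝ) (hη : ∀ y, δ ≤ ‖y‖ → η y = 0)
    (W : Set (E n)) (hc : Continuous h) (hc' : Continuous h') (hW : ∀ x ∈ W, h x = h' x)
    (hf : ∀ x, 1 / 2 < ‖x‖ → ‖x‖ < 2 → x ∉ W → f x = 0) (u : E n) (hu : ‖u‖ = 1) (v w x : E n) :
    h x * D2 (fun y => f y * η (y - u)) x v w = h' x * D2 (fun y => f y * η (y - u)) x v w := by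
  by_cases hs : 1 / 2 < ‖x‖ ∧ ‖x‖ < 2
  · by_cases hx : x ∈ closure W
    · have h1 : IsClosed {y | h y = h' y} := isClosed_eq hc hc'
      have h2 : x ∈ {y | h y = h' y} := closure_minimal (fun y hy => hW y hy) h1 hx
      have h3 : h x = h' x := h2
      rw [h3]
    · have h1 : ∀ᶠ y in 𝓝 x, y ∉ closure W := isClosed_closure.isOpen_compl.mem_nhds hx
      have h2 : ∀ᶠ y in 𝓝 x, 1 / 2 < ‖y‖ :=
        continuous_norm.continuousAt.eventually (lt_mem_nhds hs.1)
      have h3 : ∀ᶠ y in 𝓝 x, ‖y‖ < 2 :=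
        continuous_norm.continuousAt.eventually (gt_mem_nhds hs.2)
      have h4 : ∀ᶠ y in 𝓝 x, f y * η (y - u) = 0 := by
        filter_upwards [h1, h2, h3] with y hy1 hy2 hy3
        rw [hf y hy2 hy3 (fun hyW => hy1 (subset_closure hyW)), zero_mul]
      rw [D2_zero h4, mul_zero, mul_zero]
  · have hlt : δ < ‖x - u‖ := by
      rw [not_and_or, not_lt, not_lt] at hs
      rcases hs with hs | hs
      · have h1 := norm_sub_norm_le u x
        rw [norm_sub_rev, hu] at h1
        linarith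
      · have h1 := norm_sub_norm_le x u
        rw [hu] at h1
        linarith
    have h1 : ∀ᶠ y in 𝓝 x, δ < ‖y - u‖ := by
      have hcn : Continuous fun y : E n => ‖y - u‖ := by fun_prop
      exact hcn.continuousAt.eventually (lt_mem_nhds hlt)
    have h4 : ∀ᶠ y in 𝓝 x, f y * η (y - u) = 0 := by
      filter_upwards [h1] with y hy
      rw [hη _ hy.le, mul_zero]
    rw [D2_zero h4, mul_zero, mul_zero]

end FLO_

/-- target FLO -/
theorem p_FLO : T_FLO := by
  intro n δ m h h' f W hc hc' hW hf u v hu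
  unfold F Dh
  congr 1
  · refine integral_congr_ae (Eventually.of_forall fun x => ?_)
    exact FLO_.integrand m.hδ2 h h' f m.η m.η_zero W hc hc' hW hf u hu v v x
  · refine Finset.sum_congr rfl fun i _ => ?_
    refine integral_congr_ae (Eventually.of_forall fun x => ?_)
    exact FLO_.integrand m.hδ2 h h' f m.θ m.θ_zero W hc hc' hW hf u hu (eb i) (eb i) x

end Pool.Agent.GLB
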