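import Pool.Agent.GLB.TC

/-!
# GLB: FMN
-/

set_option autoImplicit false

open Metric Set Filter Topology MeasureTheory

noncomputable section

namespace Pool.Agent.GLB

namespace FMN_

/-- positivity of `F` for functions which are nonnegative in the shell -/
lemma F_nonneg (hPOS : T_POS) {n : ℕ} {δ : ℝ} (m : Moll n δ) (h g : E n → ℝ)
    (hc : ConvexOn ℝ univ h) (hh : Continuous h) (hg : ContDiff ℝ 2 g)
    (hp : ∀ x, 1 / 2 < ‖x‖ → ‖x‖ < 2 → 0 ≤ g x) (u v : E n) (hu : ‖u‖ = 1) :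
    0 ≤ F m h g u v := by
  have hδ := m.hδ2
  have hd1 : ∀ x : E n, 2 ≤ ‖x‖ → δ ≤ ‖x - u‖ := by
    intro x hx
    have h1 := norm_sub_norm_le x u
    rw [hu] at h1
    linarith
  have hd2 : ∀ x : E n, ‖x‖ ≤ 1 / 2 → δ ≤ ‖x - u‖ := by
    intro x hx
    have h1 := norm_sub_norm_le u x
    rw [hu, norm_sub_rev] at h1
    linarith
  have key : ∀ (k : E n → ℝ), ContDiff ℝ 2 k → (∀ y, 0 ≤ k y) → (∀ y, δ ≤ ‖y‖ → k y = 0) →
      ∀ w : E n, 0 ≤ Dh h (fun x => g x * k (x - u)) w w := by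
    intro k hk hk0 hkz w
    refine hPOS n h _ hc hh ?_ ⟨2, fun x hx => ?_⟩ (fun x => ?_) w
    · exact hg.mul (hk.comp (contDiff_id.sub contDiff_const))
    · rw [hkz _ (hd1 x hx), mul_zero]
    · by_cases hx1 : 1 / 2 < ‖x‖
      · by_cases hx2 : ‖x‖ < 2
        · exact mul_nonneg (hp x hx1 hx2) (hk0 _)
        · rw [hkz _ (hd1 x (not_lt.1 hx2)), mul_zero]
      · rw [hkz _ (hd2 x (not_lt.1 hx1)), mul_zero]
  unfold F
  refine add_nonneg (key m.η m.η_C2 m.η_nn m.η_zero v) (Finset.sum_nonneg fun i _ => ?_)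
  exact key m.θ m.θ_C2 m.θ_nn m.θ_zero (eb i)

end FMN_

open FMN_

theorem p_FMN (hPOS : T_POS) (hFLN : T_FLN) : T_FMN := by
  intro n δ m h f β hc hh hf hβ u v hu
  obtain ⟨_, hlin⟩ := hFLN n δ m u v
  have c0 : ContDiff ℝ 2 (fun _ : E n => (0 : ℝ)) := contDiff_const
  have c1 : ContDiff ℝ 2 (fun _ : E n => (1 : ℝ)) := contDiff_const
  have cβ : ContDiff ℝ 2 (fun _ : E n => β) := contDiff_const
  have e0 : F m h (fun _ => 0) u v = 0 := by
    have h1 := hlin h (fun _ => 0) (fun _ => 0) 1 hh c0 c0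
    have h2 : (fun _ : E n => (0 : ℝ) + 1 * 0) = fun _ => 0 := by
      funext x
      ring
    rw [h2] at h1
    linarith
  have eβ : F m h (fun _ => β) u v = β * F m h (fun _ => 1) u v := by
    have h1 := hlin h (fun _ => 0) (fun _ => 1) β hh c0 c1
    have h2 : (fun _ : E n => (0 : ℝ) + β * 1) = fun _ => β := by
      funext x
      ring
    rw [h2] at h1
    rw [h1, e0, zero_add]
  have hpl := hlin h (fun _ => β) f 1 hh cβ hf
  have hmi := hlin h (fun _ => β) f (-1) hh cβ hf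
  have p1 : 0 ≤ F m h (fun x => β + 1 * f x) u v := by
    refine F_nonneg hPOS m h _ hc hh (cβ.add (c1.mul hf)) (fun x h1 h2 => ?_) u v hu
    have h3 := abs_le.1 (hβ x h1 h2)
    linarith [h3.1]
  have p2 : 0 ≤ F m h (fun x => β + (-1) * f x) u v := by
    refine F_nonneg hPOS m h _ hc hh (cβ.add (contDiff_const.mul hf)) (fun x h1 h2 => ?_) u v hu
    have h3 := abs_le.1 (hβ x h1 h2)
    linarith [h3.2]
  rw [hpl, eβ] at p1
  rw [hmi, eβ] at p2
  rw [abs_le]
  constructor <;> linarith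

end Pool.Agent.GLB
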