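import Pool.Agent.GLB.TF

/-!
# GLB: proof of GBD
-/

set_option autoImplicit false

open Metric Set Filter Topology MeasureTheory

noncomputable section

namespace Pool.Agent.GLB

theorem p_GBD : T_GBD := by
  intro n g hg
  refine ⟨hg 1 fun p => ?_, fun y c hy => ?_⟩
  · simp
  · have h1 : 0 ≤ g (c • (1 : C(St n, ℝ)) - y) := by
      refine hg _ fun p => ?_
      have := (abs_le.1 (hy p)).2
      simp only [ContinuousMap.sub_apply, ContinuousMap.smul_apply, ContinuousMap.one_apply,
        smul_eq_mul, mul_one]
      linarith
    have h2 : 0 ≤ g (c • (1 : C(St n, ℝ)) + y) := by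
      refine hg _ fun p => ?_
      have := (abs_le.1 (hy p)).1
      simp only [ContinuousMap.add_apply, ContinuousMap.smul_apply, ContinuousMap.one_apply,
        smul_eq_mul, mul_one]
      linarith
    rw [map_sub, map_smul, smul_eq_mul] at h1
    rw [map_add, map_smul, smul_eq_mul] at h2
    rw [abs_le]
    constructor <;> linarith

end Pool.Agent.GLB
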