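import Pool.Agent.GLB.TF

/-!
# GLB-GEX: the positive functional on the orthonormal pairs (helper5)
-/

set_option autoImplicit false

open Metric Set Filter Topology MeasureTheory

noncomputable section

namespace Pool.Agent.GLB

namespace GEX_

lemma st_compact (n : ℕ) : CompactSpace (St n) := by
  rw [← isCompact_iff_compactSpace]
  have h1 : IsCompact (sphere (0 : E n) 1 ×ˢ sphere (0 : E n) 1) :=
    (isCompact_sphere 0 1).prod (isCompact_sphere 0 1)
  refine h1.of_isClosed_subset ?_ ?_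
  · have h2 : St n = {p : E n × E n | ‖p.1‖ = 1} ∩
        ({p : E n × E n | ‖p.2‖ = 1} ∩ {p : E n × E n | inner ℝ p.1 p.2 = 0}) := rfl
    rw [h2]
    refine IsClosed.inter ?_ (IsClosed.inter ?_ ?_)
    · exact isClosed_eq (by fun_prop) continuous_const
    · exact isClosed_eq (by fun_prop) continuous_const
    · exact isClosed_eq (by fun_prop) continuous_const
  · rintro p ⟨h2, h3, -⟩
    exact ⟨by simpa using h2, by simpa using h3⟩

/-- the unit ball -/
def ball1 (n : ℕ) : ConvexBody (E n) :=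
  ⟨closedBall 0 1, convex_closedBall 0 1, isCompact_closedBall 0 1, ⟨0, by simp⟩⟩

lemma mem_ball1 {n : ℕ} {x : E n} : x ∈ ball1 n ↔ ‖x‖ ≤ 1 := by
  have h : x ∈ ball1 n ↔ x ∈ closedBall (0 : E n) 1 := Iff.rfl
  rw [h, mem_closedBall_zero_iff]

lemma supp_ball (hSUA : T_SUA) (n : ℕ) (u : E n) : supp (ball1 n) u = ‖u‖ := by
  apply le_antisymm
  · obtain ⟨x, hx, hxu⟩ := (hSUA n).2.1 (ball1 n) u
    rw [← hxu]
    calc inner ℝ x u ≤ ‖x‖ * ‖u‖ := real_inner_le_norm x u
      _ ≤ 1 * ‖u‖ := mul_le_mul_of_nonneg_right (mem_ball1.1 hx) (norm_nonneg _)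
      _ = ‖u‖ := one_mul _
  · by_cases hu : u = 0
    · have h := (hSUA n).1 (ball1 n) 0 u (mem_ball1.2 (by simp))
      rw [inner_zero_left] at h
      rw [hu, norm_zero]
      rw [hu] at h
      exact h
    · have hu' : ‖u‖ ≠ 0 := norm_ne_zero_iff.2 hu
      have h := (hSUA n).1 (ball1 n) (‖u‖⁻¹ • u) u (mem_ball1.2 (by
        rw [norm_smul, norm_inv, norm_norm, inv_mul_cancel₀ hu']))
      rw [real_inner_smul_left, real_inner_self_eq_norm_sq, pow_two, ← mul_assoc,
        inv_mul_cancel₀ hu', one_mul] at h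
      exact h

lemma F_zero {n : ℕ} {δ : ℝ} (m : Moll n δ) (f : E n → ℝ) (u v : E n) :
    F m (fun _ => 0) f u v = 0 := by
  unfold F Dh
  simp

end GEX_

open GEX_ in
theorem p_GEX (hRIE : T_RIE) (hMLS : T_MLS) (hMLP : T_MLP) (hFLN : T_FLN) (hCON : T_CON)
    (hSUB : T_SUB) (hRHO : T_RHO) (hSUE : T_SUE) (hSUL : T_SUL) (hSUA : T_SUA) (hSUH : T_SUH)
    (hCLB : T_CLB) : T_GEX := by
  intro n δ m hn μ hμ hpos
  have : CompactSpace (St n) := st_compact n
  have hsc : ∀ K : ConvexBody (E n), Continuous (supp K) := fun K => (hSUH n K).2.2.2.1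
  have h1C : ContDiff ℝ 2 (fun _ : E n => (1 : ℝ)) := contDiff_const
  obtain ⟨mAdd, mSmul, -, -⟩ := hMLP n δ m hn
  -- the functions
  have hFC : ∀ (K : ConvexBody (E n)) (p : St n),
      FC m (supp K) (fun _ => 1) p = F m (supp K) (fun _ => 1) p.1.1 p.1.2 := by
    intro K p
    have hc : Continuous fun p : St n => F m (supp K) (fun _ => 1) p.1.1 p.1.2 :=
      (hCON n δ m (supp K) (fun _ => 1) (hsc K) h1C).comp continuous_subtype_val
    unfold FC
    rw [dif_pos hc]
    rfl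
  have hAdd : ∀ K L : ConvexBody (E n), FC m (supp (K + L)) (fun _ => 1) =
      FC m (supp K) (fun _ => 1) + FC m (supp L) (fun _ => 1) := by
    intro K L
    ext p
    rw [ContinuousMap.add_apply, hFC, hFC, hFC]
    have h := (hFLN n δ m p.1.1 p.1.2).1 (supp K) (supp L) (fun _ => 1) 1 (hsc K) (hsc L) h1C
    rw [one_mul] at h
    rw [← h]
    congr 1
    funext x
    rw [(hSUA n).2.2.1, one_mul]
  have hSmul : ∀ (K : ConvexBody (E n)) (t : ℝ), 0 ≤ t → FC m (supp (t • K)) (fun _ => 1) =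
      t • FC m (supp K) (fun _ => 1) := by
    intro K t ht
    ext p
    rw [ContinuousMap.smul_apply, hFC, hFC, smul_eq_mul]
    have h := (hFLN n δ m p.1.1 p.1.2).1 (fun _ => 0) (supp K) (fun _ => 1) t
      continuous_const (hsc K) h1C
    rw [F_zero, zero_add] at h
    rw [← h]
    congr 1
    funext x
    rw [(hSUA n).2.2.2.1 K t x ht, zero_add]
  have hμadd : ∀ K L : ConvexBody (E n), μ (mol m (K + L)) = μ (mol m K) + μ (mol m L) := by
    intro K L
    rw [mAdd, hμ.add]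
  have hμsmul : ∀ (K : ConvexBody (E n)) (t : ℝ), 0 ≤ t →
      μ (mol m (t • K)) = t * μ (mol m K) := by
    intro K t ht
    rw [mSmul K t ht, hμ.homog _ t ht]
  have key : ∃ g : C(St n, ℝ) →ₗ[ℝ] ℝ, (∀ y, (∀ x, 0 ≤ y x) → 0 ≤ g y) ∧
      ∀ y c, (∃ K L : ConvexBody (E n),
        y = FC m (supp K) (fun _ => 1) - FC m (supp L) (fun _ => 1) ∧
          c = μ (mol m K) - μ (mol m L)) → g y = c := by
    refine hRIE (St n) (fun y c => ∃ K L : ConvexBody (E n),
      y = FC m (supp K) (fun _ => 1) - FC m (supp L) (fun _ => 1) ∧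
        c = μ (mol m K) - μ (mol m L)) ?_ ?_ ?_ ?_
    · rintro y y' c c' ⟨K, L, rfl, rfl⟩ ⟨K', L', rfl, rfl⟩
      refine ⟨K + K', L + L', ?_, ?_⟩
      · rw [hAdd, hAdd]
        abel
      · rw [hμadd, hμadd]
        ring
    · rintro t y c ⟨K, L, rfl, rfl⟩
      rcases le_total 0 t with ht | ht
      · refine ⟨t • K, t • L, ?_, ?_⟩
        · rw [hSmul K t ht, hSmul L t ht, smul_sub]
        · rw [hμsmul K t ht, hμsmul L t ht]
          ring
      · have ht' : 0 ≤ -t := by linarith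
        refine ⟨(-t) • L, (-t) • K, ?_, ?_⟩
        · rw [hSmul K _ ht', hSmul L _ ht', smul_sub, neg_smul, neg_smul]
          abel
        · rw [hμsmul K _ ht', hμsmul L _ ht']
          ring
    · rintro y c ⟨K, L, rfl, rfl⟩ hy
      set d : E n → ℝ := fun x => supp K x + (-1) * supp L x with hd
      have hdc : Continuous d := (hsc K).add (continuous_const.mul (hsc L))
      have hd1 : Hom1 d := by
        intro t ht x
        simp only [hd]
        rw [(hSUH n K).1 t ht x, (hSUH n L).1 t ht x]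
        ring
      have hdF : ∀ u v : E n, ‖u‖ = 1 → ‖v‖ = 1 → inner ℝ u v = 0 →
          0 ≤ F m d (fun _ => 1) u v := by
        intro u v hu hv huv
        have h := hy ⟨(u, v), hu, hv, huv⟩
        rw [ContinuousMap.sub_apply, hFC, hFC] at h
        have h2 := (hFLN n δ m u v).1 (supp K) (supp L) (fun _ => 1) (-1) (hsc K) (hsc L) h1C
        rw [hd, h2]
        linarith
      have hsub := hSUB n δ m d hn hdc hd1 hdF
      obtain ⟨r1, r2, -, -⟩ := hRHO n δ m
      obtain ⟨N, hN⟩ := hSUE n (rho m d) (r1 d hd1) hsub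
      have hKL : mol m K = mol m L + N := by
        refine (hSUL n (mol m K) (mol m L + N)).2.1 fun u => ?_
        rw [(hSUA n).2.2.1, hN, hMLS n δ m hn K u, hMLS n δ m hn L u, hd,
          r2 (supp K) (supp L) (-1) u (hsc K) (hsc L)]
        ring
      rw [hKL, hμ.add]
      have := hpos N
      linarith
    · refine ⟨_, _, ⟨(2 : ℝ) • ball1 n, (0 : ℝ) • ball1 n, rfl, rfl⟩, fun p => ?_⟩
      rw [hSmul _ 2 (by norm_num), hSmul _ 0 le_rfl, zero_smul, sub_zero,
        ContinuousMap.smul_apply, hFC, smul_eq_mul]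
      have h := hCLB n δ m p.1.1 p.1.2 p.2.1 p.2.2.1 p.2.2.2
      have h2 : supp (ball1 n) = fun x => ‖x‖ := funext fun u => supp_ball hSUA n u
      rw [h2]
      linarith
  obtain ⟨g, hg, hgP⟩ := key
  refine ⟨g, hg, fun K => hgP _ _ ⟨K, (0 : ℝ) • K, ?_, ?_⟩⟩
  · rw [hSmul K 0 le_rfl, zero_smul, sub_zero]
  · rw [hμsmul K 0 le_rfl, zero_mul, sub_zero]

end Pool.Agent.GLB
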