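import Pool.Agent.GLB.TC

/-!
# GLB: the second derivative of the mollification along great circles (T_GGF)
-/

set_option autoImplicit false

open Metric Set Filter Topology MeasureTheory

noncomputable section

namespace Pool.Agent.GLB

namespace GGF_

variable {n : ℕ}

lemma near {f : E n → ℝ} {δ : ℝ} (hf : ∀ y, δ ≤ ‖y‖ → f y = 0) {y : E n} (hy : δ < ‖y‖) :
    f =ᶠ[𝓝 y] fun _ => 0 := by
  have h : ∀ᶠ z : E n in 𝓝 y, δ < ‖z‖ := (continuous_norm.tendsto y).eventually (lt_mem_nhds hy)
  exact h.mono fun z hz => hf z hz.le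

lemma fd_zero {f : E n → ℝ} {δ : ℝ} (hf : ∀ y, δ ≤ ‖y‖ → f y = 0) {y : E n} (hy : δ < ‖y‖) :
    fderiv ℝ f y = 0 := by
  rw [(near hf hy).fderiv_eq]
  simp

lemma D2_zero {f : E n → ℝ} {δ : ℝ} (hf : ∀ y, δ ≤ ‖y‖ → f y = 0) {y : E n} (hy : δ < ‖y‖)
    (v w : E n) : D2 f y v w = 0 := by
  unfold D2
  rw [((near hf hy).fderiv).fderiv_eq]
  simp

lemma integ {H : E n → ℝ} (hc : Continuous H) {δ : ℝ} {u : E n}
    (hz : ∀ x, δ < ‖x - u‖ → H x = 0) : Integrable H := by
  refine hc.integrable_of_hasCompactSupport ?_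
  refine HasCompactSupport.intro (isCompact_closedBall u δ) fun x hx => hz x ?_
  rw [mem_closedBall, not_le, dist_eq_norm] at hx
  exact hx

lemma cfd {f : E n → ℝ} (hf : ContDiff ℝ 2 f) : Continuous fun y => fderiv ℝ f y :=
  hf.continuous_fderiv (by norm_num)

lemma cD2 {f : E n → ℝ} (hf : ContDiff ℝ 2 f) (v w : E n) : Continuous fun y => D2 f y v w := by
  unfold D2
  have h1 : ContDiff ℝ 1 (fderiv ℝ f) := hf.fderiv_right (by norm_num)
  have h2 : Continuous (fderiv ℝ (fderiv ℝ f)) := h1.continuous_fderiv one_ne_zero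
  exact (h2.clm_apply continuous_const).clm_apply continuous_const

end GGF_

open GGF_ in
theorem p_GGF (hDUI : T_DUI) (hEUL : T_EUL) (hPRD : T_PRD) : T_GGF := by
  intro n δ m d hd hom a b ha hb hab
  set γ : ℝ → E n := fun t => Real.cos t • a + Real.sin t • b with hγ
  set γ₁ : ℝ → E n := fun t => -Real.sin t • a + Real.cos t • b with hγ₁
  set γ₂ : ℝ → E n := fun t => -Real.cos t • a + -Real.sin t • b with hγ₂
  have dγ : ∀ t, HasDerivAt γ (γ₁ t) t := fun t =>
    ((Real.hasDerivAt_cos t).smul_const a).add ((Real.hasDerivAt_sin t).smul_const b)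
  have dγ₁ : ∀ t, HasDerivAt γ₁ (γ₂ t) t := fun t =>
    (((Real.hasDerivAt_sin t).neg).smul_const a).add ((Real.hasDerivAt_cos t).smul_const b)
  have cγ₂ : Continuous γ₂ := by
    rw [hγ₂]
    fun_prop
  have hγ₂' : ∀ t, γ₂ t = -γ t := fun t => by
    rw [hγ₂, hγ]
    simp only [neg_add, neg_smul]
  have nγ : ∀ t, ‖γ t‖ = 1 := fun t => by
    have h1 : ‖γ t‖ ^ 2 = 1 := by
      rw [hγ, ← real_inner_self_eq_norm_sq]
      simp only [inner_add_left, inner_add_right, inner_smul_left, inner_smul_right,
        real_inner_comm a b, hab, real_inner_self_eq_norm_sq, ha, hb]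
      simp only [RCLike.conj_to_real]
      nlinarith [Real.sin_sq_add_cos_sq t]
    have h2 := norm_nonneg (γ t)
    nlinarith
  obtain ⟨D1, D2'⟩ := hDUI n d m.η δ γ γ₁ γ₂ hd m.η_C2 m.η_zero dγ dγ₁ cγ₂
  -- the mollification as a convolution
  have hrho : ∀ t, rho m d (γ t) = ∫ x, d x * m.η (x - γ t) := fun t => by
    unfold rho
    rw [nγ t]
    simp only [one_smul]
    have h := MeasureTheory.integral_add_left_eq_self (μ := (volume : Measure (E n)))
      (fun x => d x * m.η (x - γ t)) (γ t)
    rw [← h]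
    refine integral_congr_ae (Eventually.of_forall fun y => ?_)
    simp
  refine ⟨fun t => -∫ x, d x * fderiv ℝ m.η (x - γ t) (γ₁ t), fun t => ?_, fun t => ?_⟩
  · have h := D1 t
    refine h.congr_of_eventuallyEq (Eventually.of_forall fun s => ?_)
    exact hrho s
  · have h := D2' t
    convert h using 1
    have hu := nγ t
    have e0 : Real.cos t • a + Real.sin t • b = γ t := rfl
    have e1 : -Real.sin t • a + Real.cos t • b = γ₁ t := rfl
    rw [e0, e1, hrho t, hγ₂' t]
    generalize γ t = u at *
    generalize γ₁ t = v at *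
    obtain ⟨-, hT, -, -, -, -, -⟩ := hPRD n
    -- integrability
    have cη : Continuous m.η := m.η_C2.continuous
    have i1 : Integrable fun x => d x * D2 m.η (x - u) v v := by
      refine integ (δ := δ) (u := u) (hd.mul ((cD2 m.η_C2 v v).comp (by fun_prop))) fun x hx => ?_
      rw [D2_zero m.η_zero hx, mul_zero]
    have i2 : ∀ i, Integrable fun x => d x * D2 m.θ (x - u) (eb i) (eb i) := fun i => by
      refine integ (δ := δ) (u := u) (hd.mul ((cD2 m.θ_C2 _ _).comp (by fun_prop))) fun x hx => ?_
      rw [D2_zero m.θ_zero hx, mul_zero]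
    have i3 : Integrable fun x => d x * m.η (x - u) := by
      refine integ (δ := δ) (u := u) (hd.mul (cη.comp (by fun_prop))) fun x hx => ?_
      rw [m.η_zero _ hx.le, mul_zero]
    have cf : Continuous fun x : E n => fderiv ℝ m.η (x - u) :=
      (cfd m.η_C2).comp (by fun_prop)
    have i4 : Integrable fun x => d x * fderiv ℝ m.η (x - u) u := by
      refine integ (δ := δ) (u := u) (hd.mul (cf.clm_apply continuous_const)) fun x hx => ?_
      rw [fd_zero m.η_zero hx]
      simp
    have i5 : Integrable fun x => d x * (fderiv ℝ m.η (x - u) x + (n + 1) * m.η (x - u)) := by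
      refine integ (δ := δ) (u := u) (hd.mul ((cf.clm_apply continuous_id).add
        (continuous_const.mul (cη.comp (by fun_prop))))) fun x hx => ?_
      rw [fd_zero m.η_zero hx, m.η_zero _ hx.le]
      simp
    have hF : F m d (fun _ => 1) u v = (∫ x, d x * D2 m.η (x - u) v v) +
        ∫ x, d x * ∑ i, D2 m.θ (x - u) (eb i) (eb i) := by
      unfold F Dh
      simp only [one_mul]
      congr 1
      · refine integral_congr_ae (Eventually.of_forall fun x => ?_)
        simp only
        rw [hT]
      · simp only [Finset.mul_sum]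
        rw [integral_finsetSum _ fun i _ => i2 i]
        refine Finset.sum_congr rfl fun i _ => ?_
        refine integral_congr_ae (Eventually.of_forall fun x => ?_)
        simp only
        rw [hT]
    have i2' : Integrable fun x => d x * ∑ i, D2 m.θ (x - u) (eb i) (eb i) := by
      simp only [Finset.mul_sum]
      exact integrable_finsetSum _ fun i _ => i2 i
    rw [hF, ← integral_add i1 i2']
    have hE := hEUL n δ m d hd hom u
    have i12 : Integrable fun x =>
        d x * D2 m.η (x - u) v v + d x * ∑ i, D2 m.θ (x - u) (eb i) (eb i) := i1.add i2'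
    have i123 : Integrable fun x =>
        (d x * D2 m.η (x - u) v v + d x * ∑ i, D2 m.θ (x - u) (eb i) (eb i)) -
          d x * m.η (x - u) := i12.sub i3
    rw [← integral_sub i12 i3]
    have key : (∫ x, d x * (D2 m.η (x - u) v v - fderiv ℝ m.η (x - u) (-u))) =
        (∫ x, (d x * D2 m.η (x - u) v v + d x * ∑ i, D2 m.θ (x - u) (eb i) (eb i)) -
          d x * m.η (x - u)) + ∫ x, d x * (fderiv ℝ m.η (x - u) x + (n + 1) * m.η (x - u)) := by
      rw [← integral_add i123 i5]
      refine integral_congr_ae (Eventually.of_forall fun x => ?_)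
      simp only
      rw [m.lap (x - u), map_neg, map_sub]
      ring
    rw [key, hE, add_zero]

end Pool.Agent.GLB
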