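import Pool.Agent.GLB.TF

/-!
# GLB: continuity of the action at the identity
-/

set_option autoImplicit false

open Metric Set Filter Topology MeasureTheory

noncomputable section

namespace Pool.Agent.GLB

namespace GL1_

lemma rep_bound {n : ℕ} {f : E n → ℝ} {φ : C(S n, ℝ)} (h : Rep f φ) (x : E n)
    (h1 : 1 / 2 < ‖x‖) (h2 : ‖x‖ < 2) : |f x| ≤ ‖φ‖ := by
  have h0 : 0 < ‖x‖ := by linarith
  have hu : (‖x‖⁻¹ • x) ∈ sphere (0 : E n) 1 := by
    rw [mem_sphere_iff_norm, sub_zero, norm_smul, norm_inv, norm_norm]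
    exact inv_mul_cancel₀ h0.ne'
  have h3 := h ⟨‖x‖⁻¹ • x, hu⟩ ‖x‖ h1 h2
  have h4 : ‖x‖ • (‖x‖⁻¹ • x) = x := by
    rw [smul_smul, mul_inv_cancel₀ h0.ne', one_smul]
  have h5 : f x = φ ⟨‖x‖⁻¹ • x, hu⟩ := by
    rw [← h3]
    congr 1
    exact h4.symm
  rw [h5, ← Real.norm_eq_abs]
  exact ContinuousMap.norm_coe_le_norm φ _

lemma FC_apply {n : ℕ} {δ : ℝ} (hCON : T_CON) (m : Moll n δ) (h f : E n → ℝ)
    (hh : Continuous h) (hf : ContDiff ℝ 2 f) (p : St n) :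
    FC m h f p = F m h f p.1.1 p.1.2 := by
  have hc : Continuous fun p : St n => F m h f p.1.1 p.1.2 :=
    (hCON n δ m h f hh hf).comp continuous_subtype_val
  unfold FC
  rw [dif_pos hc]
  rfl

lemma near {n : ℕ} (η : ℝ) (hη : 0 < η) : ∀ᶠ A : (E n →L[ℝ] E n)ˣ in 𝓝 1,
    ‖ContinuousLinearMap.adjoint (A : E n →L[ℝ] E n) - 1‖ < η := by
  have h1 : Continuous fun A : (E n →L[ℝ] E n)ˣ =>
      ‖ContinuousLinearMap.adjoint (A : E n →L[ℝ] E n) - 1‖ := by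
    have h2 : Continuous fun A : (E n →L[ℝ] E n)ˣ =>
        ContinuousLinearMap.adjoint (A : E n →L[ℝ] E n) :=
      ContinuousLinearMap.adjoint.continuous.comp Units.continuous_val
    exact (h2.sub continuous_const).norm
  have h3 := h1.tendsto 1
  have h4 : ‖ContinuousLinearMap.adjoint ((1 : (E n →L[ℝ] E n)ˣ) : E n →L[ℝ] E n) - 1‖ = 0 := by
    rw [Units.val_one, ← ContinuousLinearMap.star_eq_adjoint, star_one, sub_self, norm_zero]
  rw [h4] at h3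
  exact h3.eventually (gt_mem_nhds hη)

lemma star_cont {n : ℕ} : Continuous (fun A : (E n →L[ℝ] E n)ˣ => star A) := by
  rw [Units.continuous_iff]
  constructor
  · have h : (Units.val ∘ fun A : (E n →L[ℝ] E n)ˣ => star A) = fun A : (E n →L[ℝ] E n)ˣ =>
        ContinuousLinearMap.adjoint (A : E n →L[ℝ] E n) := by
      funext A
      simp only [Function.comp_apply]
      rw [Units.coe_star, ContinuousLinearMap.star_eq_adjoint]
    rw [h]
    exact ContinuousLinearMap.adjoint.continuous.comp Units.continuous_val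
  · have h : (fun A : (E n →L[ℝ] E n)ˣ => (((star A)⁻¹ : (E n →L[ℝ] E n)ˣ) : E n →L[ℝ] E n)) =
        fun A : (E n →L[ℝ] E n)ˣ =>
        ContinuousLinearMap.adjoint ((A⁻¹ : (E n →L[ℝ] E n)ˣ) : E n →L[ℝ] E n) := by
      funext A
      rw [← star_inv, Units.coe_star, ContinuousLinearMap.star_eq_adjoint]
    rw [h]
    exact ContinuousLinearMap.adjoint.continuous.comp Units.continuous_coe_inv

lemma star_ev {n : ℕ} {P : (E n →L[ℝ] E n)ˣ → Prop} (h : ∀ᶠ M in 𝓝 1, P M) :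
    ∀ᶠ A : (E n →L[ℝ] E n)ˣ in 𝓝 1, P (star A) := by
  have h1 : Tendsto (fun A : (E n →L[ℝ] E n)ˣ => star A) (𝓝 1) (𝓝 1) := by
    have h2 := (star_cont (n := n)).tendsto 1
    rwa [star_one] at h2
  exact h1.eventually h

end GL1_

open GL1_

theorem p_GL1 (hGLE : T_GLE) (hSMA : T_SMA) (hGLR : T_GLR) (hDEN : T_DEN) (hACT : T_ACT)
    (hSUA : T_SUA) (hSUH : T_SUH) (hGBD : T_GBD) (hCON : T_CON) : T_GL1 := by
  intro n δ m g hg Ψ hF hB R ε hε
  set R₁ : ℝ := max R 1 with hR₁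
  have hR1 : 1 ≤ R₁ := le_max_right _ _
  have hRR : R ≤ R₁ := le_max_left _ _
  obtain ⟨hg1, hgb⟩ := hGBD n g hg
  -- the tolerance
  set D : ℝ := 3 * R₁ * (R₁ + 1) * g 1 + 1 with hD
  have hD0 : 0 < D := by
    have : 0 ≤ 3 * R₁ * (R₁ + 1) * g 1 := by positivity
    linarith
  have hεD : 0 < ε / D := div_pos hε hD0
  have hle : ε / D * (3 * R₁) * (R₁ + 1) * g 1 ≤ ε := by
    have h1 : ε / D * (3 * R₁) * (R₁ + 1) * g 1 = ε / D * (D - 1) := by
      rw [hD]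
      ring
    rw [h1]
    have h2 : ε / D * D = ε := div_mul_cancel₀ _ hD0.ne'
    nlinarith
  have hδ2 := m.hδ2
  have hδ := m.hδ
  have hη : 0 < (1 / 4 - δ / 2) / 2 := by linarith
  filter_upwards [star_ev (hGLE n δ m (ε / D) hεD), near ((1 / 4 - δ / 2) / 2) hη] with A hA hA'
  have hstar : ((star A : (E n →L[ℝ] E n)ˣ) : E n →L[ℝ] E n) =
      ContinuousLinearMap.adjoint (A : E n →L[ℝ] E n) := by
    rw [Units.coe_star, ContinuousLinearMap.star_eq_adjoint]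
  rw [hstar] at hA
  -- estimate for functions represented by `C^2` functions
  have key : ∀ K : ConvexBody (E n), (K : Set (E n)) ⊆ closedBall 0 R₁ →
      ∀ (f : E n → ℝ) (ψ : C(S n, ℝ)), ContDiff ℝ 2 f → Rep f ψ → ‖ψ‖ ≤ R₁ + 1 →
      |Ψ (mapB (A : E n →L[ℝ] E n) K) (act A ψ) - Ψ K ψ| ≤ ε := by
    intro K hK f ψ hf hfψ hψ
    obtain ⟨f', hf', hfψ'⟩ := hSMA n A ψ f hf hfψ
    rw [hF _ f' _ hf' hfψ', hF K f ψ hf hfψ, ← map_sub]
    obtain ⟨_, _, hcv, hct, hbd⟩ := hSUH n K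
    obtain ⟨_, _, _, hct', _⟩ := hSUH n (mapB (A : E n →L[ℝ] E n) K)
    have hsupp : supp (mapB (A : E n →L[ℝ] E n) K) =
        fun x => supp K (ContinuousLinearMap.adjoint (A : E n →L[ℝ] E n) x) :=
      funext fun u => (hSUA n).2.2.2.2.2 _ K u
    have hpt : ∀ p : St n, |(FC m (supp (mapB (A : E n →L[ℝ] E n) K)) f' -
        FC m (supp K) f) p| ≤ ε / D * (3 * R₁) * (R₁ + 1) := by
      intro p
      rw [ContinuousMap.sub_apply, FC_apply hCON m _ f' hct' hf', FC_apply hCON m _ f hct hf,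
        hsupp]
      refine hA (supp K) hcv hct (3 * R₁) ?_ f f' (R₁ + 1) hf hf' ?_ ?_ p.1.1 p.1.2 p.2.1 p.2.2.1
      · intro x hx
        have h1 := (hbd R₁ hK).1 x
        nlinarith
      · intro x hx1 hx2
        exact (rep_bound hfψ x hx1 hx2).trans hψ
      · intro x hx1 hx2
        have hx3 : ‖ContinuousLinearMap.adjoint (A : E n →L[ℝ] E n) x - x‖ ≤
            (1 / 4 - δ / 2) / 2 * (3 / 2) := by
          have h1 : ContinuousLinearMap.adjoint (A : E n →L[ℝ] E n) x - x =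
              (ContinuousLinearMap.adjoint (A : E n →L[ℝ] E n) - 1) x := by simp
          rw [h1]
          refine ((ContinuousLinearMap.adjoint (A : E n →L[ℝ] E n) - 1).le_opNorm x).trans ?_
          exact mul_le_mul hA'.le (by linarith) (norm_nonneg _) hη.le
        have h2 := norm_sub_norm_le (ContinuousLinearMap.adjoint (A : E n →L[ℝ] E n) x) x
        have h3 := norm_sub_norm_le x (ContinuousLinearMap.adjoint (A : E n →L[ℝ] E n) x)
        rw [norm_sub_rev] at h3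
        exact hGLR n A ψ f f' hfψ hfψ' x (by linarith) (by linarith) (by linarith) (by linarith)
    exact (hgb _ _ hpt).trans hle
  intro K hK φ hφ
  have hK1 : (K : Set (E n)) ⊆ closedBall 0 R₁ := hK.trans (closedBall_subset_closedBall hRR)
  -- approximation
  set C : ℝ := ‖Ψ (mapB (A : E n →L[ℝ] E n) K)‖ * ‖(A : E n →L[ℝ] E n)‖ + ‖Ψ K‖ with hC
  have hC0 : 0 ≤ C := by positivity
  refine le_of_forall_pos_le_add fun t ht => ?_
  set s : ℝ := min 1 (t / (C + 1)) with hs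
  have hs0 : 0 < s := lt_min one_pos (by positivity)
  have hs1 : s ≤ 1 := min_le_left _ _
  have hst : C * s ≤ t := by
    have h1 : s ≤ t / (C + 1) := min_le_right _ _
    rw [le_div_iff₀ (by linarith)] at h1
    nlinarith
  obtain ⟨f, ψ, hf, hfψ, _, hφψ⟩ := hDEN n φ univ isOpen_univ (fun u hu => absurd (mem_univ u) hu)
    s hs0
  have hψ : ‖ψ‖ ≤ R₁ + 1 := by
    have h1 : ‖ψ‖ ≤ ‖φ‖ + ‖φ - ψ‖ := by
      have h2 := norm_sub_le φ (φ - ψ)
      rwa [sub_sub_cancel] at h2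
    linarith
  have hk := key K hK1 f ψ hf hfψ hψ
  obtain ⟨_, _, hlin, hnorm, _⟩ := hACT n
  have hsub : act A (φ - ψ) = act A φ - act A ψ := by
    have h1 : φ - ψ = φ + (-1 : ℝ) • ψ := by
      rw [neg_one_smul, sub_eq_add_neg]
    rw [h1, (hlin A φ ((-1 : ℝ) • ψ) 1).1, (hlin A ψ ψ (-1)).2, neg_one_smul, sub_eq_add_neg]
  have e1 : Ψ (mapB (A : E n →L[ℝ] E n) K) (act A φ) - Ψ K φ =
      Ψ (mapB (A : E n →L[ℝ] E n) K) (act A (φ - ψ)) +
        (Ψ (mapB (A : E n →L[ℝ] E n) K) (act A ψ) - Ψ K ψ) - Ψ K (φ - ψ) := by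
    rw [hsub, map_sub, map_sub]
    ring
  have b1 : |Ψ (mapB (A : E n →L[ℝ] E n) K) (act A (φ - ψ))| ≤
      ‖Ψ (mapB (A : E n →L[ℝ] E n) K)‖ * ‖(A : E n →L[ℝ] E n)‖ * s := by
    rw [← Real.norm_eq_abs]
    refine ((Ψ (mapB (A : E n →L[ℝ] E n) K)).le_opNorm _).trans ?_
    rw [mul_assoc]
    refine mul_le_mul_of_nonneg_left ?_ (norm_nonneg _)
    exact (hnorm A (φ - ψ)).trans (mul_le_mul_of_nonneg_left hφψ (norm_nonneg _))
  have b2 : |Ψ K (φ - ψ)| ≤ ‖Ψ K‖ * s := by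
    rw [← Real.norm_eq_abs]
    exact ((Ψ K).le_opNorm _).trans (mul_le_mul_of_nonneg_left hφψ (norm_nonneg _))
  rw [e1]
  have h3 := abs_sub (Ψ (mapB (A : E n →L[ℝ] E n) K) (act A (φ - ψ)) +
    (Ψ (mapB (A : E n →L[ℝ] E n) K) (act A ψ) - Ψ K ψ)) (Ψ K (φ - ψ))
  have h4 := abs_add_le (Ψ (mapB (A : E n →L[ℝ] E n) K) (act A (φ - ψ)))
    (Ψ (mapB (A : E n →L[ℝ] E n) K) (act A ψ) - Ψ K ψ)
  have h5 : C * s = ‖Ψ (mapB (A : E n →L[ℝ] E n) K)‖ * ‖(A : E n →L[ℝ] E n)‖ * s +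
      ‖Ψ K‖ * s := by
    rw [hC]
    ring
  linarith

end Pool.Agent.GLB
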