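import Pool.Agent.GLB.TF

/-!
# GLB: proof of `T_GLE`
-/

set_option autoImplicit false

open Metric Set Filter Topology MeasureTheory

noncomputable section

namespace Pool.Agent.GLB

namespace GLE_

lemma mul_inv_apply {n : ℕ} (M : (E n →L[ℝ] E n)ˣ) (y : E n) :
    (M : E n →L[ℝ] E n) (((M⁻¹ : (E n →L[ℝ] E n)ˣ) : E n →L[ℝ] E n) y) = y := by
  have h : (M : E n →L[ℝ] E n) * ((M⁻¹ : (E n →L[ℝ] E n)ˣ) : E n →L[ℝ] E n) = 1 := M.mul_inv
  have h2 := congrArg (fun A : E n →L[ℝ] E n => A y) h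
  exact h2

lemma near_one {n : ℕ} (r : ℝ) (hr : 0 < r) :
    ∀ᶠ M : (E n →L[ℝ] E n)ˣ in 𝓝 1, ‖(M : E n →L[ℝ] E n) - 1‖ < r := by
  have h : Tendsto (fun M : (E n →L[ℝ] E n)ˣ => (M : E n →L[ℝ] E n)) (𝓝 1)
      (𝓝 ((1 : (E n →L[ℝ] E n)ˣ) : E n →L[ℝ] E n)) := Units.continuous_val.tendsto 1
  have h2 := h (Metric.ball_mem_nhds _ hr)
  filter_upwards [h2] with M hM
  have h3 : dist (M : E n →L[ℝ] E n) ((1 : (E n →L[ℝ] E n)ˣ) : E n →L[ℝ] E n) < r := hM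
  rw [dist_eq_norm, Units.val_one] at h3
  exact h3

lemma bound {n : ℕ} (κ : E n → ℝ) (hκ : Continuous κ) (δ : ℝ)
    (hz : ∀ y, δ ≤ ‖y‖ → κ y = 0) : ∃ K : ℝ, 0 ≤ K ∧ ∀ y, |κ y| ≤ K := by
  obtain ⟨K, hK⟩ := (isCompact_closedBall (0 : E n) δ).exists_bound_of_continuousOn
    hκ.continuousOn
  refine ⟨max K 0, le_max_right _ _, fun y => ?_⟩
  rcases le_total δ ‖y‖ with h | h
  · rw [hz y h, abs_zero]
    exact le_max_right _ _
  · have h1 := hK y (mem_closedBall_zero_iff.2 h)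
    rw [Real.norm_eq_abs] at h1
    exact h1.trans (le_max_left _ _)

/-- the bilinear form `Dh h b` -/
lemma bil {n : ℕ} (hD : T_DHL) {R : ℝ} {h b : E n → ℝ} (hh : Continuous h)
    (hb : ContDiff ℝ 2 b) (hR : ∀ x, R ≤ ‖x‖ → b x = 0) (w z : E n) :
    Dh h b (w + z) (w + z) - Dh h b w w = Dh h b z (w + z) + Dh h b z w := by
  have h3 := (hD n R).2.2 h b hh hb hR
  have e1 : Dh h b (w + (1 : ℝ) • z) (w + z) = Dh h b w (w + z) + 1 * Dh h b z (w + z) :=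
    (h3 1 w z (w + z)).2
  have e2 : Dh h b (w + (1 : ℝ) • z) w = Dh h b w w + 1 * Dh h b z w := (h3 1 w z w).2
  have e3 : Dh h b w (w + z) = Dh h b (w + z) w := (h3 1 w z (w + z)).1
  rw [one_smul, one_mul] at e1 e2
  rw [e1, e3, e2]
  ring

lemma main (hC : T_CHV) (hG : T_GLS) (hB : T_DBD) (hD : T_DHL) {n : ℕ} {δ : ℝ}
    (hδ2 : δ < 1 / 2) (κ : E n → ℝ) (hκ : ContDiff ℝ 2 κ)
    (hz : ∀ y, δ ≤ ‖y‖ → κ y = 0) (ε : ℝ) (hε : 0 < ε) :
    ∀ᶠ M : (E n →L[ℝ] E n)ˣ in 𝓝 1, ∀ h : E n → ℝ, ConvexOn ℝ univ h → Continuous h →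
    ∀ H : ℝ, (∀ x, ‖x‖ ≤ 3 → |h x| ≤ H) → ∀ (f f' : E n → ℝ) (β : ℝ), ContDiff ℝ 2 f →
    ContDiff ℝ 2 f' → (∀ x, 1 / 2 < ‖x‖ → ‖x‖ < 2 → |f x| ≤ β) →
    (∀ x, 3 / 4 - δ / 2 < ‖x‖ → ‖x‖ < 5 / 4 + δ / 2 →
      f' x = ‖(M : E n →L[ℝ] E n) x‖ / ‖x‖ * f ((M : E n →L[ℝ] E n) x)) →
    ∀ u w : E n, ‖u‖ = 1 → ‖w‖ = 1 →
    |Dh (fun x => h ((M : E n →L[ℝ] E n) x)) (fun x => f' x * κ (x - u)) w w -
      Dh h (fun x => f x * κ (x - u)) w w| ≤ ε * H * β := by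
  obtain ⟨C, hC0, hCb⟩ := hB n
  obtain ⟨K, hK0, hK⟩ := bound κ hκ.continuous δ hz
  have hε1 : 0 < ε / (8 * (C + 1)) := by positivity
  have hr1 : 0 < ε / (6 * (C + 1) * (K + 1)) := by positivity
  have hr2 : 0 < (1 / 2 - δ) / 2 := by linarith
  filter_upwards [hG n κ δ hκ.continuous hδ2 hz _ hε1, near_one _ hr1, near_one _ hr2,
    near_one (1 / 3) (by norm_num)] with M hM hM1 hM2 hM3
  intro h hconv hh H hH f f' β hf hf' hfβ hff u w hu hw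
  have hH0 : 0 ≤ H := (abs_nonneg _).trans (hH 0 (by rw [norm_zero]; norm_num))
  have hβ0 : 0 ≤ β := (abs_nonneg _).trans (hfβ u (by rw [hu]; norm_num) (by rw [hu]; norm_num))
  -- sizes
  have hsup : ∀ x : E n, κ (x - u) ≠ 0 → 1 - δ < ‖x‖ ∧ ‖x‖ < 1 + δ := by
    intro x hx
    have h1 : ‖x - u‖ < δ := by
      by_contra h2
      exact hx (hz _ (not_lt.1 h2))
    have h2 : ‖x‖ ≤ ‖x - u‖ + ‖u‖ := by
      have := norm_add_le (x - u) u
      rwa [sub_add_cancel] at this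
    have h3 : ‖u‖ ≤ ‖x - u‖ + ‖x‖ := by
      have := norm_sub_norm_le u x
      rw [norm_sub_rev u x] at this
      linarith
    rw [hu] at h2 h3
    constructor <;> linarith
  have hMx : ∀ x : E n, ‖(M : E n →L[ℝ] E n) x - x‖ ≤ ‖(M : E n →L[ℝ] E n) - 1‖ * ‖x‖ := by
    intro x
    have h1 := ((M : E n →L[ℝ] E n) - 1).le_opNorm x
    exact h1
  have hsup2 : ∀ y : E n,
      κ (((M⁻¹ : (E n →L[ℝ] E n)ˣ) : E n →L[ℝ] E n) y - u) ≠ 0 → 1 / 2 < ‖y‖ ∧ ‖y‖ < 2 := by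
    intro y hy
    obtain ⟨h1, h2⟩ := hsup _ hy
    have h3 := hMx (((M⁻¹ : (E n →L[ℝ] E n)ˣ) : E n →L[ℝ] E n) y)
    rw [mul_inv_apply] at h3
    set x := ((M⁻¹ : (E n →L[ℝ] E n)ˣ) : E n →L[ℝ] E n) y with hx
    have h4 : ‖y‖ ≤ ‖y - x‖ + ‖x‖ := by
      have := norm_add_le (y - x) x
      rwa [sub_add_cancel] at this
    have h5 : ‖x‖ ≤ ‖y - x‖ + ‖y‖ := by
      have := norm_sub_norm_le x y
      rw [norm_sub_rev x y] at this
      linarith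
    have h6 : ‖(M : E n →L[ℝ] E n) - 1‖ * ‖x‖ ≤ ((1 / 2 - δ) / 2) * (3 / 2) := by
      refine mul_le_mul hM2.le ?_ (norm_nonneg _) hr2.le
      linarith
    have h7 : ‖(M : E n →L[ℝ] E n) - 1‖ * ‖x‖ ≤ (1 / 3) * (3 / 2) := by
      refine mul_le_mul hM3.le ?_ (norm_nonneg _) (by norm_num)
      linarith
    constructor <;> linarith
  have hsup1 : ∀ y : E n, κ (y - u) ≠ 0 → 1 / 2 < ‖y‖ ∧ ‖y‖ < 2 := by
    intro y hy
    obtain ⟨h1, h2⟩ := hsup y hy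
    constructor <;> linarith
  -- the functions
  set c : ℝ := |(M : E n →L[ℝ] E n).det|⁻¹ with hc
  set b : E n → ℝ := fun x => f' x * κ (x - u) with hb
  set b0 : E n → ℝ := fun x => f x * κ (x - u) with hb0
  set b1 : E n → ℝ := fun y => b (((M⁻¹ : (E n →L[ℝ] E n)ˣ) : E n →L[ℝ] E n) y) with hb1
  have hbC : ContDiff ℝ 2 b := hf'.mul (hκ.comp (contDiff_id.sub contDiff_const))
  have hb0C : ContDiff ℝ 2 b0 := hf.mul (hκ.comp (contDiff_id.sub contDiff_const))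
  have hb1C : ContDiff ℝ 2 b1 := hbC.comp (ContinuousLinearMap.contDiff _)
  have hbR : ∀ x, (2 : ℝ) ≤ ‖x‖ → b x = 0 := by
    intro x hx
    by_contra h1
    have h2 : κ (x - u) ≠ 0 := fun h3 => h1 (by simp only [hb, h3, mul_zero])
    exact absurd (hsup1 x h2).2 (not_lt.2 hx)
  have hb0R : ∀ x, (2 : ℝ) ≤ ‖x‖ → b0 x = 0 := by
    intro x hx
    by_contra h1
    have h2 : κ (x - u) ≠ 0 := fun h3 => h1 (by simp only [hb0, h3, mul_zero])
    exact absurd (hsup1 x h2).2 (not_lt.2 hx)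
  have hb1R : ∀ x, (2 : ℝ) ≤ ‖x‖ → b1 x = 0 := by
    intro x hx
    by_contra h1
    have h2 : κ (((M⁻¹ : (E n →L[ℝ] E n)ˣ) : E n →L[ℝ] E n) x - u) ≠ 0 :=
      fun h3 => h1 (by simp only [hb1, hb, h3, mul_zero])
    exact absurd (hsup2 x h2).2 (not_lt.2 hx)
  have hform : ∀ y, c * b1 y = f y * (‖y‖ /
      ‖((M⁻¹ : (E n →L[ℝ] E n)ˣ) : E n →L[ℝ] E n) y‖ * |(M : E n →L[ℝ] E n).det|⁻¹ *
      κ (((M⁻¹ : (E n →L[ℝ] E n)ˣ) : E n →L[ℝ] E n) y - u)) := by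
    intro y
    by_cases h1 : κ (((M⁻¹ : (E n →L[ℝ] E n)ˣ) : E n →L[ℝ] E n) y - u) = 0
    · simp only [hb1, hb, h1, mul_zero]
    · obtain ⟨h2, h3⟩ := hsup _ h1
      have h4 := hff (((M⁻¹ : (E n →L[ℝ] E n)ˣ) : E n →L[ℝ] E n) y) (by linarith)
        (by linarith)
      rw [mul_inv_apply] at h4
      simp only [hb1, hb, h4]
      ring
  set d : E n → ℝ := fun y => c * b1 y - b0 y with hd
  have hdC : ContDiff ℝ 2 d := (contDiff_const.mul hb1C).sub hb0C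
  have hdR : ∀ x, (2 : ℝ) ≤ ‖x‖ → d x = 0 := by
    intro x hx
    simp only [hd]
    rw [hb1R x hx, hb0R x hx, mul_zero, sub_zero]
  have hdb : ∀ x, |d x| ≤ β * (ε / (8 * (C + 1))) := by
    intro y
    have h1 : d y = f y * (‖y‖ /
        ‖((M⁻¹ : (E n →L[ℝ] E n)ˣ) : E n →L[ℝ] E n) y‖ * |(M : E n →L[ℝ] E n).det|⁻¹ *
        κ (((M⁻¹ : (E n →L[ℝ] E n)ˣ) : E n →L[ℝ] E n) y - u) - κ (y - u)) := by
      simp only [hd]
      rw [hform y]
      simp only [hb0]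
      ring
    have h2 := hM u hu y
    by_cases h3 : κ (((M⁻¹ : (E n →L[ℝ] E n)ˣ) : E n →L[ℝ] E n) y - u) = 0 ∧ κ (y - u) = 0
    · rw [h1, h3.1, h3.2, mul_zero, sub_zero, mul_zero, abs_zero]
      positivity
    · have h4 : 1 / 2 < ‖y‖ ∧ ‖y‖ < 2 := by
        by_cases h5 : κ (y - u) = 0
        · exact hsup2 y fun h6 => h3 ⟨h6, h5⟩
        · exact hsup1 y h5
      rw [h1, abs_mul]
      exact mul_le_mul (hfβ y h4.1 h4.2) h2 (abs_nonneg _) hβ0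
  have hb0b : ∀ x, |b0 x| ≤ β * K := by
    intro y
    by_cases h5 : κ (y - u) = 0
    · simp only [hb0, h5, mul_zero, abs_zero]
      positivity
    · obtain ⟨h6, h7⟩ := hsup1 y h5
      simp only [hb0]
      rw [abs_mul]
      exact mul_le_mul (hfβ y h6 h7) (hK _) (abs_nonneg _) hβ0
  -- change of variables
  have hL := hD n 2
  have e1 : Dh (fun x => h ((M : E n →L[ℝ] E n) x)) b w w =
      c * Dh h b1 ((M : E n →L[ℝ] E n) w) ((M : E n →L[ℝ] E n) w) :=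
    hC n M h b hh hbC ⟨2, hbR⟩ w w
  have hMw : (M : E n →L[ℝ] E n) w = w + ((M : E n →L[ℝ] E n) w - w) := by abel
  set z : E n := (M : E n →L[ℝ] E n) w - w with hz'
  have e2 : ∀ x y : E n, Dh h (fun t => b1 t + (c - 1) * b1 t) x y =
      Dh h b1 x y + (c - 1) * Dh h b1 x y := fun x y =>
    hL.2.1 h b1 b1 hh hb1C hb1C hb1R hb1R (c - 1) x y
  have e3 : ∀ x y : E n, Dh h (fun t => b0 t + 1 * d t) x y =
      Dh h b0 x y + 1 * Dh h d x y := fun x y =>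
    hL.2.1 h b0 d hh hb0C hdC hb0R hdR 1 x y
  have e4 : (fun t => b1 t + (c - 1) * b1 t) = fun t => b0 t + 1 * d t := by
    funext t
    simp only [hd]
    ring
  have e5 : Dh (fun x => h ((M : E n →L[ℝ] E n) x)) b w w - Dh h b0 w w =
      Dh h d (w + z) (w + z) + (Dh h b0 z (w + z) + Dh h b0 z w) := by
    rw [← bil hD hh hb0C hb0R w z, e1, hMw]
    have h1 := e2 (w + z) (w + z)
    rw [e4, e3] at h1
    linarith
  rw [e5]
  have hzn : ‖z‖ ≤ ε / (6 * (C + 1) * (K + 1)) := by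
    have h1 := hMx w
    rw [hw, mul_one] at h1
    exact h1.trans hM1.le
  have hzn2 : ‖z‖ ≤ 1 / 3 := by
    have h1 := hMx w
    rw [hw, mul_one] at h1
    exact h1.trans hM3.le
  have hwz : ‖w + z‖ ≤ 2 := by
    have h1 := norm_add_le w z
    rw [hw] at h1
    linarith
  have k1 := hCb h hconv hh H hH d hdC hdR _ hdb (w + z) (w + z)
  have k2 := hCb h hconv hh H hH b0 hb0C hb0R _ hb0b z (w + z)
  have k3 := hCb h hconv hh H hH b0 hb0C hb0R _ hb0b z w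
  rw [hw, mul_one] at k3
  have l1 : C * H * (β * (ε / (8 * (C + 1)))) * ‖w + z‖ * ‖w + z‖ ≤ ε / 2 * H * β := by
    have h1 : ‖w + z‖ * ‖w + z‖ ≤ 4 := by nlinarith [norm_nonneg (w + z)]
    have h2 : C / (C + 1) ≤ 1 := by
      rw [div_le_one (by positivity)]
      linarith
    calc C * H * (β * (ε / (8 * (C + 1)))) * ‖w + z‖ * ‖w + z‖
        = (C / (C + 1)) * (H * β * ε / 8) * (‖w + z‖ * ‖w + z‖) := by
          field_simp
      _ ≤ 1 * (H * β * ε / 8) * 4 := by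
          refine mul_le_mul ?_ h1 (by positivity) (by positivity)
          exact mul_le_mul_of_nonneg_right h2 (by positivity)
      _ = ε / 2 * H * β := by ring
  have l2 : C * H * (β * K) * ‖z‖ * ‖w + z‖ + C * H * (β * K) * ‖z‖ ≤ ε / 2 * H * β := by
    have h1 : ‖w + z‖ + 1 ≤ 3 := by linarith
    have h2 : C / (C + 1) ≤ 1 := by
      rw [div_le_one (by positivity)]
      linarith
    have h3 : K / (K + 1) ≤ 1 := by
      rw [div_le_one (by positivity)]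
      linarith
    calc C * H * (β * K) * ‖z‖ * ‖w + z‖ + C * H * (β * K) * ‖z‖
        = C * H * (β * K) * (‖z‖ * (‖w + z‖ + 1)) := by ring
      _ ≤ C * H * (β * K) * (ε / (6 * (C + 1) * (K + 1)) * 3) := by
          refine mul_le_mul_of_nonneg_left ?_ (by positivity)
          exact mul_le_mul hzn h1 (by positivity) hr1.le
      _ = (C / (C + 1)) * (K / (K + 1)) * (ε / 2 * H * β) := by
          field_simp
          ring
      _ ≤ 1 * 1 * (ε / 2 * H * β) := by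
          refine mul_le_mul_of_nonneg_right ?_ (by positivity)
          exact mul_le_mul h2 h3 (by positivity) (by norm_num)
      _ = ε / 2 * H * β := by ring
  calc |Dh h d (w + z) (w + z) + (Dh h b0 z (w + z) + Dh h b0 z w)|
      ≤ |Dh h d (w + z) (w + z)| + (|Dh h b0 z (w + z)| + |Dh h b0 z w|) :=
        (abs_add_le _ _).trans (add_le_add le_rfl (abs_add_le _ _))
    _ ≤ C * H * (β * (ε / (8 * (C + 1)))) * ‖w + z‖ * ‖w + z‖ +
        (C * H * (β * K) * ‖z‖ * ‖w + z‖ + C * H * (β * K) * ‖z‖) :=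
        add_le_add k1 (add_le_add k2 k3)
    _ ≤ ε / 2 * H * β + ε / 2 * H * β := add_le_add l1 l2
    _ = ε * H * β := by ring

end GLE_

theorem p_GLE (hC : T_CHV) (hG : T_GLS) (hB : T_DBD) (hD : T_DHL) : T_GLE := by
  intro n δ m ε hε
  have hn : (0 : ℝ) < n + 1 := by positivity
  have hε' : 0 < ε / (n + 1) := div_pos hε hn
  filter_upwards [GLE_.main hC hG hB hD m.hδ2 m.η m.η_C2 m.η_zero _ hε',
    GLE_.main hC hG hB hD m.hδ2 m.θ m.θ_C2 m.θ_zero _ hε'] with M h1 h2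
  intro h hconv hh H hH f f' β hf hf' hfβ hff u v hu hv
  have k1 := h1 h hconv hh H hH f f' β hf hf' hfβ hff u v hu hv
  have k2 : ∀ i : Fin n, _ := fun i =>
    h2 h hconv hh H hH f f' β hf hf' hfβ hff u (eb i) hu (by simp [eb])
  unfold F
  set A1 := Dh (fun x => h ((M : E n →L[ℝ] E n) x)) (fun x => f' x * m.η (x - u)) v v
  set A2 := Dh h (fun x => f x * m.η (x - u)) v v
  set B1 : Fin n → ℝ := fun i =>
    Dh (fun x => h ((M : E n →L[ℝ] E n) x)) (fun x => f' x * m.θ (x - u)) (eb i) (eb i)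
  set B2 : Fin n → ℝ := fun i => Dh h (fun x => f x * m.θ (x - u)) (eb i) (eb i)
  have k3 : ∀ i, |B1 i - B2 i| ≤ ε / (n + 1) * H * β := k2
  have e1 : A1 + ∑ i, B1 i - (A2 + ∑ i, B2 i) = (A1 - A2) + ∑ i, (B1 i - B2 i) := by
    rw [Finset.sum_sub_distrib]
    ring
  rw [e1]
  calc |(A1 - A2) + ∑ i, (B1 i - B2 i)| ≤ |A1 - A2| + |∑ i, (B1 i - B2 i)| := abs_add_le _ _
    _ ≤ ε / (n + 1) * H * β + ∑ i, |B1 i - B2 i| :=
        add_le_add k1 (Finset.abs_sum_le_sum_abs _ _)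
    _ ≤ ε / (n + 1) * H * β + ∑ _i : Fin n, ε / (n + 1) * H * β :=
        add_le_add le_rfl (Finset.sum_le_sum fun i _ => k3 i)
    _ = ε * H * β := by
        rw [Finset.sum_const, Finset.card_univ, Fintype.card_fin, nsmul_eq_mul]
        field_simp
        ring

end Pool.Agent.GLB
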