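import Pool.Agent.GLB.TF

/-!
# GLB: the representing functions of `φ` and of `act A φ`
-/

set_option autoImplicit false

open Metric Set Filter Topology MeasureTheory

noncomputable section

namespace Pool.Agent.GLB

/-- Target GLR. -/
theorem p_GLR : T_GLR := by
  intro n A φ f f' hf hf' x h1 h2 h3 h4
  set B : E n →L[ℝ] E n := ContinuousLinearMap.adjoint (A : E n →L[ℝ] E n) with hB
  have hx : 0 < ‖x‖ := by linarith
  have hBx : 0 < ‖B x‖ := by linarith
  have hu : ‖x‖⁻¹ • x ∈ sphere (0 : E n) 1 := by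
    rw [mem_sphere_iff_norm, sub_zero, norm_smul, norm_inv, norm_norm]
    exact inv_mul_cancel₀ hx.ne'
  let u : S n := ⟨‖x‖⁻¹ • x, hu⟩
  have e1 : ‖x‖ • (u : E n) = x := by
    change ‖x‖ • ‖x‖⁻¹ • x = x
    rw [smul_smul, mul_inv_cancel₀ hx.ne', one_smul]
  have e2 : B (u : E n) = ‖x‖⁻¹ • B x := by
    change B (‖x‖⁻¹ • x) = _
    rw [map_smul]
  have e3 : ‖B (u : E n)‖ = ‖B x‖ / ‖x‖ := by
    rw [e2, norm_smul, norm_inv, norm_norm, div_eq_inv_mul]
  have e4 : ‖B x‖ • ((dirn A u : S n) : E n) = B x := by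
    have h : ((dirn A u : S n) : E n) = ‖B (u : E n)‖⁻¹ • B (u : E n) := rfl
    rw [h, e3, e2, smul_smul, smul_smul]
    have h' : ‖B x‖ * ((‖B x‖ / ‖x‖)⁻¹ * ‖x‖⁻¹) = 1 := by
      field_simp
    rw [← mul_assoc] at h'
    rw [h', one_smul]
  have e5 : f' x = ‖B (u : E n)‖ • φ (dirn A u) := by
    have h := hf' u ‖x‖ h1 h2
    rw [e1] at h
    exact h
  have e6 : f (B x) = φ (dirn A u) := by
    have h := hf (dirn A u) ‖B x‖ h3 h4
    rw [e4] at h
    exact h
  rw [e5, e6, e3, smul_eq_mul]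

end Pool.Agent.GLB
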