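import Pool.Agent.GLB.TF

/-!
# GLB: GLS (the dilated mollifier kernels are uniformly close), by helper97
-/

set_option autoImplicit false

open Metric Set Filter Topology MeasureTheory

noncomputable section

namespace Pool.Agent.GLB

namespace GLS_

lemma supp_c {n : ℕ} {κ : E n → ℝ} {δ : ℝ} (h0 : ∀ y, δ ≤ ‖y‖ → κ y = 0) :
    HasCompactSupport κ :=
  HasCompactSupport.intro (isCompact_closedBall (0 : E n) δ) fun x hx => h0 x (by
    rw [mem_closedBall, dist_zero_right, not_le] at hx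
    exact hx.le)

lemma bdd {n : ℕ} {κ : E n → ℝ} (hc : Continuous κ) (hs : HasCompactSupport κ) :
    ∃ B : ℝ, 0 ≤ B ∧ ∀ x, |κ x| ≤ B := by
  obtain ⟨C, hC⟩ := hs.exists_bound_of_continuous hc
  exact ⟨max C 0, le_max_right _ _, fun x => (hC x).trans (le_max_left _ _)⟩

lemma tnd1 (n : ℕ) : Tendsto (fun M : (E n →L[ℝ] E n)ˣ =>
    ‖((M⁻¹ : (E n →L[ℝ] E n)ˣ) : E n →L[ℝ] E n) - 1‖) (𝓝 1) (𝓝 0) := by
  have h : Continuous (fun M : (E n →L[ℝ] E n)ˣ =>
      ‖((M⁻¹ : (E n →L[ℝ] E n)ˣ) : E n →L[ℝ] E n) - 1‖) :=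
    ((Units.continuous_val.comp continuous_inv).sub continuous_const).norm
  have h1 := h.tendsto 1
  simpa using h1

lemma tnd2 (n : ℕ) : Tendsto (fun M : (E n →L[ℝ] E n)ˣ =>
    |(M : E n →L[ℝ] E n).det|⁻¹) (𝓝 1) (𝓝 1) := by
  have h : Continuous (fun M : (E n →L[ℝ] E n)ˣ => |(M : E n →L[ℝ] E n).det|) :=
    (ContinuousLinearMap.continuous_det.comp Units.continuous_val).abs
  have h1 := (h.tendsto 1)
  have h2 : |((1 : (E n →L[ℝ] E n)ˣ) : E n →L[ℝ] E n).det| = 1 := by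
    rw [Units.val_one]
    have : (1 : E n →L[ℝ] E n).det = 1 := by
      simp [ContinuousLinearMap.det]
    rw [this, abs_one]
  rw [h2] at h1
  have h3 := h1.inv₀ one_ne_zero
  rwa [inv_one] at h3

end GLS_

open GLS_ in
theorem p_GLS : T_GLS := by
  intro n κ δ hc hδ h0 ε hε
  have hs := supp_c h0
  obtain ⟨B, hB0, hB⟩ := bdd hc hs
  have huc : UniformContinuous κ := hc.uniformContinuous_of_tendsto_cocompact
    hs.is_zero_at_infty
  obtain ⟨η, hη, huc⟩ := Metric.uniformContinuous_iff.1 huc (ε / 2) (by linarith)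
  obtain ⟨s, hs0, hs1, hs2, hs3⟩ : ∃ s : ℝ, 0 < s ∧ s ≤ 1 / 8 ∧ 2 * s < η ∧
      8 * s * B ≤ ε := by
    refine ⟨min (1 / 8) (min (η / 4) (ε / (8 * (B + 1)))), ?_, ?_, ?_, ?_⟩
    · positivity
    · exact min_le_left _ _
    · have := (min_le_right (1 / 8) (min (η / 4) (ε / (8 * (B + 1))))).trans
        (min_le_left _ _)
      linarith
    · have h := (min_le_right (1 / 8) (min (η / 4) (ε / (8 * (B + 1))))).trans
        (min_le_right _ _)
      generalize min (1 / 8) (min (η / 4) (ε / (8 * (B + 1)))) = s at h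
      rw [le_div_iff₀ (by positivity)] at h
      by_cases hs : 0 ≤ s
      · nlinarith
      · nlinarith
  have e1 : ∀ᶠ M : (E n →L[ℝ] E n)ˣ in 𝓝 1,
      ‖((M⁻¹ : (E n →L[ℝ] E n)ˣ) : E n →L[ℝ] E n) - 1‖ < s :=
    (tnd1 n).eventually_lt_const hs0
  have e2 : ∀ᶠ M : (E n →L[ℝ] E n)ˣ in 𝓝 1,
      |(|(M : E n →L[ℝ] E n).det|⁻¹ - 1)| < s := by
    have := (Metric.tendsto_nhds.1 (tnd2 n)) s hs0
    simpa [Real.dist_eq] using this
  filter_upwards [e1, e2] with M hM1 hM2 u hu y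
  set N : E n →L[ℝ] E n := ((M⁻¹ : (E n →L[ℝ] E n)ˣ) : E n →L[ℝ] E n) with hN
  set q : ℝ := |(M : E n →L[ℝ] E n).det|⁻¹ with hq
  have hd : ‖N y - y‖ ≤ s * ‖y‖ := by
    have h := (N - 1).le_opNorm y
    have h' : (N - 1) y = N y - y := by simp
    rw [h'] at h
    exact h.trans (mul_le_mul_of_nonneg_right hM1.le (norm_nonneg _))
  have hz : ∀ z : E n, 3 / 2 ≤ ‖z‖ → κ (z - u) = 0 := by
    intro z hz
    apply h0
    have := norm_sub_norm_le z u
    linarith
  by_cases hy0 : y = 0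
  · rw [hy0]
    rw [norm_zero, zero_div, zero_mul, zero_mul, h0 (0 - u), sub_zero, abs_zero]
    · exact hε.le
    · rw [zero_sub, norm_neg, hu]
      linarith
  have hyp : 0 < ‖y‖ := norm_pos_iff.2 hy0
  have hl1 : ‖y‖ - s * ‖y‖ ≤ ‖N y‖ := by
    have h := norm_sub_norm_le y (N y)
    rw [norm_sub_rev] at h
    linarith
  have hl2 : ‖N y‖ ≤ ‖y‖ + s * ‖y‖ := by
    have h := norm_sub_norm_le (N y) y
    linarith
  by_cases hy2 : 2 ≤ ‖y‖
  · rw [hz y (by linarith), hz (N y) (by nlinarith), mul_zero, sub_zero, abs_zero]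
    exact hε.le
  · rw [not_le] at hy2
    have hNp : 0 < ‖N y‖ := by nlinarith
    have hc1 : |‖y‖ / ‖N y‖ - 1| ≤ 2 * s := by
      rw [div_sub_one hNp.ne', abs_div, abs_of_pos hNp, div_le_iff₀ hNp]
      rw [abs_le]
      constructor <;> nlinarith
    set c : ℝ := ‖y‖ / ‖N y‖ with hcdef
    have hc2 : |c * q - 1| ≤ 4 * s := by
      have h1 : c * q - 1 = (c - 1) * q + (q - 1) := by ring
      have h2 : |q| ≤ 9 / 8 := by
        have := abs_lt.1 hM2
        rw [abs_le]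
        constructor <;> linarith
      rw [h1]
      refine (abs_add_le _ _).trans ?_
      rw [abs_mul]
      nlinarith [abs_nonneg (c - 1), abs_nonneg q]
    have hk : |κ (N y - u) - κ (y - u)| ≤ ε / 2 := by
      have h := huc (a := N y - u) (b := y - u) (by
        rw [dist_eq_norm, sub_sub_sub_cancel_right]
        nlinarith)
      rw [Real.dist_eq] at h
      exact h.le
    have h1 : c * q * κ (N y - u) - κ (y - u) =
        (c * q - 1) * κ (N y - u) + (κ (N y - u) - κ (y - u)) := by ring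
    rw [h1]
    refine (abs_add_le _ _).trans ?_
    rw [abs_mul]
    have h2 : |c * q - 1| * |κ (N y - u)| ≤ 4 * s * B :=
      mul_le_mul hc2 (hB _) (abs_nonneg _) (by positivity)
    linarith

end Pool.Agent.GLB
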