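import Pool.Agent.GLB.TF

/-!
# GLB: iteration (ITR)
-/

set_option autoImplicit false

open Metric Set Filter Topology MeasureTheory

noncomputable section

namespace Pool.Agent.GLB

namespace ITR_

variable {n : ℕ}

/-- every body is a multiple of a body in the unit ball -/
lemma scale (K : ConvexBody (E n)) (R : ℝ) (hR : 0 < R)
    (hK : (K : Set (E n)) ⊆ closedBall 0 R) :
    ∃ K' : ConvexBody (E n), (K' : Set (E n)) ⊆ closedBall 0 1 ∧ K = R • K' := by
  refine ⟨R⁻¹ • K, ?_, ?_⟩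
  · rw [ConvexBody.coe_smul]
    rintro _ ⟨x, hx, rfl⟩
    have h1 := hK hx
    rw [mem_closedBall_zero_iff] at h1 ⊢
    change ‖R⁻¹ • x‖ ≤ 1
    rw [norm_smul, norm_inv, Real.norm_of_nonneg hR.le]
    calc R⁻¹ * ‖x‖ ≤ R⁻¹ * R := mul_le_mul_of_nonneg_left h1 (inv_nonneg.2 hR.le)
      _ = 1 := inv_mul_cancel₀ hR.ne'
  · rw [smul_smul, mul_inv_cancel₀ hR.ne', one_smul]

lemma bdd (K : ConvexBody (E n)) : ∃ R : ℝ, 0 < R ∧ (K : Set (E n)) ⊆ closedBall 0 R := by
  obtain ⟨R, h1, h2⟩ := K.isBounded.subset_closedBall_lt 0 (0 : E n)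
  exact ⟨R, h1, h2⟩

lemma near (K L : ConvexBody (E n)) (R : ℝ) (hL : (L : Set (E n)) ⊆ closedBall 0 R)
    (h : dist K L < 1) : (K : Set (E n)) ⊆ closedBall 0 (R + 1) := by
  intro x hx
  have h1 : Metric.hausdorffDist (K : Set (E n)) L < 1 := h
  obtain ⟨y, hy, hxy⟩ := Metric.exists_dist_lt_of_hausdorffDist_lt hx h1
    ConvexBody.hausdorffEDist_ne_top
  have h2 := hL hy
  rw [mem_closedBall] at h2 ⊢
  have h3 := dist_triangle x y 0
  linarith

/-- the state of the recursion: a functional and a bound -/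
structure St (n : ℕ) where
  μ : ConvexBody (E n) → ℝ
  b : ℝ
  hμ : AddF n μ
  hb : 0 < b
  bd : ∀ K : ConvexBody (E n), (K : Set (E n)) ⊆ closedBall 0 1 → |μ K| ≤ b

/-- the properties of the measure chosen for a state -/
def Ch (C : ℝ) (s : St n) (Ψ : ConvexBody (E n) → (C(S n, ℝ) →L[ℝ] ℝ)) : Prop :=
  Good n Ψ ∧
  (∀ K : ConvexBody (E n), (K : Set (E n)) ⊆ closedBall 0 1 → ∀ φ, |Ψ K φ| ≤ C * s.b * ‖φ‖) ∧
  AddF n (fun K => Ψ K 1) ∧
  ∀ K : ConvexBody (E n), (K : Set (E n)) ⊆ closedBall 0 1 → |s.μ K - Ψ K 1| ≤ s.b / 2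

lemma AddF.sub {μ ν : ConvexBody (E n) → ℝ} (h : AddF n μ) (h' : AddF n ν) :
    AddF n (fun K => μ K - ν K) where
  cont := h.cont.sub h'.cont
  trans K x := by rw [h.trans, h'.trans]
  homog K t ht := by rw [h.homog K t ht, h'.homog K t ht]; ring
  add K L := by rw [h.add, h'.add]; ring

/-- the next state -/
def nx (C : ℝ) (s : St n) (Ψ : ConvexBody (E n) → (C(S n, ℝ) →L[ℝ] ℝ)) (h : Ch C s Ψ) : St n where
  μ := fun K => s.μ K - Ψ K 1
  b := s.b / 2
  hμ := AddF.sub s.hμ h.2.2.1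
  hb := half_pos s.hb
  bd := h.2.2.2

/-- a sequence of good maps whose sum represents `μ` -/
lemma seq (hn : 2 ≤ n) (hAPX : T_APX) (μ : ConvexBody (E n) → ℝ) (hμ : AddF n μ) (M : ℝ)
    (hM : 0 < M) (hb : ∀ K : ConvexBody (E n), (K : Set (E n)) ⊆ closedBall 0 1 → |μ K| ≤ M) :
    ∃ (C : ℝ) (Ψ : ℕ → ConvexBody (E n) → (C(S n, ℝ) →L[ℝ] ℝ)) (ν : ℕ → ConvexBody (E n) → ℝ),
      0 ≤ C ∧ (∀ j, Good n (Ψ j)) ∧
      (∀ (j : ℕ) (K : ConvexBody (E n)), (K : Set (E n)) ⊆ closedBall 0 1 → ∀ φ,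
        |Ψ j K φ| ≤ C * (M * (1 / 2) ^ j) * ‖φ‖) ∧
      (∀ K, ν 0 K = μ K) ∧ (∀ j K, ν (j + 1) K = ν j K - Ψ j K 1) ∧ (∀ j, AddF n (ν j)) ∧
      ∀ (j : ℕ) (K : ConvexBody (E n)), (K : Set (E n)) ⊆ closedBall 0 1 →
        |ν j K| ≤ M * (1 / 2) ^ j := by
  obtain ⟨C, hC, hA⟩ := hAPX n hn
  have hch : ∀ s : St n, ∃ Ψ : ConvexBody (E n) → (C(S n, ℝ) →L[ℝ] ℝ), Ch C s Ψ := fun s => by
    obtain ⟨Ψ, h1, h2, h3, h4⟩ := hA s.μ s.b s.hμ s.bd (s.b / 2) (half_pos s.hb)
    exact ⟨Ψ, h1, h2, h3, h4⟩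
  choose P hP using hch
  let s₀ : St n := ⟨μ, M, hμ, hM, hb⟩
  let st : ℕ → St n := fun j => Nat.rec s₀ (fun _ s => nx C s (P s) (hP s)) j
  have hst0 : st 0 = s₀ := rfl
  have hst : ∀ j, st (j + 1) = nx C (st j) (P (st j)) (hP (st j)) := fun j => rfl
  have hbj : ∀ j, (st j).b = M * (1 / 2) ^ j := by
    intro j
    induction j with
    | zero => rw [hst0, pow_zero, mul_one]
    | succ j ih =>
      rw [hst]
      change (st j).b / 2 = _
      rw [ih, pow_succ]
      ring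
  refine ⟨C, fun j => P (st j), fun j => (st j).μ, hC, fun j => (hP (st j)).1, fun j K hK φ => ?_,
    fun K => rfl, fun j K => rfl, fun j => (st j).hμ, fun j K hK => ?_⟩
  · have h := (hP (st j)).2.1 K hK φ
    rw [hbj] at h
    exact h
  · have h := (st j).bd K hK
    rw [hbj] at h
    exact h

end ITR_

open ITR_ in
theorem p_ITR (hAPX : T_APX) (hNRM : T_NRM) (hACT : T_ACT) : T_ITR := by
  intro n hn μ hμ
  obtain ⟨M₀, hM₀⟩ := hNRM n μ hμ
  have hM : 0 < |M₀| + 1 := by positivity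
  obtain ⟨C, Ψ, ν, hC, hG, hΨ, hν0, hν1, hνA, hνb⟩ := seq hn hAPX μ hμ (|M₀| + 1) hM
    fun K hK => (hM₀ K hK).trans ((le_abs_self _).trans (by linarith))
  set M : ℝ := |M₀| + 1 with hMdef
  -- bounds on all bodies
  have hbd : ∀ (j : ℕ) (K : ConvexBody (E n)) (R : ℝ), 0 < R → (K : Set (E n)) ⊆ closedBall 0 R →
      ∀ φ, |Ψ j K φ| ≤ R * (C * M) * (1 / 2) ^ j * ‖φ‖ := by
    intro j K R hR hK φ
    obtain ⟨K', hK', rfl⟩ := scale K R hR hK
    rw [(hG j).homog K' R hR.le, smul_apply, smul_eq_mul, abs_mul,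
      abs_of_pos hR]
    calc R * |Ψ j K' φ| ≤ R * (C * (M * (1 / 2) ^ j) * ‖φ‖) :=
          mul_le_mul_of_nonneg_left (hΨ j K' hK' φ) hR.le
      _ = R * (C * M) * (1 / 2) ^ j * ‖φ‖ := by ring
  have hnm : ∀ (j : ℕ) (K : ConvexBody (E n)) (R : ℝ), 0 < R → (K : Set (E n)) ⊆ closedBall 0 R →
      ‖Ψ j K‖ ≤ R * (C * M) * (1 / 2) ^ j := by
    intro j K R hR hK
    refine ContinuousLinearMap.opNorm_le_bound _ (by positivity) fun φ => ?_
    exact hbd j K R hR hK φ
  have hgeo : ∀ c : ℝ, Summable fun j : ℕ => c * (1 / 2 : ℝ) ^ j := fun c =>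
    (summable_geometric_of_lt_one (by norm_num) (by norm_num)).mul_left c
  have hsum : ∀ K : ConvexBody (E n), Summable fun j => Ψ j K := by
    intro K
    obtain ⟨R, hR, hK⟩ := bdd K
    exact Summable.of_norm_bounded (f := fun j => Ψ j K) (hgeo (R * (C * M)))
      fun j => hnm j K R hR hK
  have happ : ∀ (K : ConvexBody (E n)) (φ : C(S n, ℝ)),
      HasSum (fun j => Ψ j K φ) ((∑' j, Ψ j K) φ) := by
    intro K φ
    exact (hsum K).hasSum.mapL (ContinuousLinearMap.apply ℝ ℝ φ)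
  refine ⟨fun K => ∑' j, Ψ j K, ?_, ?_⟩
  · refine ⟨?_, ?_, ?_, ?_, ?_⟩
    · -- continuity
      intro φ
      rw [continuous_iff_continuousAt]
      intro K₀
      obtain ⟨R, hR, hK₀⟩ := bdd K₀
      have h1 : ContinuousOn (fun K => ∑' j, Ψ j K φ) (ball K₀ 1) := by
        refine continuousOn_tsum (fun j => ((hG j).cont φ).continuousOn)
          (hgeo ((R + 1) * (C * M) * ‖φ‖)) fun j K hK => ?_
        have h2 := near K K₀ R hK₀ (mem_ball.1 hK)
        have h3 := hbd j K (R + 1) (by linarith) h2 φ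
        rw [Real.norm_eq_abs]
        linarith
      have h2 : (fun K => ∑' j, Ψ j K φ) = fun K => (∑' j, Ψ j K) φ := by
        funext K
        exact (happ K φ).tsum_eq
      rw [h2] at h1
      exact h1.continuousAt (ball_mem_nhds K₀ one_pos)
    · -- local determination
      intro K L U hU hKL φ hφ
      have h1 := happ K φ
      have h2 : (fun j => Ψ j K φ) = fun j => Ψ j L φ := by
        funext j
        exact (hG j).loc K L U hU hKL φ hφ
      rw [h2] at h1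
      exact h1.unique (happ L φ)
    · intro K x
      change ∑' j, Ψ j (K + pt x) = ∑' j, Ψ j K
      exact tsum_congr fun j => (hG j).trans K x
    · intro K t ht
      change ∑' j, Ψ j (t • K) = t • ∑' j, Ψ j K
      rw [← (hsum K).tsum_const_smul t]
      exact tsum_congr fun j => (hG j).homog K t ht
    · -- continuity for the action
      intro A₀ ε hε
      have hA : ∀ᶠ A : (E n →L[ℝ] E n)ˣ in 𝓝 A₀, ‖(A : E n →L[ℝ] E n)‖ <
          ‖(A₀ : E n →L[ℝ] E n)‖ + 1 := by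
        have h1 : Continuous fun A : (E n →L[ℝ] E n)ˣ => ‖(A : E n →L[ℝ] E n)‖ :=
          Units.continuous_val.norm
        exact h1.continuousAt.eventually_lt continuousAt_const (by simp)
      set a : ℝ := ‖(A₀ : E n →L[ℝ] E n)‖ + 1 with ha
      have ha0 : 0 < a := by positivity
      have ha1 : ‖(A₀ : E n →L[ℝ] E n)‖ < a := by rw [ha]; linarith
      -- the bound of one term
      have hT : ∀ A : (E n →L[ℝ] E n)ˣ, ‖(A : E n →L[ℝ] E n)‖ < a → ∀ K : ConvexBody (E n),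
          (K : Set (E n)) ⊆ closedBall 0 1 → ∀ φ : C(S n, ℝ), ‖φ‖ ≤ 1 → ∀ j,
          |Ψ j (mapB (A : E n →L[ℝ] E n) K) (act A φ)| ≤ a * (C * M) * a * (1 / 2) ^ j := by
        intro A hAa K hK φ hφ j
        obtain ⟨_, _, _, h4, h5⟩ := hACT n
        have h6 := h5 A K 1 hK
        rw [mul_one] at h6
        have h7 := hbd j _ a ha0 (h6.trans (closedBall_subset_closedBall hAa.le)) (act A φ)
        have h8 : ‖act A φ‖ ≤ a := by
          calc ‖act A φ‖ ≤ ‖(A : E n →L[ℝ] E n)‖ * ‖φ‖ := h4 A φ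
            _ ≤ a * 1 := mul_le_mul hAa.le hφ (norm_nonneg _) ha0.le
            _ = a := mul_one a
        calc |Ψ j (mapB (A : E n →L[ℝ] E n) K) (act A φ)|
            ≤ a * (C * M) * (1 / 2) ^ j * ‖act A φ‖ := h7
          _ ≤ a * (C * M) * (1 / 2) ^ j * a := mul_le_mul_of_nonneg_left h8 (by positivity)
          _ = a * (C * M) * a * (1 / 2) ^ j := by ring
      set B : ℝ := a * (C * M) * a with hB
      have hB0 : 0 ≤ B := by positivity
      -- the number of terms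
      obtain ⟨J, hJ⟩ : ∃ J : ℕ, 4 * B * (1 / 2) ^ J ≤ ε / 2 := by
        have h1 : Tendsto (fun j : ℕ => 4 * B * (1 / 2 : ℝ) ^ j) atTop (𝓝 (4 * B * 0)) :=
          (tendsto_pow_atTop_nhds_zero_of_lt_one (by norm_num) (by norm_num)).const_mul _
        rw [mul_zero] at h1
        exact (h1.eventually (ge_mem_nhds (half_pos hε))).exists
      have hfin : ∀ᶠ A : (E n →L[ℝ] E n)ˣ in 𝓝 A₀, ∀ j ∈ Finset.range J,
          ∀ K : ConvexBody (E n), (K : Set (E n)) ⊆ closedBall 0 1 → ∀ φ : C(S n, ℝ), ‖φ‖ ≤ 1 →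
          |Ψ j (mapB (A : E n →L[ℝ] E n) K) (act A φ) -
            Ψ j (mapB (A₀ : E n →L[ℝ] E n) K) (act A₀ φ)| ≤ ε / (2 * (J + 1)) := by
        rw [Filter.eventually_all_finset]
        intro j _
        exact (hG j).gl A₀ _ (by positivity)
      filter_upwards [hA, hfin] with A hA1 hA2 K hK φ hφ
      have hs1 := happ (mapB (A : E n →L[ℝ] E n) K) (act A φ)
      have hs2 := happ (mapB (A₀ : E n →L[ℝ] E n) K) (act A₀ φ)
      have hs := hs1.sub hs2
      rw [← hs.tsum_eq, ← hs.summable.sum_add_tsum_nat_add J]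
      have h1 : |∑ j ∈ Finset.range J, (Ψ j (mapB (A : E n →L[ℝ] E n) K) (act A φ) -
          Ψ j (mapB (A₀ : E n →L[ℝ] E n) K) (act A₀ φ))| ≤ ε / 2 := by
        calc |∑ j ∈ Finset.range J, (Ψ j (mapB (A : E n →L[ℝ] E n) K) (act A φ) -
              Ψ j (mapB (A₀ : E n →L[ℝ] E n) K) (act A₀ φ))|
            ≤ ∑ j ∈ Finset.range J, |Ψ j (mapB (A : E n →L[ℝ] E n) K) (act A φ) -
              Ψ j (mapB (A₀ : E n →L[ℝ] E n) K) (act A₀ φ)| := Finset.abs_sum_le_sum_abs _ _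
          _ ≤ ∑ j ∈ Finset.range J, ε / (2 * ((J : ℝ) + 1)) :=
              Finset.sum_le_sum fun j hj => hA2 j hj K hK φ hφ
          _ = J * (ε / (2 * ((J : ℝ) + 1))) := by
              rw [Finset.sum_const, Finset.card_range, nsmul_eq_mul]
          _ ≤ ((J : ℝ) + 1) * (ε / (2 * ((J : ℝ) + 1))) := by
              refine mul_le_mul_of_nonneg_right (by linarith) (by positivity)
          _ = ε / 2 := by field_simp
      have h2 : |∑' i, (Ψ (i + J) (mapB (A : E n →L[ℝ] E n) K) (act A φ) -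
          Ψ (i + J) (mapB (A₀ : E n →L[ℝ] E n) K) (act A₀ φ))| ≤ ε / 2 := by
        have h3 : HasSum (fun i : ℕ => 2 * B * (1 / 2 : ℝ) ^ J * (1 / 2) ^ i)
            (2 * B * (1 / 2 : ℝ) ^ J * (1 - 1 / 2)⁻¹) :=
          (hasSum_geometric_of_lt_one (by norm_num) (by norm_num)).mul_left _
        have h4 := tsum_of_norm_bounded (f := fun i => (Ψ (i + J)
          (mapB (A : E n →L[ℝ] E n) K) (act A φ) -
          Ψ (i + J) (mapB (A₀ : E n →L[ℝ] E n) K) (act A₀ φ))) h3 fun i => by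
            have h5 := hT A hA1 K hK φ hφ (i + J)
            have h6 := hT A₀ ha1 K hK φ hφ (i + J)
            have h7 := abs_sub (Ψ (i + J) (mapB (A : E n →L[ℝ] E n) K) (act A φ))
              (Ψ (i + J) (mapB (A₀ : E n →L[ℝ] E n) K) (act A₀ φ))
            rw [Real.norm_eq_abs]
            calc |Ψ (i + J) (mapB (A : E n →L[ℝ] E n) K) (act A φ) -
                  Ψ (i + J) (mapB (A₀ : E n →L[ℝ] E n) K) (act A₀ φ)|
                ≤ B * (1 / 2) ^ (i + J) + B * (1 / 2) ^ (i + J) := by linarith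
              _ = 2 * B * (1 / 2 : ℝ) ^ J * (1 / 2) ^ i := by rw [pow_add]; ring
        rw [Real.norm_eq_abs] at h4
        refine h4.trans ?_
        have h8 : 2 * B * (1 / 2 : ℝ) ^ J * (1 - 1 / 2)⁻¹ = 4 * B * (1 / 2) ^ J := by
          norm_num
          ring
        rw [h8]
        exact hJ
      refine (abs_add_le _ _).trans ?_
      linarith
  · -- the total mass
    intro K
    obtain ⟨R, hR, hK⟩ := bdd K
    obtain ⟨K', hK', hKK⟩ := scale K R hR hK
    have h1 : ∀ N, ∑ j ∈ Finset.range N, Ψ j K 1 = μ K - ν N K := by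
      intro N
      induction N with
      | zero => rw [Finset.sum_range_zero, hν0, sub_self]
      | succ N ih => rw [Finset.sum_range_succ, ih, hν1]; ring
    have h2 : Tendsto (fun N => ν N K) atTop (𝓝 0) := by
      have h3 : Tendsto (fun N : ℕ => R * M * (1 / 2 : ℝ) ^ N) atTop (𝓝 (R * M * 0)) :=
        (tendsto_pow_atTop_nhds_zero_of_lt_one (by norm_num) (by norm_num)).const_mul _
      rw [mul_zero] at h3
      refine squeeze_zero_norm (fun N => ?_) h3
      rw [Real.norm_eq_abs, hKK, (hνA N).homog K' R hR.le, abs_mul, abs_of_pos hR]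
      calc R * |ν N K'| ≤ R * (M * (1 / 2) ^ N) := mul_le_mul_of_nonneg_left (hνb N K' hK') hR.le
        _ = R * M * (1 / 2) ^ N := by ring
    have h3 := (happ K 1).tendsto_sum_nat
    have h4 : Tendsto (fun N => ∑ j ∈ Finset.range N, Ψ j K 1) atTop (𝓝 (μ K - 0)) := by
      have h5 : (fun N => ∑ j ∈ Finset.range N, Ψ j K 1) = fun N => μ K - ν N K := funext h1
      rw [h5]
      exact tendsto_const_nhds.sub h2
    rw [sub_zero] at h4
    exact tendsto_nhds_unique h3 h4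

end Pool.Agent.GLB
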