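import Pool.Agent.GLB.TC

/-!
# GLB: second derivatives of linear functions vanish
-/

set_option autoImplicit false

open Metric Set Filter Topology MeasureTheory

noncomputable section

namespace Pool.Agent.GLB

theorem LIN_convex {n : ℕ} (y : E n) :
    ConvexOn ℝ univ (fun x : E n => (inner ℝ y x : ℝ)) :=
  ((innerSL ℝ y).toLinearMap).convexOn convex_univ

theorem LIN_neg {n : ℕ} (y : E n) (b : E n → ℝ) (v : E n) :
    Dh (fun x => inner ℝ (-y) x) b v v = - Dh (fun x => inner ℝ y x) b v v := by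
  unfold Dh
  rw [← integral_neg]
  refine integral_congr_ae (Eventually.of_forall fun x => ?_)
  simp only [inner_neg_left, neg_mul]

theorem LIN_nonneg {n : ℕ} (hPOS : T_POS) (b : E n → ℝ) (hb : ContDiff ℝ 2 b)
    (hR : ∃ R : ℝ, ∀ x, R ≤ ‖x‖ → b x = 0) (h0 : ∀ x, 0 ≤ b x) (y v : E n) :
    Dh (fun x => inner ℝ y x) b v v = 0 := by
  have h1 := hPOS n (fun x => inner ℝ y x) b (LIN_convex y)
    (continuous_const.inner continuous_id) hb hR h0 v
  have h2 := hPOS n (fun x => inner ℝ (-y) x) b (LIN_convex (-y))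
    (continuous_const.inner continuous_id) hb hR h0 v
  rw [LIN_neg] at h2
  linarith

/-- the target `T_LIN` -/
theorem p_LIN (hPOS : T_POS) (hDHL : T_DHL) : T_LIN := by
  rintro n b hb ⟨R, hR⟩ y v
  have hm : (0 : ℝ) < max R 1 := lt_of_lt_of_le one_pos (le_max_right _ _)
  let χ : ContDiffBump (0 : E n) := ⟨max R 1, max R 1 + 1, hm, by linarith⟩
  have hχ : ContDiff ℝ 2 (χ : E n → ℝ) := χ.contDiff
  have hχ0 : ∀ x : E n, max R 1 + 1 ≤ ‖x‖ → χ x = 0 := by
    intro x hx
    apply χ.zero_of_le_dist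
    rw [dist_zero_right]
    exact hx
  have hχ1 : ∀ x : E n, ‖x‖ ≤ R → χ x = 1 := by
    intro x hx
    apply χ.one_of_mem_closedBall
    rw [mem_closedBall, dist_zero_right]
    exact hx.trans (le_max_left _ _)
  have hb0 : ∀ x : E n, max R 1 + 1 ≤ ‖x‖ → b x = 0 := by
    intro x hx
    exact hR x ((le_max_left R 1).trans (by linarith))
  have hcs : HasCompactSupport b := by
    refine HasCompactSupport.intro (isCompact_closedBall (0 : E n) R) fun x hx => hR x ?_
    rw [mem_closedBall, dist_zero_right, not_le] at hx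
    exact hx.le
  obtain ⟨c, hc⟩ := hb.continuous.bounded_above_of_compact_support hcs
  have hc0 : 0 ≤ c := (norm_nonneg _).trans (hc 0)
  have h1 : Dh (fun x => inner ℝ y x) (fun x => b x + c * χ x) v v = 0 := by
    refine LIN_nonneg hPOS _ (hb.add (contDiff_const.mul hχ))
      ⟨max R 1 + 1, fun x hx => ?_⟩ (fun x => ?_) y v
    · rw [hb0 x hx, hχ0 x hx, mul_zero, add_zero]
    · rcases le_total ‖x‖ R with hx | hx
      · have h2 := hc x
        rw [Real.norm_eq_abs] at h2
        have h3 := (abs_le.1 h2).1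
        rw [hχ1 x hx]
        linarith
      · rw [hR x hx, zero_add]
        exact mul_nonneg hc0 χ.nonneg
  have h2 : Dh (fun x => inner ℝ y x) (χ : E n → ℝ) v v = 0 :=
    LIN_nonneg hPOS _ hχ ⟨max R 1 + 1, hχ0⟩ (fun x => χ.nonneg) y v
  have h3 := (hDHL n (max R 1 + 1)).2.1 (fun x => inner ℝ y x) b χ
    (continuous_const.inner continuous_id) hb hχ hb0 hχ0 c v v
  rw [h1, h2, mul_zero, add_zero] at h3
  exact h3.symm

end Pool.Agent.GLB
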