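import Pool.Agent.GLB.TA

/-!
# GLB: McMullen's theorem in degree one
-/

set_option autoImplicit false

open Metric Set Filter Topology MeasureTheory

noncomputable section

namespace Pool.Agent.GLB

lemma MCC_key (hMCA : T_MCA) (hCTA : T_CTA) (n : ℕ) (μ : ConvexBody (E n) → ℝ) (h : RVal n μ)
    (L : ConvexBody (E n)) (p : E n) (w : ℕ → E n) (N : ℕ) :
    μ (pt p + TT w 0 N + L) - μ (pt p + TT w 0 N) - μ L = 0 := by
  have h1 := hMCA n μ h w 0 N (Nat.zero_le _) 1 zero_le_one L
  rw [one_smul] at h1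
  have comm := (hCTA n).2.2.2.2.1
  have h2 : pt p + TT w 0 N + L = TT w 0 N + L + pt p := by
    rw [comm (pt p) (TT w 0 N), add_assoc, comm (pt p) L, ← add_assoc]
  rw [h2, h.trans, comm (pt p) (TT w 0 N), h.trans, h1]
  ring

theorem p_MCC (hMCA : T_MCA) (hMCD : T_MCD) (hCTA : T_CTA) : T_MCC := by
  intro n μ h
  refine ⟨h.cont, h.trans, h.homog, fun K L => ?_⟩
  have hf : Continuous fun B : ConvexBody (E n) => μ (B + L) - μ B - μ L :=
    ((h.cont.comp ((hCTA n).1 L)).sub h.cont).sub continuous_const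
  have hcl : IsClosed {B : ConvexBody (E n) | μ (B + L) - μ B - μ L = 0} :=
    isClosed_eq hf continuous_const
  have hK : K ∈ closure {B : ConvexBody (E n) | μ (B + L) - μ B - μ L = 0} := by
    refine Metric.mem_closure_iff.2 fun ε hε => ?_
    obtain ⟨p, w, N, hd⟩ := hMCD n K (ε / 2) (half_pos hε)
    exact ⟨pt p + TT w 0 N, MCC_key hMCA hCTA n μ h L p w N,
      lt_of_le_of_lt hd (half_lt_self hε)⟩
  rw [hcl.closure_eq] at hK
  have h3 : μ (K + L) - μ K - μ L = 0 := hK
  linarith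

end Pool.Agent.GLB
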