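import Pool.Agent.GLB.TA

/-!
# GLB: approximation of convex bodies by images of simplices
-/

set_option autoImplicit false

open Metric Set Filter Topology MeasureTheory

noncomputable section

namespace Pool.Agent.GLB

open scoped Pointwise

/-- a finite net, enumerated -/
lemma MCD_net {n : ℕ} (K : ConvexBody (E n)) (ε : ℝ) (hε : 0 < ε) :
    ∃ (p : ℕ → E n) (N : ℕ), (∀ m, p m ∈ K) ∧ ∀ y ∈ K, ∃ m ≤ N, dist y (p m) ≤ ε := by
  obtain ⟨t, htK, htf, hcov⟩ := K.isCompact.finite_cover_balls hε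
  obtain ⟨x0, hx0⟩ := K.nonempty
  refine ⟨fun m => htf.toFinset.toList.getD m x0, htf.toFinset.toList.length, fun m => ?_,
    fun y hy => ?_⟩
  · by_cases hm : m < htf.toFinset.toList.length
    · have h1 : htf.toFinset.toList.getD m x0 = htf.toFinset.toList[m] :=
        List.getD_eq_getElem _ _ hm
      change htf.toFinset.toList.getD m x0 ∈ K
      rw [h1]
      have h2 : htf.toFinset.toList[m] ∈ htf.toFinset.toList := List.getElem_mem hm
      rw [Finset.mem_toList, Set.Finite.mem_toFinset] at h2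
      exact htK h2
    · have h1 : htf.toFinset.toList.getD m x0 = x0 := by
        rw [List.getD_eq_default]
        omega
      change htf.toFinset.toList.getD m x0 ∈ K
      rw [h1]
      exact hx0
  · have h1 := hcov hy
    rw [Set.mem_iUnion₂] at h1
    obtain ⟨x, hx, hyx⟩ := h1
    have h2 : x ∈ htf.toFinset.toList := by
      rw [Finset.mem_toList, Set.Finite.mem_toFinset]
      exact hx
    obtain ⟨m, hm, hmx⟩ := List.getElem_of_mem h2
    refine ⟨m, hm.le, ?_⟩
    have h3 : htf.toFinset.toList.getD m x0 = x := by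
      rw [List.getD_eq_getElem _ _ hm, hmx]
    change dist y (htf.toFinset.toList.getD m x0) ≤ ε
    rw [h3]
    exact (mem_ball.1 hyx).le

/-- Abel summation and convexity -/
lemma MCD_abel {n : ℕ} (K : ConvexBody (E n)) (p : ℕ → E n) (hp : ∀ m, p m ∈ K) (x : ℕ → ℝ)
    (hx : Antitone x) (h01 : ∀ m, 0 ≤ x m ∧ x m ≤ 1) (N : ℕ) :
    p 0 + ∑ m ∈ Finset.range N, x m • (p (m + 1) - p m) - x N • p N ∈
      (1 - x N) • (K : Set (E n)) := by
  induction N with
  | zero =>
    refine ⟨p 0, hp 0, ?_⟩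
    simp [sub_smul]
  | succ N ih =>
    have h1 : p 0 + ∑ m ∈ Finset.range (N + 1), x m • (p (m + 1) - p m) -
        x (N + 1) • p (N + 1) = (p 0 + ∑ m ∈ Finset.range N, x m • (p (m + 1) - p m) -
          x N • p N) + (x N - x (N + 1)) • p (N + 1) := by
      rw [Finset.sum_range_succ, smul_sub, sub_smul]
      abel
    have h2 : (1 - x (N + 1)) = (1 - x N) + (x N - x (N + 1)) := by ring
    rw [h1, h2, K.convex.add_smul (by linarith [(h01 N).2]) (by linarith [hx (Nat.le_succ N)])]
    exact Set.add_mem_add ih ⟨p (N + 1), hp (N + 1), rfl⟩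

lemma MCD_mem {n : ℕ} (K : ConvexBody (E n)) (p : ℕ → E n) (hp : ∀ m, p m ∈ K) (x : ℕ → ℝ)
    (hx : Antitone x) (h01 : ∀ m, 0 ≤ x m ∧ x m ≤ 1) (N : ℕ) :
    p 0 + ∑ m ∈ Finset.range N, x m • (p (m + 1) - p m) ∈ K := by
  have h1 := MCD_abel K p hp x hx h01 N
  have h2 : x N • p N ∈ x N • (K : Set (E n)) := ⟨p N, hp N, rfl⟩
  have h3 := Set.add_mem_add h1 h2
  rw [← K.convex.add_smul (by linarith [(h01 N).2]) (h01 N).1, sub_add_cancel,
    sub_add_cancel, one_smul] at h3
  exact h3

theorem p_MCD : T_MCD := by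
  intro n K ε hε
  obtain ⟨p, N, hpK, hnet⟩ := MCD_net K ε hε
  have hne : (seqs (fun _ => 0) (fun _ => 1)).Nonempty :=
    ⟨fun _ => 0, fun _ _ _ => le_rfl, fun _ => ⟨le_rfl, zero_le_one⟩⟩
  refine ⟨p 0, fun m => p (m + 1) - p m, N, ?_⟩
  rw [← ConvexBody.hausdorffDist_coe, ConvexBody.coe_add]
  refine hausdorffDist_le_of_mem_dist hε.le (fun y hy => ?_) ?_
  · obtain ⟨m, hm, hd⟩ := hnet y hy
    refine ⟨p m, ?_, hd⟩
    have h1 : p m = p 0 + ∑ i ∈ Finset.Ico 0 N, (if i < m then (1 : ℝ) else 0) •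
        (p (i + 1) - p i) := by
      have h2 : ∑ i ∈ Finset.Ico 0 N, (if i < m then (1 : ℝ) else 0) • (p (i + 1) - p i) =
          ∑ i ∈ Finset.range m, (p (i + 1) - p i) := by
        rw [← Finset.range_eq_Ico]
        have h3 : ∀ i ∈ Finset.range N, (if i < m then (1 : ℝ) else 0) • (p (i + 1) - p i) =
            if i < m then p (i + 1) - p i else 0 := by
          intro i _
          split_ifs
          · rw [one_smul]
          · rw [zero_smul]
        rw [Finset.sum_congr rfl h3, ← Finset.sum_filter]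
        refine Finset.sum_congr ?_ fun _ _ => rfl
        ext i
        simp only [Finset.mem_filter, Finset.mem_range]
        omega
      rw [h2, Finset.sum_range_sub]
      abel
    refine Set.mem_add.2 ⟨p 0, Set.mem_singleton _, _, ?_, h1.symm⟩
    refine (mem_bd _ 0 N _ _ hne _).2 ⟨fun i => if i < m then (1 : ℝ) else 0, ⟨?_, fun i => ?_⟩,
      rfl⟩
    · intro a b hab
      dsimp only
      split_ifs with h3 h4
      · exact le_rfl
      · omega
      · exact zero_le_one
      · exact le_rfl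
    · dsimp only
      split_ifs
      · exact ⟨zero_le_one, le_rfl⟩
      · exact ⟨le_rfl, zero_le_one⟩
  · rintro _ ⟨q, hq, z, hz, rfl⟩
    have hq' : q = p 0 := hq
    obtain ⟨x, hx, rfl⟩ := (mem_bd _ 0 N _ _ hne _).1 hz
    refine ⟨q + cmb (fun m => p (m + 1) - p m) 0 N x, ?_, ?_⟩
    · rw [hq']
      have h1 := MCD_mem K p hpK x hx.1 hx.2 N
      unfold cmb
      rw [← Finset.range_eq_Ico]
      exact h1
    · have : dist (q + cmb (fun m => p (m + 1) - p m) 0 N x)
        (q + cmb (fun m => p (m + 1) - p m) 0 N x) = 0 := dist_self _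
      exact this.le.trans hε.le

end Pool.Agent.GLB
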