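import Pool.Agent.GLB.TF

/-!
# GLB: target MLP (mollification of convex bodies)
-/

set_option autoImplicit false

open Metric Set Filter Topology MeasureTheory

noncomputable section

namespace Pool.Agent.GLB

theorem MLP_zero {n : ℕ} {δ : ℝ} (m : Moll n δ) (u : E n) : rho m (fun _ => (0 : ℝ)) u = 0 := by
  unfold rho
  simp

theorem MLP_smul (hRHO : T_RHO) {n : ℕ} {δ : ℝ} (m : Moll n δ) (d : E n → ℝ)
    (hd : Continuous d) (t : ℝ) (u : E n) : rho m (fun x => t * d x) u = t * rho m d u := by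
  have h := (hRHO n δ m).2.1 (fun _ => 0) d t u continuous_const hd
  rw [MLP_zero, zero_add] at h
  rw [← h]
  congr 1
  funext x
  rw [zero_add]

theorem MLP_add (hRHO : T_RHO) {n : ℕ} {δ : ℝ} (m : Moll n δ) (d d' : E n → ℝ)
    (hd : Continuous d) (hd' : Continuous d') (u : E n) :
    rho m (fun x => d x + d' x) u = rho m d u + rho m d' u := by
  have h := (hRHO n δ m).2.1 d d' 1 u hd hd'
  rw [one_mul] at h
  rw [← h]
  congr 1
  funext x
  rw [one_mul]

theorem p_MLP (hMLS : T_MLS) (hSUA : T_SUA) (hSUH : T_SUH) (hSUL : T_SUL) (hSUD : T_SUD)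
    (hRHO : T_RHO) : T_MLP := by
  intro n δ m hn
  obtain ⟨-, -, sadd, ssmul, spt, -⟩ := hSUA n
  have hc : ∀ K : ConvexBody (E n), Continuous (supp K) := fun K => (hSUH n K).2.2.2.1
  have hs : ∀ (K : ConvexBody (E n)) (u : E n), supp (mol m K) u = rho m (supp K) u :=
    hMLS n δ m hn
  refine ⟨fun K L => ?_, fun K t ht => ?_, fun K x => ?_, fun K R hK => ?_⟩
  · refine (hSUL n _ _).2.1 fun u => ?_
    have h : supp (K + L) = fun x => supp K x + supp L x := funext fun x => sadd K L x
    rw [hs, h, MLP_add hRHO m _ _ (hc K) (hc L), sadd, hs, hs]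
  · refine (hSUL n _ _).2.1 fun u => ?_
    have h : supp (t • K) = fun x => t * supp K x := funext fun x => ssmul K t x ht
    rw [hs, h, MLP_smul hRHO m _ (hc K), ssmul _ t u ht, hs]
  · refine (hSUL n _ _).2.1 fun u => ?_
    have h : supp (K + pt x) = fun y => supp K y + inner ℝ x y := funext fun y => by
      rw [sadd, spt]
    have hi : Continuous fun y : E n => inner ℝ x y := by fun_prop
    rw [hs, h, MLP_add hRHO m _ _ (hc K) hi, sadd, hs, spt, (hRHO n δ m).2.2.2]
  · have hR : 0 ≤ R := by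
      obtain ⟨x, hx⟩ := K.nonempty
      have h1 := hK hx
      rw [mem_closedBall, dist_zero_right] at h1
      exact (norm_nonneg x).trans h1
    obtain ⟨hb, hl⟩ := (hSUH n K).2.2.2.2 R hK
    have hd : ∀ u : E n, |supp (mol m K) u - supp K u| ≤ R * δ * ‖u‖ := fun u => by
      rw [hs]
      exact (hRHO n δ m).2.2.1 (supp K) R (hc K) hl u
    refine ⟨?_, ?_⟩
    · refine (hSUD n (mol m K) K).2 (R * δ) (mul_nonneg hR m.hδ.le) fun u hu => ?_
      have h1 := hd u
      rw [hu, mul_one] at h1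
      exact h1
    · refine (hSUL n (mol m K) K).2.2 (R * (1 + δ))
        (mul_nonneg hR (by have := m.hδ; linarith)) fun u => ?_
      have h1 := (abs_le.1 (hd u)).2
      have h2 := (abs_le.1 (hb u)).2
      calc supp (mol m K) u ≤ supp K u + R * δ * ‖u‖ := by linarith
        _ ≤ R * ‖u‖ + R * δ * ‖u‖ := by linarith
        _ = R * (1 + δ) * ‖u‖ := by ring

end Pool.Agent.GLB
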