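import Pool.Agent.GLB.TF

set_option autoImplicit false

open Metric Set Filter Topology MeasureTheory

noncomputable section

namespace Pool.Agent.GLB

namespace MLS_

lemma nonneg_F (hPOS : T_POS) {n : ℕ} {δ : ℝ} (m : Moll n δ) (h : E n → ℝ)
    (hc : ConvexOn ℝ univ h) (hcont : Continuous h) (u v : E n) :
    0 ≤ F m h (fun _ => 1) u v := by
  unfold F
  refine add_nonneg ?_ (Finset.sum_nonneg fun i _ => ?_)
  · refine hPOS n h _ hc hcont ?_ ?_ ?_ v
    · exact contDiff_const.mul (m.η_C2.comp (contDiff_id.sub contDiff_const))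
    · refine ⟨δ + ‖u‖, fun x hx => ?_⟩
      have h1 : δ ≤ ‖x - u‖ := by
        have := norm_sub_norm_le x u
        linarith
      simp [m.η_zero _ h1]
    · intro x
      simpa using m.η_nn (x - u)
  · refine hPOS n h _ hc hcont ?_ ?_ ?_ (eb i)
    · exact contDiff_const.mul (m.θ_C2.comp (contDiff_id.sub contDiff_const))
    · refine ⟨δ + ‖u‖, fun x hx => ?_⟩
      have h1 : δ ≤ ‖x - u‖ := by
        have := norm_sub_norm_le x u
        linarith
      simp [m.θ_zero _ h1]
    · intro x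
      simpa using m.θ_nn (x - u)

end MLS_

/-- MLS. -/
theorem p_MLS (hSUH : T_SUH) (hPOS : T_POS) (hSUB : T_SUB) (hRHO : T_RHO) (hSUE : T_SUE) :
    T_MLS := by
  intro n δ m hn K u
  obtain ⟨h1, h2, h3, h4, h5⟩ := hSUH n K
  have hsub := hSUB n δ m (supp K) hn h4 h1
    (fun u v _ _ _ => MLS_.nonneg_F hPOS m _ h3 h4 u v)
  have hhom : Hom1 (rho m (supp K)) := (hRHO n δ m).1 _ h1
  have hex : ∃ K' : ConvexBody (E n), ∀ u, supp K' u = rho m (supp K) u :=
    hSUE n _ hhom hsub
  unfold mol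
  rw [dif_pos hex]
  exact hex.choose_spec u

end Pool.Agent.GLB
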