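import Pool.Agent.GLB.TC

/-!
# GLB: the radial mollifier
-/

set_option autoImplicit false

open Metric Set Filter Topology MeasureTheory

noncomputable section

namespace Pool.Agent.GLB

namespace MOL_

/-- a primitive of `expNegInvGlue` -/
def q (s : ℝ) : ℝ := ∫ t in (0 : ℝ)..s, expNegInvGlue t

lemma g_cont : Continuous expNegInvGlue := (expNegInvGlue.contDiff (n := 0)).continuous

lemma q_deriv (s : ℝ) : HasDerivAt q (expNegInvGlue s) s :=
  (g_cont.integral_hasStrictDerivAt 0 s).hasDerivAt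

lemma q_contDiff : ContDiff ℝ 2 q := by
  have h1 : ContDiff ℝ (1 + 1) q := by
    rw [contDiff_succ_iff_deriv]
    refine ⟨fun s => (q_deriv s).differentiableAt, fun h => absurd h (by simp), ?_⟩
    have h2 : deriv q = expNegInvGlue := by
      funext s
      exact (q_deriv s).deriv
    rw [h2]
    exact expNegInvGlue.contDiff (n := 1)
  have h3 : (1 + 1 : WithTop ℕ∞) = 2 := by norm_num
  rwa [h3] at h1

lemma q_zero {s : ℝ} (hs : s ≤ 0) : q s = 0 := by
  unfold q
  rw [intervalIntegral.integral_congr (g := fun _ => (0 : ℝ))]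
  · simp
  · intro t ht
    rw [uIcc_of_ge hs] at ht
    exact expNegInvGlue.zero_of_nonpos ht.2

lemma q_nonneg (s : ℝ) : 0 ≤ q s := by
  rcases le_total s 0 with hs | hs
  · rw [q_zero hs]
  · exact intervalIntegral.integral_nonneg hs fun t _ => expNegInvGlue.nonneg t

variable {n : ℕ}

/-- the inner variable -/
def r2 (δ : ℝ) (y : E n) : ℝ := δ ^ 2 - ‖y‖ ^ 2

lemma r2_contDiff (δ : ℝ) : ContDiff ℝ 2 (r2 (n := n) δ) := by
  unfold r2
  exact contDiff_const.sub (contDiff_norm_sq ℝ)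

lemma r2_fderiv (δ : ℝ) (y : E n) :
    HasFDerivAt (r2 (n := n) δ) (-(2 • innerSL ℝ y)) y := by
  have h := (hasStrictFDerivAt_norm_sq y).hasFDerivAt
  have h2 := h.const_sub (δ ^ 2)
  exact h2

/-- the function `η` -/
def et (c δ : ℝ) (y : E n) : ℝ := 2 * c * expNegInvGlue (r2 δ y)

/-- the function `θ` -/
def th (c δ : ℝ) (y : E n) : ℝ := c * q (r2 δ y)

lemma et_contDiff (c δ : ℝ) : ContDiff ℝ 2 (et (n := n) c δ) := by
  unfold et
  exact contDiff_const.mul ((expNegInvGlue.contDiff (n := 2)).comp (r2_contDiff δ))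

lemma th_contDiff (c δ : ℝ) : ContDiff ℝ 2 (th (n := n) c δ) := by
  unfold th
  exact contDiff_const.mul (q_contDiff.comp (r2_contDiff δ))

lemma th_fderiv (c δ : ℝ) : fderiv ℝ (th (n := n) c δ) = fun y => -(et c δ y • innerSL ℝ y) := by
  funext y
  have h1 : HasFDerivAt (fun y : E n => q (r2 δ y))
      (expNegInvGlue (r2 δ y) • (-(2 • innerSL ℝ y) : E n →L[ℝ] ℝ)) y :=
    (q_deriv (r2 δ y)).comp_hasFDerivAt y (r2_fderiv δ y)
  have h2 := (h1.const_mul c).fderiv
  have h3 : fderiv ℝ (th (n := n) c δ) y =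
      c • expNegInvGlue (r2 δ y) • (-(2 • innerSL ℝ y) : E n →L[ℝ] ℝ) := h2
  rw [h3]
  ext v
  unfold et
  simp only [smul_apply, neg_apply, smul_eq_mul,
    nsmul_eq_mul, Nat.cast_ofNat, innerSL_apply_apply]
  ring

lemma th_D2 (c δ : ℝ) (y v w : E n) :
    D2 (th (n := n) c δ) y v w =
      -(fderiv ℝ (et (n := n) c δ) y v * inner ℝ y w + et c δ y * inner ℝ v w) := by
  unfold D2
  rw [th_fderiv]
  have h1 : HasFDerivAt (et (n := n) c δ) (fderiv ℝ (et (n := n) c δ) y) y :=
    ((et_contDiff c δ).differentiable (by norm_num) y).hasFDerivAt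
  have h2 : HasFDerivAt (fun y : E n => (innerSL ℝ y : E n →L[ℝ] ℝ)) (innerSL ℝ) y :=
    (innerSL ℝ).hasFDerivAt
  have h3 := (h1.smul h2).neg.fderiv
  have h4 : fderiv ℝ (fun y : E n => -(et c δ y • (innerSL ℝ y : E n →L[ℝ] ℝ))) y = _ := h3
  rw [h4]
  change -(et c δ y * inner ℝ v w + fderiv ℝ (et (n := n) c δ) y v * inner ℝ y w) = _
  ring

lemma sum_et (c δ : ℝ) (y : E n) :
    ∑ i, D2 (th (n := n) c δ) y (eb i) (eb i) =
      -(n * et c δ y + fderiv ℝ (et (n := n) c δ) y y) := by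
  have h0 : ∑ i : Fin n, y i • (eb i : E n) = y := by
    ext j
    simp [eb, Finset.sum_apply, Pi.single_apply]
  have hin : ∀ i : Fin n, inner ℝ y (eb i) = y i := by
    intro i
    simp [eb, EuclideanSpace.inner_single_right]
  have hee : ∀ i : Fin n, inner ℝ (eb i : E n) (eb i) = (1 : ℝ) := by
    intro i
    simp [eb]
  have h1 : fderiv ℝ (et (n := n) c δ) y y =
      ∑ i : Fin n, fderiv ℝ (et (n := n) c δ) y (eb i) * inner ℝ y (eb i) := by
    have h2 : fderiv ℝ (et (n := n) c δ) y (∑ i : Fin n, y i • (eb i : E n)) =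
        ∑ i : Fin n, fderiv ℝ (et (n := n) c δ) y (eb i) * inner ℝ y (eb i) := by
      rw [map_sum]
      refine Finset.sum_congr rfl fun i _ => ?_
      rw [map_smul, smul_eq_mul, hin, mul_comm]
    rwa [h0] at h2
  simp_rw [th_D2]
  rw [Finset.sum_neg_distrib, Finset.sum_add_distrib, ← h1]
  simp_rw [hee]
  rw [Finset.sum_const, Finset.card_univ, Fintype.card_fin, nsmul_eq_mul]
  ring

end MOL_

open MOL_ in
/-- MOL -/
theorem p_MOL : T_MOL := by
  intro n δ hδ hδ2
  have hr : ∀ y : E n, δ ≤ ‖y‖ → r2 δ y ≤ 0 := by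
    intro y hy
    unfold r2
    nlinarith
  have hcs : HasCompactSupport fun y : E n => 2 * expNegInvGlue (r2 δ y) := by
    refine HasCompactSupport.intro (isCompact_closedBall (0 : E n) δ) fun y hy => ?_
    rw [mem_closedBall_zero_iff, not_le] at hy
    rw [expNegInvGlue.zero_of_nonpos (hr y hy.le), mul_zero]
  have hcont : Continuous fun y : E n => 2 * expNegInvGlue (r2 δ y) :=
    continuous_const.mul (g_cont.comp (r2_contDiff δ).continuous)
  have hpos : 0 < ∫ y : E n, 2 * expNegInvGlue (r2 δ y) := by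
    refine hcont.integral_pos_of_hasCompactSupport_nonneg_nonzero (x := 0) hcs
      (fun y => mul_nonneg (by norm_num) (expNegInvGlue.nonneg _)) ?_
    have h1 : 0 < r2 δ (0 : E n) := by
      unfold r2
      rw [norm_zero]
      nlinarith
    have h2 := expNegInvGlue.pos_of_pos h1
    exact (mul_pos two_pos h2).ne'
  set I := ∫ y : E n, 2 * expNegInvGlue (r2 δ y) with hI
  refine ⟨⟨et I⁻¹ δ, th I⁻¹ δ, hδ, hδ2, et_contDiff _ _, th_contDiff _ _, fun y => ?_,
    fun y => ?_, fun y hy => ?_, fun y hy => ?_, ?_, fun y z hyz => ?_, sum_et _ _⟩⟩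
  · unfold et
    exact mul_nonneg (mul_nonneg (by norm_num) (inv_pos.2 hpos).le) (expNegInvGlue.nonneg _)
  · unfold th
    exact mul_nonneg (inv_pos.2 hpos).le (q_nonneg _)
  · unfold et
    rw [expNegInvGlue.zero_of_nonpos (hr y hy), mul_zero]
  · unfold th
    rw [q_zero (hr y hy), mul_zero]
  · have h1 : ∀ y : E n, et I⁻¹ δ y = I⁻¹ * (2 * expNegInvGlue (r2 δ y)) := by
      intro y
      unfold et
      ring
    simp_rw [h1]
    rw [integral_const_mul, ← hI]
    exact inv_mul_cancel₀ hpos.ne'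
  · unfold et r2
    rw [hyz]

end Pool.Agent.GLB
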