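import Pool.Agent.GLB.TF

/-!
# GLB: additive functionals are bounded on the bodies in the unit ball (`T_NRM`)
-/

set_option autoImplicit false

open Metric Set Filter Topology MeasureTheory

noncomputable section

namespace Pool.Agent.GLB

theorem NRM_.dist_zero_le {n : ℕ} (K : ConvexBody (E n)) (r : ℝ) (hr : 0 ≤ r)
    (h : (K : Set (E n)) ⊆ closedBall 0 r) : dist K 0 ≤ r := by
  rw [← ConvexBody.hausdorffDist_coe]
  refine hausdorffDist_le_of_mem_dist hr (fun x hx => ⟨0, ?_, ?_⟩) (fun x hx => ?_)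
  · rw [ConvexBody.coe_zero]
    exact Set.mem_zero.2 rfl
  · exact mem_closedBall.1 (h hx)
  · rw [ConvexBody.coe_zero, Set.mem_zero] at hx
    obtain ⟨y, hy⟩ := K.nonempty
    refine ⟨y, hy, ?_⟩
    rw [hx, dist_comm]
    exact mem_closedBall.1 (h hy)

theorem p_NRM : T_NRM := by
  intro n μ hμ
  have h0 : μ 0 = 0 := by
    have h1 := hμ.add 0 0
    rw [add_zero] at h1
    linarith
  obtain ⟨r, hr, hb⟩ := Metric.continuous_iff.1 hμ.cont 0 1 one_pos
  refine ⟨1 / (r / 2), fun K hK => ?_⟩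
  have hr2 : 0 < r / 2 := by positivity
  have h1 : (((r / 2) • K : ConvexBody (E n)) : Set (E n)) ⊆ closedBall 0 (r / 2) := by
    rw [ConvexBody.coe_smul]
    rintro _ ⟨x, hx, rfl⟩
    have h2 := mem_closedBall_zero_iff.1 (hK hx)
    rw [mem_closedBall_zero_iff, norm_smul, Real.norm_eq_abs, abs_of_pos hr2]
    nlinarith
  have h2 := hb ((r / 2) • K) (lt_of_le_of_lt (NRM_.dist_zero_le _ _ hr2.le h1) (by linarith))
  rw [h0, Real.dist_eq, sub_zero, hμ.homog K _ hr2.le, abs_mul, abs_of_pos hr2] at h2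
  rw [le_div_iff₀ hr2]
  linarith

end Pool.Agent.GLB
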