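import Pool.Agent.GLB.TF

set_option autoImplicit false

open Metric Set Filter Topology MeasureTheory

noncomputable section

namespace Pool.Agent.GLB

namespace PCT_

lemma fc_apply (hCON : T_CON) {n : ℕ} {δ : ℝ} (m : Moll n δ) (h f : E n → ℝ)
    (hh : Continuous h) (hf : ContDiff ℝ 2 f) (p : St n) :
    FC m h f p = F m h f p.1.1 p.1.2 := by
  have hc : Continuous fun p : St n => F m h f p.1.1 p.1.2 :=
    (hCON n δ m h f hh hf).comp continuous_subtype_val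
  unfold FC
  rw [dif_pos hc]
  rfl

lemma lip (hFBD : T_FBD) (hFLN : T_FLN) (hCON : T_CON) (hGBD : T_GBD) (hSUD : T_SUD)
    (hSUH : T_SUH) {n : ℕ} {δ : ℝ} (m : Moll n δ) (g : C(St n, ℝ) →ₗ[ℝ] ℝ)
    (hg : ∀ y, (∀ p, 0 ≤ y p) → 0 ≤ g y) (f : E n → ℝ) (hf : ContDiff ℝ 2 f) :
    ∃ C : ℝ, 0 ≤ C ∧ ∀ K L : ConvexBody (E n),
      |g (FC m (supp K) f) - g (FC m (supp L) f)| ≤ C * dist K L := by
  obtain ⟨C, hC, hF⟩ := hFBD n δ m f hf
  obtain ⟨hg1, hg2⟩ := hGBD n g hg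
  refine ⟨C * 2 * g 1, by positivity, fun K L => ?_⟩
  have hK : Continuous (supp K) := (hSUH n K).2.2.2.1
  have hL : Continuous (supp L) := (hSUH n L).2.2.2.1
  have h1 : ∀ p : St n, |(FC m (supp K) f - FC m (supp L) f) p| ≤ C * (dist K L * 2) := by
    intro p
    have h2 : (FC m (supp K) f - FC m (supp L) f) p =
        F m (fun x => supp K x + (-1) * supp L x) f p.1.1 p.1.2 := by
      rw [(hFLN n δ m p.1.1 p.1.2).1 (supp K) (supp L) f (-1) hK hL hf,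
        ContinuousMap.sub_apply, fc_apply hCON m _ f hK hf, fc_apply hCON m _ f hL hf]
      ring
    rw [h2]
    refine hF _ (by fun_prop) _ (fun x hx => ?_) _ _ p.2.1 p.2.2.1
    have h3 := (hSUD n K L).1 x
    have h4 : supp K x + (-1) * supp L x = supp K x - supp L x := by ring
    rw [h4]
    exact h3.trans (mul_le_mul_of_nonneg_left hx dist_nonneg)
  have h5 := hg2 _ _ h1
  rw [map_sub] at h5
  calc |g (FC m (supp K) f) - g (FC m (supp L) f)| ≤ C * (dist K L * 2) * g 1 := h5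
    _ = C * 2 * g 1 * dist K L := by ring

end PCT_

theorem p_PCT (hDEN : T_DEN) (hFBD : T_FBD) (hFLN : T_FLN) (hCON : T_CON) (hGBD : T_GBD)
    (hSUD : T_SUD) (hSUH : T_SUH) : T_PCT := by
  intro n δ m g hg Ψ hF hB φ
  rw [Metric.continuous_iff]
  intro K₀ ε hε
  obtain ⟨C1, hC1, hL1⟩ := PCT_.lip hFBD hFLN hCON hGBD hSUD hSUH m g hg (fun _ => 1)
    contDiff_const
  set B : ℝ := |g (FC m (supp K₀) fun _ => 1)| + C1 with hBdef
  have hB0 : 0 ≤ B := by positivity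
  set ε' : ℝ := ε / (4 * (B + 1)) with hε'
  have hε'0 : 0 < ε' := by positivity
  obtain ⟨f, ψ, hf, hrep, -, hφψ⟩ := hDEN n φ univ isOpen_univ
    (fun u hu => absurd (mem_univ u) hu) ε' hε'0
  obtain ⟨C2, hC2, hL2⟩ := PCT_.lip hFBD hFLN hCON hGBD hSUD hSUH m g hg f hf
  refine ⟨min 1 (ε / (4 * (C2 + 1))), by positivity, fun L hL => ?_⟩
  have hd1 : dist L K₀ < 1 := hL.trans_le (min_le_left _ _)
  have hd2 : dist L K₀ < ε / (4 * (C2 + 1)) := hL.trans_le (min_le_right _ _)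
  have hBε : B * ε' ≤ ε / 4 := by
    rw [hε', mul_div_assoc', div_le_div_iff₀ (by positivity) (by norm_num)]
    nlinarith
  have hGK : |Ψ K₀ (φ - ψ)| ≤ ε / 4 := by
    refine le_trans (hB K₀ (φ - ψ)) (le_trans ?_ hBε)
    have h1 : g (FC m (supp K₀) fun _ => 1) ≤ B :=
      (le_abs_self _).trans (by rw [hBdef]; linarith)
    exact mul_le_mul h1 hφψ (norm_nonneg _) hB0
  have hGL : |Ψ L (φ - ψ)| ≤ ε / 4 := by
    refine le_trans (hB L (φ - ψ)) (le_trans ?_ hBε)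
    have h1 : g (FC m (supp L) fun _ => 1) ≤ B := by
      have h2 := hL1 L K₀
      have h3 : C1 * dist L K₀ ≤ C1 := by nlinarith [dist_nonneg (x := L) (y := K₀)]
      have h4 := le_abs_self (g (FC m (supp K₀) fun _ => 1))
      have h5 := abs_le.1 h2
      rw [hBdef]
      linarith [h5.2]
    exact mul_le_mul h1 hφψ (norm_nonneg _) hB0
  have hmid : |Ψ L ψ - Ψ K₀ ψ| ≤ ε / 4 := by
    rw [hF L f ψ hf hrep, hF K₀ f ψ hf hrep]
    refine (hL2 L K₀).trans ?_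
    have h1 : C2 * dist L K₀ ≤ (C2 + 1) * (ε / (4 * (C2 + 1))) := by
      have h2 : C2 * dist L K₀ ≤ (C2 + 1) * dist L K₀ := by
        nlinarith [dist_nonneg (x := L) (y := K₀)]
      exact h2.trans (mul_le_mul_of_nonneg_left hd2.le (by positivity))
    refine h1.trans (le_of_eq ?_)
    field_simp
  have hsum : Ψ L φ - Ψ K₀ φ = Ψ L (φ - ψ) + (Ψ L ψ - Ψ K₀ ψ) - Ψ K₀ (φ - ψ) := by
    rw [map_sub, map_sub]
    ring
  rw [Real.dist_eq, hsum]
  have h1 := abs_le.1 hGK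
  have h2 := abs_le.1 hGL
  have h3 := abs_le.1 hmid
  rw [abs_lt]
  constructor
  · linarith [h1.1, h1.2, h2.1, h2.2, h3.1, h3.2]
  · linarith [h1.1, h1.2, h2.1, h2.2, h3.1, h3.2]

end Pool.Agent.GLB
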