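import Pool.Agent.GLB.TF

/-!
# GLB, target PGL: strong continuity at every point from continuity at the identity
-/

set_option autoImplicit false

open Metric Set Filter Topology MeasureTheory

noncomputable section

namespace Pool.Agent.GLB

theorem p_PGL (hACT : T_ACT) : T_PGL := by
  intro n Ψ h A₀ ε hε
  obtain ⟨a1, a2, -, a4, a5⟩ := hACT n
  have ht : Tendsto (fun A : (E n →L[ℝ] E n)ˣ => A * A₀⁻¹) (𝓝 A₀) (𝓝 1) := by
    have hc : Continuous fun A : (E n →L[ℝ] E n)ˣ => A * A₀⁻¹ := continuous_mul_const A₀⁻¹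
    have := hc.tendsto A₀
    rwa [mul_inv_cancel] at this
  filter_upwards [ht.eventually (h ‖(A₀ : E n →L[ℝ] E n)‖ ε hε)] with A hA K hK φ hφ
  have h1 := hA (mapB (A₀ : E n →L[ℝ] E n) K) (by
    have := a5 A₀ K 1 hK
    rwa [mul_one] at this) (act A₀ φ) (by
    refine (a4 A₀ φ).trans ?_
    calc ‖(A₀ : E n →L[ℝ] E n)‖ * ‖φ‖ ≤ ‖(A₀ : E n →L[ℝ] E n)‖ * 1 :=
          mul_le_mul_of_nonneg_left hφ (norm_nonneg _)
      _ = ‖(A₀ : E n →L[ℝ] E n)‖ := mul_one _)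
  rw [← a1, ← a2, inv_mul_cancel_right] at h1
  exact h1

end Pool.Agent.GLB
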