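import Pool.Agent.GLB.TF

/-!
# GLB: PLO, the functionals are locally determined
-/

set_option autoImplicit false

open Metric Set Filter Topology MeasureTheory

noncomputable section

namespace Pool.Agent.GLB

namespace PLO_

open Classical in
/-- a function, if it is continuous -/
def aux {n : ℕ} (q : St n → ℝ) : C(St n, ℝ) := if hc : Continuous q then ⟨q, hc⟩ else 0

lemma FC_congr {n : ℕ} {δ : ℝ} (m : Moll n δ) (h h' f f' : E n → ℝ)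
    (H : ∀ p : St n, F m h f p.1.1 p.1.2 = F m h' f' p.1.1 p.1.2) : FC m h f = FC m h' f' := by
  have h1 : FC m h f = aux (fun p : St n => F m h f p.1.1 p.1.2) := rfl
  have h2 : FC m h' f' = aux (fun p : St n => F m h' f' p.1.1 p.1.2) := rfl
  rw [h1, h2, funext H]

end PLO_

open PLO_ in
theorem p_PLO (hDEN : T_DEN) (hFLO : T_FLO) (hSUH : T_SUH) : T_PLO := by
  intro n δ m g _ Ψ hF _ K L U hU hKL φ hφ
  -- functions represented by a smooth function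
  have key : ∀ (f : E n → ℝ) (ψ : C(S n, ℝ)), ContDiff ℝ 2 f → Rep f ψ →
      (∀ u, u ∉ U → ψ u = 0) → Ψ K ψ = Ψ L ψ := by
    intro f ψ hf hrep hψ
    rw [hF K f ψ hf hrep, hF L f ψ hf hrep]
    congr 1
    refine FC_congr m _ _ _ _ fun p => ?_
    refine hFLO n δ m (supp K) (supp L) f
      {x | ∃ u ∈ U, ∃ r : ℝ, 0 < r ∧ x = r • (u : E n)} (hSUH n K).2.2.2.1
      (hSUH n L).2.2.2.1 ?_ ?_ p.1.1 p.1.2 p.2.1
    · rintro x ⟨u, hu, r, hr, rfl⟩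
      rw [(hSUH n K).1 r hr.le, (hSUH n L).1 r hr.le, hKL u hu]
    · intro x hx1 hx2 hxW
      have hx0 : 0 < ‖x‖ := by linarith
      have hu : ‖x‖⁻¹ • x ∈ sphere (0 : E n) 1 := by
        rw [mem_sphere_iff_norm, sub_zero, norm_smul, norm_inv, norm_norm]
        exact inv_mul_cancel₀ hx0.ne'
      have hxe : x = ‖x‖ • ((⟨‖x‖⁻¹ • x, hu⟩ : S n) : E n) := by
        simp only [smul_smul]
        rw [mul_inv_cancel₀ hx0.ne', one_smul]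
      have h1 := hrep ⟨‖x‖⁻¹ • x, hu⟩ ‖x‖ hx1 hx2
      rw [← hxe] at h1
      rw [h1]
      apply hψ
      intro hmem
      exact hxW ⟨_, hmem, ‖x‖, hx0, hxe⟩
  -- density
  have hsmall : ∀ ε : ℝ, 0 < ε → |Ψ K φ - Ψ L φ| ≤ (‖Ψ K‖ + ‖Ψ L‖) * ε := by
    intro ε hε
    obtain ⟨f, ψ, hf, hrep, hψ, hd⟩ := hDEN n φ U hU hφ ε hε
    have h1 := key f ψ hf hrep hψ
    have h2 : Ψ K φ - Ψ L φ = Ψ K (φ - ψ) - Ψ L (φ - ψ) := by
      rw [map_sub, map_sub, h1]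
      ring
    rw [h2]
    have h3 : |Ψ K (φ - ψ)| ≤ ‖Ψ K‖ * ε :=
      ((Ψ K).le_opNorm (φ - ψ)).trans (mul_le_mul_of_nonneg_left hd (norm_nonneg _))
    have h4 : |Ψ L (φ - ψ)| ≤ ‖Ψ L‖ * ε :=
      ((Ψ L).le_opNorm (φ - ψ)).trans (mul_le_mul_of_nonneg_left hd (norm_nonneg _))
    calc |Ψ K (φ - ψ) - Ψ L (φ - ψ)| ≤ |Ψ K (φ - ψ)| + |Ψ L (φ - ψ)| := abs_sub _ _
      _ ≤ ‖Ψ K‖ * ε + ‖Ψ L‖ * ε := add_le_add h3 h4
      _ = (‖Ψ K‖ + ‖Ψ L‖) * ε := by ring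
  have h0 : |Ψ K φ - Ψ L φ| ≤ 0 := by
    refine le_of_forall_pos_le_add fun e he => ?_
    rw [zero_add]
    have hC : 0 < ‖Ψ K‖ + ‖Ψ L‖ + 1 := by positivity
    have h1 := hsmall (e / (‖Ψ K‖ + ‖Ψ L‖ + 1)) (by positivity)
    refine h1.trans ?_
    rw [mul_div_assoc', div_le_iff₀ hC]
    nlinarith [norm_nonneg (Ψ K), norm_nonneg (Ψ L)]
  have h1 := abs_nonpos_iff.1 h0
  linarith

end Pool.Agent.GLB
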