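import Pool.Agent.GLB.TC

/-!
# GLB: target POS, positivity of the second derivative of a convex function (helper17)
-/

set_option autoImplicit false

open Metric Set Filter Topology MeasureTheory

noncomputable section

namespace Pool.Agent.GLB

namespace POS_

/-- the translated integral -/
lemma shift_integral {n : ℕ} (h b : E n → ℝ) (v : E n) (t : ℝ) :
    ∫ x, h x * b (x - (-t) • v) = ∫ x, h (x - t • v) * b x := by
  have h1 := integral_add_right_eq_self (μ := (volume : Measure (E n)))
    (fun y => h (y - t • v) * b y) (t • v)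
  rw [← h1]
  refine integral_congr_ae (Filter.Eventually.of_forall fun x => ?_)
  simp only
  rw [add_sub_cancel_right, neg_smul, sub_neg_eq_add]

lemma integrable_aux {n : ℕ} (h b : E n → ℝ) (hh : Continuous h) (hb : Continuous b) (R : ℝ)
    (hR : ∀ x, R ≤ ‖x‖ → b x = 0) (v : E n) (t : ℝ) :
    Integrable (fun x => h (x - t • v) * b x) := by
  refine Continuous.integrable_of_hasCompactSupport (by fun_prop) ?_
  refine HasCompactSupport.intro (isCompact_closedBall (0 : E n) R) fun x hx => ?_
  have h1 : R ≤ ‖x‖ := by
    by_contra hlt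
    exact hx (by rw [mem_closedBall, dist_zero_right]; exact (not_le.mp hlt).le)
  rw [hR x h1, mul_zero]

end POS_

open POS_ in
theorem p_POS (hDUI : T_DUI) : T_POS := by
  intro n h b hconv hh hb ⟨R, hR⟩ hb0 v
  have hγ : ∀ t : ℝ, HasDerivAt (fun t : ℝ => (-t) • v) (-v) t := by
    intro t
    have h1 := ((hasDerivAt_id t).neg).smul_const v
    simpa using h1
  have hγ₁ : ∀ t : ℝ, HasDerivAt (fun _ : ℝ => -v) (0 : E n) t := fun t => hasDerivAt_const t _
  obtain ⟨d1, d2⟩ := hDUI n h b R (fun t => (-t) • v) (fun _ => -v) (fun _ => 0) hh hb hR hγ hγ₁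
    continuous_const
  set q : ℝ → ℝ := fun t => ∫ x, h x * b (x - (-t) • v) with hq
  set q1 : ℝ → ℝ := fun t => -∫ x, h x * fderiv ℝ b (x - (-t) • v) (-v) with hq1
  have hbc : Continuous b := hb.continuous
  have hcv : ConvexOn ℝ univ q := by
    refine ⟨convex_univ, ?_⟩
    intro s _ t _ a c ha hc hac
    simp only [hq, smul_eq_mul]
    rw [shift_integral, shift_integral, shift_integral, ← integral_const_mul,
      ← integral_const_mul, ← integral_add ((integrable_aux h b hh hbc R hR v s).const_mul a)
        ((integrable_aux h b hh hbc R hR v t).const_mul c)]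
    refine integral_mono (integrable_aux h b hh hbc R hR v _)
      (((integrable_aux h b hh hbc R hR v s).const_mul a).add
        ((integrable_aux h b hh hbc R hR v t).const_mul c)) fun x => ?_
    simp only
    have e : x - (a * s + c * t) • v = a • (x - s • v) + c • (x - t • v) := by
      have e1 : x = (a + c) • x := by rw [hac, one_smul]
      calc x - (a * s + c * t) • v = (a + c) • x - (a * s + c * t) • v := by rw [← e1]
        _ = a • (x - s • v) + c • (x - t • v) := by module
    have h2 := hconv.2 (mem_univ (x - s • v)) (mem_univ (x - t • v)) ha hc hac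
    rw [← e, smul_eq_mul, smul_eq_mul] at h2
    have h3 := mul_le_mul_of_nonneg_right h2 (hb0 x)
    linarith
  have hdiff : ∀ x ∈ (univ : Set ℝ), DifferentiableAt ℝ q x := fun x _ =>
    (d1 x).differentiableAt
  have hmono := hcv.monotoneOn_deriv hdiff
  have hderiv : deriv q = q1 := by
    funext t
    exact (d1 t).deriv
  rw [hderiv] at hmono
  have hmono' : Monotone q1 := fun x y hxy => hmono (mem_univ x) (mem_univ y) hxy
  have h0 : 0 ≤ deriv q1 0 := hmono'.deriv_nonneg
  rw [(d2 0).deriv] at h0
  unfold Dh
  refine h0.trans (le_of_eq ?_)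
  refine integral_congr_ae (Filter.Eventually.of_forall fun x => ?_)
  simp only
  rw [neg_zero, zero_smul, sub_zero, map_zero, sub_zero]
  unfold D2
  simp

end Pool.Agent.GLB
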