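import Pool.Agent.GLB.TC

/-!
# GLB: PRD, rules for second derivatives
-/

set_option autoImplicit false

open Metric Set Filter Topology MeasureTheory

noncomputable section

namespace Pool.Agent.GLB

namespace PRD_

lemma diff {n : ℕ} {f : E n → ℝ} (h : ContDiff ℝ 2 f) : Differentiable ℝ f :=
  h.differentiable (by norm_num)

lemma diff' {n : ℕ} {f : E n → ℝ} (h : ContDiff ℝ 2 f) : ContDiff ℝ 1 (fderiv ℝ f) :=
  h.fderiv_right (by norm_num)

lemma diff'' {n : ℕ} {f : E n → ℝ} (h : ContDiff ℝ 2 f) : Differentiable ℝ (fderiv ℝ f) :=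
  (diff' h).differentiable (by norm_num)

end PRD_

open PRD_ in
theorem p_PRD : T_PRD := by
  intro n
  refine ⟨?_, ?_, ?_, ?_, ?_, ?_, ?_⟩
  · intro f g hf hg x v w
    have h1 : fderiv ℝ (fun y => f y * g y) = fun y => f y • fderiv ℝ g y + g y • fderiv ℝ f y :=
      funext fun y => fderiv_fun_mul (diff hf y) (diff hg y)
    have h2 := ((diff hf x).hasFDerivAt.fun_smul (diff'' hg x).hasFDerivAt).add
      ((diff hg x).hasFDerivAt.fun_smul (diff'' hf x).hasFDerivAt)
    unfold D2
    rw [h1]
    have h3 := h2.fderiv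
    have h4 : (fun y => f y • fderiv ℝ g y + g y • fderiv ℝ f y) =
      (fun y => f y • fderiv ℝ g y) + (fun y => g y • fderiv ℝ f y) := rfl
    rw [h4, h3]
    simp only [_root_.add_apply, _root_.smul_apply, ContinuousLinearMap.smulRight_apply,
      smul_eq_mul]
    ring
  · intro g u x v w
    have h1 : fderiv ℝ (fun y => g (y - u)) = fun y => fderiv ℝ g (y - u) :=
      funext fun y => fderiv_comp_sub u
    unfold D2
    rw [h1, fderiv_comp_sub]
  · intro f g hf hg x v w
    have h1 : fderiv ℝ (fun y => f y + g y) = fun y => fderiv ℝ f y + fderiv ℝ g y :=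
      funext fun y => fderiv_fun_add (diff hf y) (diff hg y)
    unfold D2
    rw [h1, fderiv_fun_add (diff'' hf x) (diff'' hg x)]
    rfl
  · intro c f hf x v w
    have h1 : fderiv ℝ (fun y => c * f y) = fun y => c • fderiv ℝ f y :=
      funext fun y => fderiv_const_mul (diff hf y) c
    unfold D2
    rw [h1, fderiv_fun_const_smul (diff'' hf x) c]
    rfl
  · intro f hf x v w
    exact (hf.contDiffAt (x := x)).isSymmSndFDerivAt (by simp) v w
  · intro f g x hfg v w
    unfold D2
    rw [(hfg.fderiv (𝕜 := ℝ)).fderiv_eq]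
  · intro f hf
    have h1 : Continuous (fderiv ℝ (fderiv ℝ f)) := (diff' hf).continuous_fderiv (by norm_num)
    unfold D2
    exact ((h1.comp continuous_fst).clm_apply (continuous_fst.comp continuous_snd)).clm_apply
      (continuous_snd.comp continuous_snd)

end Pool.Agent.GLB
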