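import Pool.Agent.GLB.TF

set_option autoImplicit false

open Metric Set Filter Topology MeasureTheory

noncomputable section

namespace Pool.Agent.GLB

lemma PSI_FC {n : ℕ} {δ : ℝ} (hCON : T_CON) (m : Moll n δ) (h f : E n → ℝ) (hh : Continuous h)
    (hf : ContDiff ℝ 2 f) (p : St n) : FC m h f p = F m h f p.1.1 p.1.2 := by
  have hc : Continuous fun p : St n => F m h f p.1.1 p.1.2 :=
    (hCON n δ m h f hh hf).comp continuous_subtype_val
  unfold FC
  rw [dif_pos hc]
  rfl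

lemma PSI_zero {n : ℕ} {δ : ℝ} (hFLN : T_FLN) (m : Moll n δ) (h : E n → ℝ) (hh : Continuous h)
    (u v : E n) : F m h (fun _ => 0) u v = 0 := by
  have h1 := (hFLN n δ m u v).2 h (fun _ => 0) (fun _ => 0) 1 hh contDiff_const contDiff_const
  simp only [mul_zero, add_zero, one_mul] at h1
  linarith

lemma PSI_add {n : ℕ} {δ : ℝ} (hFLN : T_FLN) (m : Moll n δ) (h f f' : E n → ℝ)
    (hh : Continuous h) (hf : ContDiff ℝ 2 f) (hf' : ContDiff ℝ 2 f') (u v : E n) :
    F m h (fun x => f x + f' x) u v = F m h f u v + F m h f' u v := by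
  have h1 := (hFLN n δ m u v).2 h f f' 1 hh hf hf'
  simp only [one_mul] at h1
  exact h1

lemma PSI_smul {n : ℕ} {δ : ℝ} (hFLN : T_FLN) (m : Moll n δ) (h f : E n → ℝ)
    (hh : Continuous h) (hf : ContDiff ℝ 2 f) (t : ℝ) (u v : E n) :
    F m h (fun x => t * f x) u v = t * F m h f u v := by
  have h1 := (hFLN n δ m u v).2 h (fun _ => 0) f t hh contDiff_const hf
  rw [PSI_zero hFLN m h hh u v] at h1
  simp only [zero_add] at h1
  exact h1

lemma PSI_le {n : ℕ} (f : E n → ℝ) (φ : C(S n, ℝ)) (hr : Rep f φ) (x : E n) (h1 : 1 / 2 < ‖x‖)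
    (h2 : ‖x‖ < 2) : |f x| ≤ ‖φ‖ := by
  have h0 : ‖x‖ ≠ 0 := by linarith
  have hu : ‖x‖⁻¹ • x ∈ sphere (0 : E n) 1 := by
    rw [mem_sphere_iff_norm, sub_zero, norm_smul, norm_inv, norm_norm]
    exact inv_mul_cancel₀ h0
  have h3 := hr ⟨‖x‖⁻¹ • x, hu⟩ ‖x‖ h1 h2
  have h4 : ‖x‖ • (‖x‖⁻¹ • x) = x := by
    rw [smul_smul, mul_inv_cancel₀ h0, one_smul]
  simp only [h4] at h3
  rw [h3]
  exact φ.norm_coe_le_norm _

theorem p_PSI (hEXT : T_EXT) (hFMN : T_FMN) (hFLN : T_FLN) (hCON : T_CON) (hSUH : T_SUH) :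
    T_PSI := by
  intro n δ m g hg
  have key : ∀ K : ConvexBody (E n), ∃ Λ : C(S n, ℝ) →L[ℝ] ℝ,
      (∀ φ c, (∃ f : E n → ℝ, ContDiff ℝ 2 f ∧ Rep f φ ∧ c = g (FC m (supp K) f)) → Λ φ = c) ∧
      ∀ φ, |Λ φ| ≤ g (FC m (supp K) fun _ => 1) * ‖φ‖ := by
    intro K
    obtain ⟨-, -, hconv, hcont, -⟩ := hSUH n K
    have hmono : ∀ (f : E n → ℝ) (β : ℝ), ContDiff ℝ 2 f →
        (∀ x, 1 / 2 < ‖x‖ → ‖x‖ < 2 → |f x| ≤ β) →
        |g (FC m (supp K) f)| ≤ β * g (FC m (supp K) fun _ => 1) := by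
      intro f β hf hβ
      have h1 : ∀ p : St n, |FC m (supp K) f p| ≤ β * FC m (supp K) (fun _ => 1) p := by
        intro p
        rw [PSI_FC hCON m _ _ hcont hf, PSI_FC hCON m _ _ hcont contDiff_const]
        exact hFMN n δ m (supp K) f β hconv hcont hf hβ p.1.1 p.1.2 p.2.1
      have h2 : 0 ≤ g (β • FC m (supp K) (fun _ => 1) - FC m (supp K) f) := by
        apply hg
        intro p
        have h3 := (abs_le.1 (h1 p)).2
        simp only [ContinuousMap.coe_sub, ContinuousMap.coe_smul, Pi.sub_apply, Pi.smul_apply,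
          smul_eq_mul]
        linarith
      have h4 : 0 ≤ g (β • FC m (supp K) (fun _ => 1) + FC m (supp K) f) := by
        apply hg
        intro p
        have h3 := (abs_le.1 (h1 p)).1
        simp only [ContinuousMap.coe_add, ContinuousMap.coe_smul, Pi.add_apply, Pi.smul_apply,
          smul_eq_mul]
        linarith
      rw [map_sub, map_smul, smul_eq_mul] at h2
      rw [map_add, map_smul, smul_eq_mul] at h4
      rw [abs_le]
      constructor <;> linarith
    have hM : 0 ≤ g (FC m (supp K) fun _ => 1) := by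
      apply hg
      intro p
      rw [PSI_FC hCON m _ _ hcont contDiff_const]
      have h1 := hFMN n δ m (supp K) (fun _ => 0) 1 hconv hcont contDiff_const
        (fun x _ _ => by simp) p.1.1 p.1.2 p.2.1
      rw [one_mul] at h1
      exact le_trans (abs_nonneg _) h1
    refine hEXT C(S n, ℝ)
      (fun φ c => ∃ f : E n → ℝ, ContDiff ℝ 2 f ∧ Rep f φ ∧ c = g (FC m (supp K) f))
      (g (FC m (supp K) fun _ => 1)) hM ?_ ?_ ?_
    · rintro φ ψ c d ⟨f, hf, hr, rfl⟩ ⟨f', hf', hr', rfl⟩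
      refine ⟨fun x => f x + f' x, hf.add hf', ?_, ?_⟩
      · intro u r h1 h2
        simp only [hr u r h1 h2, hr' u r h1 h2, ContinuousMap.coe_add, Pi.add_apply]
      · rw [← map_add]
        congr 1
        ext p
        rw [ContinuousMap.add_apply, PSI_FC hCON m _ _ hcont hf, PSI_FC hCON m _ _ hcont hf',
          PSI_FC hCON m _ _ hcont (hf.add hf')]
        exact (PSI_add hFLN m (supp K) f f' hcont hf hf' p.1.1 p.1.2).symm
    · rintro t φ c ⟨f, hf, hr, rfl⟩
      refine ⟨fun x => t * f x, contDiff_const.mul hf, ?_, ?_⟩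
      · intro u r h1 h2
        simp only [hr u r h1 h2, ContinuousMap.coe_smul, Pi.smul_apply, smul_eq_mul]
      · rw [← smul_eq_mul, ← map_smul]
        congr 1
        ext p
        rw [ContinuousMap.smul_apply, PSI_FC hCON m _ _ hcont hf,
          PSI_FC hCON m _ _ hcont (contDiff_const.mul hf), smul_eq_mul]
        exact (PSI_smul hFLN m (supp K) f hcont hf t p.1.1 p.1.2).symm
    · rintro φ c ⟨f, hf, hr, rfl⟩
      have h1 := hmono f ‖φ‖ hf (fun x h1 h2 => PSI_le f φ hr x h1 h2)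
      rw [mul_comm] at h1
      exact h1
  choose Ψ h1 h2 using key
  exact ⟨Ψ, fun K f φ hf hr => h1 K φ _ ⟨f, hf, hr, rfl⟩, h2⟩

end Pool.Agent.GLB
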