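import Pool.Agent.GLB.TF

set_option autoImplicit false

open Metric Set Filter Topology MeasureTheory

noncomputable section

namespace Pool.Agent.GLB

theorem p_PSX (hGEX : T_GEX) (hPSI : T_PSI) (hPCT : T_PCT) (hPLO : T_PLO) (hPTH : T_PTH)
    (hGL1 : T_GL1) (hPGL : T_PGL) : T_PSX := by
  intro n δ m hn μ hμ hpos
  obtain ⟨g, hg, hgK⟩ := hGEX n δ m hn μ hμ hpos
  obtain ⟨Ψ, hF, hB⟩ := hPSI n δ m g hg
  refine ⟨Ψ, ⟨hPCT n δ m g hg Ψ hF hB, hPLO n δ m g hg Ψ hF hB, (hPTH n δ m g hg Ψ hF hB).1,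
    (hPTH n δ m g hg Ψ hF hB).2, hPGL n Ψ (hGL1 n δ m g hg Ψ hF hB)⟩, ?_, ?_⟩
  · intro K φ
    have h := hB K φ
    rwa [hgK K] at h
  · intro K
    rw [← hgK K]
    exact hF K (fun _ => 1) 1 contDiff_const fun u r _ _ => rfl

end Pool.Agent.GLB
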