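import Pool.Agent.GLB.TF

/-!
# GLB: proof of target PTH
-/

set_option autoImplicit false

open Metric Set Filter Topology MeasureTheory

noncomputable section

namespace Pool.Agent.GLB.PTH_

/-- the value of `FC` -/
theorem fc_apply (hCON : T_CON) {n : ℕ} {δ : ℝ} (m : Moll n δ) {h f : E n → ℝ}
    (hh : Continuous h) (hf : ContDiff ℝ 2 f) (p : St n) :
    FC m h f p = F m h f p.1.1 p.1.2 := by
  have hc : Continuous fun p : St n => F m h f p.1.1 p.1.2 :=
    (hCON n δ m h f hh hf).comp continuous_subtype_val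
  unfold FC
  rw [dif_pos hc]
  rfl

/-- linear functions have no second derivatives -/
theorem f_lin (hLIN : T_LIN) {n : ℕ} {δ : ℝ} (m : Moll n δ) {f : E n → ℝ}
    (hf : ContDiff ℝ 2 f) (x u v : E n) : F m (fun y => inner ℝ x y) f u v = 0 := by
  have hsub : ContDiff ℝ 2 fun y : E n => y - u := contDiff_id.sub contDiff_const
  have hfar : ∀ y : E n, ‖u‖ + δ ≤ ‖y‖ → δ ≤ ‖y - u‖ := by
    intro y hy
    have h1 := norm_sub_norm_le y u
    linarith
  have e1 : Dh (fun y => inner ℝ x y) (fun y => f y * m.η (y - u)) v v = 0 := by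
    apply hLIN n
    · exact hf.mul (m.η_C2.comp hsub)
    · refine ⟨‖u‖ + δ, fun y hy => ?_⟩
      rw [m.η_zero _ (hfar y hy), mul_zero]
  have e2 : ∀ i : Fin n,
      Dh (fun y => inner ℝ x y) (fun y => f y * m.θ (y - u)) (eb i) (eb i) = 0 := by
    intro i
    apply hLIN n
    · exact hf.mul (m.θ_C2.comp hsub)
    · refine ⟨‖u‖ + δ, fun y hy => ?_⟩
      rw [m.θ_zero _ (hfar y hy), mul_zero]
  unfold F
  rw [e1, Finset.sum_eq_zero fun i _ => e2 i, add_zero]

/-- `F` of the zero function -/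
theorem f_zero (hFLN : T_FLN) {n : ℕ} {δ : ℝ} (m : Moll n δ) {f : E n → ℝ}
    (hf : ContDiff ℝ 2 f) (u v : E n) : F m (fun _ => (0 : ℝ)) f u v = 0 := by
  have h := (hFLN n δ m u v).1 (fun _ => (0 : ℝ)) (fun _ => (0 : ℝ)) f 1 continuous_const
    continuous_const hf
  have e : (fun x : E n => (fun _ : E n => (0 : ℝ)) x + 1 * (fun _ : E n => (0 : ℝ)) x) =
      fun _ => (0 : ℝ) := by
    funext x
    simp
  rw [e] at h
  linarith

/-- the represented functions are dense -/
theorem dense (hDEN : T_DEN) (n : ℕ) :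
    Dense {φ : C(S n, ℝ) | ∃ f : E n → ℝ, ContDiff ℝ 2 f ∧ Rep f φ} := by
  rw [Metric.dense_iff]
  intro φ r hr
  obtain ⟨f, ψ, hf, hrep, -, hd⟩ := hDEN n φ univ isOpen_univ
    (fun u hu => absurd (mem_univ u) hu) (r / 2) (half_pos hr)
  refine ⟨ψ, ?_, f, hf, hrep⟩
  rw [mem_ball, dist_comm, dist_eq_norm]
  linarith

end Pool.Agent.GLB.PTH_

namespace Pool.Agent.GLB

open PTH_

/-- PTH -/
theorem p_PTH (hDEN : T_DEN) (hLIN : T_LIN) (hFLN : T_FLN) (hCON : T_CON) (hSUA : T_SUA)
    (hSUH : T_SUH) : T_PTH := by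
  intro n δ m g _ Ψ hΨ _
  have hcs : ∀ K : ConvexBody (E n), Continuous (supp K) := fun K => (hSUH n K).2.2.2.1
  have hin : ∀ x : E n, Continuous fun y : E n => inner ℝ x y := fun x => by fun_prop
  refine ⟨fun K x => ?_, fun K t ht => ?_⟩
  · apply ContinuousLinearMap.ext
    have hext : (fun φ => Ψ (K + pt x) φ) = fun φ => Ψ K φ := by
      refine Continuous.ext_on (dense hDEN n) (Ψ (K + pt x)).continuous (Ψ K).continuous ?_
      rintro φ ⟨f, hf, hrep⟩
      show Ψ (K + pt x) φ = Ψ K φ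
      rw [hΨ (K + pt x) f φ hf hrep, hΨ K f φ hf hrep]
      congr 1
      apply ContinuousMap.ext
      intro p
      rw [fc_apply hCON m (hcs _) hf, fc_apply hCON m (hcs _) hf]
      have e : supp (K + pt x) = fun u => supp K u + 1 * inner ℝ x u := by
        funext u
        rw [(hSUA n).2.2.1, (hSUA n).2.2.2.2.1, one_mul]
      rw [e]
      have h1 := (hFLN n δ m p.1.1 p.1.2).1 (supp K) (fun y => inner ℝ x y) f 1 (hcs K) (hin x) hf
      rw [f_lin hLIN m hf, mul_zero, add_zero] at h1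
      exact h1
    intro φ
    exact congrFun hext φ
  · apply ContinuousLinearMap.ext
    have hext : (fun φ => Ψ (t • K) φ) = fun φ => (t • Ψ K) φ := by
      refine Continuous.ext_on (dense hDEN n) (Ψ (t • K)).continuous (t • Ψ K).continuous ?_
      rintro φ ⟨f, hf, hrep⟩
      show Ψ (t • K) φ = t • Ψ K φ
      rw [hΨ (t • K) f φ hf hrep, hΨ K f φ hf hrep, ← map_smul]
      congr 1
      apply ContinuousMap.ext
      intro p
      rw [ContinuousMap.smul_apply, fc_apply hCON m (hcs _) hf, fc_apply hCON m (hcs _) hf]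
      have e : supp (t • K) = fun u => (fun _ : E n => (0 : ℝ)) u + t * supp K u := by
        funext u
        rw [(hSUA n).2.2.2.1 K t u ht, zero_add]
      rw [e]
      have h1 := (hFLN n δ m p.1.1 p.1.2).1 (fun _ => (0 : ℝ)) (supp K) f t continuous_const
        (hcs K) hf
      rw [f_zero hFLN m hf, zero_add] at h1
      rw [h1, smul_eq_mul]
    intro φ
    exact congrFun hext φ

end Pool.Agent.GLB
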