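import Pool.Agent.GLB.TC

/-!
# GLB: proof of the target RHO
-/

set_option autoImplicit false

open Metric Set Filter Topology MeasureTheory

noncomputable section

namespace Pool.Agent.GLB

namespace RHO_

variable {n : ℕ} {δ : ℝ}

lemma integrable (m : Moll n δ) (f : E n → ℝ) (hf : Continuous f) :
    Integrable fun y => f y * m.η y := by
  have hη : Continuous m.η := m.η_C2.continuous
  refine (hf.mul hη).integrable_of_hasCompactSupport ?_
  refine HasCompactSupport.intro (isCompact_closedBall (0 : E n) δ) ?_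
  intro y hy
  have h1 : δ ≤ ‖y‖ := by
    by_contra h2
    exact hy (mem_closedBall_zero_iff.2 (not_le.1 h2).le)
  simp [m.η_zero y h1]

lemma hom (m : Moll n δ) (d : E n → ℝ) (hd : Hom1 d) : Hom1 (rho m d) := by
  intro t ht x
  unfold rho
  rw [← integral_const_mul]
  refine integral_congr_ae (Eventually.of_forall fun y => ?_)
  have h1 : t • x + ‖t • x‖ • y = t • (x + ‖x‖ • y) := by
    rw [norm_smul, Real.norm_of_nonneg ht, smul_add, smul_smul]
  show d (t • x + ‖t • x‖ • y) * m.η y = t * (d (x + ‖x‖ • y) * m.η y)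
  rw [h1, hd t ht, mul_assoc]

lemma lin (m : Moll n δ) (d d' : E n → ℝ) (c : ℝ) (u : E n) (hd : Continuous d)
    (hd' : Continuous d') :
    rho m (fun x => d x + c * d' x) u = rho m d u + c * rho m d' u := by
  have hc : Continuous fun y : E n => u + ‖u‖ • y := by fun_prop
  have h1 := integrable m (fun y => d (u + ‖u‖ • y)) (hd.comp hc)
  have h2 := integrable m (fun y => d' (u + ‖u‖ • y)) (hd'.comp hc)
  unfold rho
  rw [← integral_const_mul, ← integral_add h1 (h2.const_mul c)]
  refine integral_congr_ae (Eventually.of_forall fun y => ?_)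
  show (d (u + ‖u‖ • y) + c * d' (u + ‖u‖ • y)) * m.η y =
    d (u + ‖u‖ • y) * m.η y + c * (d' (u + ‖u‖ • y) * m.η y)
  ring

lemma pt_bound (m : Moll n δ) (d : E n → ℝ) (L : ℝ)
    (hL : ∀ u v, |d u - d v| ≤ L * ‖u - v‖) (u y : E n) :
    |d (u + ‖u‖ • y) - d u| * m.η y ≤ L * δ * ‖u‖ * m.η y := by
  rcases le_or_gt δ ‖y‖ with h8 | h8
  · rw [m.η_zero y h8]
    simp
  · refine mul_le_mul_of_nonneg_right ?_ (m.η_nn y)
    have hL0 : 0 ≤ L * ‖y‖ := by
      have h9 := hL y 0
      rw [sub_zero] at h9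
      exact le_trans (abs_nonneg _) h9
    have h10 : ‖u + ‖u‖ • y - u‖ = ‖u‖ * ‖y‖ := by
      rw [add_sub_cancel_left, norm_smul, norm_norm]
    have h11 := hL (u + ‖u‖ • y) u
    rw [h10] at h11
    refine h11.trans ?_
    rcases (norm_nonneg y).eq_or_lt with h12 | h12
    · rw [← h12]
      have h13 : 0 ≤ L * ‖u‖ := by
        have h9 := hL u 0
        rw [sub_zero] at h9
        exact le_trans (abs_nonneg _) h9
      have h14 := mul_nonneg h13 m.hδ.le
      nlinarith
    · have hL1 : 0 ≤ L := by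
        by_contra h13
        have h14 := mul_neg_of_neg_of_pos (not_le.1 h13) h12
        linarith
      have h15 : ‖u‖ * ‖y‖ ≤ ‖u‖ * δ := mul_le_mul_of_nonneg_left h8.le (norm_nonneg u)
      have h16 := mul_le_mul_of_nonneg_left h15 hL1
      nlinarith

lemma near (m : Moll n δ) (d : E n → ℝ) (L : ℝ) (hd : Continuous d)
    (hL : ∀ u v, |d u - d v| ≤ L * ‖u - v‖) (u : E n) :
    |rho m d u - d u| ≤ L * δ * ‖u‖ := by
  have hc : Continuous fun y : E n => u + ‖u‖ • y := by fun_prop
  have h1 := integrable m (fun y => d (u + ‖u‖ • y)) (hd.comp hc)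
  have h2 := integrable m (fun _ => d u) continuous_const
  have h3 : rho m d u - d u = ∫ y, (d (u + ‖u‖ • y) - d u) * m.η y := by
    have h4 : ∫ y, d u * m.η y = d u := by
      rw [integral_const_mul, m.η_int, mul_one]
    have h5 : ∫ y, (d (u + ‖u‖ • y) - d u) * m.η y =
        (∫ y, d (u + ‖u‖ • y) * m.η y) - ∫ y, d u * m.η y := by
      rw [← integral_sub h1 h2]
      refine integral_congr_ae (Eventually.of_forall fun y => ?_)
      show (d (u + ‖u‖ • y) - d u) * m.η y = d (u + ‖u‖ • y) * m.η y - d u * m.η y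
      ring
    rw [h5, h4]
    rfl
  have h6 := integrable m (fun _ => L * δ * ‖u‖) continuous_const
  have h7 : ∫ y, (L * δ * ‖u‖) * m.η y = L * δ * ‖u‖ := by
    rw [integral_const_mul, m.η_int, mul_one]
  rw [h3, ← h7]
  have h20 : ‖∫ y, (d (u + ‖u‖ • y) - d u) * m.η y‖ ≤ ∫ y, (L * δ * ‖u‖) * m.η y := by
    refine norm_integral_le_of_norm_le h6 (Eventually.of_forall fun y => ?_)
    rw [Real.norm_eq_abs, abs_mul, abs_of_nonneg (m.η_nn y)]
    exact pt_bound m d L hL u y
  rwa [Real.norm_eq_abs] at h20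

lemma inn (m : Moll n δ) (x u : E n) :
    rho m (fun z => inner ℝ x z) u = inner ℝ x u := by
  have hc : Continuous fun y : E n => (inner ℝ x y : ℝ) := by fun_prop
  have h1 := integrable m (fun y => (inner ℝ x y : ℝ)) hc
  have h2 := integrable m (fun _ => (inner ℝ x u : ℝ)) continuous_const
  have h3 : ∫ y, (inner ℝ x y : ℝ) * m.η y = 0 := by
    have h4 : ∫ y, (inner ℝ x (-y) : ℝ) * m.η (-y) = ∫ y, (inner ℝ x y : ℝ) * m.η y :=
      integral_neg_eq_self (fun y => (inner ℝ x y : ℝ) * m.η y) volume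
    have h5 : ∀ y, (inner ℝ x (-y) : ℝ) * m.η (-y) = -((inner ℝ x y : ℝ) * m.η y) := by
      intro y
      rw [inner_neg_right, m.η_rad (-y) y (norm_neg y), neg_mul]
    simp only [h5] at h4
    rw [integral_neg] at h4
    linarith
  have h6 : rho m (fun z => inner ℝ x z) u =
      (∫ y, (inner ℝ x u : ℝ) * m.η y) + ‖u‖ * ∫ y, (inner ℝ x y : ℝ) * m.η y := by
    unfold rho
    rw [← integral_const_mul, ← integral_add h2 (h1.const_mul _)]
    refine integral_congr_ae (Eventually.of_forall fun y => ?_)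
    show (inner ℝ x (u + ‖u‖ • y) : ℝ) * m.η y =
      (inner ℝ x u : ℝ) * m.η y + ‖u‖ * ((inner ℝ x y : ℝ) * m.η y)
    rw [inner_add_right, inner_smul_right]
    ring
  rw [h6, h3, mul_zero, add_zero, integral_const_mul, m.η_int, mul_one]

end RHO_

theorem p_RHO : T_RHO := by
  intro n δ m
  exact ⟨fun d hd => RHO_.hom m d hd, fun d d' c u hd hd' => RHO_.lin m d d' c u hd hd',
    fun d L hd hL u => RHO_.near m d L hd hL u, fun x u => RHO_.inn m x u⟩

end Pool.Agent.GLB
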