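import Pool.Agent.GLB.TA

/-!
# GLB: extreme cases of the bodies of decreasing sequences
-/

set_option autoImplicit false

open Metric Set Filter Topology MeasureTheory

open scoped Pointwise

noncomputable section

namespace Pool.Agent.GLB

namespace SCB_

lemma mem_smul {n : ℕ} (c : ℝ) (K : ConvexBody (E n)) (z : E n) :
    z ∈ c • K ↔ ∃ x ∈ K, c • x = z := by
  rw [← SetLike.mem_coe, ConvexBody.coe_smul, Set.mem_smul_set]
  rfl

lemma ne01 : (seqs (fun _ => 0) (fun _ => 1)).Nonempty :=
  ⟨fun _ => 0, fun _ _ _ => le_rfl, fun _ => ⟨le_rfl, zero_le_one⟩⟩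

lemma mem_TT {n : ℕ} (w : ℕ → E n) (i j : ℕ) (y : E n) :
    y ∈ TT w i j ↔ ∃ x ∈ seqs (fun _ => 0) (fun _ => 1), cmb w i j x = y :=
  mem_bd w i j _ _ ne01 y

lemma ne0 (k : ℕ) (a b : ℝ) (ha : 0 ≤ a) (hb : 0 ≤ b) :
    (seqs (fun _ => 0) (stp k (a + b) a)).Nonempty := by
  refine ⟨fun _ => 0, fun _ _ _ => le_rfl, fun m => ⟨le_rfl, ?_⟩⟩
  unfold stp
  split_ifs <;> linarith

lemma cmb_congr {n : ℕ} (w : ℕ → E n) (i j : ℕ) (x y : ℕ → ℝ) (c : ℝ)
    (h : ∀ m, i ≤ m → m < j → x m = c * y m) : cmb w i j x = c • cmb w i j y := by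
  unfold cmb
  rw [Finset.smul_sum]
  refine Finset.sum_congr rfl fun m hm => ?_
  rw [h m (Finset.mem_Ico.1 hm).1 (Finset.mem_Ico.1 hm).2, mul_smul]

end SCB_

open SCB_

/-- SCB. -/
theorem p_SCB : T_SCB := by
  intro n w i j a b hij ha hb
  refine ⟨SetLike.ext fun q => ?_, SetLike.ext fun q => ?_, SetLike.ext fun q => ?_⟩
  · rw [mem_bd w i j _ _ (ne0 i a b ha hb), mem_smul]
    constructor
    · rintro ⟨x, hx, rfl⟩
      have h0 : ∀ m, 0 ≤ x m := fun m => (hx.2 m).1
      have h1 : ∀ m, i ≤ m → x m ≤ a := by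
        intro m hm
        have := (hx.2 m).2
        simpa only [stp, if_neg (not_lt.2 hm)] using this
      refine ⟨cmb w i j fun m => min (x m) a / a, (mem_TT _ _ _ _).2 ⟨_, ⟨?_, fun m => ?_⟩,
        rfl⟩, ?_⟩
      · intro p q hpq
        exact div_le_div_of_nonneg_right (min_le_min_right a (hx.1 hpq)) ha
      · exact ⟨div_nonneg (le_min (h0 m) ha) ha, div_le_one_of_le₀ (min_le_right _ _) ha⟩
      · refine (cmb_congr w i j _ _ a fun m hm _ => ?_).symm
        rcases eq_or_lt_of_le ha with h | h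
        · have h2 := h0 m
          have h3 := h1 m hm
          rw [← h] at h3 ⊢
          linarith
        · rw [min_eq_left (h1 m hm), mul_div_cancel₀ _ h.ne']
    · rintro ⟨q', hq', rfl⟩
      obtain ⟨y, hy, rfl⟩ := (mem_TT _ _ _ _).1 hq'
      refine ⟨fun m => a * y m, ⟨?_, fun m => ?_⟩, cmb_congr w i j _ _ a fun m _ _ => rfl⟩
      · intro p q hpq
        exact mul_le_mul_of_nonneg_left (hy.1 hpq) ha
      · have h3 := mul_le_mul_of_nonneg_left (hy.2 m).2 ha
        simp only [mul_one] at h3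
        refine ⟨mul_nonneg ha (hy.2 m).1, ?_⟩
        unfold stp
        split_ifs
        · change a * y m ≤ a + b
          linarith
        · exact h3
  · rw [mem_bd w i j _ _ (ne0 j a b ha hb), mem_smul]
    have hab : 0 ≤ a + b := by linarith
    constructor
    · rintro ⟨x, hx, rfl⟩
      have h0 : ∀ m, 0 ≤ x m := fun m => (hx.2 m).1
      have h1 : ∀ m, x m ≤ a + b := by
        intro m
        have := (hx.2 m).2
        unfold stp at this
        split_ifs at this <;> linarith
      refine ⟨cmb w i j fun m => x m / (a + b), (mem_TT _ _ _ _).2 ⟨_, ⟨?_, fun m => ?_⟩,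
        rfl⟩, ?_⟩
      · intro p q hpq
        exact div_le_div_of_nonneg_right (hx.1 hpq) hab
      · exact ⟨div_nonneg (h0 m) hab, div_le_one_of_le₀ (h1 m) hab⟩
      · refine (cmb_congr w i j _ _ (a + b) fun m _ _ => ?_).symm
        rcases eq_or_lt_of_le hab with h | h
        · have h2 := h0 m
          have h3 := h1 m
          rw [← h] at h3 ⊢
          linarith
        · rw [mul_div_cancel₀ _ h.ne']
    · rintro ⟨q', hq', rfl⟩
      obtain ⟨y, hy, rfl⟩ := (mem_TT _ _ _ _).1 hq'
      refine ⟨fun m => if m < j then (a + b) * y m else 0, ⟨?_, fun m => ?_⟩,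
        cmb_congr w i j _ _ (a + b) fun m _ hm => if_pos hm⟩
      · intro p q hpq
        by_cases hq : q < j
        · have hp : p < j := lt_of_le_of_lt hpq hq
          simp only [if_pos hq, if_pos hp]
          exact mul_le_mul_of_nonneg_left (hy.1 hpq) hab
        · simp only [if_neg hq]
          split_ifs
          · exact mul_nonneg hab (hy.2 p).1
          · exact le_rfl
      · have h3 := mul_le_mul_of_nonneg_left (hy.2 m).2 hab
        have h4 := mul_nonneg hab (hy.2 m).1
        simp only [mul_one] at h3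
        unfold stp
        by_cases hm : m < j
        · simp only [if_pos hm]
          exact ⟨h4, h3⟩
        · simp only [if_neg hm]
          exact ⟨le_rfl, ha⟩
  · rw [mem_TT]
    have h0 : ∀ x : ℕ → ℝ, cmb w j j x = 0 := by
      intro x
      unfold cmb
      rw [Finset.Ico_self, Finset.sum_empty]
    have h1 : q ∈ (0 : ConvexBody (E n)) ↔ q = 0 := by
      rw [← SetLike.mem_coe, ConvexBody.coe_zero, Set.mem_zero]
    rw [h1]
    constructor
    · rintro ⟨x, -, rfl⟩
      exact h0 x
    · rintro rfl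
      exact ⟨fun _ => 0, ⟨fun _ _ _ => le_rfl, fun _ => ⟨le_rfl, zero_le_one⟩⟩, h0 _⟩

end Pool.Agent.GLB
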