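import Pool.Agent.GLB.P_SPP

/-!
# GLB: splitting the intersection body
-/

set_option autoImplicit false

open Metric Set Filter Topology MeasureTheory

open scoped Pointwise

noncomputable section

namespace Pool.Agent.GLB

namespace SII_

lemma neL (k : ℕ) (a b : ℝ) (ha : 0 ≤ a) (hb : 0 ≤ b) :
    (seqs (stp (k + 1) a 0) (stp k (a + b) a)).Nonempty := by
  refine ⟨stp (k + 1) a 0, ?_, fun m => ?_⟩
  · intro p q hpq
    unfold stp
    split_ifs <;> first | omega | linarith
  · unfold stp
    split_ifs <;> constructor <;> linarith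

lemma cmb_split {n : ℕ} (w : ℕ → E n) (i j k : ℕ) (a b : ℝ) (hik : i ≤ k) (hkj : k < j)
    (x y z : ℕ → ℝ) (h1 : ∀ m, m < k → x m = a + b * y m) (h0 : x k = a)
    (h2 : ∀ m, k < m → x m = a * z m) :
    cmb w i j x =
      a • ∑ m ∈ Finset.Ico i (k + 1), w m + b • cmb w i k y + a • cmb w (k + 1) j z := by
  unfold cmb
  rw [← Finset.sum_Ico_consecutive _ (Nat.le_succ_of_le hik) (Nat.succ_le_of_lt hkj)]
  congr 1
  · rw [Finset.sum_Ico_succ_top hik, Finset.sum_Ico_succ_top hik, h0, smul_add, Finset.smul_sum,
      Finset.smul_sum, add_right_comm, ← Finset.sum_add_distrib]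
    congr 1
    refine Finset.sum_congr rfl fun m hm => ?_
    rw [h1 m (Finset.mem_Ico.1 hm).2, add_smul, mul_smul]
  · rw [Finset.smul_sum]
    refine Finset.sum_congr rfl fun m hm => ?_
    rw [h2 m (Finset.mem_Ico.1 hm).1, mul_smul]

end SII_

open SPP_ in
theorem p_SII : T_SII := by
  intro n w i j k a b hik hkj ha hb
  refine SetLike.ext fun q => ?_
  rw [mem_bd w i j _ _ (SII_.neL k a b ha hb)]
  constructor
  · rintro ⟨x, hx, rfl⟩
    have hlo : ∀ m, m < k → a ≤ x m ∧ x m ≤ a + b := by
      intro m hm
      have := hx.2 m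
      simpa only [stp, if_pos hm, if_pos (Nat.lt_succ_of_lt hm)] using this
    have hk : x k = a := by
      have := hx.2 k
      simp only [stp, if_pos (Nat.lt_succ_self k), if_neg (lt_irrefl k)] at this
      exact le_antisymm this.2 this.1
    have hhi : ∀ m, k + 1 ≤ m → 0 ≤ x m ∧ x m ≤ a := by
      intro m hm
      have := hx.2 m
      simpa only [stp, if_neg (not_lt.2 hm), if_neg (not_lt.2 (Nat.le_of_succ_le hm))] using this
    have hy : (fun m => if m < k then (x m - a) / b else 0) ∈
        seqs (fun _ => 0) (fun _ => 1) := by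
      refine ⟨?_, fun m => ?_⟩
      · intro p q hpq
        have hpq' := hx.1 hpq
        by_cases hq : q < k
        · have hp : p < k := lt_of_le_of_lt hpq hq
          simp only [if_pos hq, if_pos hp]
          exact div_le_div_of_nonneg_right (by linarith) hb
        · by_cases hp : p < k
          · simp only [if_neg hq, if_pos hp]
            exact div_nonneg (by linarith [(hlo p hp).1]) hb
          · simp only [if_neg hq, if_neg hp]
            exact le_rfl
      · by_cases hm : m < k
        · simp only [if_pos hm]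
          have := hlo m hm
          exact ⟨div_nonneg (by linarith) hb, div_le_one_of_le₀ (by linarith) hb⟩
        · simp only [if_neg hm]
          exact ⟨le_rfl, zero_le_one⟩
    have hz : (fun m => if m < k + 1 then 1 else x m / a) ∈
        seqs (fun _ => 0) (fun _ => 1) := by
      refine ⟨?_, fun m => ?_⟩
      · intro p q hpq
        have hpq' := hx.1 hpq
        by_cases hq : q < k + 1
        · have hp : p < k + 1 := lt_of_le_of_lt hpq hq
          simp only [if_pos hq, if_pos hp]
          exact le_rfl
        · by_cases hp : p < k + 1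
          · simp only [if_neg hq, if_pos hp]
            exact div_le_one_of_le₀ (hhi q (not_lt.1 hq)).2 ha
          · simp only [if_neg hq, if_neg hp]
            exact div_le_div_of_nonneg_right hpq' ha
      · by_cases hm : m < k + 1
        · simp only [if_pos hm]
          exact ⟨zero_le_one, le_rfl⟩
        · simp only [if_neg hm]
          have := hhi m (not_lt.1 hm)
          exact ⟨div_nonneg this.1 ha, div_le_one_of_le₀ this.2 ha⟩
    rw [SII_.cmb_split w i j k a b hik hkj x (fun m => if m < k then (x m - a) / b else 0)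
      (fun m => if m < k + 1 then 1 else x m / a) ?_ hk ?_]
    · refine (mem_add _ _ _).2 ⟨_, (mem_add _ _ _).2 ⟨_, (mem_pt _ _).2 rfl, _,
        (mem_smul _ _ _).2 ⟨_, (mem_TT _ _ _ _).2 ⟨_, hy, rfl⟩, rfl⟩, rfl⟩, _,
        (mem_smul _ _ _).2 ⟨_, (mem_TT _ _ _ _).2 ⟨_, hz, rfl⟩, rfl⟩, rfl⟩
    · intro m hm
      simp only [if_pos hm]
      rcases eq_or_lt_of_le hb with h | h
      · have := hlo m hm
        rw [← h] at this ⊢
        linarith
      · rw [mul_div_cancel₀ _ h.ne']
        ring
    · intro m hm
      have hm' : k + 1 ≤ m := hm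
      simp only [if_neg (not_lt.2 hm')]
      rcases eq_or_lt_of_le ha with h | h
      · have := hhi m hm'
        rw [← h] at this ⊢
        linarith
      · rw [mul_div_cancel₀ _ h.ne']
  · intro hq
    obtain ⟨q1, hq1, q2, hq2, rfl⟩ := (mem_add _ _ _).1 hq
    obtain ⟨q3, hq3, q4, hq4, rfl⟩ := (mem_add _ _ _).1 hq1
    rw [mem_pt] at hq3
    obtain ⟨q5, hq5, rfl⟩ := (mem_smul _ _ _).1 hq4
    obtain ⟨q6, hq6, rfl⟩ := (mem_smul _ _ _).1 hq2
    obtain ⟨y, hy, rfl⟩ := (mem_TT _ _ _ _).1 hq5
    obtain ⟨z, hz, rfl⟩ := (mem_TT _ _ _ _).1 hq6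
    subst hq3
    have hY : ∀ m, 0 ≤ b * y m ∧ b * y m ≤ b := fun m =>
      ⟨mul_nonneg hb (hy.2 m).1, by
        have := mul_le_mul_of_nonneg_left (hy.2 m).2 hb
        simpa only [mul_one] using this⟩
    have hZ : ∀ m, 0 ≤ a * z m ∧ a * z m ≤ a := fun m =>
      ⟨mul_nonneg ha (hz.2 m).1, by
        have := mul_le_mul_of_nonneg_left (hz.2 m).2 ha
        simpa only [mul_one] using this⟩
    refine ⟨fun m => if m < k then a + b * y m else if m = k then a else a * z m,
      ⟨?_, fun m => ?_⟩, ?_⟩
    · intro p q hpq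
      have h1 := mul_le_mul_of_nonneg_left (hy.1 hpq) hb
      have h2 := mul_le_mul_of_nonneg_left (hz.1 hpq) ha
      have h3 := hY p
      have h4 := hZ q
      simp only
      split_ifs <;> first | omega | linarith
    · have h3 := hY m
      have h4 := hZ m
      unfold stp
      simp only
      split_ifs <;> first | omega | (constructor <;> linarith)
    · refine SII_.cmb_split w i j k a b hik hkj _ y z ?_ ?_ ?_
      · intro m hm
        simp only [if_pos hm]
      · simp only [if_neg (lt_irrefl k), if_true]
      · intro m hm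
        simp only [if_neg (not_lt.2 hm.le), if_neg hm.ne']

end Pool.Agent.GLB
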