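import Pool.Agent.GLB.TC

/-!
# GLB-SIN: the sine inequality
-/

set_option autoImplicit false

open Set

noncomputable section

namespace Pool.Agent.GLB

namespace SIN_

theorem mono_of_deriv {f f' : ℝ → ℝ} (hf : ∀ t, HasDerivAt f (f' t) t) {a b : ℝ} (hab : a ≤ b)
    (h : ∀ t, a ≤ t → t ≤ b → 0 ≤ f' t) : f a ≤ f b := by
  have hm : MonotoneOn f (Icc a b) := by
    apply monotoneOn_of_deriv_nonneg (convex_Icc a b)
    · exact fun t _ => (hf t).continuousAt.continuousWithinAt
    · exact fun t _ => (hf t).differentiableAt.differentiableWithinAt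
    · intro t ht
      rw [interior_Icc] at ht
      rw [(hf t).deriv]
      exact h t ht.1.le ht.2.le
  exact hm (left_mem_Icc.2 hab) (right_mem_Icc.2 hab) hab

end SIN_

theorem p_SIN : T_SIN := by
  intro g g₁ g₂ h1 h2 h3 γ β hγ hγβ hβ
  have hA : ∀ t, HasDerivAt (fun t => g₁ t * Real.sin t - g t * Real.cos t)
      ((g₂ t + g t) * Real.sin t) t := by
    intro t
    exact (((h2 t).mul (Real.hasDerivAt_sin t)).sub ((h1 t).mul (Real.hasDerivAt_cos t))).congr_deriv
      (by ring)
  have hB : ∀ t, HasDerivAt (fun t => g₁ t * Real.sin (β - t) + g t * Real.cos (β - t))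
      ((g₂ t + g t) * Real.sin (β - t)) t := by
    intro t
    have hb : HasDerivAt (fun t : ℝ => β - t) (-1) t := by
      simpa using (hasDerivAt_id t).const_sub β
    have hs : HasDerivAt (fun t : ℝ => Real.sin (β - t)) (Real.cos (β - t) * (-1)) t :=
      hb.sin
    have hc : HasDerivAt (fun t : ℝ => Real.cos (β - t)) (-Real.sin (β - t) * (-1)) t :=
      hb.cos
    exact (((h2 t).mul hs).add ((h1 t).mul hc)).congr_deriv (by ring)
  have e1 := SIN_.mono_of_deriv hA hγ (fun t ht0 ht1 => mul_nonneg (h3 t)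
    (Real.sin_nonneg_of_nonneg_of_le_pi ht0 (by linarith)))
  have e2 := SIN_.mono_of_deriv hB hγβ (fun t ht0 ht1 => mul_nonneg (h3 t)
    (Real.sin_nonneg_of_nonneg_of_le_pi (by linarith) (by linarith)))
  simp only [Real.sin_zero, Real.cos_zero, mul_zero, zero_sub, mul_one, sub_self] at e1 e2
  have s1 : 0 ≤ Real.sin (β - γ) := Real.sin_nonneg_of_nonneg_of_le_pi (by linarith) (by linarith)
  have s2 : 0 ≤ Real.sin γ := Real.sin_nonneg_of_nonneg_of_le_pi hγ (by linarith)
  have s3 : Real.sin β = Real.sin (β - γ) * Real.cos γ + Real.cos (β - γ) * Real.sin γ := by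
    rw [← Real.sin_add, sub_add_cancel]
  have m1 := mul_le_mul_of_nonneg_left e1 s1
  have m2 := mul_le_mul_of_nonneg_left e2 s2
  rw [s3]
  nlinarith [m1, m2]

end Pool.Agent.GLB
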