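import Pool.Agent.GLB.TF

/-!
# GLB: smoothness of the action
-/

set_option autoImplicit false

open Metric Set Filter Topology

noncomputable section

namespace Pool.Agent.GLB

theorem p_SMA (hCUTO : T_CUTO) : T_SMA := by
  intro n A φ f hf hrep
  set T := ContinuousLinearMap.adjoint (A : E n →L[ℝ] E n) with hT
  have hTne : ∀ x : E n, x ≠ 0 → T x ≠ 0 := by
    intro x hx h0
    have h1 := adj_ne A (⟨‖x‖⁻¹ • x, by
      rw [mem_sphere_iff_norm, sub_zero, norm_smul, norm_inv, norm_norm]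
      exact inv_mul_cancel₀ (norm_ne_zero_iff.2 hx)⟩ : S n)
    apply h1
    change T (‖x‖⁻¹ • x) = 0
    rw [map_smul, h0, smul_zero]
  have hnc : ContDiffOn ℝ 2 (fun x : E n => ‖x‖) {x | x ≠ 0} :=
    fun x hx => (contDiffAt_norm ℝ hx).contDiffWithinAt
  have hTc : ContDiff ℝ 2 (fun x : E n => T x) := T.contDiff
  have hnT : ContDiffOn ℝ 2 (fun x : E n => ‖T x‖) {x | x ≠ 0} := by
    intro x hx
    have h1 : ContDiffAt ℝ 2 (fun y : E n => ‖y‖) (T x) := contDiffAt_norm ℝ (hTne x hx)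
    exact (ContDiffAt.comp x h1 hTc.contDiffAt).contDiffWithinAt
  have hp : ContDiffOn ℝ 2 (fun x : E n => ‖T x‖ / ‖x‖ * f (‖T x‖⁻¹ • T x)) {x | x ≠ 0} := by
    refine ContDiffOn.mul (hnT.div hnc fun x hx => norm_ne_zero_iff.2 hx) ?_
    refine hf.comp_contDiffOn ?_
    have hi : ContDiffOn ℝ 2 (fun x : E n => ‖T x‖⁻¹) {x | x ≠ 0} :=
      hnT.inv fun x hx => norm_ne_zero_iff.2 (hTne x hx)
    exact hi.smul hTc.contDiffOn
  obtain ⟨f', hf', hf'e⟩ := hCUTO n _ hp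
  refine ⟨f', hf', ?_⟩
  intro u r hr1 hr2
  have hr0 : 0 < r := by linarith
  have hu1 : ‖(u : E n)‖ = 1 := by
    have := u.2
    rwa [mem_sphere_iff_norm, sub_zero] at this
  have hru : ‖r • (u : E n)‖ = r := by
    rw [norm_smul, hu1, mul_one, Real.norm_of_nonneg hr0.le]
  rw [hf'e _ (by rw [hru]; exact hr1.le), hru, map_smul, norm_smul, Real.norm_of_nonneg hr0.le]
  have hTu : ‖T (u : E n)‖ ≠ 0 := norm_ne_zero_iff.2 (adj_ne A u)
  have h1 : (r * ‖T (u : E n)‖)⁻¹ • r • T (u : E n) = (1 : ℝ) • (dirn A u : E n) := by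
    change (r * ‖T (u : E n)‖)⁻¹ • r • T (u : E n) = (1 : ℝ) • (‖T (u : E n)‖⁻¹ • T (u : E n))
    rw [smul_smul, one_smul]
    congr 1
    field_simp
  rw [h1, hrep (dirn A u) 1 (by norm_num) (by norm_num)]
  change r * ‖T (u : E n)‖ / r * φ (dirn A u) = ‖T (u : E n)‖ • φ (dirn A u)
  rw [smul_eq_mul, mul_div_cancel_left₀ _ hr0.ne']

end Pool.Agent.GLB
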