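import Pool.Agent.GLB.TA

/-!
# GLB: splitting a body of decreasing sequences
-/

set_option autoImplicit false

open Metric Set Filter Topology MeasureTheory

open scoped Pointwise

noncomputable section

namespace Pool.Agent.GLB

namespace SPP_

lemma mem_pt {n : ℕ} (x y : E n) : y ∈ pt x ↔ y = x := Iff.rfl

lemma mem_add {n : ℕ} (K L : ConvexBody (E n)) (z : E n) :
    z ∈ K + L ↔ ∃ x ∈ K, ∃ y ∈ L, x + y = z := by
  rw [← SetLike.mem_coe, ConvexBody.coe_add, Set.mem_add]
  rfl

lemma mem_smul {n : ℕ} (c : ℝ) (K : ConvexBody (E n)) (z : E n) :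
    z ∈ c • K ↔ ∃ x ∈ K, c • x = z := by
  rw [← SetLike.mem_coe, ConvexBody.coe_smul, Set.mem_smul_set]
  rfl

lemma ne01 : (seqs (fun _ => 0) (fun _ => 1)).Nonempty :=
  ⟨fun _ => 0, fun _ _ _ => le_rfl, fun _ => ⟨le_rfl, zero_le_one⟩⟩

lemma mem_TT {n : ℕ} (w : ℕ → E n) (i j : ℕ) (y : E n) :
    y ∈ TT w i j ↔ ∃ x ∈ seqs (fun _ => 0) (fun _ => 1), cmb w i j x = y :=
  mem_bd w i j _ _ ne01 y

lemma neL (k : ℕ) (a b : ℝ) (ha : 0 ≤ a) (hb : 0 ≤ b) :
    (seqs (stp k a 0) (stp k (a + b) a)).Nonempty := by
  refine ⟨stp k a 0, ?_, fun m => ?_⟩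
  · intro p q hpq
    unfold stp
    split_ifs <;> first | omega | linarith
  · unfold stp
    split_ifs <;> constructor <;> linarith

lemma cmb_split {n : ℕ} (w : ℕ → E n) (i j k : ℕ) (a b : ℝ) (hik : i ≤ k) (hkj : k ≤ j)
    (x y z : ℕ → ℝ) (h1 : ∀ m, m < k → x m = a + b * y m) (h2 : ∀ m, k ≤ m → x m = a * z m) :
    cmb w i j x = a • ∑ m ∈ Finset.Ico i k, w m + b • cmb w i k y + a • cmb w k j z := by
  unfold cmb
  rw [← Finset.sum_Ico_consecutive _ hik hkj, Finset.smul_sum, Finset.smul_sum,
    Finset.smul_sum, ← Finset.sum_add_distrib]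
  congr 1
  · refine Finset.sum_congr rfl fun m hm => ?_
    rw [h1 m (Finset.mem_Ico.1 hm).2, add_smul, mul_smul]
  · refine Finset.sum_congr rfl fun m hm => ?_
    rw [h2 m (Finset.mem_Ico.1 hm).1, mul_smul]

end SPP_

open SPP_

theorem p_SPP : T_SPP := by
  intro n w i j k a b hik hkj ha hb
  refine SetLike.ext fun q => ?_
  rw [mem_bd w i j _ _ (neL k a b ha hb)]
  constructor
  · rintro ⟨x, hx, rfl⟩
    have hlo : ∀ m, m < k → a ≤ x m ∧ x m ≤ a + b := by
      intro m hm
      have := hx.2 m
      simpa only [stp, if_pos hm] using this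
    have hhi : ∀ m, k ≤ m → 0 ≤ x m ∧ x m ≤ a := by
      intro m hm
      have := hx.2 m
      simpa only [stp, if_neg (not_lt.2 hm)] using this
    have hy : (fun m => if m < k then (x m - a) / b else 0) ∈
        seqs (fun _ => 0) (fun _ => 1) := by
      refine ⟨?_, fun m => ?_⟩
      · intro p q hpq
        have hpq' := hx.1 hpq
        by_cases hq : q < k
        · have hp : p < k := lt_of_le_of_lt hpq hq
          simp only [if_pos hq, if_pos hp]
          exact div_le_div_of_nonneg_right (by linarith) hb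
        · by_cases hp : p < k
          · simp only [if_neg hq, if_pos hp]
            exact div_nonneg (by linarith [(hlo p hp).1]) hb
          · simp only [if_neg hq, if_neg hp]
            exact le_rfl
      · by_cases hm : m < k
        · simp only [if_pos hm]
          have := hlo m hm
          exact ⟨div_nonneg (by linarith) hb, div_le_one_of_le₀ (by linarith) hb⟩
        · simp only [if_neg hm]
          exact ⟨le_rfl, zero_le_one⟩
    have hz : (fun m => if m < k then 1 else x m / a) ∈ seqs (fun _ => 0) (fun _ => 1) := by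
      refine ⟨?_, fun m => ?_⟩
      · intro p q hpq
        have hpq' := hx.1 hpq
        by_cases hq : q < k
        · have hp : p < k := lt_of_le_of_lt hpq hq
          simp only [if_pos hq, if_pos hp]
          exact le_rfl
        · by_cases hp : p < k
          · simp only [if_neg hq, if_pos hp]
            exact div_le_one_of_le₀ (hhi q (not_lt.1 hq)).2 ha
          · simp only [if_neg hq, if_neg hp]
            exact div_le_div_of_nonneg_right hpq' ha
      · by_cases hm : m < k
        · simp only [if_pos hm]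
          exact ⟨zero_le_one, le_rfl⟩
        · simp only [if_neg hm]
          have := hhi m (not_lt.1 hm)
          exact ⟨div_nonneg this.1 ha, div_le_one_of_le₀ this.2 ha⟩
    rw [cmb_split w i j k a b hik hkj x (fun m => if m < k then (x m - a) / b else 0)
      (fun m => if m < k then 1 else x m / a)]
    · refine (mem_add _ _ _).2 ⟨_, (mem_add _ _ _).2 ⟨_, (mem_pt _ _).2 rfl, _,
        (mem_smul _ _ _).2 ⟨_, (mem_TT _ _ _ _).2 ⟨_, hy, rfl⟩, rfl⟩, rfl⟩, _,
        (mem_smul _ _ _).2 ⟨_, (mem_TT _ _ _ _).2 ⟨_, hz, rfl⟩, rfl⟩, rfl⟩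
    · intro m hm
      simp only [if_pos hm]
      rcases eq_or_lt_of_le hb with h | h
      · have := hlo m hm
        rw [← h] at this ⊢
        linarith
      · rw [mul_div_cancel₀ _ h.ne']
        ring
    · intro m hm
      simp only [if_neg (not_lt.2 hm)]
      rcases eq_or_lt_of_le ha with h | h
      · have := hhi m hm
        rw [← h] at this ⊢
        linarith
      · rw [mul_div_cancel₀ _ h.ne']
  · intro hq
    obtain ⟨q1, hq1, q2, hq2, rfl⟩ := (mem_add _ _ _).1 hq
    obtain ⟨q3, hq3, q4, hq4, rfl⟩ := (mem_add _ _ _).1 hq1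
    rw [mem_pt] at hq3
    obtain ⟨q5, hq5, rfl⟩ := (mem_smul _ _ _).1 hq4
    obtain ⟨q6, hq6, rfl⟩ := (mem_smul _ _ _).1 hq2
    obtain ⟨y, hy, rfl⟩ := (mem_TT _ _ _ _).1 hq5
    obtain ⟨z, hz, rfl⟩ := (mem_TT _ _ _ _).1 hq6
    subst hq3
    refine ⟨fun m => if m < k then a + b * y m else a * z m, ⟨?_, fun m => ?_⟩, ?_⟩
    · intro p q hpq
      have h1 := mul_le_mul_of_nonneg_left (hy.1 hpq) hb
      have h2 := mul_le_mul_of_nonneg_left (hz.1 hpq) ha
      by_cases hq : q < k
      · have hp : p < k := lt_of_le_of_lt hpq hq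
        simp only [if_pos hq, if_pos hp]
        linarith
      · by_cases hp : p < k
        · simp only [if_neg hq, if_pos hp]
          have h3 := mul_le_mul_of_nonneg_left (hz.2 q).2 ha
          have h4 := mul_nonneg hb (hy.2 p).1
          simp only [mul_one] at h3
          linarith
        · simp only [if_neg hq, if_neg hp]
          exact h2
    · have h3 := mul_le_mul_of_nonneg_left (hz.2 m).2 ha
      have h4 := mul_nonneg hb (hy.2 m).1
      have h5 := mul_le_mul_of_nonneg_left (hy.2 m).2 hb
      have h6 := mul_nonneg ha (hz.2 m).1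
      simp only [mul_one] at h3 h5
      unfold stp
      by_cases hm : m < k
      · simp only [if_pos hm]
        constructor <;> linarith
      · simp only [if_neg hm]
        constructor <;> linarith
    · refine cmb_split w i j k a b hik hkj _ y z ?_ ?_
      · intro m hm
        simp only [if_pos hm]
      · intro m hm
        simp only [if_neg (not_lt.2 hm)]

end Pool.Agent.GLB
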