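import Pool.Agent.GLB.TA

set_option autoImplicit false

open Metric Set Filter Topology MeasureTheory

noncomputable section

namespace Pool.Agent.GLB

lemma SUA_cont {n : ℕ} (u : E n) : Continuous fun x : E n => (inner ℝ x u : ℝ) := by
  fun_prop

lemma SUA_bdd {n : ℕ} (K : ConvexBody (E n)) (u : E n) :
    BddAbove ((fun x => (inner ℝ x u : ℝ)) '' (K : Set (E n))) :=
  (K.isCompact.image (SUA_cont u)).bddAbove

lemma SUA_le {n : ℕ} (K : ConvexBody (E n)) (x u : E n) (hx : x ∈ K) :
    inner ℝ x u ≤ supp K u :=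
  le_csSup (SUA_bdd K u) ⟨x, hx, rfl⟩

lemma SUA_max {n : ℕ} (K : ConvexBody (E n)) (u : E n) :
    ∃ x ∈ K, inner ℝ x u = supp K u := by
  have h := (K.isCompact.image (SUA_cont u)).sSup_mem (K.nonempty.image _)
  obtain ⟨x, hx, hxu⟩ := h
  exact ⟨x, hx, hxu⟩

lemma SUA_of_le {n : ℕ} (K : ConvexBody (E n)) (u : E n) (c : ℝ)
    (h : ∀ x ∈ K, inner ℝ x u ≤ c) : supp K u ≤ c := by
  obtain ⟨x, hx, hxu⟩ := SUA_max K u
  rw [← hxu]
  exact h x hx

theorem p_SUA : T_SUA := by
  intro n
  refine ⟨SUA_le, SUA_max, ?_, ?_, ?_, ?_⟩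
  · intro K L u
    apply le_antisymm
    · apply SUA_of_le
      intro z hz
      have hz' : z ∈ ((K + L : ConvexBody (E n)) : Set (E n)) := hz
      rw [ConvexBody.coe_add] at hz'
      obtain ⟨x, hx, y, hy, rfl⟩ := Set.mem_add.1 hz'
      rw [inner_add_left]
      exact add_le_add (SUA_le K x u hx) (SUA_le L y u hy)
    · obtain ⟨x, hx, hxu⟩ := SUA_max K u
      obtain ⟨y, hy, hyu⟩ := SUA_max L u
      rw [← hxu, ← hyu, ← inner_add_left]
      apply SUA_le
      show x + y ∈ ((K + L : ConvexBody (E n)) : Set (E n))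
      rw [ConvexBody.coe_add]
      exact Set.add_mem_add hx hy
  · intro K t u ht
    apply le_antisymm
    · apply SUA_of_le
      intro z hz
      have hz' : z ∈ ((t • K : ConvexBody (E n)) : Set (E n)) := hz
      rw [ConvexBody.coe_smul] at hz'
      obtain ⟨x, hx, rfl⟩ := Set.mem_smul_set.1 hz'
      rw [real_inner_smul_left]
      exact mul_le_mul_of_nonneg_left (SUA_le K x u hx) ht
    · obtain ⟨x, hx, hxu⟩ := SUA_max K u
      rw [← hxu, ← real_inner_smul_left]
      apply SUA_le
      show t • x ∈ ((t • K : ConvexBody (E n)) : Set (E n))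
      rw [ConvexBody.coe_smul]
      exact Set.smul_mem_smul_set hx
  · intro x u
    apply le_antisymm
    · apply SUA_of_le
      intro z hz
      have hz' : z ∈ ({x} : Set (E n)) := hz
      rw [Set.mem_singleton_iff.1 hz']
    · apply SUA_le
      show x ∈ ({x} : Set (E n))
      exact Set.mem_singleton x
  · intro A K u
    apply le_antisymm
    · apply SUA_of_le
      intro z hz
      have hz' : z ∈ A '' (K : Set (E n)) := hz
      obtain ⟨x, hx, rfl⟩ := hz'
      rw [← ContinuousLinearMap.adjoint_inner_right]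
      exact SUA_le K x _ hx
    · obtain ⟨x, hx, hxu⟩ := SUA_max K (ContinuousLinearMap.adjoint A u)
      rw [← hxu, ContinuousLinearMap.adjoint_inner_right]
      apply SUA_le
      show A x ∈ A '' (K : Set (E n))
      exact Set.mem_image_of_mem _ hx

end Pool.Agent.GLB
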