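import Pool.Agent.GLB.TC

/-!
# GLB: subadditivity of the mollification
-/

set_option autoImplicit false

open Metric Set Filter Topology MeasureTheory

noncomputable section

namespace Pool.Agent.GLB

namespace SUB_

/-- decomposition of a vector -/
theorem decomp {n : ℕ} (hn : 2 ≤ n) (a y : E n) (ha : ‖a‖ = 1) :
    ∃ (b : E n) (s : ℝ), ‖b‖ = 1 ∧ inner ℝ a b = 0 ∧ 0 ≤ s ∧ y = inner ℝ a y • a + s • b := by
  have haa : inner ℝ a a = (1 : ℝ) := by rw [real_inner_self_eq_norm_sq, ha, one_pow]
  -- the component orthogonal to `a`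
  have horth : ∀ z : E n, inner ℝ a (z - inner ℝ a z • a) = (0 : ℝ) := by
    intro z
    rw [inner_sub_right, inner_smul_right, haa]
    ring
  by_cases hw : y - inner ℝ a y • a = 0
  · -- any unit vector orthogonal to `a`
    have h1 : ∃ z : E n, z - inner ℝ a z • a ≠ 0 := by
      by_contra hcon
      push Not at hcon
      set e0 : E n := EuclideanSpace.single ⟨0, by omega⟩ 1 with he0
      set e1 : E n := EuclideanSpace.single ⟨1, by omega⟩ 1 with he1
      have h2 : e0 = inner ℝ a e0 • a := sub_eq_zero.mp (hcon e0)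
      have h3 : e1 = inner ℝ a e1 • a := sub_eq_zero.mp (hcon e1)
      have h4 : inner ℝ e0 e1 = (0 : ℝ) := by
        rw [he0, he1, EuclideanSpace.inner_single_left]
        simp
      have h5 : inner ℝ e0 e1 = inner ℝ a e0 * inner ℝ a e1 := by
        conv_lhs => rw [h2, h3]
        rw [inner_smul_left, inner_smul_right, haa]
        simp
      rw [h4] at h5
      rcases mul_eq_zero.mp h5.symm with h6 | h6
      · rw [h6, zero_smul] at h2
        have h7 : ‖e0‖ = 1 := by rw [he0]; simp
        rw [h2, norm_zero] at h7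
        exact zero_ne_one h7
      · rw [h6, zero_smul] at h3
        have h7 : ‖e1‖ = 1 := by rw [he1]; simp
        rw [h3, norm_zero] at h7
        exact zero_ne_one h7
    obtain ⟨z, hz⟩ := h1
    refine ⟨‖z - inner ℝ a z • a‖⁻¹ • (z - inner ℝ a z • a), 0, ?_, ?_, le_refl _, ?_⟩
    · rw [norm_smul, norm_inv, norm_norm]
      exact inv_mul_cancel₀ (norm_ne_zero_iff.2 hz)
    · rw [inner_smul_right, horth, mul_zero]
    · rw [zero_smul, add_zero]
      exact sub_eq_zero.mp hw
  · refine ⟨‖y - inner ℝ a y • a‖⁻¹ • (y - inner ℝ a y • a), ‖y - inner ℝ a y • a‖, ?_, ?_,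
      norm_nonneg _, ?_⟩
    · rw [norm_smul, norm_inv, norm_norm]
      exact inv_mul_cancel₀ (norm_ne_zero_iff.2 hw)
    · rw [inner_smul_right, horth, mul_zero]
    · rw [smul_smul, mul_inv_cancel₀ (norm_ne_zero_iff.2 hw), one_smul]
      abel

theorem normsq {n : ℕ} (a b : E n) (ha : ‖a‖ = 1) (hb : ‖b‖ = 1) (hab : inner ℝ a b = (0 : ℝ))
    (c s : ℝ) : ‖c • a + s • b‖ ^ 2 = c ^ 2 + s ^ 2 := by
  rw [← real_inner_self_eq_norm_sq, inner_add_left, inner_add_right, inner_add_right,
    inner_smul_left, inner_smul_left, inner_smul_right, inner_smul_right, inner_smul_left,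
    inner_smul_left, inner_smul_right, inner_smul_right, real_inner_self_eq_norm_sq,
    real_inner_self_eq_norm_sq, ha, hb, hab, real_inner_comm, hab]
  simp
  ring

/-- polar coordinates -/
theorem polar {c s r : ℝ} (hr : 0 < r) (hs : 0 < s) (h : r ^ 2 = c ^ 2 + s ^ 2) :
    ∃ β : ℝ, 0 < β ∧ β < Real.pi ∧ r * Real.cos β = c ∧ r * Real.sin β = s := by
  have h1 : (c / r) ^ 2 + (s / r) ^ 2 = 1 := by
    field_simp
    linarith
  have hsr : 0 < s / r := div_pos hs hr
  have h2 : -1 < c / r := by nlinarith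
  have h3 : c / r < 1 := by nlinarith
  refine ⟨Real.arccos (c / r), Real.arccos_pos.mpr h3, Real.arccos_lt_pi.mpr h2, ?_, ?_⟩
  · rw [Real.cos_arccos h2.le h3.le]
    field_simp
  · rw [Real.sin_arccos]
    have h4 : 1 - (c / r) ^ 2 = (s / r) ^ 2 := by linarith
    rw [h4, Real.sqrt_sq hsr.le]
    field_simp

/-- subadditivity from the inequality on great circles -/
theorem subadd {n : ℕ} (hn : 2 ≤ n) (f : E n → ℝ) (hf : Hom1 f)
    (hP : ∀ a b : E n, ‖a‖ = 1 → ‖b‖ = 1 → inner ℝ a b = (0 : ℝ) → ∀ γ β : ℝ, 0 ≤ γ → γ ≤ β →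
      β ≤ Real.pi → Real.sin β * f (Real.cos γ • a + Real.sin γ • b) ≤
        Real.sin (β - γ) * f a + Real.sin γ * f (Real.cos β • a + Real.sin β • b)) (x y : E n) :
    f (x + y) ≤ f x + f y := by
  have hf0 : f 0 = 0 := by
    have h := hf 0 (le_refl _) 0
    rw [zero_smul, zero_mul] at h
    exact h
  by_cases hx : x = 0
  · rw [hx, hf0, zero_add, zero_add]
  have hr : 0 < ‖x‖ := norm_pos_iff.mpr hx
  set r := ‖x‖ with hrdef
  set a : E n := r⁻¹ • x with hadef
  have ha : ‖a‖ = 1 := by
    rw [hadef, norm_smul, norm_inv, hrdef, norm_norm]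
    exact inv_mul_cancel₀ hr.ne'
  have hxa : x = r • a := by
    rw [hadef, smul_smul, mul_inv_cancel₀ hr.ne', one_smul]
  clear_value a
  obtain ⟨b, s, hb, hab, hs, hy⟩ := decomp hn a y ha
  set c : ℝ := inner ℝ a y with hc
  have hfx : f x = r * f a := by
    conv_lhs => rw [hxa]
    rw [hf r hr.le]
  rcases hs.eq_or_lt with hs0 | hs0
  · -- `y` is a multiple of `a`
    rw [← hs0, zero_smul, add_zero] at hy
    have hneg : 0 ≤ f a + f (-a) := by
      have h1 := hP a b ha hb hab (Real.pi / 2) Real.pi (by positivity)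
        (by linarith [Real.pi_pos]) (le_refl _)
      rw [Real.sin_pi, Real.cos_pi, Real.sin_pi_div_two,
        show Real.pi - Real.pi / 2 = Real.pi / 2 by ring, Real.sin_pi_div_two] at h1
      simpa using h1
    have hxy : x + y = (r + c) • a := by
      rw [hxa, hy, add_smul]
    rcases le_total 0 c with h2 | h2
    · rw [hxy, hfx, hf _ (by linarith)]
      conv_rhs => rw [hy, hf c h2]
      linarith
    · have hy' : y = (-c) • (-a) := by
        rw [smul_neg, neg_smul, neg_neg]
        exact hy
      have hfy : f y = -c * f (-a) := by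
        conv_lhs => rw [hy']
        rw [hf _ (by linarith)]
      rw [hfx, hfy]
      rcases le_total 0 (r + c) with h3 | h3
      · rw [hxy, hf _ h3]
        nlinarith [mul_nonneg (by linarith : (0 : ℝ) ≤ -c) hneg]
      · have hxy' : x + y = (-(r + c)) • (-a) := by
          rw [hxy, smul_neg, neg_smul, neg_neg]
        rw [hxy', hf _ (by linarith)]
        nlinarith [mul_nonneg hr.le hneg]
  · -- the general case
    have hy2 : ‖y‖ ^ 2 = c ^ 2 + s ^ 2 := by
      conv_lhs => rw [hy]
      exact normsq a b ha hb hab c s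
    have hypos : 0 < ‖y‖ := by
      rcases (norm_nonneg y).eq_or_lt with h | h
      · rw [← h] at hy2
        nlinarith
      · exact h
    have hxy : x + y = (r + c) • a + s • b := by
      conv_lhs => rw [hxa, hy]
      rw [add_smul, add_assoc]
    have hxy2 : ‖x + y‖ ^ 2 = (r + c) ^ 2 + s ^ 2 := by
      rw [hxy]
      exact normsq a b ha hb hab (r + c) s
    have hxypos : 0 < ‖x + y‖ := by
      rcases (norm_nonneg (x + y)).eq_or_lt with h | h
      · rw [← h] at hxy2
        nlinarith
      · exact h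
    obtain ⟨β, hβ0, hβπ, hβc, hβs⟩ := polar hypos hs0 hy2
    obtain ⟨γ, hγ0, hγπ, hγc, hγs⟩ := polar hxypos hs0 hxy2
    set R := ‖x + y‖ with hR
    set t := ‖y‖ with ht
    have hsβ : 0 < Real.sin β := Real.sin_pos_of_pos_of_lt_pi hβ0 hβπ
    have h1 : R * Real.sin (β - γ) = r * Real.sin β := by
      have h2 : t * (R * Real.sin (β - γ)) = t * (r * Real.sin β) := by
        rw [Real.sin_sub]
        calc t * (R * (Real.sin β * Real.cos γ - Real.cos β * Real.sin γ))
            = (t * Real.sin β) * (R * Real.cos γ) - (t * Real.cos β) * (R * Real.sin γ) := by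
              ring
          _ = s * (r + c) - c * s := by rw [hβs, hβc, hγc, hγs]
          _ = r * (t * Real.sin β) := by rw [hβs]; ring
          _ = _ := by ring
      exact mul_left_cancel₀ hypos.ne' h2
    have hγβ : γ ≤ β := by
      by_contra hcon
      push Not at hcon
      have h3 : Real.sin (β - γ) ≤ 0 :=
        Real.sin_nonpos_of_nonpos_of_neg_pi_le (by linarith) (by linarith)
      have h4 : 0 < r * Real.sin β := mul_pos hr hsβ
      rw [← h1] at h4
      nlinarith
    have h5 := hP a b ha hb hab γ β hγ0.le hγβ hβπ.le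
    have h6 : f (x + y) = R * f (Real.cos γ • a + Real.sin γ • b) := by
      rw [← hf R hxypos.le, smul_add, smul_smul, smul_smul, hγc, hγs, ← hxy]
    have h7 : f y = t * f (Real.cos β • a + Real.sin β • b) := by
      rw [← hf t hypos.le, smul_add, smul_smul, smul_smul, hβc, hβs, ← hy]
    have h8 : Real.sin β * f (x + y) ≤ Real.sin β * (f x + f y) := by
      have h9 := mul_le_mul_of_nonneg_left h5 hxypos.le
      have h10 : R * (Real.sin (β - γ) * f a +
          Real.sin γ * f (Real.cos β • a + Real.sin β • b)) =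
          (R * Real.sin (β - γ)) * f a + (R * Real.sin γ) *
            f (Real.cos β • a + Real.sin β • b) := by ring
      rw [h10, h1, hγs, ← hβs] at h9
      rw [h6, hfx, h7]
      linarith
    exact le_of_mul_le_mul_left h8 hsβ

end SUB_

theorem p_SUB (h1 : T_GGF) (h2 : T_SIN) (h3 : T_RHO) : T_SUB := by
  intro n δ m d hn hd hd1 hF x y
  refine SUB_.subadd hn (rho m d) ((h3 n δ m).1 d hd1) ?_ x y
  intro a b ha hb hab γ β hγ hγβ hβ
  obtain ⟨g₁, hg1, hg2⟩ := h1 n δ m d hd hd1 a b ha hb hab
  have h4 := h2 (fun t => rho m d (Real.cos t • a + Real.sin t • b)) g₁ _ hg1 hg2 ?_ γ β hγ hγβ hβ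
  · simpa using h4
  · intro t
    have h5 : ‖Real.cos t • a + Real.sin t • b‖ = 1 := by
      have h := SUB_.normsq a b ha hb hab (Real.cos t) (Real.sin t)
      rw [Real.cos_sq_add_sin_sq] at h
      have h' := norm_nonneg (Real.cos t • a + Real.sin t • b)
      nlinarith
    have h6 : ‖-Real.sin t • a + Real.cos t • b‖ = 1 := by
      have h := SUB_.normsq a b ha hb hab (-Real.sin t) (Real.cos t)
      rw [neg_sq, Real.sin_sq_add_cos_sq] at h
      have h' := norm_nonneg (-Real.sin t • a + Real.cos t • b)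
      nlinarith
    have h7 : inner ℝ (Real.cos t • a + Real.sin t • b) (-Real.sin t • a + Real.cos t • b) =
        (0 : ℝ) := by
      rw [inner_add_left, inner_add_right, inner_add_right, inner_smul_left, inner_smul_left,
        inner_smul_right, inner_smul_right, inner_smul_left, inner_smul_left, inner_smul_right,
        inner_smul_right, real_inner_self_eq_norm_sq, real_inner_self_eq_norm_sq, ha, hb, hab,
        real_inner_comm, hab]
      simp
      ring
    have h8 := hF _ _ h5 h6 h7
    linarith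

end Pool.Agent.GLB
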