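import Pool.Agent.GLB.TA

/-!
# GLB: Hausdorff distance and support functions
-/

set_option autoImplicit false

open Metric Set Filter Topology

noncomputable section

namespace Pool.Agent.GLB

lemma SUD_one (hSUA : T_SUA) {n : ℕ} (K L : ConvexBody (E n)) (u : E n) :
    supp K u - supp L u ≤ dist K L * ‖u‖ := by
  obtain ⟨x, hx, hxu⟩ := (hSUA n).2.1 K u
  obtain ⟨y, hy, hxy⟩ := L.isCompact.exists_infDist_eq_dist L.nonempty x
  have h1 : infDist x (L : Set (E n)) ≤ dist K L := by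
    rw [← ConvexBody.hausdorffDist_coe]
    exact infDist_le_hausdorffDist_of_mem hx ConvexBody.hausdorffEDist_ne_top
  have h2 : inner ℝ y u ≤ supp L u := (hSUA n).1 L y u hy
  have h3 : inner ℝ (x - y) u ≤ ‖x - y‖ * ‖u‖ := real_inner_le_norm _ _
  have h4 : ‖x - y‖ ≤ dist K L := by rw [← dist_eq_norm, ← hxy]; exact h1
  rw [inner_sub_left] at h3
  have h5 := mul_le_mul_of_nonneg_right h4 (norm_nonneg u)
  linarith

lemma SUD_two (hSUA : T_SUA) {n : ℕ} (K L : ConvexBody (E n)) (ε : ℝ) (hε : 0 ≤ ε)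
    (h : ∀ u, ‖u‖ = 1 → supp K u - supp L u ≤ ε) (y : E n) (hy : y ∈ K) :
    ∃ x ∈ L, dist y x ≤ ε := by
  obtain ⟨x, hx, hxy⟩ := exists_norm_eq_iInf_of_complete_convex L.nonempty
    L.isCompact.isComplete L.convex y
  refine ⟨x, hx, ?_⟩
  have h1 := (norm_eq_iInf_iff_real_inner_le_zero L.convex hx).1 hxy
  by_cases h0 : y - x = 0
  · rw [dist_eq_norm, h0, norm_zero]
    exact hε
  have hn : ‖y - x‖ ≠ 0 := norm_ne_zero_iff.2 h0
  have hp : 0 < ‖y - x‖ := norm_pos_iff.2 h0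
  set u : E n := ‖y - x‖⁻¹ • (y - x) with hu
  have hu1 : ‖u‖ = 1 := by
    rw [hu, norm_smul, norm_inv, norm_norm, inv_mul_cancel₀ hn]
  obtain ⟨z, hz, hzu⟩ := (hSUA n).2.1 L u
  have h2 : inner ℝ (z - x) u ≤ 0 := by
    rw [hu, inner_smul_right, real_inner_comm]
    exact mul_nonpos_of_nonneg_of_nonpos (inv_nonneg.2 hp.le) (h1 z hz)
  have h3 : inner ℝ (y - x) u = ‖y - x‖ := by
    rw [hu, inner_smul_right, real_inner_self_eq_norm_mul_norm, ← mul_assoc,
      inv_mul_cancel₀ hn, one_mul]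
  have h4 : inner ℝ y u ≤ supp K u := (hSUA n).1 K y u hy
  have h5 := h u hu1
  rw [inner_sub_left] at h2 h3
  rw [dist_eq_norm]
  linarith

theorem p_SUD (hSUA : T_SUA) : T_SUD := by
  intro n K L
  refine ⟨fun u => ?_, fun ε hε h => ?_⟩
  · rw [abs_le]
    have h1 := SUD_one hSUA K L u
    have h2 := SUD_one hSUA L K u
    rw [dist_comm L K] at h2
    constructor <;> linarith
  · rw [← ConvexBody.hausdorffDist_coe]
    refine hausdorffDist_le_of_mem_dist hε
      (fun y hy => SUD_two hSUA K L ε hε (fun u hu => ?_) y hy)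
      (fun y hy => SUD_two hSUA L K ε hε (fun u hu => ?_) y hy)
    · exact (abs_le.1 (h u hu)).2
    · have := (abs_le.1 (h u hu)).1
      linarith

end Pool.Agent.GLB
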