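import Pool.Agent.GLB.TA

/-!
# GLB, item SUE: every sublinear function is a support function
-/

set_option autoImplicit false

open Metric Set Filter Topology MeasureTheory

noncomputable section

namespace Pool.Agent.GLB

/-- the set `{x | ∀ u, ⟨x, u⟩ ≤ d u}` -/
def SUE_K {n : ℕ} (d : E n → ℝ) : Set (E n) := {x | ∀ u, inner ℝ x u ≤ d u}

lemma SUE_zero {n : ℕ} {d : E n → ℝ} (h : Hom1 d) : d 0 = 0 := by
  have := h 0 le_rfl 0
  rwa [zero_smul, zero_mul] at this

lemma SUE_convex {n : ℕ} (d : E n → ℝ) : Convex ℝ (SUE_K d) := by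
  intro x hx y hy a b ha hb hab u
  have h1 := mul_le_mul_of_nonneg_left (hx u) ha
  have h2 := mul_le_mul_of_nonneg_left (hy u) hb
  rw [inner_add_left, inner_smul_left, inner_smul_left]
  simp only [conj_trivial]
  calc a * inner ℝ x u + b * inner ℝ y u ≤ a * d u + b * d u := add_le_add h1 h2
    _ = d u := by rw [← add_mul, hab, one_mul]

lemma SUE_closed {n : ℕ} (d : E n → ℝ) : IsClosed (SUE_K d) := by
  have h : SUE_K d = ⋂ u : E n, {x | inner ℝ x u ≤ d u} := by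
    ext x
    simp only [SUE_K, mem_iInter, Set.mem_ofPred_eq]
  rw [h]
  exact isClosed_iInter fun u => isClosed_le (by fun_prop) continuous_const

/-- upper bound for sublinear functions -/
lemma SUE_upper {n : ℕ} {d : E n → ℝ} (h : Hom1 d) (hd : ∀ u v, d (u + v) ≤ d u + d v) :
    ∃ C : ℝ, 0 ≤ C ∧ ∀ x, d x ≤ C * ‖x‖ := by
  refine ⟨∑ i : Fin n, (|d (eb i)| + |d (-eb i)|), Finset.sum_nonneg fun i _ => by positivity,
    fun x => ?_⟩
  have hx : x = ∑ i : Fin n, x i • eb i := by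
    ext j
    simp only [WithLp.ofLp_sum, WithLp.ofLp_smul, Finset.sum_apply, Pi.smul_apply, smul_eq_mul]
    rw [Finset.sum_eq_single j]
    · simp [eb]
    · intro i _ hi
      simp [eb, Ne.symm hi]
    · intro hj
      exact absurd (Finset.mem_univ j) hj
  calc d x = d (∑ i : Fin n, x i • eb i) := by rw [← hx]
    _ ≤ ∑ i : Fin n, d (x i • eb i) :=
      Finset.le_sum_of_subadditive d (SUE_zero h).le hd _ _
    _ ≤ ∑ i : Fin n, (|d (eb i)| + |d (-eb i)|) * ‖x‖ := by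
      refine Finset.sum_le_sum fun i _ => ?_
      have hn : |x i| ≤ ‖x‖ := by
        have := PiLp.norm_apply_le x i
        rwa [Real.norm_eq_abs] at this
      rcases le_total 0 (x i) with hi | hi
      · rw [h _ hi]
        rw [abs_of_nonneg hi] at hn
        calc x i * d (eb i) ≤ x i * |d (eb i)| := mul_le_mul_of_nonneg_left (le_abs_self _) hi
          _ ≤ ‖x‖ * |d (eb i)| := mul_le_mul_of_nonneg_right hn (abs_nonneg _)
          _ ≤ ‖x‖ * (|d (eb i)| + |d (-eb i)|) :=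
            mul_le_mul_of_nonneg_left (le_add_of_nonneg_right (abs_nonneg _)) (norm_nonneg _)
          _ = _ := mul_comm _ _
      · have e : x i • eb i = (-x i) • (-eb i : E n) := by rw [smul_neg, neg_smul, neg_neg]
        rw [e, h _ (neg_nonneg.2 hi)]
        rw [abs_of_nonpos hi] at hn
        calc -x i * d (-eb i) ≤ -x i * |d (-eb i)| :=
              mul_le_mul_of_nonneg_left (le_abs_self _) (neg_nonneg.2 hi)
          _ ≤ ‖x‖ * |d (-eb i)| := mul_le_mul_of_nonneg_right hn (abs_nonneg _)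
          _ ≤ ‖x‖ * (|d (eb i)| + |d (-eb i)|) :=
            mul_le_mul_of_nonneg_left (le_add_of_nonneg_left (abs_nonneg _)) (norm_nonneg _)
          _ = _ := mul_comm _ _
    _ = (∑ i : Fin n, (|d (eb i)| + |d (-eb i)|)) * ‖x‖ := by rw [Finset.sum_mul]

lemma SUE_compact {n : ℕ} {d : E n → ℝ} (h : Hom1 d) (hd : ∀ u v, d (u + v) ≤ d u + d v) :
    IsCompact (SUE_K d) := by
  obtain ⟨C, hC, hup⟩ := SUE_upper h hd
  refine Metric.isCompact_of_isClosed_isBounded (SUE_closed d) ?_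
  refine (Metric.isBounded_closedBall (x := (0 : E n)) (r := C)).subset fun x hx => ?_
  rw [mem_closedBall, dist_zero_right]
  have h1 : ‖x‖ ^ 2 ≤ C * ‖x‖ := by
    rw [← real_inner_self_eq_norm_sq]
    exact (hx x).trans (hup x)
  by_contra hc
  push Not at hc
  have h2 : 0 < ‖x‖ := lt_of_le_of_lt hC hc
  nlinarith

lemma SUE_lin {n : ℕ} {d : E n → ℝ} (g : E n →ₗ[ℝ] ℝ) (hg : ∀ x, g x ≤ d x) :
    ∃ x ∈ SUE_K d, ∀ u, inner ℝ x u = g u := by
  have e : ∀ u, inner ℝ ((InnerProductSpace.toDual ℝ (E n)).symm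
      (LinearMap.toContinuousLinearMap g)) u = g u := by
    intro u
    rw [InnerProductSpace.toDual_symm_apply]
    rfl
  refine ⟨_, fun u => ?_, e⟩
  rw [e]
  exact hg u

lemma SUE_HB {n : ℕ} {d : E n → ℝ} (h : Hom1 d) (hd : ∀ u v, d (u + v) ≤ d u + d v) (u₀ : E n) :
    ∃ x ∈ SUE_K d, inner ℝ x u₀ = d u₀ := by
  have hpos : ∀ c : ℝ, 0 < c → ∀ x, d (c • x) = c * d x := fun c hc x => h c hc.le x
  by_cases h0 : u₀ = 0
  · obtain ⟨g, -, hg⟩ := exists_extension_of_le_sublinear (⊥ : E n →ₗ.[ℝ] ℝ) d hpos hd (by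
      rintro ⟨x, hx⟩
      have hx0 : x = 0 := (Submodule.mem_bot ℝ).1 hx
      subst hx0
      have e : (⊥ : E n →ₗ.[ℝ] ℝ) ⟨0, hx⟩ = 0 := rfl
      rw [e]
      exact (SUE_zero h).ge)
    obtain ⟨x, hx, hxg⟩ := SUE_lin g hg
    refine ⟨x, hx, ?_⟩
    rw [h0, inner_zero_right, SUE_zero h]
  · obtain ⟨g, hg1, hg⟩ := exists_extension_of_le_sublinear
      (LinearPMap.mkSpanSingleton (K := ℝ) (L := ℝ) (σ := RingHom.id ℝ) u₀ (d u₀) h0) d hpos hd (by
      rintro ⟨x, hx⟩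
      obtain ⟨t, rfl⟩ := Submodule.mem_span_singleton.1 hx
      have e : LinearPMap.mkSpanSingleton (K := ℝ) (L := ℝ) (σ := RingHom.id ℝ) u₀ (d u₀) h0
          ⟨t • u₀, hx⟩ = t * d u₀ := by
        unfold LinearPMap.mkSpanSingleton
        rw [LinearPMap.mkSpanSingleton'_apply]
        rfl
      rw [e]
      show t * d u₀ ≤ d (t • u₀)
      rcases le_total 0 t with ht | ht
      · rw [h t ht]
      · have h1 := hd (t • u₀) ((-t) • u₀)
        rw [← add_smul, add_neg_cancel, zero_smul, SUE_zero h, h _ (neg_nonneg.2 ht)] at h1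
        linarith)
    obtain ⟨x, hx, hxg⟩ := SUE_lin g hg
    refine ⟨x, hx, ?_⟩
    rw [hxg]
    have hmem : u₀ ∈ (LinearPMap.mkSpanSingleton (K := ℝ) (L := ℝ) (σ := RingHom.id ℝ) u₀
        (d u₀) h0).domain := Submodule.mem_span_singleton_self u₀
    have h1 := hg1 ⟨u₀, hmem⟩
    rw [show g u₀ = _ from h1]
    exact LinearPMap.mkSpanSingleton_apply ℝ ℝ h0 (d u₀)

theorem p_SUE : T_SUE := by
  intro n d h hd
  refine ⟨⟨SUE_K d, SUE_convex d, SUE_compact h hd, ?_⟩, fun u => ?_⟩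
  · obtain ⟨x, hx, -⟩ := SUE_HB h hd 0
    exact ⟨x, hx⟩
  · obtain ⟨x, hx, hxu⟩ := SUE_HB h hd u
    refine IsGreatest.csSup_eq ⟨⟨x, hx, hxu⟩, ?_⟩
    rintro _ ⟨y, hy, rfl⟩
    exact hy u

end Pool.Agent.GLB
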