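import Pool.Agent.GLB.TA

/-!
# GLB: SUH, support functions are sublinear, convex and Lipschitz
-/

set_option autoImplicit false

open Metric Set Filter Topology MeasureTheory

noncomputable section

namespace Pool.Agent.GLB

theorem p_SUH (hSUA : T_SUA) : T_SUH := by
  intro n K
  obtain ⟨h1, h2, -, -, -, -⟩ := hSUA n
  have hom : Hom1 (supp K) := by
    intro t ht x
    apply le_antisymm
    · obtain ⟨z, hz, hzu⟩ := h2 K (t • x)
      rw [← hzu, real_inner_smul_right]
      exact mul_le_mul_of_nonneg_left (h1 K z x hz) ht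
    · obtain ⟨z, hz, hzu⟩ := h2 K x
      rw [← hzu, ← real_inner_smul_right]
      exact h1 K z _ hz
  have sub : ∀ u v, supp K (u + v) ≤ supp K u + supp K v := by
    intro u v
    obtain ⟨z, hz, hzu⟩ := h2 K (u + v)
    rw [← hzu, inner_add_right]
    exact add_le_add (h1 K z u hz) (h1 K z v hz)
  have key : ∀ R : ℝ, (K : Set (E n)) ⊆ closedBall 0 R →
      ∀ u v, supp K u - supp K v ≤ R * ‖u - v‖ := by
    intro R hR u v
    obtain ⟨z, hz, hzu⟩ := h2 K u
    have hzR : ‖z‖ ≤ R := by
      have := hR hz
      rwa [mem_closedBall, dist_zero_right] at this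
    have e1 : (inner ℝ z u : ℝ) = inner ℝ z v + inner ℝ z (u - v) := by
      rw [← inner_add_right]
      congr 1
      abel
    have e2 : (inner ℝ z (u - v) : ℝ) ≤ ‖z‖ * ‖u - v‖ := real_inner_le_norm _ _
    have e3 := h1 K z v hz
    have e4 : ‖z‖ * ‖u - v‖ ≤ R * ‖u - v‖ := mul_le_mul_of_nonneg_right hzR (norm_nonneg _)
    linarith
  have lip : ∀ R : ℝ, (K : Set (E n)) ⊆ closedBall 0 R →
      ∀ u v, |supp K u - supp K v| ≤ R * ‖u - v‖ := by
    intro R hR u v
    rw [abs_le]
    constructor
    · have := key R hR v u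
      rw [norm_sub_rev] at this
      linarith
    · exact key R hR u v
  have h0 : supp K (0 : E n) = 0 := by
    have := hom 0 le_rfl 0
    rw [zero_smul, zero_mul] at this
    exact this
  obtain ⟨R, hR⟩ := K.isCompact.isBounded.subset_closedBall (0 : E n)
  refine ⟨hom, sub, ⟨convex_univ, ?_⟩, ?_, ?_⟩
  · intro x _ y _ a b ha hb _
    calc supp K (a • x + b • y) ≤ supp K (a • x) + supp K (b • y) := sub _ _
      _ = a • supp K x + b • supp K y := by rw [hom a ha, hom b hb, smul_eq_mul, smul_eq_mul]
  · have hl : LipschitzWith (Real.toNNReal R) (supp K) := by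
      apply LipschitzWith.of_dist_le_mul
      intro u v
      rw [Real.dist_eq, dist_eq_norm]
      refine (lip R hR u v).trans ?_
      exact mul_le_mul_of_nonneg_right (Real.le_coe_toNNReal R) (norm_nonneg _)
    exact hl.continuous
  · intro R' hR'
    refine ⟨?_, lip R' hR'⟩
    intro u
    have := lip R' hR' u 0
    rwa [h0, sub_zero, sub_zero] at this

end Pool.Agent.GLB
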