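import Pool.Agent.GLB.TA

/-!
# GLB: SUL, comparison of convex bodies by their support functions
-/

set_option autoImplicit false

open Metric Set Filter Topology MeasureTheory

noncomputable section

namespace Pool.Agent.GLB

theorem p_SUL (hSUA : T_SUA) : T_SUL := by
  intro n K L
  obtain ⟨h1, h2, -, -, -, -⟩ := hSUA n
  have key : ∀ K L : ConvexBody (E n), (∀ u, supp K u ≤ supp L u) → (K : Set (E n)) ⊆ L := by
    intro K L h y hy
    by_contra hyL
    obtain ⟨x, hx, hxd⟩ := exists_norm_eq_iInf_of_complete_convex L.nonempty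
      L.isCompact.isComplete L.convex y
    have h3 := (norm_eq_iInf_iff_real_inner_le_zero L.convex hx).1 hxd
    have hne : y - x ≠ 0 := by
      intro h0
      apply hyL
      rw [sub_eq_zero.1 h0]
      exact hx
    obtain ⟨z, hz, hzu⟩ := h2 L (y - x)
    have e1 := h3 z hz
    have e2 := h (y - x)
    have e3 := h1 K y (y - x) hy
    have e4 : (0 : ℝ) < inner ℝ (y - x) (y - x) := by
      rw [real_inner_self_eq_norm_sq]
      exact pow_pos (norm_pos_iff.2 hne) 2
    have e5 : (inner ℝ (y - x) (z - x) : ℝ) = inner ℝ z (y - x) - inner ℝ x (y - x) := by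
      rw [real_inner_comm, inner_sub_left]
    have e6 : (inner ℝ (y - x) (y - x) : ℝ) = inner ℝ y (y - x) - inner ℝ x (y - x) := by
      rw [← inner_sub_left]
    linarith
  refine ⟨key K L, ?_, ?_⟩
  · intro h
    exact SetLike.coe_injective (Subset.antisymm (key K L fun u => (h u).le)
      (key L K fun u => (h u).ge))
  · intro R hR h x hx
    rw [mem_closedBall, dist_zero_right]
    have e1 := (h1 K x x hx).trans (h x)
    rw [real_inner_self_eq_norm_sq] at e1
    by_contra hlt
    push Not at hlt
    have hpos : 0 < ‖x‖ := lt_of_le_of_lt hR hlt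
    nlinarith

end Pool.Agent.GLB
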