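import Pool.Agent.GLB.TF

/-!
# GLB, UCO: uniform continuity on bounded sets of convex bodies
-/

set_option autoImplicit false

open Metric Set Filter Topology MeasureTheory

noncomputable section

namespace Pool.Agent.GLB

/-- UCO -/
theorem p_UCO (hBLA : T_BLA) : T_UCO := by
  intro n μ hμ R ε hε
  have h := (hBLA n R).uniformContinuousOn_of_continuous hμ.continuousOn
  rw [Metric.uniformContinuousOn_iff] at h
  obtain ⟨δ, hδ, h⟩ := h ε hε
  refine ⟨δ / 2, half_pos hδ, fun K L hK hL hKL => ?_⟩
  have h1 := h K hK L hL (hKL.trans_lt (half_lt_self hδ))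
  rw [Real.dist_eq] at h1
  exact h1.le

end Pool.Agent.GLB
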