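import Pool.Agent.GLB.TF

set_option autoImplicit false

open Metric Set Filter Topology MeasureTheory

noncomputable section

namespace Pool.Agent.GLB

namespace WID_

/-- the sum of the widths in the coordinate directions -/
def W {n : ℕ} (K : ConvexBody (E n)) : ℝ := ∑ i : Fin n, (supp K (eb i) + supp K (-eb i))

lemma norm_eb {n : ℕ} (i : Fin n) : ‖(eb i : E n)‖ = 1 := by
  unfold eb
  simp

lemma inner_eb {n : ℕ} (x : E n) (i : Fin n) : inner ℝ x (eb i) = x i := by
  unfold eb
  rw [EuclideanSpace.inner_single_right]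
  simp

lemma norm_le_sum {n : ℕ} (y : E n) : ‖y‖ ≤ ∑ i, |y i| := by
  have h1 : y = ∑ i, y i • (eb i : E n) := by
    ext j
    unfold eb
    simp [Finset.sum_apply, Pi.single_apply]
  calc ‖y‖ = ‖∑ i, y i • (eb i : E n)‖ := by rw [← h1]
    _ ≤ ∑ i, ‖y i • (eb i : E n)‖ := norm_sum_le _ _
    _ = ∑ i, |y i| := by
      refine Finset.sum_congr rfl fun i _ => ?_
      rw [norm_smul, norm_eb, mul_one, Real.norm_eq_abs]

end WID_

open WID_ in
theorem p_WID (hSUA : T_SUA) (hSUH : T_SUH) (hSUD : T_SUD) : T_WID := by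
  intro n
  obtain ⟨a1, a2, a3, a4, a5, a6⟩ := hSUA n
  have hnn : ∀ (K : ConvexBody (E n)) (i : Fin n), 0 ≤ supp K (eb i) + supp K (-eb i) := by
    intro K i
    obtain ⟨x, hx⟩ := K.nonempty
    have h1 := a1 K x (eb i) hx
    have h2 := a1 K x (-eb i) hx
    rw [inner_neg_right] at h2
    linarith
  have hWnn : ∀ K : ConvexBody (E n), 0 ≤ W K := fun K =>
    Finset.sum_nonneg fun i _ => hnn K i
  refine ⟨W, ⟨?_, ?_, ?_, ?_⟩, hWnn, ?_, ?_⟩
  · unfold W
    have hc : ∀ u : E n, Continuous fun K : ConvexBody (E n) => supp K u := by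
      intro u
      have : LipschitzWith (Real.toNNReal ‖u‖) fun K : ConvexBody (E n) => supp K u := by
        apply LipschitzWith.of_dist_le_mul
        intro K L
        rw [Real.dist_eq, Real.coe_toNNReal _ (norm_nonneg u), mul_comm]
        exact (hSUD n K L).1 u
      exact this.continuous
    exact continuous_finsetSum _ fun i _ => (hc _).add (hc _)
  · intro K x
    unfold W
    refine Finset.sum_congr rfl fun i _ => ?_
    rw [a3, a3, a5, a5, inner_neg_right]
    ring
  · intro K t ht
    unfold W
    rw [Finset.mul_sum]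
    refine Finset.sum_congr rfl fun i _ => ?_
    rw [a4 K t _ ht, a4 K t _ ht]
    ring
  · intro K L
    unfold W
    rw [← Finset.sum_add_distrib]
    refine Finset.sum_congr rfl fun i _ => ?_
    rw [a3, a3]
    ring
  · intro K hK
    unfold W
    have h1 : ∀ i : Fin n, supp K (eb i) + supp K (-eb i) ≤ 2 := by
      intro i
      obtain ⟨-, -, -, -, h⟩ := hSUH n K
      have h2 := (h 1 hK).1 (eb i)
      have h3 := (h 1 hK).1 (-eb i)
      rw [norm_neg, norm_eb] at h3
      rw [norm_eb] at h2
      have h4 := (abs_le.1 h2).2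
      have h5 := (abs_le.1 h3).2
      linarith
    calc ∑ i : Fin n, (supp K (eb i) + supp K (-eb i)) ≤ ∑ _i : Fin n, (2 : ℝ) :=
          Finset.sum_le_sum fun i _ => h1 i
      _ = 2 * n := by
        rw [Finset.sum_const, Finset.card_univ, Fintype.card_fin, nsmul_eq_mul]
        ring
  · intro μ M hμ hM K
    set c : E n := WithLp.toLp 2 fun i => (supp K (eb i) - supp K (-eb i)) / 2 with hc
    set K' : ConvexBody (E n) := K + pt (-c) with hK'
    have hμK : μ K' = μ K := hμ.trans K (-c)
    have hsub : (K' : Set (E n)) ⊆ closedBall 0 (W K) := by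
      rintro _ ⟨x, hx, y, hy, rfl⟩
      have hy' : y = -c := hy
      rw [mem_closedBall, dist_zero_right, hy']
      show ‖x + -c‖ ≤ W K
      refine (norm_le_sum _).trans ?_
      unfold W
      refine Finset.sum_le_sum fun i _ => ?_
      have h1 := a1 K x (eb i) hx
      have h2 := a1 K x (-eb i) hx
      rw [inner_neg_right] at h2
      rw [inner_eb] at h1 h2
      have h3 := hnn K i
      have h4 : (x + -c) i = x i - (supp K (eb i) - supp K (-eb i)) / 2 := by
        rw [hc]
        simp [sub_eq_add_neg]
      rw [h4, abs_le]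
      constructor <;> linarith
    rw [← hμK]
    rcases (hWnn K).eq_or_lt with h0 | h0
    · rw [← h0] at hsub ⊢
      have h1 : (0 : ℝ) • K' = K' := by
        apply SetLike.coe_injective
        have h2 : (K' : Set (E n)) = {0} := by
          refine Set.eq_singleton_iff_nonempty_unique_mem.2 ⟨K'.nonempty, fun x hx => ?_⟩
          have := hsub hx
          rw [closedBall_zero] at this
          exact this
        rw [ConvexBody.coe_smul, h2]
        simp
      have h2 := hμ.homog K' 0 le_rfl
      rw [h1, zero_mul] at h2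
      rw [h2, abs_zero, mul_zero]
    · have h1 : (W K) • ((W K)⁻¹ • K') = K' := by
        rw [smul_smul, mul_inv_cancel₀ h0.ne', one_smul]
      have h2 : (((W K)⁻¹ • K' : ConvexBody (E n)) : Set (E n)) ⊆ closedBall 0 1 := by
        rintro _ ⟨x, hx, rfl⟩
        have h3 := hsub hx
        rw [mem_closedBall, dist_zero_right] at h3 ⊢
        simp only [norm_smul]
        rw [norm_inv, Real.norm_of_nonneg h0.le, inv_mul_le_iff₀ h0, mul_one]
        exact h3
      rw [← h1, hμ.homog _ _ h0.le, abs_mul, abs_of_pos h0, mul_comm M]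
      exact mul_le_mul_of_nonneg_left (hM _ h2) h0.le

end Pool.Agent.GLB
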