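import Pool.Agent.GLB.TF
import Pool.Agent.GLB.P_ACT
import Pool.Agent.GLB.P_APX
import Pool.Agent.GLB.P_BLA
import Pool.Agent.GLB.P_CHV
import Pool.Agent.GLB.P_CLB
import Pool.Agent.GLB.P_CON
import Pool.Agent.GLB.P_CPX
import Pool.Agent.GLB.P_CTA
import Pool.Agent.GLB.P_CUT
import Pool.Agent.GLB.P_CUTO
import Pool.Agent.GLB.P_DBD
import Pool.Agent.GLB.P_DEN
import Pool.Agent.GLB.P_DHL
import Pool.Agent.GLB.P_DUI
import Pool.Agent.GLB.P_EUL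
import Pool.Agent.GLB.P_EXT
import Pool.Agent.GLB.P_FBD
import Pool.Agent.GLB.P_FCG
import Pool.Agent.GLB.P_FLN
import Pool.Agent.GLB.P_FLO
import Pool.Agent.GLB.P_FMN
import Pool.Agent.GLB.P_GBD
import Pool.Agent.GLB.P_GEX
import Pool.Agent.GLB.P_GGF
import Pool.Agent.GLB.P_GL1
import Pool.Agent.GLB.P_GLE
import Pool.Agent.GLB.P_GLR
import Pool.Agent.GLB.P_GLS
import Pool.Agent.GLB.P_ITR
import Pool.Agent.GLB.P_LIN
import Pool.Agent.GLB.P_MCA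
import Pool.Agent.GLB.P_MCC
import Pool.Agent.GLB.P_MCD
import Pool.Agent.GLB.P_MLP
import Pool.Agent.GLB.P_MLS
import Pool.Agent.GLB.P_MOL
import Pool.Agent.GLB.P_NRM
import Pool.Agent.GLB.P_PCT
import Pool.Agent.GLB.P_PGL
import Pool.Agent.GLB.P_PLO
import Pool.Agent.GLB.P_POS
import Pool.Agent.GLB.P_PRD
import Pool.Agent.GLB.P_PSI
import Pool.Agent.GLB.P_PSX
import Pool.Agent.GLB.P_PTH
import Pool.Agent.GLB.P_RHO
import Pool.Agent.GLB.P_RIE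
import Pool.Agent.GLB.P_SCB
import Pool.Agent.GLB.P_SII
import Pool.Agent.GLB.P_SIN
import Pool.Agent.GLB.P_SMA
import Pool.Agent.GLB.P_SPP
import Pool.Agent.GLB.P_SUA
import Pool.Agent.GLB.P_SUB
import Pool.Agent.GLB.P_SUD
import Pool.Agent.GLB.P_SUE
import Pool.Agent.GLB.P_SUH
import Pool.Agent.GLB.P_SUL
import Pool.Agent.GLB.P_UCO
import Pool.Agent.GLB.P_WID

/-!
# GLB: assembly of all targets
-/

set_option autoImplicit false

namespace Pool.Agent.GLB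

theorem f_ACT : T_ACT := p_ACT
theorem f_BLA : T_BLA := p_BLA
theorem f_CHV : T_CHV := p_CHV
theorem f_CPX : T_CPX := p_CPX
theorem f_CUT : T_CUT := p_CUT
theorem f_CUTO : T_CUTO := p_CUTO
theorem f_DEN : T_DEN := p_DEN f_CUTO
theorem f_DUI : T_DUI := p_DUI
theorem f_EUL : T_EUL := p_EUL
theorem f_EXT : T_EXT := p_EXT
theorem f_FLO : T_FLO := p_FLO
theorem f_GBD : T_GBD := p_GBD
theorem f_GLR : T_GLR := p_GLR
theorem f_GLS : T_GLS := p_GLS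
theorem f_MCD : T_MCD := p_MCD
theorem f_MOL : T_MOL := p_MOL
theorem f_NRM : T_NRM := p_NRM
theorem f_PGL : T_PGL := p_PGL f_ACT
theorem f_POS : T_POS := p_POS f_DUI
theorem f_PRD : T_PRD := p_PRD
theorem f_RHO : T_RHO := p_RHO
theorem f_RIE : T_RIE := p_RIE
theorem f_SCB : T_SCB := p_SCB
theorem f_SII : T_SII := p_SII
theorem f_SIN : T_SIN := p_SIN
theorem f_SMA : T_SMA := p_SMA f_CUTO
theorem f_SPP : T_SPP := p_SPP
theorem f_SUA : T_SUA := p_SUA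
theorem f_SUD : T_SUD := p_SUD f_SUA
theorem f_SUE : T_SUE := p_SUE
theorem f_SUH : T_SUH := p_SUH f_SUA
theorem f_SUL : T_SUL := p_SUL f_SUA
theorem f_UCO : T_UCO := p_UCO f_BLA
theorem f_WID : T_WID := p_WID f_SUA f_SUH f_SUD
theorem f_CON : T_CON := p_CON f_PRD
theorem f_CTA : T_CTA := p_CTA f_SUA f_SUD f_SUH
theorem f_DHL : T_DHL := p_DHL f_PRD
theorem f_FBD : T_FBD := p_FBD f_PRD
theorem f_FCG : T_FCG := p_FCG f_PRD
theorem f_FLN : T_FLN := p_FLN f_DHL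
theorem f_FMN : T_FMN := p_FMN f_POS f_FLN
theorem f_GGF : T_GGF := p_GGF f_DUI f_EUL f_PRD
theorem f_LIN : T_LIN := p_LIN f_POS f_DHL
theorem f_MCA : T_MCA := p_MCA f_CUT f_SPP f_SII f_SCB f_CTA
theorem f_MCC : T_MCC := p_MCC f_MCA f_MCD f_CTA
theorem f_PCT : T_PCT := p_PCT f_DEN f_FBD f_FLN f_CON f_GBD f_SUD f_SUH
theorem f_PLO : T_PLO := p_PLO f_DEN f_FLO f_SUH
theorem f_PSI : T_PSI := p_PSI f_EXT f_FMN f_FLN f_CON f_SUH
theorem f_PTH : T_PTH := p_PTH f_DEN f_LIN f_FLN f_CON f_SUA f_SUH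
theorem f_SUB : T_SUB := p_SUB f_GGF f_SIN f_RHO
theorem f_CLB : T_CLB := p_CLB f_GGF
theorem f_DBD : T_DBD := p_DBD f_POS f_DHL
theorem f_GLE : T_GLE := p_GLE f_CHV f_GLS f_DBD f_DHL
theorem f_MLS : T_MLS := p_MLS f_SUH f_POS f_SUB f_RHO f_SUE
theorem f_GL1 : T_GL1 := p_GL1 f_GLE f_SMA f_GLR f_DEN f_ACT f_SUA f_SUH f_GBD f_CON
theorem f_MLP : T_MLP := p_MLP f_MLS f_SUA f_SUH f_SUL f_SUD f_RHO
theorem f_GEX : T_GEX := p_GEX f_RIE f_MLS f_MLP f_FLN f_CON f_SUB f_RHO f_SUE f_SUL f_SUA f_SUH f_CLB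
theorem f_PSX : T_PSX := p_PSX f_GEX f_PSI f_PCT f_PLO f_PTH f_GL1 f_PGL
theorem f_APX : T_APX := p_APX f_PSX f_MOL f_MLP f_WID f_UCO
theorem f_ITR : T_ITR := p_ITR f_APX f_NRM f_ACT

/-- the final theorem -/
theorem main : T_FIN := f_CPX f_MCC f_ITR

end Pool.Agent.GLB
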