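import Pool.Agent.GLB.TC

set_option autoImplicit false

open Metric Set Filter Topology MeasureTheory

noncomputable section

namespace Pool.Agent.GLB

namespace EUL_

/-- scaling -/
lemma scal {n : ℕ} (η d : E n → ℝ) (hd : Hom1 d) (u : E n) (s : ℝ) (hs : 0 < s) :
    s ^ (n + 1) * ∫ x, d x * η (s • x - u) = ∫ x, d x * η (x - u) := by
  have h := Measure.integral_comp_smul_of_nonneg (volume : Measure (E n))
    (fun x => d x * η (x - u)) s (hR := hs.le)
  rw [finrank_euclideanSpace_fin] at h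
  have h1 : ∀ x : E n, d (s • x) * η (s • x - u) = s * (d x * η (s • x - u)) := by
    intro x
    rw [hd s hs.le x]
    ring
  simp only [h1, smul_eq_mul] at h
  rw [integral_const_mul] at h
  have h2 : s ^ n ≠ 0 := (pow_pos hs n).ne'
  calc s ^ (n + 1) * ∫ x, d x * η (s • x - u)
      = s ^ n * (s * ∫ x, d x * η (s • x - u)) := by ring
    _ = s ^ n * ((s ^ n)⁻¹ * ∫ x, d x * η (x - u)) := by rw [h]
    _ = ∫ x, d x * η (x - u) := by rw [← mul_assoc, mul_inv_cancel₀ h2, one_mul]

lemma fd_zero {n : ℕ} {δ : ℝ} (m : Moll n δ) (y : E n) (hy : δ < ‖y‖) :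
    fderiv ℝ m.η y = 0 := by
  have h1 : m.η =ᶠ[𝓝 y] fun _ => (0 : ℝ) := by
    have h2 : ∀ᶠ z in 𝓝 y, δ < ‖z‖ := continuous_norm.continuousAt.eventually (lt_mem_nhds hy)
    filter_upwards [h2] with z hz
    exact m.η_zero z hz.le
  rw [h1.fderiv_eq]
  exact fderiv_const_apply (0 : ℝ)

lemma far {n : ℕ} {δ : ℝ} (u x : E n) (s : ℝ) (hs : 1 / 2 ≤ s) (hx : 2 * (‖u‖ + δ) < ‖x‖) :
    δ < ‖s • x - u‖ := by
  have h1 : ‖s • x‖ - ‖u‖ ≤ ‖s • x - u‖ := norm_sub_norm_le _ _
  have h2 : ‖s • x‖ = s * ‖x‖ := by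
    rw [norm_smul, Real.norm_eq_abs, abs_of_nonneg (by linarith)]
  have h3 : (1 / 2) * ‖x‖ ≤ s * ‖x‖ := mul_le_mul_of_nonneg_right hs (norm_nonneg _)
  rw [h2] at h1
  linarith

end EUL_

theorem p_EUL : T_EUL := by
  intro n δ m d hd hd1 u
  have hη1 : ContDiff ℝ 1 m.η := m.η_C2.of_le (by norm_num)
  have hηd : Differentiable ℝ m.η := hη1.differentiable (by norm_num)
  have hfc : Continuous (fderiv ℝ m.η) := hη1.continuous_fderiv (by norm_num)
  have hδ := m.hδ
  set R : ℝ := 2 * (‖u‖ + δ) with hR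
  -- the joint continuity of the derivative
  have hjc : Continuous fun p : ℝ × E n => d p.2 * fderiv ℝ m.η (p.1 • p.2 - u) p.2 := by
    have h1 : Continuous fun p : ℝ × E n => fderiv ℝ m.η (p.1 • p.2 - u) :=
      hfc.comp (by fun_prop)
    exact (hd.comp continuous_snd).mul (h1.clm_apply continuous_snd)
  obtain ⟨C, hC⟩ := (isCompact_Icc.prod (isCompact_closedBall (0 : E n) R)).exists_bound_of_continuousOn
    (s := Icc (1 / 2 : ℝ) 2 ×ˢ closedBall (0 : E n) R) hjc.continuousOn
  have hcont0 : ∀ s : ℝ, Continuous fun x : E n => d x * m.η (s • x - u) := by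
    intro s
    exact hd.mul (m.η_C2.continuous.comp (by fun_prop))
  have hcont1 : ∀ s : ℝ, Continuous fun x : E n => d x * fderiv ℝ m.η (s • x - u) x := by
    intro s
    exact hjc.comp (by fun_prop : Continuous fun x : E n => (s, x))
  have hcs0 : ∀ s : ℝ, 1 / 2 ≤ s → HasCompactSupport fun x : E n => d x * m.η (s • x - u) := by
    intro s hs
    refine HasCompactSupport.intro (isCompact_closedBall (0 : E n) R) fun x hx => ?_
    rw [mem_closedBall_zero_iff, not_le] at hx
    rw [m.η_zero _ (EUL_.far u x s hs hx).le, mul_zero]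
  have hint0 : Integrable fun x : E n => d x * m.η ((1 : ℝ) • x - u) :=
    (hcont0 1).integrable_of_hasCompactSupport (hcs0 1 (by norm_num))
  have key := hasDerivAt_integral_of_dominated_loc_of_deriv_le (μ := (volume : Measure (E n)))
    (F := fun (s : ℝ) (x : E n) => d x * m.η (s • x - u))
    (F' := fun (s : ℝ) (x : E n) => d x * fderiv ℝ m.η (s • x - u) x)
    (x₀ := (1 : ℝ)) (s := Ioo (1 / 2 : ℝ) 2) (bound := (closedBall (0 : E n) R).indicator fun _ => C)
    (Ioo_mem_nhds (by norm_num) (by norm_num))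
    (Eventually.of_forall fun s => (hcont0 s).aestronglyMeasurable)
    hint0
    (hcont1 1).aestronglyMeasurable
    (by
      refine Eventually.of_forall fun x s hs => ?_
      by_cases hx : x ∈ closedBall (0 : E n) R
      · rw [indicator_of_mem hx]
        exact hC (s, x) ⟨⟨hs.1.le, hs.2.le⟩, hx⟩
      · rw [indicator_of_notMem hx]
        rw [mem_closedBall_zero_iff, not_le] at hx
        have h1 := EUL_.fd_zero m _ (EUL_.far u x s hs.1.le hx)
        show ‖d x * fderiv ℝ m.η (s • x - u) x‖ ≤ 0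
        rw [h1]
        simp)
    (by
      rw [integrable_indicator_iff measurableSet_closedBall]
      exact integrableOn_const (measure_closedBall_lt_top).ne)
    (by
      refine Eventually.of_forall fun x s _ => ?_
      have h1 : HasDerivAt (fun s : ℝ => s • x - u) x s := by
        have := ((hasDerivAt_id s).smul_const x).sub_const u
        simpa using this
      have h2 : HasDerivAt (fun s : ℝ => m.η (s • x - u)) (fderiv ℝ m.η (s • x - u) x) s :=
        (hηd (s • x - u)).hasFDerivAt.comp_hasDerivAt s h1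
      exact h2.const_mul (d x))
  obtain ⟨hint1, hder⟩ := key
  -- the derivative of the constant
  have h3 : HasDerivAt (fun s : ℝ => s ^ (n + 1) * ∫ x, d x * m.η (s • x - u))
      ((((n + 1 : ℕ) : ℝ) * (1 : ℝ) ^ n) * (∫ x, d x * m.η ((1 : ℝ) • x - u)) +
        (1 : ℝ) ^ (n + 1) * ∫ x, d x * fderiv ℝ m.η ((1 : ℝ) • x - u) x) 1 := by
    have h4 := (hasDerivAt_pow (n + 1) (1 : ℝ)).mul hder
    rw [Nat.add_sub_cancel] at h4
    exact h4
  have h5 : HasDerivAt (fun s : ℝ => s ^ (n + 1) * ∫ x, d x * m.η (s • x - u)) 0 1 := by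
    have h6 : (fun s : ℝ => s ^ (n + 1) * ∫ x, d x * m.η (s • x - u)) =ᶠ[𝓝 1]
        fun _ => ∫ x, d x * m.η (x - u) := by
      filter_upwards [lt_mem_nhds (zero_lt_one : (0 : ℝ) < 1)] with s hs
      exact EUL_.scal m.η d hd1 u s hs
    exact (hasDerivAt_const (1 : ℝ) (∫ x, d x * m.η (x - u))).congr_of_eventuallyEq h6
  have h7 := h3.unique h5
  simp only [one_pow, mul_one, one_mul, one_smul] at h7 hint0 hint1
  have h8 : ∀ x : E n, d x * (fderiv ℝ m.η (x - u) x + (n + 1) * m.η (x - u)) =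
      d x * fderiv ℝ m.η (x - u) x + (n + 1) * (d x * m.η (x - u)) := by
    intro x
    ring
  simp only [h8]
  rw [integral_add hint1 (hint0.const_mul _), integral_const_mul]
  push_cast at h7
  linarith

end Pool.Agent.GLB
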