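import Pool.Agent.GLB.TA

/-!
# GLB: target MCA (a valuation of degree one is additive on canonical simplices)
-/

set_option autoImplicit false

open Metric Set Filter Topology MeasureTheory
open scoped Pointwise

noncomputable section

namespace Pool.Agent.GLB

/-- the defect of additivity -/
def MCA_G {n : ℕ} (μ : ConvexBody (E n) → ℝ) (L K : ConvexBody (E n)) : ℝ :=
  μ (K + L) - μ K - μ L

section

variable {n : ℕ} {μ : ConvexBody (E n) → ℝ}

lemma MCA_sz (t : ℝ) : t • (0 : ConvexBody (E n)) = 0 :=
  SetLike.coe_injective (by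
    show t • ({0} : Set (E n)) = {0}
    rw [Set.smul_set_singleton, smul_zero])

lemma MCA_sa (t : ℝ) (A B : ConvexBody (E n)) : t • (A + B) = t • A + t • B :=
  SetLike.coe_injective (smul_add t (A : Set (E n)) (B : Set (E n)))

lemma MCA_zero (hμ : RVal n μ) : μ 0 = 0 := by
  have h := hμ.homog 0 0 le_rfl
  rwa [zero_mul, MCA_sz] at h

lemma MCA_tr (hμ : RVal n μ) (x : E n) (K : ConvexBody (E n)) : μ (pt x + K) = μ K := by
  rw [add_comm]
  exact hμ.trans K x

/-- no defect on sums of bodies on which `μ` is additive -/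
lemma MCA_split (hμ : RVal n μ) (x : E n) (A B L : ConvexBody (E n))
    (hA : ∀ L, μ (A + L) = μ A + μ L) (hB : ∀ L, μ (B + L) = μ B + μ L) :
    MCA_G μ L (pt x + A + B) = 0 := by
  unfold MCA_G
  rw [add_assoc (pt x), add_assoc (pt x), MCA_tr hμ, MCA_tr hμ, add_assoc A B L, hA, hB, hA]
  ring

lemma MCA_trG (hμ : RVal n μ) (x : E n) (A L : ConvexBody (E n)) :
    MCA_G μ L (pt x + A) = MCA_G μ L A := by
  unfold MCA_G
  rw [add_assoc, MCA_tr hμ, MCA_tr hμ]

/-- the defect is additive along a simplex if there is no defect on smaller simplices -/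
lemma MCA_key (hCUT : T_CUT) (hSPP : T_SPP) (hSII : T_SII) (hSCB : T_SCB) (hμ : RVal n μ)
    (w : ℕ → E n) (i j : ℕ) (hij : i < j)
    (ih : ∀ i' j', i' ≤ j' → j' - i' < j - i → ∀ c : ℝ, 0 ≤ c → ∀ L : ConvexBody (E n),
      μ (c • TT w i' j' + L) = μ (c • TT w i' j') + μ L) (L : ConvexBody (E n)) (a b : ℝ)
    (ha : 0 ≤ a) (hb : 0 ≤ b) : MCA_G μ L ((a + b) • TT w i j) =
      MCA_G μ L (a • TT w i j) + MCA_G μ L (b • TT w i j) := by
  have step : ∀ k, MCA_G μ L (bd w i j (fun _ => 0) (stp (k + 1) (a + b) a)) +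
      MCA_G μ L (bd w i j (stp (k + 1) a 0) (stp k (a + b) a)) =
      MCA_G μ L (bd w i j (fun _ => 0) (stp k (a + b) a)) +
        MCA_G μ L (bd w i j (stp (k + 1) a 0) (stp (k + 1) (a + b) a)) := by
    intro k
    have h1 := hCUT n μ hμ w i j k a b ha hb L
    have h2 := hCUT n μ hμ w i j k a b ha hb 0
    simp only [add_zero] at h2
    unfold MCA_G
    linarith
  have GI : ∀ k, i ≤ k → k < j →
      MCA_G μ L (bd w i j (stp (k + 1) a 0) (stp k (a + b) a)) = 0 := by
    intro k hk1 hk2
    rw [hSII n w i j k a b hk1 hk2 ha hb]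
    exact MCA_split hμ _ _ _ _ (ih i k hk1 (by omega) b hb)
      (ih (k + 1) j hk2 (by omega) a ha)
  have GP : ∀ k, i ≤ k → k + 1 < j →
      MCA_G μ L (bd w i j (stp (k + 1) a 0) (stp (k + 1) (a + b) a)) = 0 := by
    intro k hk1 hk2
    rw [hSPP n w i j (k + 1) a b (by omega) hk2.le ha hb]
    exact MCA_split hμ _ _ _ _ (ih i (k + 1) (by omega) (by omega) b hb)
      (ih (k + 1) j hk2.le (by omega) a ha)
  have GPj : MCA_G μ L (bd w i j (stp j a 0) (stp j (a + b) a)) =
      MCA_G μ L (b • TT w i j) := by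
    rw [hSPP n w i j j a b hij.le le_rfl ha hb, (hSCB n w j j a b le_rfl ha hb).2.2, MCA_sz,
      add_zero]
    exact MCA_trG hμ _ _ _
  have GU : ∀ m, i + m < j → MCA_G μ L (bd w i j (fun _ => 0) (stp (i + m) (a + b) a)) =
      MCA_G μ L (a • TT w i j) := by
    intro m
    induction m with
    | zero =>
      intro _
      rw [add_zero, (hSCB n w i j a b hij.le ha hb).1]
    | succ m ihm =>
      intro hm
      have h1 := step (i + m)
      rw [GI (i + m) (by omega) (by omega), GP (i + m) (by omega) (by omega),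
        ihm (by omega)] at h1
      rw [← add_assoc]
      linarith
  obtain ⟨m, rfl⟩ : ∃ m, j = i + m + 1 := ⟨j - i - 1, by omega⟩
  have h1 := step (i + m)
  rw [GI (i + m) (by omega) (by omega), GPj, GU m (by omega),
    (hSCB n w i (i + m + 1) a b hij.le ha hb).2.1] at h1
  linarith

end

theorem p_MCA (hCUT : T_CUT) (hSPP : T_SPP) (hSII : T_SII) (hSCB : T_SCB) (hCTA : T_CTA) :
    T_MCA := by
  intro n μ hμ w
  have main : ∀ d i j, i ≤ j → j - i = d → ∀ c : ℝ, 0 ≤ c → ∀ L : ConvexBody (E n),
      μ (c • TT w i j + L) = μ (c • TT w i j) + μ L := by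
    intro d
    induction d using Nat.strong_induction_on with
    | _ d ih =>
      intro i j hij hd c hc L
      rcases hij.eq_or_lt with rfl | hlt
      · rw [(hSCB n w i i 0 0 le_rfl le_rfl le_rfl).2.2, MCA_sz, zero_add, MCA_zero hμ,
          zero_add]
      · have key := MCA_key hCUT hSPP hSII hSCB hμ w i j hlt
          (fun i' j' h1 h2 => ih (j' - i') (hd ▸ h2) i' j' h1 rfl) L
        set g : ℝ → ℝ := fun t => MCA_G μ L (t • TT w i j) with hg
        have key' : ∀ a b : ℝ, 0 ≤ a → 0 ≤ b → g (a + b) = g a + g b := key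
        have g0 : g 0 = 0 := by
          have h := key' 0 0 le_rfl le_rfl
          rw [add_zero] at h
          linarith
        have gN : ∀ N : ℕ, g ((N : ℝ) * c) = N * g c := by
          intro N
          induction N with
          | zero => rw [Nat.cast_zero, zero_mul, zero_mul, g0]
          | succ N ihN =>
            have h1 : ((N + 1 : ℕ) : ℝ) * c = (N : ℝ) * c + c := by push_cast; ring
            rw [h1, key' _ _ (by positivity) hc, ihN]
            push_cast; ring
        obtain ⟨hc1, -, hc3, -, hc5, hc6⟩ := hCTA n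
        have form : ∀ m : ℕ, g c = μ ((1 / ((m : ℝ) + 1) : ℝ) • L + c • TT w i j) -
            μ (c • TT w i j) - μ ((1 / ((m : ℝ) + 1) : ℝ) • L) := by
          intro m
          have hpos : (0 : ℝ) < (m : ℝ) + 1 := by positivity
          have h1 := gN (m + 1)
          push_cast at h1
          have h2 : g (((m : ℝ) + 1) * c) = ((m : ℝ) + 1) *
              (μ ((1 / ((m : ℝ) + 1) : ℝ) • L + c • TT w i j) -
              μ (c • TT w i j) - μ ((1 / ((m : ℝ) + 1) : ℝ) • L)) := by
            have h3 : ((m : ℝ) + 1) • ((1 / ((m : ℝ) + 1) : ℝ) • L) = L := by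
              rw [one_div]
              exact hc6 L _ hpos
            have h4 : (((m : ℝ) + 1) * c) • TT w i j = ((m : ℝ) + 1) • (c • TT w i j) :=
              mul_smul _ _ _
            have h5 := hμ.homog ((1 / ((m : ℝ) + 1) : ℝ) • L) ((m : ℝ) + 1) hpos.le
            have h6 := hμ.homog (c • TT w i j) ((m : ℝ) + 1) hpos.le
            have h7 := hμ.homog ((1 / ((m : ℝ) + 1) : ℝ) • L + c • TT w i j) ((m : ℝ) + 1)
              hpos.le
            rw [h3] at h5
            rw [MCA_sa, h3] at h7
            show MCA_G μ L ((((m : ℝ) + 1) * c) • TT w i j) = _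
            unfold MCA_G
            rw [h4, h6, add_comm _ L, h7, h5]
            ring
          rw [h2] at h1
          exact (mul_left_cancel₀ hpos.ne' h1).symm
        have lim1 : Tendsto (fun m : ℕ => μ ((1 / ((m : ℝ) + 1) : ℝ) • L + c • TT w i j)) atTop
            (𝓝 (μ (c • TT w i j))) := by
          have h1 : Continuous fun K : ConvexBody (E n) => μ (K + c • TT w i j) :=
            hμ.cont.comp (hc1 _)
          have h2 := (h1.tendsto 0).comp (hc3 L)
          rw [zero_add] at h2
          exact h2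
        have lim2 : Tendsto (fun m : ℕ => μ ((1 / ((m : ℝ) + 1) : ℝ) • L)) atTop (𝓝 0) := by
          have h2 := (hμ.cont.tendsto 0).comp (hc3 L)
          rw [MCA_zero hμ] at h2
          exact h2
        have lim3 : Tendsto (fun _ : ℕ => g c) atTop (𝓝 0) := by
          have h3 := (lim1.sub_const (μ (c • TT w i j))).sub lim2
          rw [sub_self, sub_zero] at h3
          exact h3.congr fun m => (form m).symm
        have h4 : g c = 0 := tendsto_nhds_unique tendsto_const_nhds lim3
        have h5 : μ (c • TT w i j + L) - μ (c • TT w i j) - μ L = 0 := h4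
        linarith
  intro i j hij c hc L
  exact main _ i j hij rfl c hc L

end Pool.Agent.GLB
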