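import Pool.Agent.GLB.TF

/-!
# GLB: extension of positive functionals (`T_RIE`)
-/

set_option autoImplicit false

open Metric Set Filter Topology MeasureTheory

noncomputable section

namespace Pool.Agent.GLB

namespace RIE_

/-- the cone of nonnegative functions -/
def cone (X : Type) [TopologicalSpace X] : PointedCone ℝ C(X, ℝ) where
  carrier := {y | ∀ x, 0 ≤ y x}
  add_mem' := fun ha hb x => add_nonneg (ha x) (hb x)
  zero_mem' := fun _ => le_rfl
  smul_mem' := fun c _ hy x => mul_nonneg c.2 (hy x)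

lemma mem_cone {X : Type} [TopologicalSpace X] (y : C(X, ℝ)) :
    y ∈ cone X ↔ ∀ x, 0 ≤ y x := Iff.rfl

end RIE_

open RIE_

theorem p_RIE : T_RIE := by
  intro X _ _ P hadd hsmul hpos ⟨y₀, c₀, hP₀, hy₀⟩
  have huniq : ∀ y c c', P y c → P y c' → c = c' := by
    intro y c c' h h'
    have h1 := hadd _ _ _ _ h (hsmul (-1) y c' h')
    have h2 := hadd _ _ _ _ h' (hsmul (-1) y c h)
    have h3 := hpos _ _ h1 fun x => by simp
    have h4 := hpos _ _ h2 fun x => by simp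
    linarith
  have hzero : P 0 0 := by
    have := hsmul 0 _ _ hP₀
    rwa [zero_smul, zero_mul] at this
  let D : Submodule ℝ C(X, ℝ) :=
    { carrier := {y | ∃ c, P y c}
      add_mem' := fun {a b} ⟨c, hc⟩ ⟨d, hd⟩ => ⟨c + d, hadd _ _ _ _ hc hd⟩
      zero_mem' := ⟨0, hzero⟩
      smul_mem' := fun t y ⟨c, hc⟩ => ⟨t * c, hsmul _ _ _ hc⟩ }
  have hD : ∀ y : D, P y.1 (Classical.choose y.2) := fun y => Classical.choose_spec y.2
  let f : C(X, ℝ) →ₗ.[ℝ] ℝ :=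
    ⟨D, { toFun := fun y => Classical.choose y.2
          map_add' := fun a b => huniq _ _ _ (hD (a + b)) (hadd _ _ _ _ (hD a) (hD b))
          map_smul' := fun t a => huniq _ _ _ (hD (t • a)) (hsmul _ _ _ (hD a)) }⟩
  have hf : ∀ y : D, P y.1 (f y) := hD
  obtain ⟨g, hg1, hg2⟩ := riesz_extension (cone X) f
    (fun y hy => hpos _ _ (hf y) hy)
    (fun y => by
      refine ⟨⟨‖y‖ • y₀, ⟨‖y‖ * c₀, hsmul _ _ _ hP₀⟩⟩, fun x => ?_⟩
      have h1 : |y x| ≤ ‖y‖ := y.norm_coe_le_norm x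
      have h2 : ‖y‖ * 1 ≤ ‖y‖ * y₀ x := mul_le_mul_of_nonneg_left (hy₀ x) (norm_nonneg y)
      have h3 := neg_abs_le (y x)
      show 0 ≤ ‖y‖ * y₀ x + y x
      linarith)
  refine ⟨g, fun y hy => hg2 y hy, fun y c hc => ?_⟩
  have h1 := hg1 ⟨y, ⟨c, hc⟩⟩
  rw [h1]
  exact huniq _ _ _ (hf ⟨y, ⟨c, hc⟩⟩) hc

end Pool.Agent.GLB
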