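import Mathlib

/-!
# The globalization map for area measures: the objects of the question

`V` is a finite dimensional Euclidean space (in the theorem `V = ℝ^n`).
-/

set_option autoImplicit false

open Metric Set Filter Topology

noncomputable section

namespace Pool.Agent.GLB.Stmt

variable (V : Type) [NormedAddCommGroup V] [InnerProductSpace ℝ V]

/-- the convex bodies of `V` -/
def Body : Type := ConvexBody V

/-- the topology of the Hausdorff metric -/
instance instTopBody : TopologicalSpace (Body V) :=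
  inferInstanceAs (TopologicalSpace (ConvexBody V))

/-- the unit sphere of `V` -/
def Sph : Type := sphere (0 : V) 1

/-- its topology -/
instance instTopSph : TopologicalSpace (Sph V) :=
  inferInstanceAs (TopologicalSpace (sphere (0 : V) 1))

/-- the continuous complex functions on the unit sphere -/
def Fn : Type := C(Sph V, ℂ)

/-- the finite complex Borel measures on the unit sphere; by Riesz these are the continuous
linear functionals on `C(S)` (for the topology of uniform convergence) -/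
def Meas : Type := C(Sph V, ℂ) →L[ℂ] ℂ

/-- the group `GL(V)` -/
def GLV : Type := (V →L[ℝ] V)ˣ

/-- its topology -/
instance instTopGLV : TopologicalSpace (GLV V) :=
  inferInstanceAs (TopologicalSpace (V →L[ℝ] V)ˣ)

/-- the inverse `g⁻¹` -/
instance instInvGLV : Inv (GLV V) :=
  ⟨fun g => ((show (V →L[ℝ] V)ˣ from g)⁻¹ : (V →L[ℝ] V)ˣ)⟩

variable {V}

/-- the body `K` as a subset of `V` -/
def Body.set (K : Body V) : Set V := ((show ConvexBody V from K) : Set V)

/-- the body `K + x` -/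
def Body.shift (K : Body V) (x : V) : Body V :=
  (show ConvexBody V from K) +
    ⟨{x}, convex_singleton x, isCompact_singleton, singleton_nonempty x⟩

/-- the body `t K` -/
def Body.dil (t : ℝ) (K : Body V) : Body V := t • (show ConvexBody V from K)

/-- the support function `h_K (u) = sup {⟨x, u⟩ : x ∈ K}` -/
def Body.supp (K : Body V) (u : V) : ℝ := sSup ((fun x => inner ℝ x u) '' K.set)

/-- the point `u` of the sphere as a vector -/
def Sph.vec (u : Sph V) : V := Subtype.val (p := fun x => x ∈ sphere (0 : V) 1) u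

/-- the value `φ(u)` -/
def Fn.val (φ : Fn V) (u : Sph V) : ℂ := (show C(Sph V, ℂ) from φ) u

/-- the integral `∫ φ dΨ` -/
def Meas.int (Ψ : Meas V) (φ : Fn V) : ℂ :=
  (show C(Sph V, ℂ) →L[ℂ] ℂ from Ψ) (show C(Sph V, ℂ) from φ)

/-- the total mass `Ψ(S)` -/
def Meas.mass (Ψ : Meas V) : ℂ := Ψ.int (⟨fun _ => 1, continuous_const⟩ : C(Sph V, ℂ))

/-- the linear map `g` -/
def GLV.map (g : GLV V) : V →L[ℝ] V := ((show (V →L[ℝ] V)ˣ from g) : V →L[ℝ] V)

/-- the body `g K` -/
def Body.image (g : GLV V) (K : Body V) : Body V :=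
  (⟨g.map '' K.set, (show ConvexBody V from K).convex.linear_image g.map.toLinearMap,
    (show ConvexBody V from K).isCompact.image g.map.continuous,
    (show ConvexBody V from K).nonempty.image g.map⟩ : ConvexBody V)

/-- `μ` is a continuous, translation invariant valuation, homogeneous of degree `k`:
`μ ∈ Val_k(V, ℂ)`. -/
structure IsVal (k : ℕ) (μ : Body V → ℂ) : Prop where
  cont : Continuous μ
  trans : ∀ (K : Body V) (x : V), μ (K.shift x) = μ K
  homog : ∀ (K : Body V) (t : ℝ), 0 ≤ t → μ (K.dil t) = (t : ℂ) ^ k * μ K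
  /-- if `K ∪ L` is convex then `μ (K ∪ L) + μ (K ∩ L) = μ K + μ L` -/
  val : ∀ K L M N : Body V, M.set = K.set ∪ L.set → N.set = K.set ∩ L.set → μ M + μ N = μ K + μ L

/-- `Ψ` belongs to `Area_k(V)`. -/
structure IsArea (k : ℕ) (Ψ : Body V → Meas V) : Prop where
  /-- `Ψ` is continuous for the weak* topology -/
  cont : ∀ φ : Fn V, Continuous fun K => (Ψ K).int φ
  /-- `Ψ` is locally determined: if `h_K = h_L` on the open set `U` then `Ψ(K)|_U = Ψ(L)|_U` -/
  loc : ∀ (K L : Body V) (U : Set (Sph V)), IsOpen U → (∀ u ∈ U, K.supp u.vec = L.supp u.vec) →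
    ∀ φ : Fn V, (∀ u, u ∉ U → φ.val u = 0) → (Ψ K).int φ = (Ψ L).int φ
  /-- `Ψ` is translation invariant -/
  trans : ∀ (K : Body V) (x : V), Ψ (K.shift x) = Ψ K
  /-- `Ψ` is homogeneous of degree `k` -/
  homog : ∀ (K : Body V) (t : ℝ), 0 ≤ t → ∀ φ : Fn V,
    (Ψ (K.dil t)).int φ = (t : ℂ) ^ k * (Ψ K).int φ

variable [CompleteSpace V]

/-- `g^T v` -/
def GLV.tr (g : GLV V) (v : V) : V := ContinuousLinearMap.adjoint g.map v

lemma GLV.tr_ne (g : GLV V) (v : Sph V) : g.tr v.vec ≠ 0 := by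
  intro h
  have hv : v.vec ≠ 0 := by
    intro h0
    have h1 : v.vec ∈ sphere (0 : V) 1 := Subtype.property (p := fun x => x ∈ sphere (0 : V) 1) v
    rw [h0, mem_sphere_iff_norm, sub_zero, norm_zero] at h1
    exact zero_ne_one h1
  apply hv
  have h2 : ContinuousLinearMap.adjoint g⁻¹.map (g.tr v.vec) = v.vec := by
    unfold GLV.tr
    rw [← ContinuousLinearMap.comp_apply, ← ContinuousLinearMap.adjoint_comp]
    have h3 : g.map ∘L g⁻¹.map = ContinuousLinearMap.id ℝ V :=
      (show (V →L[ℝ] V)ˣ from g).mul_inv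
    rw [h3]
    simp
  rw [← h2, h, map_zero]

omit [InnerProductSpace ℝ V] [CompleteSpace V] in
lemma Sph.vec_cont : Continuous (Sph.vec (V := V)) := continuous_subtype_val

lemma GLV.tr_cont (g : GLV V) : Continuous g.tr :=
  (ContinuousLinearMap.adjoint g.map).continuous

lemma GLV.dirn_mem (g : GLV V) (v : Sph V) :
    ‖g.tr v.vec‖⁻¹ • g.tr v.vec ∈ sphere (0 : V) 1 := by
  rw [mem_sphere_iff_norm, sub_zero, norm_smul, norm_inv, norm_norm]
  exact inv_mul_cancel₀ (norm_ne_zero_iff.2 (g.tr_ne v))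

/-- `g^T v / |g^T v|` -/
def GLV.dirn (g : GLV V) (v : Sph V) : Sph V := ⟨‖g.tr v.vec‖⁻¹ • g.tr v.vec, g.dirn_mem v⟩

lemma GLV.dirn_cont (g : GLV V) : Continuous g.dirn := by
  have h1 : Continuous fun v : Sph V => g.tr v.vec := g.tr_cont.comp Sph.vec_cont
  have h2 : Continuous fun v : Sph V => ‖g.tr v.vec‖⁻¹ :=
    h1.norm.inv₀ fun v => norm_ne_zero_iff.2 (g.tr_ne v)
  exact Continuous.subtype_mk (h2.smul h1) _

/-- the value at `v` of `g · φ` -/
def GLV.actVal (g : GLV V) (φ : Fn V) (v : Sph V) : ℂ := (‖g.tr v.vec‖ : ℂ) * φ.val (g.dirn v)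

lemma GLV.actVal_cont (g : GLV V) (φ : Fn V) : Continuous (g.actVal φ) := by
  have h1 : Continuous fun v : Sph V => ‖g.tr v.vec‖ := (g.tr_cont.comp Sph.vec_cont).norm
  have h2 : Continuous fun v : Sph V => φ.val (g.dirn v) :=
    (show C(Sph V, ℂ) from φ).continuous.comp g.dirn_cont
  exact (Complex.continuous_ofReal.comp h1).mul h2

/-- the action `[g·φ](v) = |g^T v| φ(g^T v / |g^T v|)` of `GL(V)` on the continuous functions on the
sphere -/
def GLV.act (g : GLV V) (φ : Fn V) : Fn V :=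
  (⟨g.actVal φ, g.actVal_cont φ⟩ : C(Sph V, ℂ))

/-- `g ↦ π(g)Ψ` is continuous for the norm `‖Ψ‖ = sup {|Ψ(K; ψ)| : K ⊆ B_1(0), ‖ψ‖ ≤ 1}`, where
`[π(g)Ψ](K; φ) = Ψ(g⁻¹K; g⁻¹·φ)`. -/
def StrongGL (Ψ : Body V → Meas V) : Prop :=
  ∀ g₀ : GLV V, ∀ ε : ℝ, 0 < ε → ∀ᶠ g in 𝓝 g₀, ∀ K : Body V, K.set ⊆ closedBall 0 1 →
    ∀ φ : Fn V, (∀ u, ‖φ.val u‖ ≤ 1) →
    ‖(Ψ (K.image g⁻¹)).int (g⁻¹.act φ) - (Ψ (K.image g₀⁻¹)).int (g₀⁻¹.act φ)‖ ≤ ε

end Pool.Agent.GLB.Stmt
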