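import Pool.Agent.GLB.Core

/-!
# GLB: targets A (support functions) and M (McMullen's theorem in degree one)

Each target is a proposition `T_XXX`; its docstring contains the complete proof.  Other targets
may be taken as hypotheses.
-/

set_option autoImplicit false

open Metric Set Filter Topology MeasureTheory

noncomputable section

namespace Pool.Agent.GLB

/-- SUA.  Elementary facts.  The sup over the compact set `K` of the continuous function
`x ↦ ⟨x, u⟩` is attained and bounded; `sSup (A + B) = sSup A + sSup B` etc. (or use the last two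
facts and antisymmetry for the others). -/
def T_SUA : Prop := ∀ n : ℕ,
  (∀ (K : ConvexBody (E n)) (x u : E n), x ∈ K → inner ℝ x u ≤ supp K u) ∧
  (∀ (K : ConvexBody (E n)) (u : E n), ∃ x ∈ K, inner ℝ x u = supp K u) ∧
  (∀ (K L : ConvexBody (E n)) (u : E n), supp (K + L) u = supp K u + supp L u) ∧
  (∀ (K : ConvexBody (E n)) (t : ℝ) (u : E n), 0 ≤ t → supp (t • K) u = t * supp K u) ∧
  (∀ x u : E n, supp (pt x) u = inner ℝ x u) ∧
  ∀ (A : E n →L[ℝ] E n) (K : ConvexBody (E n)) (u : E n),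
    supp (mapB A K) u = supp K (ContinuousLinearMap.adjoint A u)

/-- SUH (from SUA).  `supp K` is sublinear, convex and Lipschitz.  Subadditivity: the maximiser
for `u + v` is a competitor for `u` and for `v`.  Convexity on `univ`: `a, b ≥ 0, a + b = 1`,
`supp (a u + b v) ≤ supp (a u) + supp (b v) = a supp u + b supp v`.  Lipschitz: if `x` is the
maximiser for `u`, then `supp u = ⟨x, u⟩ = ⟨x, v⟩ + ⟨x, u - v⟩ ≤ supp v + R |u - v|`. Continuity:
`K` is bounded. -/
def T_SUH : Prop := ∀ (n : ℕ) (K : ConvexBody (E n)), Hom1 (supp K) ∧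
  (∀ u v, supp K (u + v) ≤ supp K u + supp K v) ∧ ConvexOn ℝ univ (supp K) ∧
  Continuous (supp K) ∧ ∀ R : ℝ, (K : Set (E n)) ⊆ closedBall 0 R →
    (∀ u, |supp K u| ≤ R * ‖u‖) ∧ ∀ u v, |supp K u - supp K v| ≤ R * ‖u - v‖

/-- SUL (from SUA).  If `y ∈ K` were not in `L`, let `x` be the point of the closed convex set
`L` nearest to `y` and `u = y - x ≠ 0`; then `⟨z - x, u⟩ ≤ 0` for `z ∈ L` (Mathlib:
`norm_eq_iInf_iff_real_inner_le_zero`), so `supp L u ≤ ⟨x, u⟩ < ⟨y, u⟩ ≤ supp K u`.  Last part: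
`|x|^2 = ⟨x, x⟩ ≤ supp K x ≤ R |x|`. -/
def T_SUL : Prop := ∀ (n : ℕ) (K L : ConvexBody (E n)),
  ((∀ u, supp K u ≤ supp L u) → (K : Set (E n)) ⊆ L) ∧
  ((∀ u, supp K u = supp L u) → K = L) ∧
  ∀ R : ℝ, 0 ≤ R → (∀ u, supp K u ≤ R * ‖u‖) → (K : Set (E n)) ⊆ closedBall 0 R

/-- SUE (from SUA).  Every sublinear function is a support function.  `K = {x | ∀ u, ⟨x, u⟩ ≤ d u}`
is convex and closed; it is bounded since `|x|^2 ≤ d x ≤ ∑ |x_i| max (d e_i) (d (-e_i)) ≤ C |x|`
(write `x = ∑ |x_i| (± e_i)`, subadditivity over the finite sum).  For `u₀`, Hahn-Banach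
(`exists_extension_of_le_sublinear`, on the span of `u₀`, functional `t u₀ ↦ t d u₀`, which is
`≤ d` since `0 = d 0 ≤ d u₀ + d (-u₀)`) gives a linear functional `≤ d` with value `d u₀` at `u₀`;
it is `⟨x, ·⟩` for some `x` (finite dimension: `LinearMap.toContinuousLinearMap`,
`InnerProductSpace.toDual`), so `x ∈ K` and `⟨x, u₀⟩ = d u₀`. -/
def T_SUE : Prop := ∀ (n : ℕ) (d : E n → ℝ), Hom1 d → (∀ u v, d (u + v) ≤ d u + d v) →
  ∃ K : ConvexBody (E n), ∀ u, supp K u = d u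

/-- SUD (from SUA).  Hausdorff distance and support functions.  (1) If `x ∈ K` is the maximiser
for `u` there is `y ∈ L` with `|x - y| ≤ dist K L` (compactness; `dist K L` is
`Metric.hausdorffDist`), so `supp K u = ⟨x, u⟩ ≤ supp L u + dist K L * |u|`; symmetric.
(2) Let `y ∈ K`, `x` its nearest point in `L` and `y ≠ x`, `u = (y - x)/|y - x|`: as in SUL
`supp L u ≤ ⟨x, u⟩` and `supp K u ≥ ⟨y, u⟩ = ⟨x, u⟩ + |y - x|`, so `|y - x| ≤ ε`; symmetric; use
`Metric.hausdorffDist_le_of_mem_dist`. -/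
def T_SUD : Prop := ∀ (n : ℕ) (K L : ConvexBody (E n)),
  (∀ u, |supp K u - supp L u| ≤ dist K L * ‖u‖) ∧
  ∀ ε : ℝ, 0 ≤ ε → (∀ u, ‖u‖ = 1 → |supp K u - supp L u| ≤ ε) → dist K L ≤ ε

/-- CTA (from SUA, SUD, SUH).  Continuity of the operations.  `dist (K + L) (K' + L) ≤ dist K K'`
and `dist (mapB A K) (mapB A K') ≤ ‖A‖ dist K K'` by SUD, SUA; `dist (t • K) 0 ≤ t R` if
`K ⊆ closedBall 0 R`. -/
def T_CTA : Prop := ∀ n : ℕ,
  (∀ L : ConvexBody (E n), Continuous fun K : ConvexBody (E n) => K + L) ∧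
  (∀ A : E n →L[ℝ] E n, Continuous fun K : ConvexBody (E n) => mapB A K) ∧
  (∀ K : ConvexBody (E n), Tendsto (fun m : ℕ => ((1 / ((m : ℝ) + 1) : ℝ)) • K) atTop (𝓝 0)) ∧
  (∀ (t : ℝ) (_ : 0 ≤ t), Continuous fun K : ConvexBody (E n) => t • K) ∧
  (∀ K L : ConvexBody (E n), K + L = L + K) ∧
  (∀ (K : ConvexBody (E n)) (R : ℝ), 0 < R → R • ((R⁻¹ : ℝ) • K) = K)

/-- BLA (from SUD).  Blaschke's selection theorem.  For instance: `NonemptyCompacts (E n)` has the
compact subset of the nonempty compact subsets of `closedBall 0 R` (Mathlib: `CompactSpace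
(NonemptyCompacts α)` or `CompactSpace (Closeds α)` for compact `α`, total boundedness, ...), the
convex ones form a closed subset (if `K_j → K` in the Hausdorff metric, `x, y ∈ K`, take
`x_j, y_j ∈ K_j` close to them, then `a x_j + b y_j ∈ K_j` is close to `K`), and
`ConvexBody (E n) → NonemptyCompacts (E n)` is an isometry.  Or: the closed set is complete
(limits of support functions in the sup norm on the sphere are support functions, SUE) and
totally bounded (a body is determined up to `2ε` by the set of the points of a finite `ε`-net of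
the ball within distance `ε` of it). -/
def T_BLA : Prop := ∀ (n : ℕ) (R : ℝ),
  IsCompact {K : ConvexBody (E n) | (K : Set (E n)) ⊆ closedBall 0 R}

/-! ### McMullen's theorem in degree one -/

/-- CUT.  All four sequence sets are nonempty.  Let `U_k`, `P`, `I` be the sets of sequences of
the bodies `bd w i j 0 (stp k (a+b) a)`, `bd w i j (stp (k+1) a 0) (stp (k+1) (a+b) a)`,
`bd w i j (stp (k+1) a 0) (stp k (a+b) a)`.  A decreasing sequence `x` in `[0, a+b]` with
`x m ≤ a` for `m > k` is in `U_k` if `x k ≤ a` and in `P` if `x k ≥ a`; so `U_{k+1} = U_k ∪ P` and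
`I = U_k ∩ P`.  Hence `(U_{k+1}) + L = (U_k + L) ∪ (P + L)` for the images.  The image of `I` plus
`L` is the intersection: let `z = c(x) + l = c(x') + l'` with `x ∈ U_k`, `x' ∈ P`, `l, l' ∈ L`
(`c = cmb w i j`).  As `x k ≤ a ≤ x' k` there is `s ∈ [0,1]` with `y = (1-s) x + s x'`, `y k = a`;
`y` is in the convex set `U_{k+1}`, so it is in `I`, and `l'' = (1-s) l + s l' ∈ L`,
`z = (1-s) z + s z = c(y) + l''`.  Now apply `RVal.val`. -/
def T_CUT : Prop := ∀ (n : ℕ) (μ : ConvexBody (E n) → ℝ), RVal n μ → ∀ (w : ℕ → E n)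
  (i j k : ℕ) (a b : ℝ), 0 ≤ a → 0 ≤ b → ∀ L : ConvexBody (E n),
  μ (bd w i j (fun _ => 0) (stp (k + 1) (a + b) a) + L) +
    μ (bd w i j (stp (k + 1) a 0) (stp k (a + b) a) + L) =
  μ (bd w i j (fun _ => 0) (stp k (a + b) a) + L) +
    μ (bd w i j (stp (k + 1) a 0) (stp (k + 1) (a + b) a) + L)

/-- SPP.  A sequence `x` of the left side (decreasing, `a ≤ x m ≤ a + b` for `m < k`,
`0 ≤ x m ≤ a` for `m ≥ k`) is `x m = a + b y m` for `m < k` and `x m = a z m` for `m ≥ k` with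
`y, z` decreasing in `[0,1]` (`y m = (x m - a)/b` for `m < k`, `0` for `m ≥ k`; `z m = x m / a`
for `m ≥ k`, `1` for `m < k`; if `b = 0` or `a = 0` take `0` resp. `1`), and conversely.  Split
the sum over `Ico i j` at `k`. -/
def T_SPP : Prop := ∀ (n : ℕ) (w : ℕ → E n) (i j k : ℕ) (a b : ℝ), i ≤ k → k ≤ j → 0 ≤ a →
  0 ≤ b → bd w i j (stp k a 0) (stp k (a + b) a) =
    pt (a • ∑ m ∈ Finset.Ico i k, w m) + b • TT w i k + a • TT w k j

/-- SII.  As SPP, but here `x k = a`: `x m = a + b y m` for `m < k`, `x k = a`, `x m = a z m` for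
`m > k`. -/
def T_SII : Prop := ∀ (n : ℕ) (w : ℕ → E n) (i j k : ℕ) (a b : ℝ), i ≤ k → k < j → 0 ≤ a →
  0 ≤ b → bd w i j (stp (k + 1) a 0) (stp k (a + b) a) =
    pt (a • ∑ m ∈ Finset.Ico i (k + 1), w m) + b • TT w i k + a • TT w (k + 1) j

/-- SCB.  Only the values on `Ico i j` matter.  (1) On `m ≥ i` the upper bound is `a`; given a
decreasing sequence in `[0,a]` on `m ≥ i` extend it by `a`, or scale.  (2) similarly.
(3) `Ico j j` is empty. -/
def T_SCB : Prop := ∀ (n : ℕ) (w : ℕ → E n) (i j : ℕ) (a b : ℝ), i ≤ j → 0 ≤ a → 0 ≤ b →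
  bd w i j (fun _ => 0) (stp i (a + b) a) = a • TT w i j ∧
  bd w i j (fun _ => 0) (stp j (a + b) a) = (a + b) • TT w i j ∧
  TT w j j = (0 : ConvexBody (E n))

/-- MCA (from CUT, SPP, SII, SCB, CTA).  Fix `n, μ, w`.  Strong induction on `j - i`: for all
`c ≥ 0` and all `L`.  `i = j`: `TT w j j = 0`, `c • 0 = 0`, `0 + L = L`, `μ 0 = 0` (homogeneity
with `t = 0`).  Let `i < j` and write `G K = μ (K + L) - μ K - μ L` (`L` fixed).  For `a, b ≥ 0`
and `i ≤ k < j` let `U_k = bd w i j 0 (stp k (a+b) a)`, `P_(k+1)` and `I_k` as in CUT.  CUT for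
`L` and for `L = 0` give `G U_(k+1) + G I_k = G U_k + G P_(k+1)`.  By SII and the induction
hypothesis (used for `TT w i k`, `TT w (k+1) j`, with `L` replaced by sums, and translation
invariance) `G I_k = 0`: `μ (I_k + L) = μ (b • TT w i k) + μ (a • TT w (k+1) j) + μ L`.  In the
same way `G P_(k+1) = 0` for `k + 1 < j` (SPP), and `G P_j = G (b • TT w i j)`.  Hence
`G ((a+b) • TT w i j) = G U_j = G U_i + G (b • TT) = G (a • TT) + G (b • TT)` (SCB).  By
induction `G ((N : ℝ) • (c • TT)) = N G (c • TT)` for `N ≥ 1`.  By homogeneity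
`N G_L (c • TT) = G_L (N • c • TT) = N (μ (c • TT + (1/N) • L) - μ (c • TT) - μ ((1/N) • L))`, so
`G_L (c • TT) = μ (c • TT + (1/N) • L) - μ (c • TT) - μ ((1/N) • L) → 0` as `N → ∞` (CTA,
continuity of `μ`, `μ 0 = 0`). -/
def T_MCA : Prop := ∀ (n : ℕ) (μ : ConvexBody (E n) → ℝ), RVal n μ → ∀ (w : ℕ → E n)
  (i j : ℕ), i ≤ j → ∀ c : ℝ, 0 ≤ c → ∀ L : ConvexBody (E n),
  μ (c • TT w i j + L) = μ (c • TT w i j) + μ L

/-- MCD.  Let `p_0, …, p_N ∈ K` be a finite `ε`-net of the compact set `K` (`K` nonempty).  Put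
`p = p_0`, `w m = p_(m+1) - p_m` for `m < N` (and `0` for `m ≥ N`).  Every element of
`p + TT w 0 N` is `p_0 + ∑ x m (p_(m+1) - p_m) = ∑ λ_m p_m`, `λ_0 = 1 - x 0`,
`λ_m = x (m-1) - x m`, `λ_N = x (N-1)`, a convex combination (Abel summation; or show by
induction on `N` that `p_0 + ∑_(m<N) x m (p_(m+1) - p_m) ∈ K`: it is
`(1 - x 0) p_0 + x 0 (p_1 + ∑_(1≤m<N) (x m / x 0) (p_(m+1) - p_m))` if `x 0 > 0`), so
`p + TT w 0 N ⊆ K`; and it contains every `p_m` (`x = 1` below `m`, `0` from `m` on). So the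
Hausdorff distance is `≤ ε`. -/
def T_MCD : Prop := ∀ (n : ℕ) (K : ConvexBody (E n)) (ε : ℝ), 0 < ε →
  ∃ (p : E n) (w : ℕ → E n) (N : ℕ), dist K (pt p + TT w 0 N) ≤ ε

/-- MCC (from MCA, MCD, CTA).  McMullen's theorem in degree one.  For `K = p + TT w 0 N` it is MCA
with `c = 1` (`1 • T = T`) and translation invariance; in general approximate `K` by such bodies
(MCD) and use the continuity of `μ` and of `K ↦ K + L` (CTA). -/
def T_MCC : Prop := ∀ (n : ℕ) (μ : ConvexBody (E n) → ℝ), RVal n μ → AddF n μ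

end Pool.Agent.GLB
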