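import Pool.Agent.GLB.Core

/-!
# GLB: targets C (calculus)

Each target is a proposition `T_XXX`; its docstring contains the complete proof.  Other targets
may be taken as hypotheses.
-/

set_option autoImplicit false

open Metric Set Filter Topology MeasureTheory

noncomputable section

namespace Pool.Agent.GLB

/-- MOL.  Let `q : ℝ → ℝ` be smooth, `q = 0` on `(-∞, 0]`, `q' ≥ 0` and `q' > 0` on `(0, ∞)` (for
instance `expNegInvGlue`, whose derivative on `(0, ∞)` is `exp (-1/s)/s^2`).  Put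
`θ y = c q (δ^2 - |y|^2)` and `η y = 2 c q' (δ^2 - |y|^2)`, `c > 0` chosen so that `∫ η = 1`
(`η ≥ 0` is continuous with compact support and `η 0 > 0`).  Then `fderiv θ y v = - η y ⟨y, v⟩`,
`D2 θ y v w = - fderiv η y w ⟨y, v⟩ - η y ⟨w, v⟩`; sum over the standard basis. -/
def T_MOL : Prop := ∀ (n : ℕ) (δ : ℝ), 0 < δ → δ < 1 / 2 → Nonempty (Moll n δ)

/-- PRD.  Product rule for the second derivative, translation, linearity, symmetry, and the
vanishing near points where the function vanishes near. -/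
def T_PRD : Prop := ∀ n : ℕ,
  (∀ f g : E n → ℝ, ContDiff ℝ 2 f → ContDiff ℝ 2 g → ∀ x v w : E n,
    D2 (fun y => f y * g y) x v w = f x * D2 g x v w + fderiv ℝ f x v * fderiv ℝ g x w +
      fderiv ℝ f x w * fderiv ℝ g x v + g x * D2 f x v w) ∧
  (∀ (g : E n → ℝ) (u x v w : E n), D2 (fun y => g (y - u)) x v w = D2 g (x - u) v w) ∧
  (∀ f g : E n → ℝ, ContDiff ℝ 2 f → ContDiff ℝ 2 g → ∀ x v w : E n,
    D2 (fun y => f y + g y) x v w = D2 f x v w + D2 g x v w) ∧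
  (∀ (c : ℝ) (f : E n → ℝ), ContDiff ℝ 2 f → ∀ x v w : E n,
    D2 (fun y => c * f y) x v w = c * D2 f x v w) ∧
  (∀ f : E n → ℝ, ContDiff ℝ 2 f → ∀ x v w : E n, D2 f x v w = D2 f x w v) ∧
  (∀ f g : E n → ℝ, ∀ x : E n, f =ᶠ[𝓝 x] g → ∀ v w : E n, D2 f x v w = D2 g x v w) ∧
  ∀ f : E n → ℝ, ContDiff ℝ 2 f → Continuous fun p : E n × E n × E n => D2 f p.1 p.2.1 p.2.2

/-- DUI.  Differentiation under the integral sign
(`hasDerivAt_integral_of_dominated_loc_of_deriv_le`); `b` has support in the ball of radius `R`,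
`γ` is bounded near `t`, all integrands vanish outside a fixed ball for `t` near a given point,
and `h`, `b` and its derivatives are bounded there.  Chain rule:
`d/dt b (x - γ t) = - fderiv b (x - γ t) (γ' t)`, and
`d/dt (- fderiv b (x - γ t) (γ' t)) = D2 b (x - γ t) (γ' t) (γ' t) - fderiv b (x - γ t) (γ'' t)`. -/
def T_DUI : Prop := ∀ (n : ℕ) (h b : E n → ℝ) (R : ℝ) (γ γ₁ γ₂ : ℝ → E n), Continuous h →
  ContDiff ℝ 2 b → (∀ x, R ≤ ‖x‖ → b x = 0) → (∀ t, HasDerivAt γ (γ₁ t) t) →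
  (∀ t, HasDerivAt γ₁ (γ₂ t) t) → Continuous γ₂ →
  (∀ t, HasDerivAt (fun t => ∫ x, h x * b (x - γ t))
    (-∫ x, h x * fderiv ℝ b (x - γ t) (γ₁ t)) t) ∧
  ∀ t, HasDerivAt (fun t => -∫ x, h x * fderiv ℝ b (x - γ t) (γ₁ t))
    (∫ x, h x * (D2 b (x - γ t) (γ₁ t) (γ₁ t) - fderiv ℝ b (x - γ t) (γ₂ t))) t

/-- POS (from DUI).  `q t = ∫ h x * b (x + t v) = ∫ h (x - t v) * b x` (translation invariance of
Lebesgue measure) is convex in `t` since `h` is convex and `b ≥ 0`.  By DUI (with `γ t = - t v`)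
it is twice differentiable with `q'' 0 = Dh h b v v`.  The derivative of a convex function is
monotone, so `q'' 0 ≥ 0`. -/
def T_POS : Prop := ∀ (n : ℕ) (h b : E n → ℝ), ConvexOn ℝ univ h → Continuous h →
  ContDiff ℝ 2 b → (∃ R : ℝ, ∀ x, R ≤ ‖x‖ → b x = 0) → (∀ x, 0 ≤ b x) → ∀ v : E n,
  0 ≤ Dh h b v v

/-- DHL (from PRD).  Linearity of `Dh` in each argument, for compactly supported `C^2` functions
`b` and continuous `h` (the integrands are continuous with compact support). -/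
def T_DHL : Prop := ∀ (n : ℕ) (R : ℝ),
  (∀ h h' b : E n → ℝ, Continuous h → Continuous h' → ContDiff ℝ 2 b →
    (∀ x, R ≤ ‖x‖ → b x = 0) → ∀ (c : ℝ) (v w : E n),
    Dh (fun x => h x + c * h' x) b v w = Dh h b v w + c * Dh h' b v w) ∧
  (∀ h b b' : E n → ℝ, Continuous h → ContDiff ℝ 2 b → ContDiff ℝ 2 b' →
    (∀ x, R ≤ ‖x‖ → b x = 0) → (∀ x, R ≤ ‖x‖ → b' x = 0) → ∀ (c : ℝ) (v w : E n),
    Dh h (fun x => b x + c * b' x) v w = Dh h b v w + c * Dh h b' v w) ∧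
  ∀ h b : E n → ℝ, Continuous h → ContDiff ℝ 2 b → (∀ x, R ≤ ‖x‖ → b x = 0) →
    ∀ (c : ℝ) (v v' w : E n), Dh h b v w = Dh h b w v ∧
    Dh h b (v + c • v') w = Dh h b v w + c * Dh h b v' w

/-- DBD (from POS, DHL).  Let `χ` be a `C^2` function with values in `[0,1]`, `χ = 1` on
`|x| ≤ 2`, `χ = 0` for `|x| ≥ 3` (`ContDiffBump`), and `C₀ = ∫ ‖fderiv (fderiv χ)‖` over the ball
of radius 3.  As `β χ ± b ≥ 0`, POS gives `|Dh h b v v| ≤ β Dh h χ v v ≤ β H C₀ |v|^2`.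
Polarisation: `Dh h b v w = (Dh h b (v+w) (v+w) - Dh h b (v-w) (v-w)) / 4`, so for unit vectors
`|Dh h b v w| ≤ 2 β H C₀`; scale. -/
def T_DBD : Prop := ∀ n : ℕ, ∃ C : ℝ, 0 ≤ C ∧ ∀ h : E n → ℝ, ConvexOn ℝ univ h →
  Continuous h → ∀ H : ℝ, (∀ x, ‖x‖ ≤ 3 → |h x| ≤ H) → ∀ b : E n → ℝ, ContDiff ℝ 2 b →
  (∀ x, 2 ≤ ‖x‖ → b x = 0) → ∀ β : ℝ, (∀ x, |b x| ≤ β) → ∀ v w : E n,
  |Dh h b v w| ≤ C * H * β * ‖v‖ * ‖w‖

/-- LIN (from POS, DHL).  A linear function is convex and concave, so `Dh ℓ b v v = 0` for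
`b ≥ 0` by POS; a general `b` is `(b + c χ) - c χ` with `χ ≥ 0` a `C^2` function with compact
support, `χ = 1` on the support of `b`, `c = sup |b|`. -/
def T_LIN : Prop := ∀ (n : ℕ) (b : E n → ℝ), ContDiff ℝ 2 b →
  (∃ R : ℝ, ∀ x, R ≤ ‖x‖ → b x = 0) → ∀ y v : E n, Dh (fun x => inner ℝ y x) b v v = 0

/-- CON (from PRD).  The integrand of `Dh h (fun x => f x * m.η (x - u)) v v` is, by PRD, a
continuous function of `(x, u, v)`, and for `u` in a bounded set it vanishes for `x` outside a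
fixed ball: continuity of parametric integrals (over a fixed closed ball, or
`continuous_of_dominated`).  Same for `θ`. -/
def T_CON : Prop := ∀ (n : ℕ) (δ : ℝ) (m : Moll n δ) (h f : E n → ℝ), Continuous h →
  ContDiff ℝ 2 f → Continuous fun p : E n × E n => F m h f p.1 p.2

/-- FBD (from PRD).  For `|u| = 1` the integrands vanish unless `|x - u| < δ`, in particular
unless `|x| ≤ 2`; there they are bounded by `H` times a constant (`f`, `η`, `θ` and their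
derivatives are bounded on bounded sets). -/
def T_FBD : Prop := ∀ (n : ℕ) (δ : ℝ) (m : Moll n δ) (f : E n → ℝ), ContDiff ℝ 2 f →
  ∃ C : ℝ, 0 ≤ C ∧ ∀ h : E n → ℝ, Continuous h → ∀ H : ℝ, (∀ x, ‖x‖ ≤ 2 → |h x| ≤ H) →
  ∀ u v : E n, ‖u‖ = 1 → ‖v‖ = 1 → |F m h f u v| ≤ C * H

/-- FLN (from DHL).  Linearity of `F` in `h` and `f`. -/
def T_FLN : Prop := ∀ (n : ℕ) (δ : ℝ) (m : Moll n δ) (u v : E n),
  (∀ (h h' f : E n → ℝ) (c : ℝ), Continuous h → Continuous h' → ContDiff ℝ 2 f →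
    F m (fun x => h x + c * h' x) f u v = F m h f u v + c * F m h' f u v) ∧
  ∀ (h f f' : E n → ℝ) (c : ℝ), Continuous h → ContDiff ℝ 2 f → ContDiff ℝ 2 f' →
    F m h (fun x => f x + c * f' x) u v = F m h f u v + c * F m h f' u v

/-- FCG (from PRD).  For `|u| = 1`, `F` only depends on `f` and on `h` in the shell
`1/2 < |x| < 2`: if `x` is in the (open) shell, `f = f'` near `x`; otherwise
`|x - u| ≥ 1/2 > δ` and `m.η (y - u) = 0` for `y` near `x`, so both second derivatives vanish. -/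
def T_FCG : Prop := ∀ (n : ℕ) (δ : ℝ) (m : Moll n δ) (h h' f f' : E n → ℝ) (u v : E n),
  ‖u‖ = 1 → (∀ x, 1 / 2 < ‖x‖ → ‖x‖ < 2 → f x = f' x) →
  (∀ x, 1 / 2 < ‖x‖ → ‖x‖ < 2 → h x = h' x) → F m h f u v = F m h' f' u v

/-- FLO (from PRD).  Locality.  For every `x`, `(h x - h' x) * D2 (f * η (· - u)) x v v = 0`: if
`x` is not in the shell `1/2 < |x| < 2`, the second derivative is zero (see FCG); if `x` is in the
shell and in the closure of `W`, `h x = h' x` by continuity; if `x` is in the shell and not in the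
closure of `W`, then `f = 0` near `x`. -/
def T_FLO : Prop := ∀ (n : ℕ) (δ : ℝ) (m : Moll n δ) (h h' f : E n → ℝ) (W : Set (E n)),
  Continuous h → Continuous h' → (∀ x ∈ W, h x = h' x) →
  (∀ x, 1 / 2 < ‖x‖ → ‖x‖ < 2 → x ∉ W → f x = 0) →
  ∀ u v : E n, ‖u‖ = 1 → F m h f u v = F m h' f u v

/-- FMN (from POS, FLN, FCG).  For `|u| = 1` the functions `(β ± f x) * η (x - u)` and
`(β ± f x) * θ (x - u)` are `≥ 0` (they vanish outside the shell), so POS gives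
`F m h (β ± f) u v ≥ 0`. -/
def T_FMN : Prop := ∀ (n : ℕ) (δ : ℝ) (m : Moll n δ) (h f : E n → ℝ) (β : ℝ),
  ConvexOn ℝ univ h → Continuous h → ContDiff ℝ 2 f →
  (∀ x, 1 / 2 < ‖x‖ → ‖x‖ < 2 → |f x| ≤ β) → ∀ u v : E n, ‖u‖ = 1 →
  |F m h f u v| ≤ β * F m h (fun _ => 1) u v

/-- EUL.  For `s > 0`, `s^(n+1) ∫ d x * η (s x - u) = ∫ d x * η (x - u)` (substitute `x ↦ s x`,
`d (s x) = s d x`).  Differentiate at `s = 1` (differentiation under the integral sign, for `s`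
in `(1/2, 2)` the integrands vanish outside a fixed ball). -/
def T_EUL : Prop := ∀ (n : ℕ) (δ : ℝ) (m : Moll n δ) (d : E n → ℝ), Continuous d → Hom1 d →
  ∀ u : E n, ∫ x, d x * (fderiv ℝ m.η (x - u) x + (n + 1) * m.η (x - u)) = 0

/-- GGF (from DUI, EUL, PRD).  Let `u t = cos t a + sin t b`, `v t = - sin t a + cos t b` and
`g t = rho m d (u t) = ∫ d (u t + y) * η y = ∫ d x * η (x - u t)` (`|u t| = 1`).  By DUI
`g'' = ∫ d x * (D2 η (x - u) v v + fderiv η (x - u) u)` (`u' = v`, `v' = - u`).  On the other hand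
`F m d 1 u v = ∫ d x * (D2 η (x - u) v v + ∑ i, D2 θ (x - u) e_i e_i)
= ∫ d x * (D2 η (x - u) v v - n η (x - u) - fderiv η (x - u) (x - u))` by `Moll.lap`.  The
difference `g'' + g - F` is `∫ d x * (fderiv η (x - u) x + (n + 1) η (x - u)) = 0` (EUL). -/
def T_GGF : Prop := ∀ (n : ℕ) (δ : ℝ) (m : Moll n δ) (d : E n → ℝ), Continuous d → Hom1 d →
  ∀ a b : E n, ‖a‖ = 1 → ‖b‖ = 1 → inner ℝ a b = 0 → ∃ g₁ : ℝ → ℝ,
  (∀ t, HasDerivAt (fun t => rho m d (Real.cos t • a + Real.sin t • b)) (g₁ t) t) ∧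
  ∀ t, HasDerivAt g₁ (F m d (fun _ => 1) (Real.cos t • a + Real.sin t • b)
    (-Real.sin t • a + Real.cos t • b) - rho m d (Real.cos t • a + Real.sin t • b)) t

/-- SIN.  `A t = g' t sin t - g t cos t` has derivative `(g'' + g) sin t ≥ 0` on `[0, π]`, so
`A γ ≥ A 0 = - g 0`.  `B t = g' t sin (β - t) + g t cos (β - t)` has derivative
`(g'' + g) sin (β - t) ≥ 0` on `[γ, β]`, so `g β = B β ≥ B γ`.  Multiply the first inequality by
`sin (β - γ) ≥ 0`, the second by `sin γ ≥ 0` and add; the terms with `g' γ` cancel and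
`sin (β - γ) cos γ + sin γ cos (β - γ) = sin β`. -/
def T_SIN : Prop := ∀ g g₁ g₂ : ℝ → ℝ, (∀ t, HasDerivAt g (g₁ t) t) →
  (∀ t, HasDerivAt g₁ (g₂ t) t) → (∀ t, 0 ≤ g₂ t + g t) → ∀ γ β : ℝ, 0 ≤ γ → γ ≤ β →
  β ≤ Real.pi → Real.sin β * g γ ≤ Real.sin (β - γ) * g 0 + Real.sin γ * g β

/-- SUB (from GGF, SIN, RHO).  Let `x, y ≠ 0` (otherwise clear, `rho m d 0 = 0`), `a = x / |x|`,
`y = |y| (cos β a + sin β b)` with `b` a unit vector orthogonal to `a` and `β ∈ [0, π]` (`n ≥ 2`;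
`b` is the direction of the component of `y` orthogonal to `a`, or any such vector if it is zero).
Put `g t = rho m d (cos t a + sin t b)`; `g'' + g ≥ 0` by GGF and the hypothesis
(`(cos t a + sin t b, - sin t a + cos t b)` is orthonormal).  By homogeneity `rho m d x = |x| g 0`,
`rho m d y = |y| g β`.  If `0 < β < π`: `x + y = r (cos γ a + sin γ b)` with `0 < γ < β`,
`r sin γ = |y| sin β`, `r sin (β - γ) = |x| sin β` (from `r cos γ = |x| + |y| cos β`), so by SIN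
`rho m d (x + y) sin β = r g γ sin β ≤ r sin (β - γ) g 0 + r sin γ g β
= sin β (|x| g 0 + |y| g β)`.  `β = 0`: `x + y = (|x| + |y|) a`, equality.  `β = π`: by SIN with
`β = π`, `γ = π/2`, `0 ≤ g 0 + g π`, and `x + y = (|x| - |y|) a` is `≥ 0` times `a` or `- a`. -/
def T_SUB : Prop := ∀ (n : ℕ) (δ : ℝ) (m : Moll n δ) (d : E n → ℝ), 2 ≤ n → Continuous d →
  Hom1 d → (∀ u v : E n, ‖u‖ = 1 → ‖v‖ = 1 → inner ℝ u v = 0 → 0 ≤ F m d (fun _ => 1) u v) →
  ∀ x y : E n, rho m d (x + y) ≤ rho m d x + rho m d y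

/-- RHO.  (1) `d (t u + |t u| y) = t d (u + |u| y)`.  (2) linearity of the integral (the
integrands are continuous with compact support).  (3) `∫ η = 1`, `η` is supported in `|y| ≤ δ`, so
`|rho m d u - d u| = |∫ (d (u + |u| y) - d u) η y| ≤ L |u| δ`.  (4) `⟨x, u + |u| y⟩ =
⟨x, u⟩ + |u| ⟨x, y⟩` and `∫ ⟨x, y⟩ η y = 0` (`y ↦ - y`, `η_rad`). -/
def T_RHO : Prop := ∀ (n : ℕ) (δ : ℝ) (m : Moll n δ),
  (∀ d : E n → ℝ, Hom1 d → Hom1 (rho m d)) ∧
  (∀ (d d' : E n → ℝ) (c : ℝ) (u : E n), Continuous d → Continuous d' →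
    rho m (fun x => d x + c * d' x) u = rho m d u + c * rho m d' u) ∧
  (∀ (d : E n → ℝ) (L : ℝ), Continuous d → (∀ u v, |d u - d v| ≤ L * ‖u - v‖) →
    ∀ u, |rho m d u - d u| ≤ L * δ * ‖u‖) ∧
  ∀ x u : E n, rho m (fun z => inner ℝ x z) u = inner ℝ x u

/-- CLB (from GGF).  Let `c u = rho m ‖·‖ u = ∫ |u + y| η y` for `|u| = 1`; it does not depend on
`u`: for unit vectors `u, u'` there is a linear isometry `T` with `T u = u'` (a reflection,
`Submodule.reflection_sub`), it preserves Lebesgue measure and `η`.  So `g` of GGF for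
`d = ‖·‖`, `a = u`, `b = v` is constant; its derivatives are zero, hence (uniqueness of
derivatives, at `t = 0`) `F m ‖·‖ 1 u v = g 0 = ∫ |u + y| η y ≥ 1 - δ ≥ 1/2`. -/
def T_CLB : Prop := ∀ (n : ℕ) (δ : ℝ) (m : Moll n δ) (u v : E n), ‖u‖ = 1 → ‖v‖ = 1 →
  inner ℝ u v = 0 → 1 / 2 ≤ F m (fun x => ‖x‖) (fun _ => 1) u v

end Pool.Agent.GLB
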