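import Pool.Agent.GLB.TA
import Pool.Agent.GLB.TC

/-!
# GLB: targets F (the functional), G (the action of `GL(n)`), Z (assembly)

Each target is a proposition `T_XXX`; its docstring contains the complete proof.  Other targets
may be taken as hypotheses.
-/

set_option autoImplicit false

open Metric Set Filter Topology MeasureTheory

noncomputable section

namespace Pool.Agent.GLB

/-- RIE.  Apply Mathlib's `riesz_extension` to the cone of nonnegative functions and the partially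
defined functional whose graph is `{(y, c) | P y c}` (a submodule of `C(X, ℝ) × ℝ`;
`Submodule.toLinearPMap`; if `P 0 c` then `0 ≤ c` and `P 0 (-c)`, `0 ≤ -c`).  The condition `dense`
holds since `‖y‖ • y₀ + y ≥ 0`. -/
def T_RIE : Prop := ∀ (X : Type) [TopologicalSpace X] [CompactSpace X]
  (P : C(X, ℝ) → ℝ → Prop), (∀ y y' c c', P y c → P y' c' → P (y + y') (c + c')) →
  (∀ (t : ℝ) y c, P y c → P (t • y) (t * c)) → (∀ y c, P y c → (∀ x, 0 ≤ y x) → 0 ≤ c) →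
  (∃ y₀ c₀, P y₀ c₀ ∧ ∀ x, 1 ≤ y₀ x) →
  ∃ g : C(X, ℝ) →ₗ[ℝ] ℝ, (∀ y, (∀ x, 0 ≤ y x) → 0 ≤ g y) ∧ ∀ y c, P y c → g y = c

/-- EXT.  Hahn-Banach.  If `P` is nowhere satisfied take `Λ = 0`.  Otherwise `{(φ, c) | P φ c}`
is a submodule of `X × ℝ`, the graph of a linear functional on a subspace (if `P 0 c` then
`|c| ≤ 0`) which is bounded by `M`; extend it with the same norm
(`exists_extension_norm_eq`, or `exists_extension_of_le_sublinear` with `N φ = M ‖φ‖`). -/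
def T_EXT : Prop := ∀ (X : Type) [NormedAddCommGroup X] [NormedSpace ℝ X]
  (P : X → ℝ → Prop) (M : ℝ), 0 ≤ M →
  (∀ φ ψ c d, P φ c → P ψ d → P (φ + ψ) (c + d)) →
  (∀ (t : ℝ) φ c, P φ c → P (t • φ) (t * c)) → (∀ φ c, P φ c → |c| ≤ M * ‖φ‖) →
  ∃ Λ : X →L[ℝ] ℝ, (∀ φ c, P φ c → Λ φ = c) ∧ ∀ φ, |Λ φ| ≤ M * ‖φ‖

/-- CUTO.  Smooth cut-off away from the origin: `C^2` with values in `[0,1]`, `1` on
`|x| ≥ 1/2`, `0` on `|x| ≤ 1/4`, e.g. `1` minus a `ContDiffBump` (or `Real.smoothTransition`).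
Consequence: for every function `p` which is `C^2` on the complement of `0`,
`x ↦ χ x * p x` is `C^2`. -/
def T_CUTO : Prop := ∀ (n : ℕ) (p : E n → ℝ), ContDiffOn ℝ 2 p {x | x ≠ 0} →
  ∃ f : E n → ℝ, ContDiff ℝ 2 f ∧ ∀ x, 1 / 2 ≤ ‖x‖ → f x = p x

/-- DEN (from CUTO).  Density, with control of the support.  Let `f₀ x = χ x * φ (x / |x|)`
(continuous on `E n`, `χ` as in CUTO) and `C = {x ≠ 0 | x / |x| ∉ U} ∪ {0}`, where `f₀ = 0`.  By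
`exists_contMDiff_forall_mem_convex_of_local_const` (or a smooth partition of unity) there is a
smooth `p : E n → ℝ` with `|p x - f₀ x| < ε` for all `x` and `p x = 0` for `x ∈ C`: locally the
constant `0` works near a point with `|f₀ x| < ε`, and the constant `f₀ x` near a point with
`|f₀ x| ≥ ε` (which has a neighbourhood disjoint from `C`).  Put `ψ = p` restricted to the sphere
and `f` from CUTO for `x ↦ p (x / |x|)`. -/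
def T_DEN : Prop := ∀ (n : ℕ) (φ : C(S n, ℝ)) (U : Set (S n)), IsOpen U →
  (∀ u, u ∉ U → φ u = 0) → ∀ ε : ℝ, 0 < ε → ∃ (f : E n → ℝ) (ψ : C(S n, ℝ)),
  ContDiff ℝ 2 f ∧ Rep f ψ ∧ (∀ u, u ∉ U → ψ u = 0) ∧ ‖φ - ψ‖ ≤ ε

/-- MLS (from SUH, POS, SUB, RHO, SUE).  `rho m (supp K)` is the support function of a body:
`F m (supp K) 1 u v ≥ 0` by POS (`1 * η (· - u) ≥ 0`), so SUB, RHO (1) and SUE apply. -/
def T_MLS : Prop := ∀ (n : ℕ) (δ : ℝ) (m : Moll n δ), 2 ≤ n → ∀ (K : ConvexBody (E n))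
  (u : E n), supp (mol m K) u = rho m (supp K) u

/-- MLP (from MLS, SUA, SUH, SUL, SUD, RHO).  All equalities and inclusions are checked on
support functions. -/
def T_MLP : Prop := ∀ (n : ℕ) (δ : ℝ) (m : Moll n δ), 2 ≤ n →
  (∀ K L : ConvexBody (E n), mol m (K + L) = mol m K + mol m L) ∧
  (∀ (K : ConvexBody (E n)) (t : ℝ), 0 ≤ t → mol m (t • K) = t • mol m K) ∧
  (∀ (K : ConvexBody (E n)) (x : E n), mol m (K + pt x) = mol m K + pt x) ∧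
  ∀ (K : ConvexBody (E n)) (R : ℝ), (K : Set (E n)) ⊆ closedBall 0 R →
    dist (mol m K) K ≤ R * δ ∧ (mol m K : Set (E n)) ⊆ closedBall 0 (R * (1 + δ))

/-- GEX (from RIE, MLS, MLP, FLN, CON, SUB, RHO, SUE, SUL, SUA, SUH, CLB).  Apply RIE to the
compact space `St n` and `P y c := ∃ K L, y = FC m (supp K) 1 - FC m (supp L) 1 ∧
c = μ (mol m K) - μ (mol m L)`.  `P` is closed under sums and (for `t ≥ 0`, and for `t < 0` with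
`K`, `L` exchanged) multiples, as `supp (K + L) = supp K + supp L` etc.  Positivity: if
`FC m (supp K) 1 ≥ FC m (supp L) 1` then for `d = supp K - supp L`, `F m d 1 ≥ 0` on `St n` (FLN),
so `rho m d = rho m (supp K) - rho m (supp L)` is subadditive (SUB), and homogeneous; by SUE it is
`supp N`.  Then `mol m K = mol m L + N` and `μ (mol m K) = μ (mol m L) + μ N ≥ μ (mol m L)`.
Order unit: `K = 2 B`, `B = closedBall 0 1`, `L = 0`: `supp B u = |u|`, and CLB. -/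
def T_GEX : Prop := ∀ (n : ℕ) (δ : ℝ) (m : Moll n δ), 2 ≤ n → ∀ μ : ConvexBody (E n) → ℝ,
  AddF n μ → (∀ K, 0 ≤ μ K) → ∃ g : C(St n, ℝ) →ₗ[ℝ] ℝ, (∀ y, (∀ p, 0 ≤ y p) → 0 ≤ g y) ∧
  ∀ K, g (FC m (supp K) fun _ => 1) = μ (mol m K)

/-- GBD.  A positive linear functional is bounded by its value at `1`: `± y ≤ ‖y‖ 1`. -/
def T_GBD : Prop := ∀ (n : ℕ) (g : C(St n, ℝ) →ₗ[ℝ] ℝ), (∀ y, (∀ p, 0 ≤ y p) → 0 ≤ g y) →
  0 ≤ g 1 ∧ ∀ (y : C(St n, ℝ)) (c : ℝ), (∀ p, |y p| ≤ c) → |g y| ≤ c * g 1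

/-- PSI (from EXT, FMN, FLN, FCG, CON, SUH).  For fixed `K` apply EXT to `X = C(S n, ℝ)`,
`P φ c := ∃ f, ContDiff ℝ 2 f ∧ Rep f φ ∧ c = g (FC m (supp K) f)`,
`M = g (FC m (supp K) 1)`.  Bound: `|f| ≤ ‖φ‖` in the shell, so by FMN
`± FC m (supp K) f ≤ ‖φ‖ • FC m (supp K) 1` (CON: `FC` is given by `F`), and `g` is positive. -/
def T_PSI : Prop := ∀ (n : ℕ) (δ : ℝ) (m : Moll n δ) (g : C(St n, ℝ) →ₗ[ℝ] ℝ),
  (∀ y, (∀ p, 0 ≤ y p) → 0 ≤ g y) → ∃ Ψ : ConvexBody (E n) → (C(S n, ℝ) →L[ℝ] ℝ),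
  PsiF m g Ψ ∧ PsiB m g Ψ

/-- PCT (from DEN, FBD, FLN, CON, GBD, SUD, SUH).  If `φ` is represented by a `C^2` function `f`:
`|Ψ K φ - Ψ L φ| = |g (FC m (supp K - supp L) f)| ≤ g 1 * C * 2 dist K L` (FBD, and
`|supp K - supp L| ≤ 2 dist K L` on `|x| ≤ 2`).  For general `φ` take such a `ψ` with
`‖φ - ψ‖ ≤ ε` (DEN with `U = univ`); `|Ψ L (φ - ψ)| ≤ g (FC m (supp L) 1) ε` and
`g (FC m (supp L) 1)` is bounded for `L` near `K` (FBD with `f = 1`, `H = 2 R`). -/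
def T_PCT : Prop := ∀ (n : ℕ) (δ : ℝ) (m : Moll n δ) (g : C(St n, ℝ) →ₗ[ℝ] ℝ),
  (∀ y, (∀ p, 0 ≤ y p) → 0 ≤ g y) → ∀ Ψ : ConvexBody (E n) → (C(S n, ℝ) →L[ℝ] ℝ),
  PsiF m g Ψ → PsiB m g Ψ → ∀ φ : C(S n, ℝ), Continuous fun K => Ψ K φ

/-- PLO (from DEN, FLO, CON, SUH).  If `φ` vanishes outside `U` and is represented by a `C^2`
function `f`, then FLO for the open cone `W = {x ≠ 0 | x / |x| ∈ U}` gives
`FC m (supp K) f = FC m (supp L) f` (`supp` is homogeneous).  In general approximate `φ` by such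
functions (DEN); `Ψ K` and `Ψ L` are continuous. -/
def T_PLO : Prop := ∀ (n : ℕ) (δ : ℝ) (m : Moll n δ) (g : C(St n, ℝ) →ₗ[ℝ] ℝ),
  (∀ y, (∀ p, 0 ≤ y p) → 0 ≤ g y) → ∀ Ψ : ConvexBody (E n) → (C(S n, ℝ) →L[ℝ] ℝ),
  PsiF m g Ψ → PsiB m g Ψ → ∀ (K L : ConvexBody (E n)) (U : Set (S n)), IsOpen U →
    (∀ u ∈ U, supp K (u : E n) = supp L (u : E n)) →
    ∀ φ : C(S n, ℝ), (∀ u, u ∉ U → φ u = 0) → Ψ K φ = Ψ L φ

/-- PTH (from DEN, LIN, FLN, CON, SUA, SUH).  Translation invariance and homogeneity, first for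
`φ` represented by a `C^2` function `f`: `F m (supp (K + pt x)) f = F m (supp K) f +
F m ⟨x, ·⟩ f` and the last term is zero by LIN (`f * η (· - u)` has compact support); then by
density (DEN). -/
def T_PTH : Prop := ∀ (n : ℕ) (δ : ℝ) (m : Moll n δ) (g : C(St n, ℝ) →ₗ[ℝ] ℝ),
  (∀ y, (∀ p, 0 ≤ y p) → 0 ≤ g y) → ∀ Ψ : ConvexBody (E n) → (C(S n, ℝ) →L[ℝ] ℝ),
  PsiF m g Ψ → PsiB m g Ψ → (∀ (K : ConvexBody (E n)) (x : E n), Ψ (K + pt x) = Ψ K) ∧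
  ∀ (K : ConvexBody (E n)) (t : ℝ), 0 ≤ t → Ψ (t • K) = t • Ψ K

/-! ### the action of `GL(n)` -/

/-- ACT.  The action is a left action and linear, with bounds. `(A B)^T = B^T A^T`. -/
def T_ACT : Prop := ∀ n : ℕ,
  (∀ (A B : (E n →L[ℝ] E n)ˣ) (φ : C(S n, ℝ)), act (A * B) φ = act A (act B φ)) ∧
  (∀ (A B : (E n →L[ℝ] E n)ˣ) (K : ConvexBody (E n)),
    mapB ((A * B : (E n →L[ℝ] E n)ˣ) : E n →L[ℝ] E n) K =
      mapB (A : E n →L[ℝ] E n) (mapB (B : E n →L[ℝ] E n) K)) ∧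
  (∀ (A : (E n →L[ℝ] E n)ˣ) (φ ψ : C(S n, ℝ)) (t : ℝ),
    act A (φ + ψ) = act A φ + act A ψ ∧ act A (t • φ) = t • act A φ) ∧
  (∀ (A : (E n →L[ℝ] E n)ˣ) (φ : C(S n, ℝ)), ‖act A φ‖ ≤ ‖(A : E n →L[ℝ] E n)‖ * ‖φ‖) ∧
  ∀ (A : (E n →L[ℝ] E n)ˣ) (K : ConvexBody (E n)) (R : ℝ), (K : Set (E n)) ⊆ closedBall 0 R →
    (mapB (A : E n →L[ℝ] E n) K : Set (E n)) ⊆ closedBall 0 (‖(A : E n →L[ℝ] E n)‖ * R)

/-- CHV.  Change of variables.  With `b' y = b (M⁻¹ y)` one has `b x = b' (M x)`, so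
`D2 b x v w = D2 b' (M x) (M v) (M w)` (chain rule with a linear map), and
`∫ k (M x) dx = |det M|⁻¹ ∫ k`. -/
def T_CHV : Prop := ∀ (n : ℕ) (M : (E n →L[ℝ] E n)ˣ) (h b : E n → ℝ), Continuous h →
  ContDiff ℝ 2 b → (∃ R : ℝ, ∀ x, R ≤ ‖x‖ → b x = 0) → ∀ v w : E n,
  Dh (fun x => h ((M : E n →L[ℝ] E n) x)) b v w = |(M : E n →L[ℝ] E n).det|⁻¹ *
    Dh h (fun y => b (((M⁻¹ : (E n →L[ℝ] E n)ˣ) : E n →L[ℝ] E n) y))
      ((M : E n →L[ℝ] E n) v) ((M : E n →L[ℝ] E n) w)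

/-- GLS.  If `M` is close to `1` then `|M⁻¹ y - y| ≤ ‖M⁻¹ - 1‖ |y|`, so both terms vanish unless
`|y| ≤ 2` and `|y| ≥ 1/4`; there `|y|/|M⁻¹ y|` and `|det M|⁻¹` are close to `1` and `κ` is
uniformly continuous and bounded. -/
def T_GLS : Prop := ∀ (n : ℕ) (κ : E n → ℝ) (δ : ℝ), Continuous κ → δ < 1 / 2 →
  (∀ y, δ ≤ ‖y‖ → κ y = 0) → ∀ ε : ℝ, 0 < ε → ∀ᶠ M : (E n →L[ℝ] E n)ˣ in 𝓝 1,
  ∀ u : E n, ‖u‖ = 1 → ∀ y : E n, |‖y‖ / ‖((M⁻¹ : (E n →L[ℝ] E n)ˣ) : E n →L[ℝ] E n) y‖ *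
    |(M : E n →L[ℝ] E n).det|⁻¹ *
    κ (((M⁻¹ : (E n →L[ℝ] E n)ˣ) : E n →L[ℝ] E n) y - u) - κ (y - u)| ≤ ε

/-- GLE (from CHV, GLS, DBD, DHL, FCG).  For `M` near `1` put
`b x = f' x * η (x - u)`; it vanishes unless `|x - u| < δ`, and then `f' x = |M x|/|x| f (M x)`
(also near `x`).  CHV: the first term of `F m (h ∘ M) f' u v` is
`|det M|⁻¹ Dh h (b ∘ M⁻¹) (M v) (M v) = Dh h (fun y => f y * κ_M y) (M v) (M v)`,
`κ_M y = |det M|⁻¹ |y|/|M⁻¹ y| η (M⁻¹ y - u)`.  Compare with `Dh h (fun y => f y * η (y - u)) v v`: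
by DBD the difference is at most `C H β sup |κ_M - η (· - u)| |M v|^2` (GLS) plus
`|Dh h (f η(· - u)) (M v - v) (M v + v)| ≤ C H β sup |η| |M v - v| |M v + v|`.  (All functions
vanish outside `|y| ≤ 2`, and `|f| ≤ β` where they do not vanish, `M` being near `1`; the
functions `f * κ_M`, extended by `0`, are `C^2` because `b ∘ M⁻¹` is.)  Same for the terms with
`θ`. -/
def T_GLE : Prop := ∀ (n : ℕ) (δ : ℝ) (m : Moll n δ) (ε : ℝ), 0 < ε →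
  ∀ᶠ M : (E n →L[ℝ] E n)ˣ in 𝓝 1, ∀ h : E n → ℝ, ConvexOn ℝ univ h → Continuous h →
  ∀ H : ℝ, (∀ x, ‖x‖ ≤ 3 → |h x| ≤ H) → ∀ (f f' : E n → ℝ) (β : ℝ), ContDiff ℝ 2 f →
  ContDiff ℝ 2 f' → (∀ x, 1 / 2 < ‖x‖ → ‖x‖ < 2 → |f x| ≤ β) →
  (∀ x, 3 / 4 - δ / 2 < ‖x‖ → ‖x‖ < 5 / 4 + δ / 2 →
    f' x = ‖(M : E n →L[ℝ] E n) x‖ / ‖x‖ * f ((M : E n →L[ℝ] E n) x)) →
  ∀ u v : E n, ‖u‖ = 1 → ‖v‖ = 1 →
  |F m (fun x => h ((M : E n →L[ℝ] E n) x)) f' u v - F m h f u v| ≤ ε * H * β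

/-- SMA (from CUTO).  `act A φ (x / |x|) = |A^T x|/|x| f (A^T x / |A^T x|)` is `C^2` for `x ≠ 0`
(`A^T x ≠ 0`). -/
def T_SMA : Prop := ∀ (n : ℕ) (A : (E n →L[ℝ] E n)ˣ) (φ : C(S n, ℝ)) (f : E n → ℝ),
  ContDiff ℝ 2 f → Rep f φ → ∃ f' : E n → ℝ, ContDiff ℝ 2 f' ∧ Rep f' (act A φ)

/-- GLR.  With `u = x / |x|`: `f' x = act A φ u = |A^T u| φ (A^T u / |A^T u|)
= |A^T x|/|x| f (A^T x)` as `1/2 < |A^T x| < 2`. -/
def T_GLR : Prop := ∀ (n : ℕ) (A : (E n →L[ℝ] E n)ˣ) (φ : C(S n, ℝ)) (f f' : E n → ℝ),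
  Rep f φ → Rep f' (act A φ) → ∀ x : E n, 1 / 2 < ‖x‖ → ‖x‖ < 2 →
  1 / 2 < ‖ContinuousLinearMap.adjoint (A : E n →L[ℝ] E n) x‖ →
  ‖ContinuousLinearMap.adjoint (A : E n →L[ℝ] E n) x‖ < 2 →
  f' x = ‖ContinuousLinearMap.adjoint (A : E n →L[ℝ] E n) x‖ / ‖x‖ *
    f (ContinuousLinearMap.adjoint (A : E n →L[ℝ] E n) x)

/-- GL1 (from GLE, SMA, GLR, DEN, ACT, SUA, SUH, GBD, CON, FBD).  Let `M = A^T` (a unit, `→ 1` as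
`A → 1`).  First let `φ` be represented by a `C^2` function `f`, and `act A φ` by `f'` (SMA):
`|Ψ (A K) (act A φ) - Ψ K φ| = |g (FC m (supp K ∘ M) f' - FC m (supp K) f)| ≤ ε' (3 R) R g 1` by
GLE (`supp (A K) = supp K ∘ A^T`; `|supp K| ≤ 3 R` on `|x| ≤ 3`, `β = ‖φ‖ ≤ R`; GLR gives the
relation between `f'` and `f` for `3/4 - δ/2 < |x| < 5/4 + δ/2` and `A` near `1`).  The bound does
not depend on `φ`.  General `φ`: approximate by such functions (DEN); for fixed `A`, `K` both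
sides are continuous in `φ` (ACT, PsiB). -/
def T_GL1 : Prop := ∀ (n : ℕ) (δ : ℝ) (m : Moll n δ) (g : C(St n, ℝ) →ₗ[ℝ] ℝ),
  (∀ y, (∀ p, 0 ≤ y p) → 0 ≤ g y) → ∀ Ψ : ConvexBody (E n) → (C(S n, ℝ) →L[ℝ] ℝ),
  PsiF m g Ψ → PsiB m g Ψ → ∀ R ε : ℝ, 0 < ε → ∀ᶠ A : (E n →L[ℝ] E n)ˣ in 𝓝 1,
  ∀ K : ConvexBody (E n), (K : Set (E n)) ⊆ closedBall 0 R → ∀ φ : C(S n, ℝ), ‖φ‖ ≤ R →
  |Ψ (mapB (A : E n →L[ℝ] E n) K) (act A φ) - Ψ K φ| ≤ ε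

/-- PGL (from ACT).  `A = A' A₀` with `A' = A A₀⁻¹ → 1` as `A → A₀`;
`Ψ (A K) (act A φ) = Ψ (A' (A₀ K)) (act A' (act A₀ φ))`, with `A₀ K ⊆ closedBall 0 ‖A₀‖`,
`‖act A₀ φ‖ ≤ ‖A₀‖`. -/
def T_PGL : Prop := ∀ (n : ℕ) (Ψ : ConvexBody (E n) → (C(S n, ℝ) →L[ℝ] ℝ)),
  (∀ R ε : ℝ, 0 < ε → ∀ᶠ A : (E n →L[ℝ] E n)ˣ in 𝓝 1,
    ∀ K : ConvexBody (E n), (K : Set (E n)) ⊆ closedBall 0 R → ∀ φ : C(S n, ℝ), ‖φ‖ ≤ R →
    |Ψ (mapB (A : E n →L[ℝ] E n) K) (act A φ) - Ψ K φ| ≤ ε) →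
  ∀ A₀ : (E n →L[ℝ] E n)ˣ, ∀ ε : ℝ, 0 < ε → ∀ᶠ A : (E n →L[ℝ] E n)ˣ in 𝓝 A₀,
    ∀ K : ConvexBody (E n), (K : Set (E n)) ⊆ closedBall 0 1 → ∀ φ : C(S n, ℝ), ‖φ‖ ≤ 1 →
    |Ψ (mapB (A : E n →L[ℝ] E n) K) (act A φ) -
      Ψ (mapB (A₀ : E n →L[ℝ] E n) K) (act A₀ φ)| ≤ ε

/-! ### assembly -/

/-- NRM (from CTA or SUD).  Boundedness.  By continuity at `0` (`μ 0 = 0`) there is `r > 0` with
`|μ K| ≤ 1` if `dist K 0 ≤ r`, in particular for `K ⊆ closedBall 0 r`; by homogeneity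
`|μ K| ≤ 1/r` for `K ⊆ closedBall 0 1`. -/
def T_NRM : Prop := ∀ (n : ℕ) (μ : ConvexBody (E n) → ℝ), AddF n μ →
  ∃ M : ℝ, ∀ K : ConvexBody (E n), (K : Set (E n)) ⊆ closedBall 0 1 → |μ K| ≤ M

/-- WID (from SUA, SUH, SUD).  `W K = ∑ i, (supp K e_i + supp K (-e_i))`.  If
`c_i = (supp K e_i - supp K (-e_i))/2` then `|x_i - c_i| ≤ w_i/2` for `x ∈ K`,
`w_i = supp K e_i + supp K (-e_i) ≥ 0`, so `K - c ⊆ closedBall 0 (W K)`; hence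
`|μ K| = |μ (K - c)| ≤ (W K) M` by homogeneity if `W K > 0`; if `W K = 0`, `K = {c}` and
`μ K = μ 0 = 0`. -/
def T_WID : Prop := ∀ n : ℕ, ∃ W : ConvexBody (E n) → ℝ, AddF n W ∧ (∀ K, 0 ≤ W K) ∧
  (∀ K : ConvexBody (E n), (K : Set (E n)) ⊆ closedBall 0 1 → W K ≤ 2 * n) ∧
  ∀ (μ : ConvexBody (E n) → ℝ) (M : ℝ), AddF n μ →
    (∀ K : ConvexBody (E n), (K : Set (E n)) ⊆ closedBall 0 1 → |μ K| ≤ M) →
    ∀ K, |μ K| ≤ M * W K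

/-- UCO (from BLA).  Uniform continuity on the compact set of BLA. -/
def T_UCO : Prop := ∀ (n : ℕ) (μ : ConvexBody (E n) → ℝ), Continuous μ → ∀ R ε : ℝ, 0 < ε →
  ∃ η : ℝ, 0 < η ∧ ∀ K L : ConvexBody (E n), (K : Set (E n)) ⊆ closedBall 0 R →
    (L : Set (E n)) ⊆ closedBall 0 R → dist K L ≤ η → |μ K - μ L| ≤ ε

/-- PSX (from GEX, PSI, PCT, PLO, PTH, GL1, PGL).  Area measures for nonnegative additive
functionals. The constant function `1` is represented by `f = 1`. -/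
def T_PSX : Prop := ∀ (n : ℕ) (δ : ℝ) (m : Moll n δ), 2 ≤ n → ∀ μ : ConvexBody (E n) → ℝ,
  AddF n μ → (∀ K, 0 ≤ μ K) → ∃ Ψ : ConvexBody (E n) → (C(S n, ℝ) →L[ℝ] ℝ), Good n Ψ ∧
  (∀ K φ, |Ψ K φ| ≤ μ (mol m K) * ‖φ‖) ∧ ∀ K, Ψ K 1 = μ (mol m K)

/-- APX (from PSX, MOL, MLP, WID, UCO, NRM).  Let `|μ| ≤ M` on bodies in the unit ball, `W` from
WID, `μ₁ = μ + M W ≥ 0`.  Choose `δ < 1/2` so small that `|μ K - μ L| ≤ ε` for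
`K, L ⊆ closedBall 0 2` with `dist K L ≤ δ` (UCO), a mollifier `m` (MOL), `Ψ₁` from PSX for `μ₁`,
`Ψ₂` from PSX for `M W`, `Ψ = Ψ₁ - Ψ₂` (differences of `Good` maps are `Good`).  Then
`Ψ K 1 = μ (mol m K)`, and for `K ⊆ closedBall 0 1`, `mol m K ⊆ closedBall 0 (1 + δ)`,
`dist (mol m K) K ≤ δ`, `|Ψ K φ| ≤ (μ (mol m K) + 2 M W (mol m K)) ‖φ‖ ≤ C M ‖φ‖` with
`C = 2 + 8 n` (homogeneity: `mol m K ⊆ closedBall 0 2`).  `AddF` of `K ↦ Ψ K 1 = μ (mol m K)`: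
continuity from `Good`, the rest from MLP.  (`M ≥ 0` since `K = 0` is admissible.) -/
def T_APX : Prop := ∀ n : ℕ, 2 ≤ n → ∃ C : ℝ, 0 ≤ C ∧ ∀ (μ : ConvexBody (E n) → ℝ) (M : ℝ),
  AddF n μ → (∀ K : ConvexBody (E n), (K : Set (E n)) ⊆ closedBall 0 1 → |μ K| ≤ M) →
  ∀ ε : ℝ, 0 < ε → ∃ Ψ : ConvexBody (E n) → (C(S n, ℝ) →L[ℝ] ℝ), Good n Ψ ∧
  (∀ K : ConvexBody (E n), (K : Set (E n)) ⊆ closedBall 0 1 → ∀ φ, |Ψ K φ| ≤ C * M * ‖φ‖) ∧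
  AddF n (fun K => Ψ K 1) ∧
  ∀ K : ConvexBody (E n), (K : Set (E n)) ⊆ closedBall 0 1 → |μ K - Ψ K 1| ≤ ε

/-- ITR (from APX, NRM).  Let `|μ| ≤ M` on bodies in the unit ball, `M > 0`.  By induction choose
`Ψ_j` good with `|μ_j - Ψ_j (·) 1| ≤ M 2^(-j-1)` and `‖Ψ_j‖ ≤ C M 2^(-j)` on bodies in the unit
ball, where `μ_0 = μ`, `μ_(j+1) = μ_j - Ψ_j (·) 1` (in `AddF`, bounded by `M 2^(-j-1)`).  By
homogeneity `|Ψ_j K φ| ≤ R C M 2^(-j) ‖φ‖` for `K ⊆ closedBall 0 R`, `R > 0`.  So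
`Ψ K = ∑ j, Ψ_j K` converges in norm, uniformly on bodies in bounded sets; all properties in
`Good` pass to the sum (continuity: uniform limit of continuous functions near every `K`; for `gl`
note `A K ⊆ closedBall 0 (‖A₀‖ + 1)`, `‖act A φ‖ ≤ ‖A₀‖ + 1` for `A` near `A₀`, treat the tail by
this bound and the finitely many other terms by their `gl`), and
`Ψ K 1 = ∑ (μ_j K - μ_(j+1) K) = μ K` (telescoping, `μ_j K → 0` by homogeneity). -/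
def T_ITR : Prop := ∀ n : ℕ, 2 ≤ n → ∀ μ : ConvexBody (E n) → ℝ, AddF n μ →
  ∃ Ψ : ConvexBody (E n) → (C(S n, ℝ) →L[ℝ] ℝ), Good n Ψ ∧ ∀ K, Ψ K 1 = μ K

/-- the final theorem -/
def T_FIN : Prop := ∀ n : ℕ, 2 ≤ n → ∀ μ : ConvexBody (E n) → ℂ, IsVal n 1 μ →
  ∃ Ψ : ConvexBody (E n) → (C(S n, ℂ) →L[ℂ] ℂ), IsArea n 1 Ψ ∧ StrongGL Ψ ∧
  ∀ K, Ψ K 1 = μ K

/-- CPX.  Complexification.  `Re μ` and `Im μ` are in `RVal`, so in `AddF` (MCC); let `Ψ_R`,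
`Ψ_I` be the good maps of ITR for them and put
`Ψ K φ = Ψ_R K (Re φ) - Ψ_I K (Im φ) + i (Ψ_R K (Im φ) + Ψ_I K (Re φ))`, which is complex
linear and continuous in `φ`.  `Re (act g φ) = act g (Re φ)`, `‖Re φ‖ ≤ ‖φ‖`; `StrongGL` is `gl` at
`A₀ = g₀⁻¹`, by continuity of `g ↦ g⁻¹` on the units. -/
def T_CPX : Prop := T_MCC → T_ITR → T_FIN

end Pool.Agent.GLB
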